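import Mathlib

/-! Planar set-up for the lower bound of the number of affine classes (`d = 2`). -/

namespace Pool.Agent.Lib.MP_b430f2_co.Plane

open Finset

/-- Invertible affine maps of the plane, `(x, y) ↦ (a x + b y + e, c x + d y + f)`. -/
@[ext] structure Aff where
  a : ℝ
  b : ℝ
  c : ℝ
  d : ℝ
  e : ℝ
  f : ℝ
  det : a * d - b * c ≠ 0

/-- The image of a point. -/
def Aff.app (T : Aff) (p : ℝ × ℝ) : ℝ × ℝ :=
  (T.a * p.1 + T.b * p.2 + T.e, T.c * p.1 + T.d * p.2 + T.f)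

/-- `p` lies on the (non-vertical) line `y = L.1 * x + L.2`. -/
def OnL (L p : ℝ × ℝ) : Prop := p.2 = L.1 * p.1 + L.2

open Classical in
/-- The points of `P` lying on `L`. -/
noncomputable def lineP (P : Finset (ℝ × ℝ)) (L : ℝ × ℝ) : Finset (ℝ × ℝ) :=
  P.filter (fun p => OnL L p)

open Classical in
/-- The points of `P` whose image under `T` lies in `P`. -/
noncomputable def dom (P : Finset (ℝ × ℝ)) (T : Aff) : Finset (ℝ × ℝ) :=
  P.filter (fun p => T.app p ∈ P)

open Classical in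
/-- `T` maps at least `u` points of `P` off the line `L` into `P`, for every line `L`. -/
def ND (P : Finset (ℝ × ℝ)) (u : ℕ) (T : Aff) : Prop :=
  ∀ L : ℝ × ℝ, u ≤ ((dom P T).filter (fun p => ¬ OnL L p)).card

/-- The map `(c, x) ↦ (α c + β, γ x + s c + t)`, `g = (α, β, γ, s, t)`. -/
def pmap (g : ℝ × ℝ × ℝ × ℝ × ℝ) (p : ℝ × ℝ) : ℝ × ℝ :=
  (g.1 * p.1 + g.2.1, g.2.2.1 * p.2 + g.2.2.2.1 * p.1 + g.2.2.2.2)

open Classical in
/-- Affine equivalence of finite subsets of the plane. -/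
def PEquiv (A B : Finset (ℝ × ℝ)) : Prop := ∃ T : Aff, A.image T.app = B

/-- The number of classes of `k`-point subsets of `Q`. -/
noncomputable def planeClasses (k : ℕ) (Q : Finset (ℝ × ℝ)) : ℕ :=
  Set.ncard {c : Set (Finset (ℝ × ℝ)) |
    ∃ A : Finset (ℝ × ℝ), A ⊆ Q ∧ A.card = k ∧ c = {B | PEquiv A B}}

end Pool.Agent.Lib.MP_b430f2_co.Plane
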