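import Mathlib
import Pool.Agent.Lib.MP_b430f2_co.Plane.Defs

/-! Basic facts about affine maps of the plane and non-vertical lines. -/

namespace Pool.Agent.Lib.MP_b430f2_co.Plane

open Finset

theorem mem_lineP {P : Finset (ℝ × ℝ)} {L p : ℝ × ℝ} : p ∈ lineP P L ↔ p ∈ P ∧ OnL L p := by
  simp [lineP]

theorem mem_dom {P : Finset (ℝ × ℝ)} {T : Aff} {p : ℝ × ℝ} :
    p ∈ dom P T ↔ p ∈ P ∧ T.app p ∈ P := by
  simp [dom]

/-- Non-collinearity. -/
def NCol (p q r : ℝ × ℝ) : Prop := (q.1 - p.1) * (r.2 - p.2) ≠ (q.2 - p.2) * (r.1 - p.1)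

theorem Aff.ext_of_ncol {T T' : Aff} {p q r : ℝ × ℝ} (h : NCol p q r)
    (hp : T.app p = T'.app p) (hq : T.app q = T'.app q) (hr : T.app r = T'.app r) : T = T' := by
  unfold NCol at h
  simp only [Aff.app, Prod.mk.injEq] at hp hq hr
  obtain ⟨hp1, hp2⟩ := hp
  obtain ⟨hq1, hq2⟩ := hq
  obtain ⟨hr1, hr2⟩ := hr
  have hD : (q.1 - p.1) * (r.2 - p.2) - (q.2 - p.2) * (r.1 - p.1) ≠ 0 := sub_ne_zero.2 h
  have ha : T.a = T'.a := by
    have : ((q.1 - p.1) * (r.2 - p.2) - (q.2 - p.2) * (r.1 - p.1)) * (T.a - T'.a) = 0 := by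
      linear_combination (r.2 - p.2) * (hq1 - hp1) - (q.2 - p.2) * (hr1 - hp1)
    rcases mul_eq_zero.1 this with h' | h'
    · exact absurd h' hD
    · linarith
  have hb : T.b = T'.b := by
    have : ((q.1 - p.1) * (r.2 - p.2) - (q.2 - p.2) * (r.1 - p.1)) * (T.b - T'.b) = 0 := by
      linear_combination (q.1 - p.1) * (hr1 - hp1) - (r.1 - p.1) * (hq1 - hp1)
    rcases mul_eq_zero.1 this with h' | h'
    · exact absurd h' hD
    · linarith
  have hc : T.c = T'.c := by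
    have : ((q.1 - p.1) * (r.2 - p.2) - (q.2 - p.2) * (r.1 - p.1)) * (T.c - T'.c) = 0 := by
      linear_combination (r.2 - p.2) * (hq2 - hp2) - (q.2 - p.2) * (hr2 - hp2)
    rcases mul_eq_zero.1 this with h' | h'
    · exact absurd h' hD
    · linarith
  have hd : T.d = T'.d := by
    have : ((q.1 - p.1) * (r.2 - p.2) - (q.2 - p.2) * (r.1 - p.1)) * (T.d - T'.d) = 0 := by
      linear_combination (q.1 - p.1) * (hr2 - hp2) - (r.1 - p.1) * (hq2 - hp2)
    rcases mul_eq_zero.1 this with h' | h'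
    · exact absurd h' hD
    · linarith
  have he : T.e = T'.e := by rw [ha, hb] at hp1; linarith
  have hf : T.f = T'.f := by rw [hc, hd] at hp2; linarith
  exact Aff.ext ha hb hc hd he hf

theorem Aff.app_injective (T : Aff) : Function.Injective T.app := by
  intro p q h
  simp only [Aff.app, Prod.mk.injEq] at h
  obtain ⟨h1, h2⟩ := h
  have hdet := T.det
  have hx : p.1 = q.1 := by
    have : (T.a * T.d - T.b * T.c) * (p.1 - q.1) = 0 := by
      linear_combination T.d * h1 - T.b * h2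
    rcases mul_eq_zero.1 this with h' | h'
    · exact absurd h' hdet
    · linarith
  have hy : p.2 = q.2 := by
    have : (T.a * T.d - T.b * T.c) * (p.2 - q.2) = 0 := by
      linear_combination T.a * h2 - T.c * h1
    rcases mul_eq_zero.1 this with h' | h'
    · exact absurd h' hdet
    · linarith
  exact Prod.ext hx hy

/-- The inverse map. -/
noncomputable def Aff.inv (T : Aff) : Aff where
  a := T.d / (T.a * T.d - T.b * T.c)
  b := -T.b / (T.a * T.d - T.b * T.c)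
  c := -T.c / (T.a * T.d - T.b * T.c)
  d := T.a / (T.a * T.d - T.b * T.c)
  e := (T.b * T.f - T.d * T.e) / (T.a * T.d - T.b * T.c)
  f := (T.c * T.e - T.a * T.f) / (T.a * T.d - T.b * T.c)
  det := by
    have h := T.det
    have : T.d / (T.a * T.d - T.b * T.c) * (T.a / (T.a * T.d - T.b * T.c)) -
        -T.b / (T.a * T.d - T.b * T.c) * (-T.c / (T.a * T.d - T.b * T.c)) =
        1 / (T.a * T.d - T.b * T.c) := by
      field_simp
    rw [this]
    exact one_div_ne_zero h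

theorem Aff.app_inv (T : Aff) (p : ℝ × ℝ) : T.app (T.inv.app p) = p := by
  have h := T.det
  obtain ⟨D, hD⟩ : ∃ D, D = T.a * T.d - T.b * T.c := ⟨_, rfl⟩
  have hD0 : D ≠ 0 := by rw [hD]; exact h
  apply Prod.ext
  · simp only [Aff.app, Aff.inv]
    rw [← hD]
    have : T.a * (T.d / D * p.1 + -T.b / D * p.2 + (T.b * T.f - T.d * T.e) / D) +
        T.b * (-T.c / D * p.1 + T.a / D * p.2 + (T.c * T.e - T.a * T.f) / D) + T.e =
        ((T.a * T.d - T.b * T.c) / D) * p.1 + (1 - (T.a * T.d - T.b * T.c) / D) * T.e := by ring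
    rw [this, ← hD, div_self hD0]; ring
  · simp only [Aff.app, Aff.inv]
    rw [← hD]
    have : T.c * (T.d / D * p.1 + -T.b / D * p.2 + (T.b * T.f - T.d * T.e) / D) +
        T.d * (-T.c / D * p.1 + T.a / D * p.2 + (T.c * T.e - T.a * T.f) / D) + T.f =
        ((T.a * T.d - T.b * T.c) / D) * p.2 + (1 - (T.a * T.d - T.b * T.c) / D) * T.f := by ring
    rw [this, ← hD, div_self hD0]; ring

theorem Aff.inv_app (T : Aff) (p : ℝ × ℝ) : T.inv.app (T.app p) = p :=
  T.app_injective (T.app_inv _)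

/-- Composition: `T.comp S = T ∘ S`. -/
def Aff.comp (T S : Aff) : Aff where
  a := T.a * S.a + T.b * S.c
  b := T.a * S.b + T.b * S.d
  c := T.c * S.a + T.d * S.c
  d := T.c * S.b + T.d * S.d
  e := T.a * S.e + T.b * S.f + T.e
  f := T.c * S.e + T.d * S.f + T.f
  det := by
    have h : (T.a * S.a + T.b * S.c) * (T.c * S.b + T.d * S.d) -
        (T.a * S.b + T.b * S.d) * (T.c * S.a + T.d * S.c) =
        (T.a * T.d - T.b * T.c) * (S.a * S.d - S.b * S.c) := by ring
    rw [h]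
    exact mul_ne_zero T.det S.det

theorem Aff.comp_app (T S : Aff) (p : ℝ × ℝ) : (T.comp S).app p = T.app (S.app p) := by
  apply Prod.ext
  · simp only [Aff.app, Aff.comp]; ring
  · simp only [Aff.app, Aff.comp]; ring

/-- The line through two points with distinct abscissae. -/
noncomputable def thr (p q : ℝ × ℝ) : ℝ × ℝ :=
  ((q.2 - p.2) / (q.1 - p.1), p.2 - (q.2 - p.2) / (q.1 - p.1) * p.1)

theorem thr_left (p q : ℝ × ℝ) : OnL (thr p q) p := by
  simp only [OnL, thr]; ring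

theorem thr_right {p q : ℝ × ℝ} (h : p.1 ≠ q.1) : OnL (thr p q) q := by
  have : q.1 - p.1 ≠ 0 := sub_ne_zero.2 (Ne.symm h)
  simp only [OnL, thr]
  field_simp
  ring

theorem OnL.eq_of_two {L L' p q : ℝ × ℝ} (hpq : p.1 ≠ q.1) (h1 : OnL L p) (h2 : OnL L q)
    (h3 : OnL L' p) (h4 : OnL L' q) : L = L' := by
  unfold OnL at h1 h2 h3 h4
  have hs : L.1 = L'.1 := by
    have : (L.1 - L'.1) * (p.1 - q.1) = 0 := by linarith
    rcases mul_eq_zero.1 this with h | h
    · linarith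
    · exact absurd (by linarith) hpq
  exact Prod.ext hs (by rw [hs] at h1; linarith)

theorem OnL.eq_thr {L p q : ℝ × ℝ} (hpq : p.1 ≠ q.1) (h1 : OnL L p) (h2 : OnL L q) :
    L = thr p q :=
  OnL.eq_of_two hpq h1 h2 (thr_left p q) (thr_right hpq)

theorem OnL.fst_ne {L p q : ℝ × ℝ} (hp : OnL L p) (hq : OnL L q) (h : p ≠ q) : p.1 ≠ q.1 := by
  intro h1
  apply h
  unfold OnL at hp hq
  exact Prod.ext h1 (by rw [hp, hq, h1])

/-- Two distinct lines have at most one common point. -/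
theorem OnL.eq_point {L L' p q : ℝ × ℝ} (hL : L ≠ L') (h1 : OnL L p) (h2 : OnL L q)
    (h3 : OnL L' p) (h4 : OnL L' q) : p = q := by
  by_contra h
  exact hL (OnL.eq_of_two (OnL.fst_ne h1 h2 h) h1 h2 h3 h4)

theorem OnL.ncol {L p q r : ℝ × ℝ} (hp : OnL L p) (hq : OnL L q) (hpq : p ≠ q)
    (hr : ¬ OnL L r) : NCol p q r := by
  have h1 := OnL.fst_ne hp hq hpq
  unfold OnL at hp hq hr
  unfold NCol
  intro h
  apply hr
  have h2 : q.2 - p.2 = L.1 * (q.1 - p.1) := by rw [hp, hq]; ring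
  rw [h2] at h
  have h3 : (q.1 - p.1) * (r.2 - p.2 - L.1 * (r.1 - p.1)) = 0 := by linarith
  rcases mul_eq_zero.1 h3 with h4 | h4
  · exact absurd (by linarith) h1
  · rw [hp] at h4; linarith

/-- The image of a line. -/
noncomputable def imgL (T : Aff) (L : ℝ × ℝ) : ℝ × ℝ :=
  ((T.c + T.d * L.1) / (T.a + T.b * L.1),
    T.d * L.2 + T.f - (T.c + T.d * L.1) / (T.a + T.b * L.1) * (T.b * L.2 + T.e))

/-- The image of `L` is not vertical. -/
def Good (T : Aff) (L : ℝ × ℝ) : Prop := T.a + T.b * L.1 ≠ 0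

theorem good_of_two {T : Aff} {L p q : ℝ × ℝ} (hp : OnL L p) (hq : OnL L q)
    (h : (T.app p).1 ≠ (T.app q).1) : Good T L := by
  intro h0
  apply h
  unfold OnL at hp hq
  simp only [Aff.app]
  have : T.a = - (T.b * L.1) := by linarith
  rw [hp, hq, this]
  ring

theorem OnL.img {T : Aff} {L p : ℝ × ℝ} (hG : Good T L) (hp : OnL L p) :
    OnL (imgL T L) (T.app p) := by
  unfold Good at hG
  unfold OnL at hp ⊢
  simp only [Aff.app, imgL]
  rw [hp]
  obtain ⟨D, hD⟩ : ∃ D, D = T.a + T.b * L.1 := ⟨_, rfl⟩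
  rw [← hD] at hG ⊢
  have h1 : (T.c + T.d * L.1) / D * (T.a * p.1 + T.b * (L.1 * p.1 + L.2) + T.e) =
      (T.c + T.d * L.1) * p.1 * (D / D) + (T.c + T.d * L.1) / D * (T.b * L.2 + T.e) := by
    rw [show T.a * p.1 + T.b * (L.1 * p.1 + L.2) + T.e =
      (T.a + T.b * L.1) * p.1 + (T.b * L.2 + T.e) by ring, ← hD]
    ring
  rw [h1, div_self hG]
  ring

theorem OnL.of_img {T : Aff} {L p : ℝ × ℝ} (hG : Good T L) (hp : OnL (imgL T L) (T.app p)) :
    OnL L p := by
  unfold Good at hG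
  unfold OnL at hp ⊢
  simp only [Aff.app, imgL] at hp
  obtain ⟨D, hD⟩ : ∃ D, D = T.a + T.b * L.1 := ⟨_, rfl⟩
  have h1 : (T.c * p.1 + T.d * p.2 + T.f) * (T.a + T.b * L.1) =
      (T.c + T.d * L.1) * (T.a * p.1 + T.b * p.2 + T.e) +
      ((T.d * L.2 + T.f) * (T.a + T.b * L.1) - (T.c + T.d * L.1) * (T.b * L.2 + T.e)) := by
    rw [← hD] at hG hp ⊢
    have h3 : (T.c + T.d * L.1) / D * D = T.c + T.d * L.1 := div_mul_cancel₀ _ hG
    rw [hp]
    linear_combination (T.a * p.1 + T.b * p.2 + T.e - (T.b * L.2 + T.e)) * h3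
  have h2 : (T.a * T.d - T.b * T.c) * (p.2 - (L.1 * p.1 + L.2)) = 0 := by
    linear_combination h1
  rcases mul_eq_zero.1 h2 with h | h
  · exact absurd h T.det
  · linarith

theorem imgL_injective {T : Aff} {L L' : ℝ × ℝ} (hG : Good T L) (hG' : Good T L')
    (h : imgL T L = imgL T L') : L = L' := by
  have h1 : OnL L (0, L.2) := by simp [OnL]
  have h2 : OnL L (1, L.1 + L.2) := by simp [OnL]
  have h3 := OnL.img hG h1
  have h4 := OnL.img hG h2
  rw [h] at h3 h4
  exact OnL.eq_of_two (p := (0, L.2)) (q := (1, L.1 + L.2)) (by norm_num) h1 h2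
    (OnL.of_img hG' h3) (OnL.of_img hG' h4)

theorem imgL_eq {T : Aff} {L L' p q : ℝ × ℝ} (hG : Good T L) (hp : OnL L p) (hq : OnL L q)
    (hpq : p ≠ q) (hp' : OnL L' (T.app p)) (hq' : OnL L' (T.app q)) : imgL T L = L' := by
  have h1 := OnL.img hG hp
  have h2 := OnL.img hG hq
  have h3 : T.app p ≠ T.app q := fun h => hpq (T.app_injective h)
  exact OnL.eq_of_two (OnL.fst_ne h1 h2 h3) h1 h2 hp' hq'

end Pool.Agent.Lib.MP_b430f2_co.Plane
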