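import Mathlib
import Pool.Agent.Lib.MP_b430f2_co.Lower
import Pool.Agent.Lib.MP_b430f2_co.Plane.Defs
import Pool.Agent.Lib.MP_b430f2_co.Plane.Api

/-! Affine maps of the plane as `AffineEquiv`s, and the equivalence relation `PEquiv`. -/

namespace Pool.Agent.Lib.MP_b430f2_co.Plane

open Finset

/-- The linear part of `T`. -/
noncomputable def Aff.lin (T : Aff) : (ℝ × ℝ) ≃ₗ[ℝ] (ℝ × ℝ) where
  toFun p := (T.a * p.1 + T.b * p.2, T.c * p.1 + T.d * p.2)
  map_add' p q := by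
    ext <;> simp <;> ring
  map_smul' r p := by
    ext <;> simp <;> ring
  invFun p := ((T.d * p.1 - T.b * p.2) / (T.a * T.d - T.b * T.c),
    (T.a * p.2 - T.c * p.1) / (T.a * T.d - T.b * T.c))
  left_inv p := by
    have h := T.det
    ext
    · simp only
      rw [div_eq_iff h]
      ring
    · simp only
      rw [div_eq_iff h]
      ring
  right_inv p := by
    have h := T.det
    ext
    · simp only
      rw [mul_div_assoc', mul_div_assoc', ← add_div, div_eq_iff h]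
      ring
    · simp only
      rw [mul_div_assoc', mul_div_assoc', ← add_div, div_eq_iff h]
      ring

/-- `T` as an affine equivalence. -/
noncomputable def Aff.toAE (T : Aff) : (ℝ × ℝ) ≃ᵃ[ℝ] (ℝ × ℝ) :=
  T.lin.toAffineEquiv.trans (AffineEquiv.constVAdd ℝ (ℝ × ℝ) (T.e, T.f))

theorem Aff.toAE_apply (T : Aff) (p : ℝ × ℝ) : T.toAE p = T.app p := by
  simp only [Aff.toAE, AffineEquiv.trans_apply, LinearEquiv.coe_toAffineEquiv,
    AffineEquiv.constVAdd_apply, vadd_eq_add, Aff.lin, LinearEquiv.coe_mk, Aff.app]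
  ext
  · simp only [LinearMap.coe_mk, AddHom.coe_mk, Prod.fst_add]
    ring
  · simp only [LinearMap.coe_mk, AddHom.coe_mk, Prod.snd_add]
    ring

theorem exists_aff (T : (ℝ × ℝ) ≃ᵃ[ℝ] (ℝ × ℝ)) : ∃ S : Aff, ∀ p, S.app p = T p := by
  have h0 : ∀ p, T p = T.linear p + T 0 := by
    intro p
    have := T.map_vadd 0 p
    simpa using this
  have h1 : ∀ p : ℝ × ℝ, T.linear p = p.1 • T.linear (1, 0) + p.2 • T.linear (0, 1) := by
    intro p
    rw [← map_smul, ← map_smul, ← map_add]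
    congr 1
    ext <;> simp
  have hdet : (T.linear (1, 0)).1 * (T.linear (0, 1)).2 -
      (T.linear (0, 1)).1 * (T.linear (1, 0)).2 ≠ 0 := by
    intro hd
    have h2 : T.linear ((T.linear (0, 1)).2, -(T.linear (1, 0)).2) = 0 := by
      rw [h1]
      ext
      · simp only [Prod.fst_add, Prod.smul_fst, smul_eq_mul, Prod.fst_zero]
        linarith
      · simp only [Prod.snd_add, Prod.smul_snd, smul_eq_mul, Prod.snd_zero]
        ring
    have h3 : T.linear ((T.linear (0, 1)).1, -(T.linear (1, 0)).1) = 0 := by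
      rw [h1]
      ext
      · simp only [Prod.fst_add, Prod.smul_fst, smul_eq_mul, Prod.fst_zero]
        ring
      · simp only [Prod.snd_add, Prod.smul_snd, smul_eq_mul, Prod.snd_zero]
        linarith
    rw [LinearEquiv.map_eq_zero_iff] at h2 h3
    have h4 : (T.linear (1, 0)).1 = 0 := by
      have := (Prod.mk.inj h3).2
      linarith
    have h5 : (T.linear (1, 0)).2 = 0 := by
      have := (Prod.mk.inj h2).2
      linarith
    have h6 : T.linear (1, 0) = 0 := Prod.ext h4 h5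
    rw [LinearEquiv.map_eq_zero_iff] at h6
    exact one_ne_zero (Prod.mk.inj h6).1
  refine ⟨⟨(T.linear (1, 0)).1, (T.linear (0, 1)).1, (T.linear (1, 0)).2, (T.linear (0, 1)).2,
    (T 0).1, (T 0).2, hdet⟩, ?_⟩
  intro p
  rw [h0 p, h1 p]
  ext
  · simp only [Aff.app, Prod.fst_add, Prod.smul_fst, smul_eq_mul]
    ring
  · simp only [Aff.app, Prod.snd_add, Prod.smul_snd, smul_eq_mul]
    ring

theorem pequiv_iff {A B : Finset (ℝ × ℝ)} :
    PEquiv A B ↔ ∃ T : (ℝ × ℝ) ≃ᵃ[ℝ] (ℝ × ℝ), T '' (A : Set (ℝ × ℝ)) = B := by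
  classical
  constructor
  · rintro ⟨T, hT⟩
    refine ⟨T.toAE, ?_⟩
    rw [← hT]
    ext p
    simp only [Set.mem_image, Finset.mem_coe, Finset.mem_image, T.toAE_apply]
  · rintro ⟨T, hT⟩
    obtain ⟨S, hS⟩ := exists_aff T
    refine ⟨S, ?_⟩
    ext p
    rw [← Finset.mem_coe (s := B), ← hT]
    simp only [Set.mem_image, Finset.mem_coe, Finset.mem_image, hS]

theorem PEquiv.refl (A : Finset (ℝ × ℝ)) : PEquiv A A :=
  pequiv_iff.2 ⟨AffineEquiv.refl ℝ _, by simp⟩

theorem PEquiv.symm {A B : Finset (ℝ × ℝ)} (h : PEquiv A B) : PEquiv B A := by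
  obtain ⟨T, hT⟩ := pequiv_iff.1 h
  refine pequiv_iff.2 ⟨T.symm, ?_⟩
  rw [← hT, ← Set.image_comp]
  simp

theorem PEquiv.trans {A B C : Finset (ℝ × ℝ)} (h : PEquiv A B) (h' : PEquiv B C) :
    PEquiv A C := by
  obtain ⟨T, hT⟩ := pequiv_iff.1 h
  obtain ⟨S, hS⟩ := pequiv_iff.1 h'
  refine pequiv_iff.2 ⟨T.trans S, ?_⟩
  rw [← hS, ← hT, ← Set.image_comp]
  rfl

theorem PEquiv.card_eq {A B : Finset (ℝ × ℝ)} (h : PEquiv A B) : A.card = B.card := by
  obtain ⟨T, hT⟩ := h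
  rw [← hT, Finset.card_image_of_injective _ T.app_injective]

/-- The class of a finite set of points. -/
def pclass (A : Finset (ℝ × ℝ)) : Set (Finset (ℝ × ℝ)) := {B | PEquiv A B}

theorem pclass_eq_iff {A B : Finset (ℝ × ℝ)} : pclass A = pclass B ↔ PEquiv A B := by
  constructor
  · intro h
    have : B ∈ pclass B := PEquiv.refl B
    rw [← h] at this
    exact this
  · intro h
    ext C
    exact ⟨fun hC => h.symm.trans hC, fun hC => h.trans hC⟩

/-- The set of classes of `k`-subsets of `Q`. -/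
def pclassSet (k : ℕ) (Q : Finset (ℝ × ℝ)) : Set (Set (Finset (ℝ × ℝ))) :=
  {c : Set (Finset (ℝ × ℝ)) |
    ∃ A : Finset (ℝ × ℝ), A ⊆ Q ∧ A.card = k ∧ c = {B | PEquiv A B}}

theorem planeClasses_eq (k : ℕ) (Q : Finset (ℝ × ℝ)) :
    planeClasses k Q = (pclassSet k Q).ncard := rfl

theorem pclassSet_eq_image (k : ℕ) (P : Finset (ℝ × ℝ)) :
    pclassSet k P = pclass '' ((P.powersetCard k : Finset (Finset (ℝ × ℝ))) : Set _) := by
  ext c
  simp only [pclassSet, Set.mem_ofPred_eq, Set.mem_image, Finset.mem_coe, Finset.mem_powersetCard]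
  constructor
  · rintro ⟨A, h1, h2, h3⟩
    exact ⟨A, ⟨h1, h2⟩, h3.symm⟩
  · rintro ⟨A, ⟨h1, h2⟩, h3⟩
    exact ⟨A, h1, h2, h3.symm⟩

theorem pclassSet_finite (k : ℕ) (P : Finset (ℝ × ℝ)) : (pclassSet k P).Finite := by
  rw [pclassSet_eq_image]
  exact (Finset.finite_toSet _).image _

theorem planeClasses_pos {k : ℕ} {P : Finset (ℝ × ℝ)} (h : k ≤ P.card) :
    1 ≤ planeClasses k P := by
  rw [planeClasses_eq]
  obtain ⟨A, hA, hAk⟩ := Finset.exists_subset_card_eq h
  exact (Set.ncard_pos (pclassSet_finite k P)).2 ⟨pclass A, A, hA, hAk, rfl⟩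

theorem planeClasses_mono (k : ℕ) {P Q : Finset (ℝ × ℝ)} (h : P ⊆ Q) :
    planeClasses k P ≤ planeClasses k Q := by
  rw [planeClasses_eq, planeClasses_eq]
  apply Set.ncard_le_ncard _ (pclassSet_finite k Q)
  rintro c ⟨A, h1, h2, h3⟩
  exact ⟨A, h1.trans h, h2, h3⟩

end Pool.Agent.Lib.MP_b430f2_co.Plane
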