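import Mathlib
import Pool.Agent.Lib.MP_b430f2_co.Defs
import Pool.Agent.Lib.MP_b430f2_co.Plane.Defs

/-! The module statements for the planar lower bound. -/

namespace Pool.Agent.Lib.MP_b430f2_co.Plane

open Finset

/-- M0. Rich affine maps between two finite sets of reals (Cartesian Szemerédi-Trotter). -/
def LineStmt : Prop := ∃ C : ℕ, ∀ (X Y : Finset ℝ) (𝓖 : Finset (ℝ × ℝ)) (m : ℕ), 2 ≤ m →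
  (∀ g ∈ 𝓖, g.1 ≠ 0 ∧ m ≤ (X.filter (fun x => g.1 * x + g.2 ∈ Y)).card) →
  m ^ 3 * 𝓖.card ≤ C * (X.card + Y.card) ^ 4

/-- M1a. Two-layer crossing lemma. -/
def CrossStmt : Prop := ∃ C : ℕ, ∀ (E : Finset (ℝ × ℝ)) (M : ℕ),
  (E.image Prod.fst).card ≤ M → (E.image Prod.snd).card ≤ M →
  E.card ^ 3 ≤ C * (M ^ 2 *
    ((E ×ˢ E).filter (fun pq => pq.1.1 < pq.2.1 ∧ pq.2.2 < pq.1.2)).card + M ^ 3)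

/-- M1b. Lines that meet many columns. -/
def ColStmt : Prop := ∃ C : ℕ, ∀ (I : Finset ℝ) (D : ℝ → Finset ℝ) (𝓛 : Finset (ℝ × ℝ)) (ρ : ℕ),
  2 ≤ ρ → (∀ L ∈ 𝓛, ρ ≤ (I.filter (fun x => L.1 * x + L.2 ∈ D x)).card) →
  ρ ^ 9 * 𝓛.card ≤ C * (I.card ^ 6 * (∑ x ∈ I, (D x).card) ^ 2 +
    I.card ^ 2 * ρ ^ 6 * ∑ x ∈ I, (D x).card)

/-- M2. Parallel rows. -/
def PlStmt : Prop := ∃ C : ℕ, ∀ (R₁ R₂ : Finset (ℝ × ℝ)) (𝓖 : Finset (ℝ × ℝ × ℝ × ℝ × ℝ))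
  (a B ρ w : ℕ), 2 ≤ ρ → 2 ≤ w →
  (R₁.image Prod.fst).card ≤ a → (R₂.image Prod.fst).card ≤ a →
  (∀ c, (R₁.filter (fun p => p.1 = c)).card ≤ B) →
  (∀ c, (R₂.filter (fun p => p.1 = c)).card ≤ B) →
  (∀ g ∈ 𝓖, g.1 ≠ 0 ∧ g.2.2.1 ≠ 0 ∧ ρ ≤ ((R₁.image Prod.fst).filter
    (fun c => w ≤ (R₁.filter (fun p => p.1 = c ∧ pmap g p ∈ R₂)).card)).card) →
  ρ ^ 12 * w ^ 4 * 𝓖.card ≤ C * (a ^ 12 * B ^ 6 + a ^ 7 * ρ ^ 6 * w * B ^ 4)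

/-- M3. Cells: an affine map visits at most `13 ^ h` pairs of cells. -/
def CellStmt : Prop := ∀ (h : ℕ) (P : Finset (ℝ × ℝ)),
  ∃ (Λ : Finset (ℝ × ℝ × ℝ)) (κ : ℝ × ℝ → List (Bool × Bool)),
    Λ.card ≤ 4 ^ h ∧ (∀ l ∈ Λ, ¬ (l.1 = 0 ∧ l.2.1 = 0 ∧ l.2.2 = 0)) ∧
    (∀ z, 4 ^ h * (P.filter (fun x => (∀ l ∈ Λ, l.1 + l.2.1 * x.1 + l.2.2 * x.2 ≠ 0) ∧
      κ x = z)).card ≤ P.card) ∧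
    (∀ T : Aff, ((P.filter (fun x => (∀ l ∈ Λ, l.1 + l.2.1 * x.1 + l.2.2 * x.2 ≠ 0) ∧
      T.app x ∈ P ∧
      (∀ l ∈ Λ, l.1 + l.2.1 * (T.app x).1 + l.2.2 * (T.app x).2 ≠ 0))).image
        (fun x => (κ x, κ (T.app x)))).card ≤ 13 ^ h)

open Classical in
/-- M4. Few pairs lie on rich lines. -/
def RichPairStmt : Prop := ∀ (h : ℕ) (P : Finset (ℝ × ℝ)) (l w : ℕ),
  Set.InjOn Prod.fst (P : Set (ℝ × ℝ)) → (∀ L, (lineP P L).card ≤ l) → 2 * 4 ^ h ≤ w →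
  4 ^ h * ((P ×ˢ P).filter (fun pq => pq.1 ≠ pq.2 ∧ ∃ L, OnL L pq.1 ∧ OnL L pq.2 ∧
    w ≤ (lineP P L).card)).card ≤ 8 * 3 ^ h * P.card ^ 2 + 16 ^ h * l ^ 2

/-- M5. Few rich affine maps fix two points of `P`. -/
def HomStmt : Prop := ∃ C C₁ : ℕ, ∀ (P : Finset (ℝ × ℝ)) (l u : ℕ),
  Set.InjOn Prod.fst (P : Set (ℝ × ℝ)) → (∀ L, (lineP P L).card ≤ l) → 1 ≤ l → 32 * l ≤ u →
  ∀ 𝓗 : Finset Aff, (∀ H ∈ 𝓗, (∃ p, H.app p ≠ p) ∧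
    (∃ p ∈ P, ∃ q ∈ P, p ≠ q ∧ H.app p = p ∧ H.app q = q) ∧ u ≤ (dom P H).card) →
  u ^ C₁ * 𝓗.card ≤ C * P.card ^ C₁ * (P.card * l)

/-- M6. The unstructured case. -/
def UnstrStmt : Prop := ∃ (C C₁ : ℕ) (δ : ℝ), 0 < δ ∧ ∀ P : Finset (ℝ × ℝ),
  Set.InjOn Prod.fst (P : Set (ℝ × ℝ)) →
  (∀ L, ((lineP P L).card : ℝ) ≤ 4 * (P.card : ℝ) ^ (3 / 4 : ℝ)) →
  ∀ u : ℕ, 1 ≤ u → ∀ 𝓣 : Finset Aff, (∀ T ∈ 𝓣, ND P u T) →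
  (u : ℝ) ^ C₁ * 𝓣.card ≤ C * (P.card : ℝ) ^ C₁ * (P.card : ℝ) ^ (2 - δ)

/-- M7. The structured case. -/
def StrStmt : Prop := ∃ C C₁ : ℕ, ∀ (P : Finset (ℝ × ℝ)) (l : ℕ)
  (𝓢 : Finset (Finset (ℝ × ℝ))), Set.InjOn Prod.fst (P : Set (ℝ × ℝ)) →
  (∀ L, (lineP P L).card ≤ 2 * l) → 1 ≤ l → P.card ^ 3 ≤ l ^ 4 →
  (∀ S ∈ 𝓢, S ⊆ P ∧ l ≤ S.card ∧ ∃ L, ∀ p ∈ S, OnL L p) →
  (∀ S ∈ 𝓢, ∀ S' ∈ 𝓢, S ≠ S' → Disjoint S S') → (∀ p ∈ P, ∃ S ∈ 𝓢, p ∈ S) →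
  ∀ u : ℕ, 1 ≤ u → ∀ 𝓣 : Finset Aff, (∀ T ∈ 𝓣, ND P u T) →
  u ^ C₁ * 𝓣.card ≤ C * P.card ^ C₁ * l ^ 2

/-- M8. From the number of rich maps to the number of classes. -/
def EnergyStmt : Prop := ∀ k C C₁ : ℕ, C₁ + 4 ≤ k → ∃ c : ℝ, 0 < c ∧
  ∀ (Q : Finset (ℝ × ℝ)) (l : ℕ) (M : ℝ), Set.InjOn Prod.fst (Q : Set (ℝ × ℝ)) →
  (∀ L, (lineP Q L).card ≤ l) → 1 ≤ l → 4 * k ^ k * l ≤ Q.card → 0 < M →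
  (∀ u : ℕ, 1 ≤ u → ∀ 𝓣 : Finset Aff, (∀ T ∈ 𝓣, ND Q u T) →
    (u : ℝ) ^ C₁ * 𝓣.card ≤ C * (Q.card : ℝ) ^ C₁ * M) →
  c * (Q.card : ℝ) ^ k ≤ M * planeClasses k Q

/-- M9a. Collinear sets. -/
def CollinearStmt : Prop := ∀ k : ℕ, 4 ≤ k → ∃ c : ℝ, 0 < c ∧
  ∀ (Q : Finset (ℝ × ℝ)) (L : ℝ × ℝ), k ≤ Q.card →
  c * ((lineP Q L).card : ℝ) ^ (k - 1) ≤ planeClasses k Q

/-- M9b. Coordinates: reduction of the problem for `d = 2` to sets with distinct abscissae. -/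
def CoordStmt : Prop := ∀ (k : ℕ) (P : Finset (Fin 2 → ℝ)), ∃ Q : Finset (ℝ × ℝ),
  Set.InjOn Prod.fst (Q : Set (ℝ × ℝ)) ∧ Q.card = P.card ∧ planeClasses k Q = numClasses k P

/-- M10. The greedy decomposition and the final computation. -/
def FinalStmt : Prop := ∃ k₀ : ℕ, ∀ k : ℕ, k₀ ≤ k → ∃ c : ℝ, 0 < c ∧ ∀ Q : Finset (ℝ × ℝ),
  Set.InjOn Prod.fst (Q : Set (ℝ × ℝ)) → k ≤ Q.card →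
  c * (Q.card : ℝ) ^ (((k : ℝ) * ((k : ℝ) - 1)) / ((k : ℝ) + 1)) ≤ planeClasses k Q

end Pool.Agent.Lib.MP_b430f2_co.Plane
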