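import Mathlib
import Pool.Agent.Lib.MP_b430f2_co.Partition
import Pool.Agent.Lib.MP_b430f2_co.Plane.Stmts
import Pool.Agent.Lib.MP_b430f2_co.Plane.Api

/-! M3. An affine map of the plane visits at most `13 ^ h` pairs of cells. -/

namespace Pool.Agent.Lib.MP_b430f2_co.Plane

open Finset

/-- an affine functional read in the image plane -/
theorem fn_image (T : Aff) (A B C : ℝ) : ∃ A' B' C' : ℝ, ∀ p : ℝ × ℝ,
    A' + B' * (T.app p).1 + C' * (T.app p).2 = A + B * p.1 + C * p.2 := by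
  refine ⟨A + B * T.inv.e + C * T.inv.f, B * T.inv.a + C * T.inv.c,
    B * T.inv.b + C * T.inv.d, ?_⟩
  intro p
  have h := T.inv_app p
  generalize T.app p = y at h ⊢
  have h1 := congrArg Prod.fst h
  have h2 := congrArg Prod.snd h
  simp only [Aff.app] at h1 h2
  linear_combination B * h1 + C * h2

theorem conv_side {c x y t : ℝ} {i : Bool} (hx : x ≠ c) (hy : y ≠ c) (ix : decide (x < c) = i)
    (iy : decide (y < c) = i) (h0 : 0 ≤ t) (h1 : t ≤ 1) :
    (1 - t) * x + t * y ≠ c ∧ decide ((1 - t) * x + t * y < c) = i := by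
  cases i
  · rw [decide_eq_false_iff_not, not_lt] at ix iy
    have hx' : 0 < x - c := sub_pos.2 (lt_of_le_of_ne ix hx.symm)
    have hy' : 0 < y - c := sub_pos.2 (lt_of_le_of_ne iy hy.symm)
    have h2 : 0 < (1 - t) * (x - c) + t * (y - c) := by
      rcases h0.eq_or_lt with h | h
      · rw [← h]; simpa using hx'
      · have h3 : 0 ≤ (1 - t) * (x - c) := mul_nonneg (by linarith) hx'.le
        have h4 : 0 < t * (y - c) := mul_pos h hy'
        linarith
    have h5 : c < (1 - t) * x + t * y := by linarith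
    refine ⟨h5.ne', ?_⟩
    rw [decide_eq_false_iff_not, not_lt]
    exact h5.le
  · rw [decide_eq_true_eq] at ix iy
    have hx' : 0 < c - x := sub_pos.2 ix
    have hy' : 0 < c - y := sub_pos.2 iy
    have h2 : 0 < (1 - t) * (c - x) + t * (c - y) := by
      rcases h0.eq_or_lt with h | h
      · rw [← h]; simpa using hx'
      · have h3 : 0 ≤ (1 - t) * (c - x) := mul_nonneg (by linarith) hx'.le
        have h4 : 0 < t * (c - y) := mul_pos h hy'
        linarith
    have h5 : (1 - t) * x + t * y < c := by linarith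
    refine ⟨h5.ne, ?_⟩
    rw [decide_eq_true_eq]
    exact h5

/-- the open quadrant `w` of the two lines `u = c` and `v - s u = b` -/
def InQ (c s b : ℝ) (x : ℝ × ℝ) (w : Bool × Bool) : Prop :=
  (x.1 ≠ c ∧ x.2 - s * x.1 ≠ b) ∧ (decide (x.1 < c) = w.1 ∧ decide (x.2 - s * x.1 < b) = w.2)

theorem sep (T : Aff) (A B C c s b : ℝ) (h : ∀ q : Bool × Bool, ∃ p p' : ℝ × ℝ,
    A + B * p.1 + C * p.2 < 0 ∧ 0 < A + B * p'.1 + C * p'.2 ∧ InQ c s b (T.app p) q ∧
    InQ c s b (T.app p') q) : False := by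
  obtain ⟨A', B', C', hA⟩ := fn_image T A B C
  have hABC : ¬ (A' = 0 ∧ B' = 0 ∧ C' = 0) := by
    rintro ⟨rfl, rfl, rfl⟩
    obtain ⟨p, p', h1, _⟩ := h (true, true)
    have := hA p
    linarith
  obtain ⟨q, hq⟩ := line_misses c s b A' B' C' hABC (fun x : ℝ × ℝ => (T.app x).1)
    (fun x : ℝ × ℝ => (T.app x).2)
  obtain ⟨p, p', h1, h2, h3, h4⟩ := h q
  obtain ⟨f, hf⟩ : ∃ f, f = A + B * p.1 + C * p.2 := ⟨_, rfl⟩
  obtain ⟨f', hf'⟩ : ∃ f, f = A + B * p'.1 + C * p'.2 := ⟨_, rfl⟩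
  rw [← hf] at h1
  rw [← hf'] at h2
  obtain ⟨t, ht⟩ : ∃ t, t = -f / (f' - f) := ⟨_, rfl⟩
  have hd : 0 < f' - f := by linarith
  have ht0 : 0 ≤ t := by rw [ht]; exact div_nonneg (by linarith) hd.le
  have ht1 : t ≤ 1 := by rw [ht, div_le_one hd]; linarith
  have hfr : (1 - t) * f + t * f' = 0 := by
    have : t * (f' - f) = -f := by rw [ht]; exact div_mul_cancel₀ _ hd.ne'
    linarith
  obtain ⟨r, hr⟩ : ∃ r : ℝ × ℝ, r = ((1 - t) * p.1 + t * p'.1, (1 - t) * p.2 + t * p'.2) :=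
    ⟨_, rfl⟩
  have e1 : (T.app r).1 = (1 - t) * (T.app p).1 + t * (T.app p').1 := by
    rw [hr]; simp only [Aff.app]; ring
  have e2 : (T.app r).2 - s * (T.app r).1 = (1 - t) * ((T.app p).2 - s * (T.app p).1) +
      t * ((T.app p').2 - s * (T.app p').1) := by
    rw [hr]; simp only [Aff.app]; ring
  obtain ⟨⟨a1, a2⟩, a3, a4⟩ := h3
  obtain ⟨⟨b1, b2⟩, b3, b4⟩ := h4
  obtain ⟨k1, k2⟩ := conv_side a1 b1 a3 b3 ht0 ht1
  obtain ⟨k3, k4⟩ := conv_side a2 b2 a4 b4 ht0 ht1
  rw [← e1] at k1 k2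
  rw [← e2] at k3 k4
  refine hq r ⟨k1, k3⟩ ?_ ?_
  · rw [hA r, hr]
    simp only
    rw [hf, hf'] at hfr
    linear_combination hfr
  · exact Prod.ext k2 k4

theorem two_full (T : Aff) (c s b c' s' b' : ℝ) (i i' : Bool × Bool) (hne : i ≠ i')
    (h : ∀ q, ∃ x, InQ c s b x i ∧ InQ c' s' b' (T.app x) q)
    (h' : ∀ q, ∃ x, InQ c s b x i' ∧ InQ c' s' b' (T.app x) q) : False := by
  obtain ⟨i1, i2⟩ := i
  obtain ⟨j1, j2⟩ := i'
  have key1 : ∀ k l : Bool, (∀ q, ∃ x, InQ c s b x (true, k) ∧ InQ c' s' b' (T.app x) q) →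
      (∀ q, ∃ x, InQ c s b x (false, l) ∧ InQ c' s' b' (T.app x) q) → False := by
    intro k l g g'
    apply sep T (-c) 1 0 c' s' b'
    intro q
    obtain ⟨x, hx, hx'⟩ := g q
    obtain ⟨y, hy, hy'⟩ := g' q
    refine ⟨x, y, ?_, ?_, hx', hy'⟩
    · have := hx.2.1
      rw [decide_eq_true_eq] at this
      linarith
    · have h1 := hy.2.1
      rw [decide_eq_false_iff_not, not_lt] at h1
      have h2 := lt_of_le_of_ne h1 hy.1.1.symm
      linarith
  have key2 : ∀ k l : Bool, (∀ q, ∃ x, InQ c s b x (k, true) ∧ InQ c' s' b' (T.app x) q) →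
      (∀ q, ∃ x, InQ c s b x (l, false) ∧ InQ c' s' b' (T.app x) q) → False := by
    intro k l g g'
    apply sep T (-b) (-s) 1 c' s' b'
    intro q
    obtain ⟨x, hx, hx'⟩ := g q
    obtain ⟨y, hy, hy'⟩ := g' q
    refine ⟨x, y, ?_, ?_, hx', hy'⟩
    · have := hx.2.2
      rw [decide_eq_true_eq] at this
      linarith
    · have h1 := hy.2.2
      rw [decide_eq_false_iff_not, not_lt] at h1
      have h2 := lt_of_le_of_ne h1 hy.1.2.symm
      linarith
  cases i1 <;> cases j1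
  · cases i2 <;> cases j2
    · exact hne rfl
    · exact key2 _ _ h' h
    · exact key2 _ _ h h'
    · exact hne rfl
  · exact key1 _ _ h' h
  · exact key1 _ _ h h'
  · cases i2 <;> cases j2
    · exact hne rfl
    · exact key2 _ _ h' h
    · exact key2 _ _ h h'
    · exact hne rfl

open Classical in
/-- the pairs of quadrants visited by `T` -/
noncomputable def vis (T : Aff) (c s b c' s' b' : ℝ) : Finset ((Bool × Bool) × (Bool × Bool)) :=
  Finset.univ.filter (fun ij => ∃ x, InQ c s b x ij.1 ∧ InQ c' s' b' (T.app x) ij.2)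

theorem card_vis (T : Aff) (c s b c' s' b' : ℝ) : (vis T c s b c' s' b').card ≤ 13 := by
  classical
  set F : Bool × Bool → Finset (Bool × Bool) := fun i =>
    Finset.univ.filter (fun j => ∃ x, InQ c s b x i ∧ InQ c' s' b' (T.app x) j) with hF
  have h1 : (vis T c s b c' s' b').card = ∑ i, (F i).card := by
    unfold vis
    rw [Finset.card_filter, Fintype.sum_prod_type]
    apply Finset.sum_congr rfl
    intro i _
    rw [hF, Finset.card_filter]
  have h2 : ∀ i, (F i).card ≤ 4 := by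
    intro i
    exact (Finset.card_le_univ _).trans (by simp)
  have h3 : ∀ i, (F i).card = 4 → ∀ q, ∃ x, InQ c s b x i ∧ InQ c' s' b' (T.app x) q := by
    intro i hi q
    have h4 : F i = Finset.univ := by
      rw [← Finset.card_eq_iff_eq_univ, hi]
      simp
    have h5 : q ∈ F i := by rw [h4]; exact Finset.mem_univ _
    exact (Finset.mem_filter.1 h5).2
  have h4 : ∀ i i', i ≠ i' → ¬ ((F i).card = 4 ∧ (F i').card = 4) := by
    rintro i i' hne ⟨g, g'⟩
    exact two_full T c s b c' s' b' i i' hne (h3 i g) (h3 i' g')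
  rw [h1, Fintype.sum_prod_type, Fintype.sum_bool, Fintype.sum_bool, Fintype.sum_bool]
  have a1 := h2 (true, true)
  have a2 := h2 (true, false)
  have a3 := h2 (false, true)
  have a4 := h2 (false, false)
  have b1 := h4 (true, true) (true, false) (by decide)
  have b2 := h4 (true, true) (false, true) (by decide)
  have b3 := h4 (true, true) (false, false) (by decide)
  have b4 := h4 (true, false) (false, true) (by decide)
  have b5 := h4 (true, false) (false, false) (by decide)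
  have b6 := h4 (false, true) (false, false) (by decide)
  omega

/-- `x` lies on no line of `Λ` -/
def Off (Λ : Finset (ℝ × ℝ × ℝ)) (x : ℝ × ℝ) : Prop :=
  ∀ l ∈ Λ, l.1 + l.2.1 * x.1 + l.2.2 * x.2 ≠ 0

open Classical in
/-- the cell `z` -/
noncomputable def cellOf (Λ : Finset (ℝ × ℝ × ℝ)) (κ : ℝ × ℝ → List (Bool × Bool))
    (X : Finset (ℝ × ℝ)) (z : List (Bool × Bool)) : Finset (ℝ × ℝ) :=
  X.filter (fun x => Off Λ x ∧ κ x = z)

open Classical in
/-- the pairs of cells visited by `T` -/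
noncomputable def visits (Λ Λ' : Finset (ℝ × ℝ × ℝ)) (κ κ' : ℝ × ℝ → List (Bool × Bool))
    (X Y : Finset (ℝ × ℝ)) (T : Aff) : Finset (List (Bool × Bool) × List (Bool × Bool)) :=
  (X.filter (fun x => Off Λ x ∧ T.app x ∈ Y ∧ Off Λ' (T.app x))).image
    (fun x => (κ x, κ' (T.app x)))

open Classical in
theorem mem_cellOf {Λ : Finset (ℝ × ℝ × ℝ)} {κ : ℝ × ℝ → List (Bool × Bool)}
    {X : Finset (ℝ × ℝ)} {z : List (Bool × Bool)} {x : ℝ × ℝ} :
    x ∈ cellOf Λ κ X z ↔ x ∈ X ∧ Off Λ x ∧ κ x = z := by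
  unfold cellOf; rw [Finset.mem_filter]

open Classical in
theorem mem_visits {Λ Λ' : Finset (ℝ × ℝ × ℝ)} {κ κ' : ℝ × ℝ → List (Bool × Bool)}
    {X Y : Finset (ℝ × ℝ)} {T : Aff} {z : List (Bool × Bool) × List (Bool × Bool)} :
    z ∈ visits Λ Λ' κ κ' X Y T ↔
      ∃ x ∈ X, Off Λ x ∧ T.app x ∈ Y ∧ Off Λ' (T.app x) ∧ (κ x, κ' (T.app x)) = z := by
  unfold visits
  rw [Finset.mem_image]
  constructor
  · rintro ⟨x, hx, rfl⟩
    obtain ⟨h1, h2, h3, h4⟩ := Finset.mem_filter.1 hx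
    exact ⟨x, h1, h2, h3, h4, rfl⟩
  · rintro ⟨x, h1, h2, h3, h4, h5⟩
    exact ⟨x, Finset.mem_filter.2 ⟨h1, h2, h3, h4⟩, h5⟩

open Classical in
/-- the points of `X` in the open quadrant `w` -/
noncomputable def quadr (c s b : ℝ) (X : Finset (ℝ × ℝ)) (w : Bool × Bool) : Finset (ℝ × ℝ) :=
  X.filter (fun x => InQ c s b x w)

open Classical in
theorem mem_quadr {c s b : ℝ} {X : Finset (ℝ × ℝ)} {w : Bool × Bool} {x : ℝ × ℝ} :
    x ∈ quadr c s b X w ↔ x ∈ X ∧ InQ c s b x w := by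
  unfold quadr; rw [Finset.mem_filter]

theorem exists_quadr (X : Finset (ℝ × ℝ)) : ∃ c s b : ℝ, ∀ w, 4 * (quadr c s b X w).card ≤ X.card := by
  obtain ⟨c, s, b, h⟩ := exists_quadrants X Prod.fst Prod.snd
  refine ⟨c, s, b, fun w => ?_⟩
  refine le_trans (Nat.mul_le_mul_left 4 (Finset.card_le_card ?_)) (h w.1 w.2)
  intro x hx
  rw [mem_quadr] at hx
  rw [Finset.mem_filter]
  exact hx

/-- the quadrant of a point -/
noncomputable def qd (c s b : ℝ) (x : ℝ × ℝ) : Bool × Bool :=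
  (decide (x.1 < c), decide (x.2 - s * x.1 < b))

theorem cells (h : ℕ) : ∃ (Λ : Finset (ℝ × ℝ) → Finset (ℝ × ℝ × ℝ))
    (κ : Finset (ℝ × ℝ) → ℝ × ℝ → List (Bool × Bool)),
    (∀ X, (Λ X).card ≤ numLines h ∧
      (∀ l ∈ Λ X, ¬ (l.1 = 0 ∧ l.2.1 = 0 ∧ l.2.2 = 0)) ∧
      (∀ z, 4 ^ h * (cellOf (Λ X) (κ X) X z).card ≤ X.card)) ∧
    (∀ (X Y : Finset (ℝ × ℝ)) (T : Aff),
      (visits (Λ X) (Λ Y) (κ X) (κ Y) X Y T).card ≤ 13 ^ h) := by
  classical
  induction h with
  | zero =>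
    refine ⟨fun _ => ∅, fun _ _ => [], ?_, ?_⟩
    · intro X
      refine ⟨by simp, by simp, ?_⟩
      intro c
      rw [pow_zero, one_mul]
      exact Finset.card_le_card (Finset.filter_subset _ _)
    · intro X Y T
      rw [pow_zero]
      calc _ ≤ ({(([] : List (Bool × Bool)), ([] : List (Bool × Bool)))} : Finset _).card := by
            apply Finset.card_le_card
            intro y hy
            obtain ⟨x, _, _, _, _, rfl⟩ := mem_visits.1 hy
            simp
        _ = 1 := Finset.card_singleton _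
  | succ h ih =>
    obtain ⟨Λ, κ, hΛ, hκ⟩ := ih
    choose c s b hq using exists_quadr
    obtain ⟨q, hqdef⟩ : ∃ q : Finset (ℝ × ℝ) → ℝ × ℝ → Bool × Bool,
        ∀ X x, q X x = qd (c X) (s X) (b X) x := ⟨_, fun _ _ => rfl⟩
    obtain ⟨XQ, hXQ⟩ : ∃ XQ : Finset (ℝ × ℝ) → Bool × Bool → Finset (ℝ × ℝ),
        ∀ X w, XQ X w = quadr (c X) (s X) (b X) X w := ⟨_, fun _ _ => rfl⟩
    obtain ⟨Λ', hΛ'⟩ : ∃ Λ' : Finset (ℝ × ℝ) → Finset (ℝ × ℝ × ℝ), ∀ X, Λ' X =
      insert (-c X, 1, 0) (insert (-b X, -s X, 1) (Finset.univ.biUnion fun w => Λ (XQ X w))) :=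
      ⟨_, fun _ => rfl⟩
    have hXstar : ∀ X x, Off (Λ' X) x →
        InQ (c X) (s X) (b X) x (q X x) ∧ Off (Λ (XQ X (q X x))) x := by
      intro X x hl
      have h1 := hl (-c X, 1, 0) (by rw [hΛ']; simp)
      have h2 := hl (-b X, -s X, 1) (by rw [hΛ']; simp)
      simp only at h1 h2
      rw [hqdef]
      refine ⟨⟨⟨?_, ?_⟩, rfl, rfl⟩, ?_⟩
      · intro h; apply h1; rw [h]; ring
      · intro h; apply h2; linarith
      · intro l hlq
        apply hl
        rw [hΛ', Finset.mem_insert, Finset.mem_insert, Finset.mem_biUnion]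
        exact Or.inr (Or.inr ⟨_, Finset.mem_univ _, hlq⟩)
    refine ⟨Λ', fun X x => q X x :: κ (XQ X (q X x)) x, ?_, ?_⟩
    · intro X
      refine ⟨?_, ?_, ?_⟩
      · have h1 : (Finset.univ.biUnion fun w => Λ (XQ X w)).card ≤
            ∑ w : Bool × Bool, (Λ (XQ X w)).card := Finset.card_biUnion_le
        have h2 : ∑ w : Bool × Bool, (Λ (XQ X w)).card ≤ ∑ w : Bool × Bool, numLines h :=
          Finset.sum_le_sum (fun w _ => (hΛ _).1)
        have h3 : ∑ w : Bool × Bool, numLines h = 4 * numLines h := by simp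
        have h4 : (Λ' X).card ≤ (Finset.univ.biUnion fun w => Λ (XQ X w)).card + 1 + 1 := by
          rw [hΛ']
          exact (Finset.card_insert_le _ _).trans
            (Nat.add_le_add_right (Finset.card_insert_le _ _) 1)
        show (Λ' X).card ≤ 2 + 4 * numLines h
        omega
      · intro l hl
        rw [hΛ', Finset.mem_insert, Finset.mem_insert, Finset.mem_biUnion] at hl
        rcases hl with rfl | rfl | ⟨w, _, hw⟩
        · simp
        · simp
        · exact (hΛ _).2.1 l hw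
      · intro z
        rcases z with _ | ⟨w, z⟩
        · have : cellOf (Λ' X) (fun x => q X x :: κ (XQ X (q X x)) x) X [] = ∅ := by
            apply Finset.eq_empty_of_forall_notMem
            intro x hx
            exact List.cons_ne_nil _ _ (mem_cellOf.1 hx).2.2
          rw [this]; simp
        · have h1 : cellOf (Λ' X) (fun x => q X x :: κ (XQ X (q X x)) x) X (w :: z) ⊆
              cellOf (Λ (XQ X w)) (κ (XQ X w)) (XQ X w) z := by
            intro x hx
            obtain ⟨hxX, hxl, hxq⟩ := mem_cellOf.1 hx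
            obtain ⟨h2, h3⟩ := List.cons.inj hxq
            obtain ⟨h4, h5⟩ := hXstar X x hxl
            rw [h2] at h3 h4 h5
            rw [mem_cellOf]
            refine ⟨?_, h5, h3⟩
            rw [hXQ, mem_quadr]
            exact ⟨hxX, h4⟩
          have h2 := (hΛ (XQ X w)).2.2 z
          have h4 : 4 * (XQ X w).card ≤ X.card := by rw [hXQ]; exact hq X w
          calc 4 ^ (h + 1) * _ ≤ 4 ^ (h + 1) *
                (cellOf (Λ (XQ X w)) (κ (XQ X w)) (XQ X w) z).card :=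
                Nat.mul_le_mul_left _ (Finset.card_le_card h1)
            _ = 4 * (4 ^ h * (cellOf (Λ (XQ X w)) (κ (XQ X w)) (XQ X w) z).card) := by ring
            _ ≤ 4 * (XQ X w).card := Nat.mul_le_mul_left _ h2
            _ ≤ X.card := h4
    · intro X Y T
      have h1 : visits (Λ' X) (Λ' Y) (fun x => q X x :: κ (XQ X (q X x)) x)
          (fun x => q Y x :: κ (XQ Y (q Y x)) x) X Y T ⊆
          (vis T (c X) (s X) (b X) (c Y) (s Y) (b Y)).biUnion (fun w =>
            (visits (Λ (XQ X w.1)) (Λ (XQ Y w.2)) (κ (XQ X w.1)) (κ (XQ Y w.2)) (XQ X w.1)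
              (XQ Y w.2) T).image (fun z => (w.1 :: z.1, w.2 :: z.2))) := by
        intro z hz
        obtain ⟨x, hxX, hxl, hxY, hxm, rfl⟩ := mem_visits.1 hz
        obtain ⟨h4, h5⟩ := hXstar X x hxl
        obtain ⟨h6, h7⟩ := hXstar Y (T.app x) hxm
        rw [Finset.mem_biUnion]
        refine ⟨(q X x, q Y (T.app x)), ?_, ?_⟩
        · unfold vis
          rw [Finset.mem_filter]
          exact ⟨Finset.mem_univ _, x, h4, h6⟩
        · rw [Finset.mem_image]
          refine ⟨(κ (XQ X (q X x)) x, κ (XQ Y (q Y (T.app x))) (T.app x)), ?_, rfl⟩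
          rw [mem_visits]
          refine ⟨x, ?_, h5, ?_, h7, rfl⟩
          · rw [hXQ, mem_quadr]
            exact ⟨hxX, h4⟩
          · rw [hXQ, mem_quadr]
            exact ⟨hxY, h6⟩
      calc _ ≤ _ := Finset.card_le_card h1
        _ ≤ ∑ w ∈ vis T (c X) (s X) (b X) (c Y) (s Y) (b Y), 13 ^ h := by
            refine Finset.card_biUnion_le.trans ?_
            apply Finset.sum_le_sum
            intro w _
            exact Finset.card_image_le.trans (hκ _ _ _)
        _ ≤ 13 ^ (h + 1) := by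
            rw [Finset.sum_const, smul_eq_mul, pow_succ, mul_comm]
            exact Nat.mul_le_mul_left _ (card_vis _ _ _ _ _ _ _)

theorem numLines_le (h : ℕ) : numLines h + 1 ≤ 4 ^ h := by
  induction h with
  | zero => simp [numLines]
  | succ h ih =>
    rw [pow_succ]
    show 2 + 4 * numLines h + 1 ≤ 4 ^ h * 4
    omega

/-- M3 -/
theorem cell : CellStmt := by
  intro h P
  obtain ⟨Λ, κ, h1, h2⟩ := cells h
  obtain ⟨a1, a2, a3⟩ := h1 P
  have hn := numLines_le h
  refine ⟨Λ P, κ P, by omega, a2, fun z => ?_, fun T => ?_⟩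
  · refine le_trans (Nat.mul_le_mul_left _ (Finset.card_le_card ?_)) (a3 z)
    intro x hx
    obtain ⟨h1, h2, h3⟩ := Finset.mem_filter.1 hx
    exact mem_cellOf.2 ⟨h1, h2, h3⟩
  · refine le_trans (Finset.card_le_card ?_) (h2 P P T)
    intro z hz
    obtain ⟨x, hx, rfl⟩ := Finset.mem_image.1 hz
    obtain ⟨h1, h2, h3, h4⟩ := Finset.mem_filter.1 hx
    exact mem_visits.2 ⟨x, h1, h2, h3, h4, rfl⟩

end Pool.Agent.Lib.MP_b430f2_co.Plane
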