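import Mathlib
import Pool.Agent.Lib.MP_b430f2_co.Chains
import Pool.Agent.Lib.MP_b430f2_co.Plane.Defs
import Pool.Agent.Lib.MP_b430f2_co.Plane.Stmts

/-! M1a. Two-layer crossing lemma. -/

namespace Pool.Agent.Lib.MP_b430f2_co.Plane

open Finset

/-- The crossing pairs of a set of edges between two layers. -/
noncomputable def crs (E : Finset (ℝ × ℝ)) : Finset ((ℝ × ℝ) × (ℝ × ℝ)) :=
  (E ×ˢ E).filter (fun pq => pq.1.1 < pq.2.1 ∧ pq.2.2 < pq.1.2)

theorem mem_crs {E : Finset (ℝ × ℝ)} {pq : (ℝ × ℝ) × (ℝ × ℝ)} :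
    pq ∈ crs E ↔ pq.1 ∈ E ∧ pq.2 ∈ E ∧ pq.1.1 < pq.2.1 ∧ pq.2.2 < pq.1.2 := by
  simp only [crs, Finset.mem_filter, Finset.mem_product, and_assoc]

/-- A set without crossing pairs is small. -/
theorem card_le_of_crs_empty (E : Finset (ℝ × ℝ)) (U V : Finset ℝ) (hE : E ⊆ U ×ˢ V)
    (h : crs E = ∅) : E.card ≤ U.card + V.card := by
  classical
  have h1 : (E.image (fun p => rankIn U (fun x : ℝ => x) p.1 +
      rankIn V (fun x : ℝ => x) p.2)).card = E.card := by
    apply Finset.card_image_of_injOn
    have key : ∀ p ∈ E, ∀ q ∈ E, p.1 < q.1 → rankIn U (fun x : ℝ => x) p.1 +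
        rankIn V (fun x : ℝ => x) p.2 < rankIn U (fun x : ℝ => x) q.1 +
        rankIn V (fun x : ℝ => x) q.2 := by
      intro p hp q hq hlt
      have h2 : p.2 ≤ q.2 := by
        by_contra hcon
        push Not at hcon
        have : (p, q) ∈ crs E := mem_crs.2 ⟨hp, hq, hlt, hcon⟩
        rw [h] at this
        simp at this
      have h3 := rankIn_strict U (fun x : ℝ => x) (Finset.mem_product.1 (hE hp)).1 hlt
      have h4 := rankIn_mono V (fun x : ℝ => x) (y := p.2) (z := q.2) h2
      omega
    intro p hp q hq hpq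
    simp only at hpq
    rcases lt_trichotomy p.1 q.1 with h2 | h2 | h2
    · exact absurd hpq (key p hp q hq h2).ne
    · apply Prod.ext h2
      rw [h2] at hpq
      have h3 : rankIn V (fun x : ℝ => x) p.2 = rankIn V (fun x : ℝ => x) q.2 := by omega
      exact rankIn_injOn V (fun x : ℝ => x) (fun x _ y _ h => h)
        (Finset.mem_product.1 (hE hp)).2 (Finset.mem_product.1 (hE hq)).2 h3
    · exact absurd hpq (key q hq p hp h2).ne'
  rw [← h1]
  calc _ ≤ (Finset.range (U.card + V.card)).card := by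
        apply Finset.card_le_card
        intro v hv
        obtain ⟨p, hp, rfl⟩ := Finset.mem_image.1 hv
        have h2 := rankIn_lt U (fun x : ℝ => x) (Finset.mem_product.1 (hE hp)).1
        have h3 := rankIn_lt V (fun x : ℝ => x) (Finset.mem_product.1 (hE hp)).2
        rw [Finset.mem_range]
        omega
    _ = _ := Finset.card_range _

/-- The number of edges is at most the number of crossings plus the number of vertices. -/
theorem card_le_crs (E : Finset (ℝ × ℝ)) (U V : Finset ℝ) (hE : E ⊆ U ×ˢ V) :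
    E.card ≤ (crs E).card + (U.card + V.card) := by
  classical
  induction E using Finset.strongInduction with
  | H E ih =>
    rcases (crs E).eq_empty_or_nonempty with h | ⟨pq, hpq⟩
    · rw [h]
      simpa using card_le_of_crs_empty E U V hE h
    · have h1 := mem_crs.1 hpq
      have h2 : E.erase pq.1 ⊂ E := Finset.erase_ssubset h1.1
      have h3 := ih _ h2 (h2.1.trans hE)
      have h4 : (crs (E.erase pq.1)).card < (crs E).card := by
        apply Finset.card_lt_card
        rw [Finset.ssubset_iff_of_subset]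
        · refine ⟨pq, hpq, ?_⟩
          intro hcon
          have := (mem_crs.1 hcon).1
          simp at this
        · intro rs hrs
          have h5 := mem_crs.1 hrs
          exact mem_crs.2 ⟨Finset.mem_of_mem_erase h5.1, Finset.mem_of_mem_erase h5.2.1, h5.2.2⟩
      rw [Finset.card_erase_of_mem h1.1] at h3
      have h5 : 1 ≤ E.card := Finset.card_pos.2 ⟨_, h1.1⟩
      omega

/-- A family of colourings with few collisions. -/
theorem exists_colour (U : Finset ℝ) (q : ℕ) (hq : 1 ≤ q) :
    ∃ (n : ℕ) (h : Fin n → ℝ → Fin q), 0 < n ∧ ∀ u ∈ U, ∀ u' ∈ U, u ≠ u' →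
      q * (Finset.univ.filter (fun i => h i u = h i u')).card ≤ n := by
  classical
  have : NeZero q := ⟨by omega⟩
  let e : (U → Fin q) ≃ Fin (Fintype.card (U → Fin q)) := Fintype.equivFin _
  refine ⟨Fintype.card (U → Fin q), fun i x => if hx : x ∈ U then e.symm i ⟨x, hx⟩ else 0,
    Fintype.card_pos, ?_⟩
  intro u hu u' hu' hne
  have h1 : (Finset.univ.filter (fun i : Fin (Fintype.card (U → Fin q)) =>
      (if hx : u ∈ U then e.symm i ⟨u, hx⟩ else 0) =
      (if hx : u' ∈ U then e.symm i ⟨u', hx⟩ else 0))).card =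
      (Finset.univ.filter (fun f : U → Fin q => f ⟨u, hu⟩ = f ⟨u', hu'⟩)).card := by
    apply Finset.card_bij (fun i _ => e.symm i)
    · intro i hi
      simp only [Finset.mem_filter, Finset.mem_univ, true_and, hu, hu', dif_pos] at hi ⊢
      exact hi
    · intro i _ j _ h
      exact e.symm.injective h
    · intro f hf
      refine ⟨e f, ?_, by simp⟩
      simp only [Finset.mem_filter, Finset.mem_univ, true_and, hu, hu', dif_pos,
        Equiv.symm_apply_apply] at hf ⊢
      exact hf
  rw [h1]
  have h2 : ((Finset.univ : Finset (Fin q)) ×ˢ (Finset.univ.filter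
      (fun f : U → Fin q => f ⟨u, hu⟩ = f ⟨u', hu'⟩))).card ≤
      (Finset.univ : Finset (U → Fin q)).card := by
    apply Finset.card_le_card_of_injOn
      (fun cf : Fin q × (U → Fin q) => Function.update cf.2 ⟨u, hu⟩ cf.1)
    · intro _ _
      exact Finset.mem_coe.2 (Finset.mem_univ _)
    · rintro ⟨c, f⟩ hcf ⟨c', f'⟩ hcf' h
      simp only [Finset.coe_product, Finset.coe_univ, Finset.coe_filter, Finset.mem_univ,
        true_and, Set.mem_prod, Set.mem_univ, Set.mem_ofPred_eq] at hcf hcf' h
      have h3 : c = c' := by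
        have := congrFun h ⟨u, hu⟩
        simpa using this
      have h4 : ∀ w, w ≠ ⟨u, hu⟩ → f w = f' w := by
        intro w hw
        have := congrFun h w
        simpa [Function.update_of_ne hw] using this
      have h5 : (⟨u', hu'⟩ : U) ≠ ⟨u, hu⟩ := by
        intro h6
        exact hne (congrArg Subtype.val h6).symm
      rw [h3]
      congr 1
      funext w
      by_cases hw : w = ⟨u, hu⟩
      · rw [hw, hcf, hcf', h4 _ h5]
      · exact h4 w hw
  rw [Finset.card_product, Finset.card_univ, Fintype.card_fin, Finset.card_univ] at h2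
  exact h2

/-- One colouring of each layer. -/
theorem card_le_colour (E : Finset (ℝ × ℝ)) (U V : Finset ℝ) (hE : E ⊆ U ×ˢ V) {q : ℕ}
    (f g : ℝ → Fin q) :
    E.card ≤ ((crs E).filter (fun pq => f pq.1.1 = f pq.2.1 ∧ g pq.1.2 = g pq.2.2)).card +
      q * (U.card + V.card) := by
  classical
  have h1 : E.card = ∑ c : Fin q, ∑ d : Fin q,
      (E.filter (fun p => f p.1 = c ∧ g p.2 = d)).card := by
    rw [← Fintype.sum_prod_type']
    rw [Finset.card_eq_sum_card_fiberwise (f := fun p => (f p.1, g p.2)) (t := Finset.univ)]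
    · apply Finset.sum_congr rfl
      rintro ⟨c, d⟩ _
      congr 1
      ext p
      simp [Prod.ext_iff]
    · intro p _
      exact Finset.mem_coe.2 (Finset.mem_univ _)
  have h2 : ((crs E).filter (fun pq => f pq.1.1 = f pq.2.1 ∧ g pq.1.2 = g pq.2.2)).card =
      ∑ c : Fin q, ∑ d : Fin q, (crs (E.filter (fun p => f p.1 = c ∧ g p.2 = d))).card := by
    rw [← Fintype.sum_prod_type']
    rw [Finset.card_eq_sum_card_fiberwise (f := fun pq => (f pq.1.1, g pq.1.2))
      (t := Finset.univ)]
    · apply Finset.sum_congr rfl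
      rintro ⟨c, d⟩ _
      congr 1
      ext pq
      simp only [Finset.mem_filter, mem_crs, Prod.mk.injEq]
      constructor
      · rintro ⟨⟨⟨h1, h2, h3⟩, h4, h5⟩, h6, h7⟩
        exact ⟨⟨h1, h6, h7⟩, ⟨h2, h4 ▸ h6, h5 ▸ h7⟩, h3⟩
      · rintro ⟨⟨h1, h6, h7⟩, ⟨h2, h8, h9⟩, h3⟩
        exact ⟨⟨⟨h1, h2, h3⟩, h6.trans h8.symm, h7.trans h9.symm⟩, h6, h7⟩
    · intro p _
      exact Finset.mem_coe.2 (Finset.mem_univ _)
  have h3 : ∀ (W : Finset ℝ) (k : ℝ → Fin q),
      ∑ c : Fin q, (W.filter (fun x => k x = c)).card = W.card := by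
    intro W k
    rw [Finset.card_eq_sum_card_fiberwise (f := k) (t := Finset.univ)]
    intro p _
    exact Finset.mem_coe.2 (Finset.mem_univ _)
  have h4 : ∀ c d : Fin q, (E.filter (fun p => f p.1 = c ∧ g p.2 = d)).card ≤
      (crs (E.filter (fun p => f p.1 = c ∧ g p.2 = d))).card +
      ((U.filter (fun x => f x = c)).card + (V.filter (fun x => g x = d)).card) := by
    intro c d
    apply card_le_crs
    intro p hp
    rw [Finset.mem_filter] at hp
    have h5 := Finset.mem_product.1 (hE hp.1)
    exact Finset.mem_product.2 ⟨Finset.mem_filter.2 ⟨h5.1, hp.2.1⟩,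
      Finset.mem_filter.2 ⟨h5.2, hp.2.2⟩⟩
  calc E.card = ∑ c : Fin q, ∑ d : Fin q,
        (E.filter (fun p => f p.1 = c ∧ g p.2 = d)).card := h1
    _ ≤ ∑ c : Fin q, ∑ d : Fin q, ((crs (E.filter (fun p => f p.1 = c ∧ g p.2 = d))).card +
      ((U.filter (fun x => f x = c)).card + (V.filter (fun x => g x = d)).card)) :=
        Finset.sum_le_sum (fun c _ => Finset.sum_le_sum (fun d _ => h4 c d))
    _ = _ := by
        simp only [Finset.sum_add_distrib, ← h2, h3, Finset.sum_const, Finset.card_univ,
          Fintype.card_fin, smul_eq_mul]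
        rw [← Finset.mul_sum, h3]
        ring

/-- Averaging over the colourings. -/
theorem card_le_amp (E : Finset (ℝ × ℝ)) (U V : Finset ℝ) (hE : E ⊆ U ×ˢ V) (q : ℕ)
    (hq : 1 ≤ q) : q ^ 2 * E.card ≤ (crs E).card + q ^ 3 * (U.card + V.card) := by
  classical
  obtain ⟨n, f, hn, hf⟩ := exists_colour U q hq
  obtain ⟨m, g, hm, hg⟩ := exists_colour V q hq
  have h1 : ∑ i : Fin n, ∑ j : Fin m, E.card ≤ ∑ i : Fin n, ∑ j : Fin m,
      (((crs E).filter (fun pq => f i pq.1.1 = f i pq.2.1 ∧ g j pq.1.2 = g j pq.2.2)).card +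
      q * (U.card + V.card)) :=
    Finset.sum_le_sum (fun i _ => Finset.sum_le_sum (fun j _ =>
      card_le_colour E U V hE (f i) (g j)))
  have h2 : ∑ i : Fin n, ∑ j : Fin m,
      ((crs E).filter (fun pq => f i pq.1.1 = f i pq.2.1 ∧ g j pq.1.2 = g j pq.2.2)).card =
      ∑ pq ∈ crs E, (Finset.univ.filter (fun i => f i pq.1.1 = f i pq.2.1)).card *
        (Finset.univ.filter (fun j => g j pq.1.2 = g j pq.2.2)).card := by
    calc _ = ∑ i : Fin n, ∑ j : Fin m, ∑ pq ∈ crs E,
          (if f i pq.1.1 = f i pq.2.1 then 1 else 0) *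
          (if g j pq.1.2 = g j pq.2.2 then 1 else 0) := by
          apply Finset.sum_congr rfl
          intro i _
          apply Finset.sum_congr rfl
          intro j _
          rw [Finset.card_filter]
          apply Finset.sum_congr rfl
          intro pq _
          by_cases h1 : f i pq.1.1 = f i pq.2.1 <;> by_cases h2 : g j pq.1.2 = g j pq.2.2 <;>
            simp [h1, h2]
      _ = ∑ pq ∈ crs E, ∑ i : Fin n, ∑ j : Fin m,
          (if f i pq.1.1 = f i pq.2.1 then 1 else 0) *
          (if g j pq.1.2 = g j pq.2.2 then 1 else 0) := by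
          rw [Finset.sum_comm (s := crs E)]
          apply Finset.sum_congr rfl
          intro i _
          rw [Finset.sum_comm]
      _ = _ := by
          apply Finset.sum_congr rfl
          intro pq _
          rw [Finset.card_filter, Finset.card_filter, Finset.sum_mul_sum]
  have h3 : q ^ 2 * (∑ pq ∈ crs E,
      (Finset.univ.filter (fun i => f i pq.1.1 = f i pq.2.1)).card *
        (Finset.univ.filter (fun j => g j pq.1.2 = g j pq.2.2)).card) ≤
      (crs E).card * (n * m) := by
    rw [Finset.mul_sum]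
    calc _ ≤ ∑ pq ∈ crs E, n * m := by
          apply Finset.sum_le_sum
          intro pq hpq
          have h4 := mem_crs.1 hpq
          have h5 := Finset.mem_product.1 (hE h4.1)
          have h6 := Finset.mem_product.1 (hE h4.2.1)
          have h7 := hf _ h5.1 _ h6.1 h4.2.2.1.ne
          have h8 := hg _ h5.2 _ h6.2 h4.2.2.2.ne'
          calc _ = (q * (Finset.univ.filter (fun i => f i pq.1.1 = f i pq.2.1)).card) *
                (q * (Finset.univ.filter (fun j => g j pq.1.2 = g j pq.2.2)).card) := by ring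
            _ ≤ n * m := Nat.mul_le_mul h7 h8
      _ = _ := by simp
  have h4 : ∑ i : Fin n, ∑ j : Fin m, E.card = n * m * E.card := by
    simp; ring
  have h5 : ∑ i : Fin n, ∑ j : Fin m,
      (((crs E).filter (fun pq => f i pq.1.1 = f i pq.2.1 ∧ g j pq.1.2 = g j pq.2.2)).card +
      q * (U.card + V.card)) = (∑ pq ∈ crs E,
      (Finset.univ.filter (fun i => f i pq.1.1 = f i pq.2.1)).card *
        (Finset.univ.filter (fun j => g j pq.1.2 = g j pq.2.2)).card) +
        n * m * (q * (U.card + V.card)) := by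
    simp only [Finset.sum_add_distrib, h2]
    simp
    ring
  rw [h4, h5] at h1
  have h6 : n * m * (q ^ 2 * E.card) ≤ n * m * ((crs E).card + q ^ 3 * (U.card + V.card)) := by
    calc n * m * (q ^ 2 * E.card) = q ^ 2 * (n * m * E.card) := by ring
      _ ≤ q ^ 2 * ((∑ pq ∈ crs E,
      (Finset.univ.filter (fun i => f i pq.1.1 = f i pq.2.1)).card *
        (Finset.univ.filter (fun j => g j pq.1.2 = g j pq.2.2)).card) +
        n * m * (q * (U.card + V.card))) := Nat.mul_le_mul_left _ h1
      _ = q ^ 2 * (∑ pq ∈ crs E,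
      (Finset.univ.filter (fun i => f i pq.1.1 = f i pq.2.1)).card *
        (Finset.univ.filter (fun j => g j pq.1.2 = g j pq.2.2)).card) +
        n * m * (q ^ 3 * (U.card + V.card)) := by ring
      _ ≤ (crs E).card * (n * m) + n * m * (q ^ 3 * (U.card + V.card)) :=
        Nat.add_le_add_right h3 _
      _ = _ := by ring
  exact Nat.le_of_mul_le_mul_left h6 (Nat.mul_pos hn hm)

theorem cross : CrossStmt := by
  classical
  refine ⟨128, ?_⟩
  intro E M hU hV
  have hE : E ⊆ E.image Prod.fst ×ˢ E.image Prod.snd := by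
    intro p hp
    exact Finset.mem_product.2 ⟨Finset.mem_image_of_mem _ hp, Finset.mem_image_of_mem _ hp⟩
  show E.card ^ 3 ≤ 128 * (M ^ 2 * (crs E).card + M ^ 3)
  rcases lt_or_ge E.card (4 * M) with h | h
  · calc E.card ^ 3 ≤ (4 * M) ^ 3 := Nat.pow_le_pow_left h.le 3
      _ = 64 * M ^ 3 := by ring
      _ ≤ 128 * (M ^ 2 * (crs E).card + M ^ 3) := by
          have h1 := Nat.zero_le (M ^ 2 * (crs E).card)
          have h2 := Nat.zero_le (M ^ 3)
          omega
  · rcases Nat.eq_zero_or_pos M with h0 | h0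
    · subst h0
      have h1 : E.image Prod.fst = ∅ := Finset.card_eq_zero.1 (by omega)
      rw [Finset.image_eq_empty] at h1
      subst h1
      simp
    · set q := E.card / (4 * M) with hq
      have hq1 : 1 ≤ q := (Nat.one_le_div_iff (by omega)).2 h
      have h1 : q * (4 * M) ≤ E.card := Nat.div_mul_le_self _ _
      have h2 : E.card < (q + 1) * (4 * M) := by
        have := Nat.lt_div_mul_add (a := E.card) (b := 4 * M) (by omega)
        rw [hq]
        nlinarith
      have h3 := card_le_amp E _ _ hE q hq1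
      have h4 : q ^ 2 * E.card ≤ (crs E).card + q ^ 3 * (2 * M) := by
        refine h3.trans (Nat.add_le_add_left (Nat.mul_le_mul_left _ ?_) _)
        omega
      have h5 : q ^ 3 * (2 * M) * 2 ≤ q ^ 2 * E.card := by
        calc q ^ 3 * (2 * M) * 2 = q ^ 2 * (q * (4 * M)) := by ring
          _ ≤ _ := Nat.mul_le_mul_left _ h1
      have h6 : q ^ 2 * E.card ≤ 2 * (crs E).card := by omega
      have h7 : E.card ≤ 8 * q * M := by nlinarith
      calc E.card ^ 3 = E.card ^ 2 * E.card := by ring
        _ ≤ (8 * q * M) ^ 2 * E.card := Nat.mul_le_mul_right _ (Nat.pow_le_pow_left h7 2)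
        _ = 64 * M ^ 2 * (q ^ 2 * E.card) := by ring
        _ ≤ 64 * M ^ 2 * (2 * (crs E).card) := Nat.mul_le_mul_left _ h6
        _ = 128 * (M ^ 2 * (crs E).card) := by ring
        _ ≤ _ := Nat.mul_le_mul_left _ (Nat.le_add_right _ _)

end Pool.Agent.Lib.MP_b430f2_co.Plane
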