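import Mathlib
import Pool.Agent.Lib.MP_b430f2_co.Chains
import Pool.Agent.Lib.MP_b430f2_co.Plane.Defs
import Pool.Agent.Lib.MP_b430f2_co.Plane.Stmts
import Pool.Agent.Lib.MP_b430f2_co.Plane.Cross

/-! M1b. Lines that meet many columns. -/

namespace Pool.Agent.Lib.MP_b430f2_co.Plane

open Finset

/-- Ordered pairs in the same class. -/
theorem card_le_same {γ : Type*} [DecidableEq γ] (H : Finset γ) (f : γ → ℕ) :
    H.card ≤ (H.offDiag.filter (fun pq => f pq.1 = f pq.2)).card + (H.image f).card := by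
  classical
  have h1 : (H.offDiag.filter (fun pq => f pq.1 = f pq.2)).card =
      ∑ c ∈ H.image f, ((H.filter (fun p => f p = c)).offDiag).card := by
    rw [Finset.card_eq_sum_card_fiberwise (f := fun pq => f pq.1) (t := H.image f)]
    · apply Finset.sum_congr rfl
      intro c _
      congr 1
      ext ⟨p, q⟩
      simp only [Finset.mem_filter, Finset.mem_offDiag]
      constructor
      · rintro ⟨⟨⟨h1, h2, h3⟩, h4⟩, h5⟩
        exact ⟨⟨h1, h5⟩, ⟨h2, h4.symm.trans h5⟩, h3⟩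
      · rintro ⟨⟨h1, h5⟩, ⟨h2, h6⟩, h3⟩
        exact ⟨⟨⟨h1, h2, h3⟩, h5.trans h6.symm⟩, h5⟩
    · intro pq hpq
      simp only [Finset.coe_filter, Finset.mem_offDiag, Set.mem_ofPred_eq] at hpq
      exact Finset.mem_coe.2 (Finset.mem_image_of_mem _ hpq.1.1)
  have h2 : H.card = ∑ c ∈ H.image f, (H.filter (fun p => f p = c)).card :=
    Finset.card_eq_sum_card_image f H
  have h3 : (H.image f).card = ∑ c ∈ H.image f, 1 := by simp
  rw [h1, h2, h3, ← Finset.sum_add_distrib]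
  apply Finset.sum_le_sum
  intro c _
  rw [Finset.offDiag_card]
  generalize (H.filter (fun p => f p = c)).card = m
  rcases m with _ | m
  · simp
  · rw [← Nat.mul_sub_one]
    simp only [Nat.add_sub_cancel]
    nlinarith [Nat.zero_le m]

/-- The block of a real number: ranks in `I` divided by `G`. -/
noncomputable def blk (I : Finset ℝ) (G : ℕ) (x : ℝ) : ℕ := rankIn I (fun x : ℝ => x) x / G

theorem blk_mono (I : Finset ℝ) (G : ℕ) {x y : ℝ} (h : x ≤ y) : blk I G x ≤ blk I G y :=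
  Nat.div_le_div_right (rankIn_mono I (fun x : ℝ => x) h)

theorem card_blk (I : Finset ℝ) {G : ℕ} (hG : 1 ≤ G) (c : ℕ) :
    (I.filter (fun x => blk I G x = c)).card ≤ G :=
  card_fibre_rank (X := fun x : ℝ => x) (fun _ _ _ _ h => h) hG c

/-- The pairs of columns in a common block. -/
noncomputable def blkPairs (I I' : Finset ℝ) (G : ℕ) : Finset (ℝ × ℝ) :=
  I'.offDiag.filter (fun xx => blk I G xx.1 = blk I G xx.2)

theorem mem_blkPairs {I I' : Finset ℝ} {G : ℕ} {xx : ℝ × ℝ} :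
    xx ∈ blkPairs I I' G ↔ xx.1 ∈ I' ∧ xx.2 ∈ I' ∧ xx.1 ≠ xx.2 ∧
      blk I G xx.1 = blk I G xx.2 := by
  simp only [blkPairs, Finset.mem_filter, Finset.mem_offDiag, and_assoc]

theorem card_blkPairs {I I' : Finset ℝ} (hI : I' ⊆ I) {G : ℕ} (hG : 1 ≤ G) :
    (blkPairs I I' G).card ≤ I.card * G := by
  classical
  calc (blkPairs I I' G).card
      ≤ ((I ×ˢ I).filter (fun xx => blk I G xx.1 = blk I G xx.2)).card := by
        apply Finset.card_le_card
        intro xx hxx
        rw [mem_blkPairs] at hxx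
        rw [Finset.mem_filter, Finset.mem_product]
        exact ⟨⟨hI hxx.1, hI hxx.2.1⟩, hxx.2.2.2⟩
    _ = ∑ x ∈ I, (I.filter (fun y => blk I G x = blk I G y)).card := by
        rw [Finset.card_filter, Finset.sum_product]
        apply Finset.sum_congr rfl
        intro x _
        rw [Finset.card_filter]
    _ ≤ ∑ x ∈ I, G := by
        apply Finset.sum_le_sum
        intro x _
        have := card_blk I hG (blk I G x)
        simpa only [eq_comm] using this
    _ = I.card * G := by simp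

/-- The lines hitting both columns. -/
noncomputable def thrC (D : ℝ → Finset ℝ) (𝓛 : Finset (ℝ × ℝ)) (xx : ℝ × ℝ) : Finset (ℝ × ℝ) :=
  𝓛.filter (fun L => L.1 * xx.1 + L.2 ∈ D xx.1 ∧ L.1 * xx.2 + L.2 ∈ D xx.2)

/-- The pairs of lines crossing between two columns. -/
noncomputable def crL (𝓛 : Finset (ℝ × ℝ)) (xx : ℝ × ℝ) : Finset ((ℝ × ℝ) × (ℝ × ℝ)) :=
  (𝓛 ×ˢ 𝓛).filter (fun LL => LL.1.1 * xx.1 + LL.1.2 < LL.2.1 * xx.1 + LL.2.2 ∧
    LL.2.1 * xx.2 + LL.2.2 < LL.1.1 * xx.2 + LL.1.2)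

/-- Lines through two different light columns. -/
theorem thr_cube {C : ℕ} (hC : ∀ (E : Finset (ℝ × ℝ)) (M : ℕ),
    (E.image Prod.fst).card ≤ M → (E.image Prod.snd).card ≤ M →
    E.card ^ 3 ≤ C * (M ^ 2 *
      ((E ×ˢ E).filter (fun pq => pq.1.1 < pq.2.1 ∧ pq.2.2 < pq.1.2)).card + M ^ 3))
    (D : ℝ → Finset ℝ) (𝓛 : Finset (ℝ × ℝ)) (xx : ℝ × ℝ) (hne : xx.1 ≠ xx.2) (M : ℕ)
    (h1 : (D xx.1).card ≤ M) (h2 : (D xx.2).card ≤ M) :
    (thrC D 𝓛 xx).card ^ 3 ≤ C * (M ^ 2 * (crL 𝓛 xx).card + M ^ 3) := by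
  classical
  set φ : ℝ × ℝ → ℝ × ℝ := fun L => (L.1 * xx.1 + L.2, L.1 * xx.2 + L.2) with hφ
  have hinj : Function.Injective φ := by
    intro L L' h
    have h3 := Prod.mk.inj h
    have h5 : (L.1 - L'.1) * (xx.1 - xx.2) = 0 := by linear_combination h3.1 - h3.2
    have h6 : L.1 = L'.1 := by
      rcases mul_eq_zero.1 h5 with h | h
      · linarith
      · exact absurd (by linarith) hne
    apply Prod.ext h6
    have := h3.1
    rw [h6] at this
    linarith
  have h3 := hC ((thrC D 𝓛 xx).image φ) M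
    (by
      refine le_trans (Finset.card_le_card ?_) h1
      intro y hy
      obtain ⟨p, hp, rfl⟩ := Finset.mem_image.1 hy
      obtain ⟨L, hL, rfl⟩ := Finset.mem_image.1 hp
      exact (Finset.mem_filter.1 hL).2.1)
    (by
      refine le_trans (Finset.card_le_card ?_) h2
      intro y hy
      obtain ⟨p, hp, rfl⟩ := Finset.mem_image.1 hy
      obtain ⟨L, hL, rfl⟩ := Finset.mem_image.1 hp
      exact (Finset.mem_filter.1 hL).2.2)
  rw [Finset.card_image_of_injective _ hinj] at h3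
  refine h3.trans (Nat.mul_le_mul_left _ (Nat.add_le_add_right (Nat.mul_le_mul_left _ ?_) _))
  calc _ ≤ ((crL 𝓛 xx).image (fun LL => (φ LL.1, φ LL.2))).card := by
        apply Finset.card_le_card
        rintro ⟨p, q⟩ hpq
        rw [Finset.mem_filter, Finset.mem_product] at hpq
        obtain ⟨⟨hp, hq⟩, h4, h5⟩ := hpq
        obtain ⟨L, hL, rfl⟩ := Finset.mem_image.1 hp
        obtain ⟨L', hL', rfl⟩ := Finset.mem_image.1 hq
        refine Finset.mem_image.2 ⟨(L, L'), ?_, rfl⟩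
        exact Finset.mem_filter.2 ⟨Finset.mem_product.2
          ⟨(Finset.mem_filter.1 hL).1, (Finset.mem_filter.1 hL').1⟩, h4, h5⟩
    _ ≤ _ := Finset.card_image_le

/-- Two lines cross in at most one block. -/
theorem sum_crL {I I' : Finset ℝ} (hI : I' ⊆ I) {G : ℕ} (hG : 1 ≤ G) (𝓛 : Finset (ℝ × ℝ)) :
    ∑ xx ∈ blkPairs I I' G, (crL 𝓛 xx).card ≤ G ^ 2 * 𝓛.card ^ 2 := by
  classical
  have h1 : ∑ xx ∈ blkPairs I I' G, (crL 𝓛 xx).card = ∑ LL ∈ 𝓛 ×ˢ 𝓛,
      ((blkPairs I I' G).filter (fun xx => LL.1.1 * xx.1 + LL.1.2 < LL.2.1 * xx.1 + LL.2.2 ∧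
        LL.2.1 * xx.2 + LL.2.2 < LL.1.1 * xx.2 + LL.1.2)).card := by
    simp only [crL, Finset.card_filter]
    rw [Finset.sum_comm]
  rw [h1]
  calc _ ≤ ∑ LL ∈ 𝓛 ×ˢ 𝓛, G ^ 2 := by
        apply Finset.sum_le_sum
        rintro ⟨L, L'⟩ _
        rcases eq_or_ne L.1 L'.1 with h | h
        · have : ((blkPairs I I' G).filter (fun xx =>
              L.1 * xx.1 + L.2 < L'.1 * xx.1 + L'.2 ∧
              L'.1 * xx.2 + L'.2 < L.1 * xx.2 + L.2)) = ∅ := by
            apply Finset.filter_eq_empty_iff.2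
            rintro xx _ ⟨h2, h3⟩
            rw [h] at h2 h3
            linarith
          rw [this]
          simp
        · set z := (L'.2 - L.2) / (L.1 - L'.1) with hz
          have hs : L.1 - L'.1 ≠ 0 := sub_ne_zero.2 h
          have hz' : (L.1 - L'.1) * z = L'.2 - L.2 := by
            rw [hz]; field_simp
          calc _ ≤ ((I.filter (fun x => blk I G x = blk I G z)) ×ˢ
                (I.filter (fun x => blk I G x = blk I G z))).card := by
                apply Finset.card_le_card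
                intro xx hxx
                rw [Finset.mem_filter, mem_blkPairs] at hxx
                obtain ⟨⟨hx1, hx2, hne, hb⟩, h2, h3⟩ := hxx
                simp only at h2 h3
                have h4 : (L.1 - L'.1) * (xx.1 - z) < 0 := by
                  have : (L.1 - L'.1) * (xx.1 - z) = (L.1 - L'.1) * xx.1 -
                    (L.1 - L'.1) * z := by ring
                  rw [this, hz']
                  linarith
                have h5 : 0 < (L.1 - L'.1) * (xx.2 - z) := by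
                  have : (L.1 - L'.1) * (xx.2 - z) = (L.1 - L'.1) * xx.2 -
                    (L.1 - L'.1) * z := by ring
                  rw [this, hz']
                  linarith
                have h6 : blk I G xx.1 = blk I G z := by
                  rcases lt_or_gt_of_ne hs with h0 | h0
                  · have h7 : z ≤ xx.1 := by nlinarith
                    have h8 : xx.2 ≤ z := by nlinarith
                    exact le_antisymm (hb ▸ blk_mono I G h8) (blk_mono I G h7)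
                  · have h7 : xx.1 ≤ z := by nlinarith
                    have h8 : z ≤ xx.2 := by nlinarith
                    exact le_antisymm (blk_mono I G h7) (hb ▸ blk_mono I G h8)
                rw [Finset.mem_product, Finset.mem_filter, Finset.mem_filter]
                exact ⟨⟨hI hx1, h6⟩, hI hx2, hb ▸ h6⟩
            _ ≤ G ^ 2 := by
                rw [Finset.card_product, sq]
                exact Nat.mul_le_mul (card_blk I hG _) (card_blk I hG _)
    _ = G ^ 2 * 𝓛.card ^ 2 := by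
        simp [Finset.card_product, sq]
        ring

/-- Every line has many pairs of hits in a common block. -/
theorem rho_le {I : Finset ℝ} {D : ℝ → Finset ℝ} {ρ M G : ℕ} (hρ : 2 ≤ ρ)
    (hM : 4 * (∑ x ∈ I, (D x).card) < ρ * (M + 1)) (hG' : 8 * I.card < ρ * G) (L : ℝ × ℝ)
    (hL : ρ ≤ (I.filter (fun x => L.1 * x + L.2 ∈ D x)).card) :
    ρ ≤ 8 * ((blkPairs I (I.filter (fun x => (D x).card ≤ M)) G).filter
      (fun xx => L.1 * xx.1 + L.2 ∈ D xx.1 ∧ L.1 * xx.2 + L.2 ∈ D xx.2)).card := by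
  classical
  set S := ∑ x ∈ I, (D x).card with hS
  set Hv := I.filter (fun x => M < (D x).card) with hHv
  set H := (I.filter (fun x => (D x).card ≤ M)).filter (fun x => L.1 * x + L.2 ∈ D x) with hH
  have hS0 : 0 < S := by
    obtain ⟨x, hx⟩ := Finset.card_pos.1 (lt_of_lt_of_le (by omega) hL)
    rw [Finset.mem_filter] at hx
    exact lt_of_lt_of_le (Finset.card_pos.2 ⟨_, hx.2⟩)
      (Finset.single_le_sum (f := fun x => (D x).card) (fun _ _ => Nat.zero_le _) hx.1)
  have h1 : Hv.card * (M + 1) ≤ S := by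
    calc Hv.card * (M + 1) = ∑ x ∈ Hv, (M + 1) := by simp
      _ ≤ ∑ x ∈ Hv, (D x).card := Finset.sum_le_sum (fun x hx => (Finset.mem_filter.1 hx).2)
      _ ≤ S := Finset.sum_le_sum_of_subset (Finset.filter_subset _ _)
  have h2 : 4 * Hv.card < ρ := by
    rcases Nat.eq_zero_or_pos Hv.card with h0 | h0
    · omega
    · by_contra hcon
      push Not at hcon
      have h3 : Hv.card * (4 * S) < Hv.card * (ρ * (M + 1)) := Nat.mul_lt_mul_of_pos_left hM h0
      have h4 : Hv.card * (ρ * (M + 1)) ≤ ρ * S := by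
        calc Hv.card * (ρ * (M + 1)) = ρ * (Hv.card * (M + 1)) := by ring
          _ ≤ ρ * S := Nat.mul_le_mul_left _ h1
      have h5 : ρ * S ≤ 4 * Hv.card * S := Nat.mul_le_mul_right _ hcon
      have h6 : Hv.card * (4 * S) = 4 * Hv.card * S := by ring
      omega
  have h3 : ρ ≤ H.card + Hv.card := by
    refine hL.trans ((Finset.card_le_card ?_).trans (Finset.card_union_le _ _))
    intro x hx
    rw [Finset.mem_filter] at hx
    rcases le_or_gt (D x).card M with h | h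
    · exact Finset.mem_union_left _ (Finset.mem_filter.2 ⟨Finset.mem_filter.2 ⟨hx.1, h⟩, hx.2⟩)
    · exact Finset.mem_union_right _ (Finset.mem_filter.2 ⟨hx.1, h⟩)
  have h4 := card_le_same H (blk I G)
  have h5 : (H.image (blk I G)).card ≤ (I.card - 1) / G + 1 := by
    calc _ ≤ (Finset.range ((I.card - 1) / G + 1)).card := by
          apply Finset.card_le_card
          intro v hv
          obtain ⟨x, hx, rfl⟩ := Finset.mem_image.1 hv
          have hxI : x ∈ I := (Finset.mem_filter.1 (Finset.mem_filter.1 hx).1).1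
          have h6 := rankIn_lt I (fun x : ℝ => x) hxI
          rw [Finset.mem_range]
          exact Nat.lt_succ_of_le (Nat.div_le_div_right (by omega))
      _ = _ := Finset.card_range _
  have h6 : 8 * ((I.card - 1) / G) < ρ := by
    by_contra hcon
    push Not at hcon
    have h7 : ρ * G ≤ 8 * ((I.card - 1) / G) * G := Nat.mul_le_mul_right _ hcon
    have h8 := Nat.div_mul_le_self (I.card - 1) G
    have h9 : 8 * ((I.card - 1) / G) * G = 8 * ((I.card - 1) / G * G) := by ring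
    omega
  have h7 : (H.offDiag.filter (fun pq => blk I G pq.1 = blk I G pq.2)).card ≤
      ((blkPairs I (I.filter (fun x => (D x).card ≤ M)) G).filter
      (fun xx => L.1 * xx.1 + L.2 ∈ D xx.1 ∧ L.1 * xx.2 + L.2 ∈ D xx.2)).card := by
    apply Finset.card_le_card
    intro xx hxx
    rw [Finset.mem_filter, Finset.mem_offDiag] at hxx
    obtain ⟨⟨h8, h9, h10⟩, h11⟩ := hxx
    have h12 := Finset.mem_filter.1 h8
    have h13 := Finset.mem_filter.1 h9
    rw [Finset.mem_filter, mem_blkPairs]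
    exact ⟨⟨h12.1, h13.1, h10, h11⟩, h12.2, h13.2⟩
  omega

theorem col : ColStmt := by
  classical
  obtain ⟨C, hC⟩ := cross
  refine ⟨2 * (512 * 104976 * C), ?_⟩
  intro I D 𝓛 ρ hρ h𝓛
  set a := I.card with ha
  set S := ∑ x ∈ I, (D x).card with hS
  set N := 𝓛.card with hN
  rcases Nat.eq_zero_or_pos N with hN0 | hN0
  · rw [hN0]; simp
  obtain ⟨L0, hL0⟩ := Finset.card_pos.1 hN0
  have hρa : ρ ≤ a := (by
    have := h𝓛 L0 hL0
    refine le_trans ?_ (Finset.card_filter_le I (fun x => L0.1 * x + L0.2 ∈ D x))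
    convert this)
  set M := 4 * S / ρ with hM
  set G := 8 * a / ρ + 1 with hG
  have hG1 : 1 ≤ G := Nat.le_add_left 1 _
  have hM1 : 4 * S < ρ * (M + 1) := Nat.lt_mul_div_succ _ (by omega)
  have hM2 : ρ * M ≤ 4 * S := Nat.mul_div_le _ _
  have hG2 : 8 * a < ρ * G := Nat.lt_mul_div_succ _ (by omega)
  have hG3 : ρ * G ≤ 9 * a := by
    have := Nat.mul_div_le (8 * a) ρ
    rw [hG, mul_add, mul_one]
    omega
  set I' := I.filter (fun x => (D x).card ≤ M) with hI'
  have hI'I : I' ⊆ I := Finset.filter_subset _ _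
  set P := blkPairs I I' G with hP
  have hPcard : P.card ≤ a * G := card_blkPairs hI'I hG1
  set Λ := ∑ xx ∈ P, (thrC D 𝓛 xx).card with hΛ
  have h1 : ρ * N ≤ 8 * Λ := by
    have h2 : Λ = ∑ L ∈ 𝓛, (P.filter
        (fun xx => L.1 * xx.1 + L.2 ∈ D xx.1 ∧ L.1 * xx.2 + L.2 ∈ D xx.2)).card := by
      rw [hΛ]
      simp only [thrC, Finset.card_filter]
      rw [Finset.sum_comm]
    rw [h2, Finset.mul_sum]
    calc ρ * N = ∑ L ∈ 𝓛, ρ := by simp [hN, mul_comm]
      _ ≤ _ := by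
          apply Finset.sum_le_sum
          intro L hL
          apply rho_le hρ hM1 hG2 L
          have := h𝓛 L hL
          convert this
  have h2 : Λ ^ 3 ≤ P.card ^ 2 * ∑ xx ∈ P, (thrC D 𝓛 xx).card ^ 3 :=
    pow_sum_le_card_mul_sum_pow (s := P) (f := fun xx => (thrC D 𝓛 xx).card)
      (fun _ _ => Nat.zero_le _) 2
  have h3 : ∑ xx ∈ P, (thrC D 𝓛 xx).card ^ 3 ≤ C * (M ^ 2 * (G ^ 2 * N ^ 2) + a * G * M ^ 3) := by
    calc _ ≤ ∑ xx ∈ P, C * (M ^ 2 * (crL 𝓛 xx).card + M ^ 3) := by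
          apply Finset.sum_le_sum
          intro xx hxx
          have h4 := mem_blkPairs.1 hxx
          exact thr_cube hC D 𝓛 xx h4.2.2.1 M (Finset.mem_filter.1 h4.1).2
            (Finset.mem_filter.1 h4.2.1).2
      _ = C * (M ^ 2 * ∑ xx ∈ P, (crL 𝓛 xx).card + P.card * M ^ 3) := by
          rw [← Finset.mul_sum, Finset.sum_add_distrib, ← Finset.mul_sum]
          simp
      _ ≤ _ := by
          apply Nat.mul_le_mul_left
          apply Nat.add_le_add
          · exact Nat.mul_le_mul_left _ (sum_crL hI'I hG1 𝓛)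
          · exact Nat.mul_le_mul_right _ hPcard
  have h4 : (ρ * N) ^ 3 ≤ 512 * ((a * G) ^ 2 *
      (C * (M ^ 2 * (G ^ 2 * N ^ 2) + a * G * M ^ 3))) := by
    calc (ρ * N) ^ 3 ≤ (8 * Λ) ^ 3 := Nat.pow_le_pow_left h1 3
      _ = 512 * Λ ^ 3 := by ring
      _ ≤ 512 * (P.card ^ 2 * ∑ xx ∈ P, (thrC D 𝓛 xx).card ^ 3) := Nat.mul_le_mul_left _ h2
      _ ≤ _ := Nat.mul_le_mul_left _ (Nat.mul_le_mul (Nat.pow_le_pow_left hPcard 2) h3)
  set K := 512 * 104976 * C with hK
  have h5 : ρ ^ 9 * N ^ 3 ≤ K * (a ^ 6 * S ^ 2 * N ^ 2 + a ^ 6 * S ^ 3) := by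
    calc ρ ^ 9 * N ^ 3 = ρ ^ 6 * (ρ * N) ^ 3 := by ring
      _ ≤ ρ ^ 6 * (512 * ((a * G) ^ 2 *
          (C * (M ^ 2 * (G ^ 2 * N ^ 2) + a * G * M ^ 3)))) := Nat.mul_le_mul_left _ h4
      _ = 512 * C * (a ^ 2 * (ρ * G) ^ 4 * (ρ * M) ^ 2 * N ^ 2 +
          a ^ 3 * (ρ * G) ^ 3 * (ρ * M) ^ 3) := by ring
      _ ≤ 512 * C * (a ^ 2 * (9 * a) ^ 4 * (4 * S) ^ 2 * N ^ 2 +
          a ^ 3 * (9 * a) ^ 3 * (4 * S) ^ 3) := by
          gcongr
      _ = 512 * C * (104976 * (a ^ 6 * S ^ 2 * N ^ 2) + 46656 * (a ^ 6 * S ^ 3)) := by ring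
      _ ≤ 512 * C * (104976 * (a ^ 6 * S ^ 2 * N ^ 2) + 104976 * (a ^ 6 * S ^ 3)) := by
          gcongr
          norm_num
      _ = _ := by rw [hK]; ring
  rcases le_or_gt S (N ^ 2) with h6 | h6
  · have h7 : ρ ^ 9 * N * N ^ 2 ≤ 2 * K * (a ^ 6 * S ^ 2) * N ^ 2 := by
      calc ρ ^ 9 * N * N ^ 2 = ρ ^ 9 * N ^ 3 := by ring
        _ ≤ K * (a ^ 6 * S ^ 2 * N ^ 2 + a ^ 6 * S ^ 3) := h5
        _ = K * (a ^ 6 * S ^ 2 * N ^ 2 + a ^ 6 * S ^ 2 * S) := by ring
        _ ≤ K * (a ^ 6 * S ^ 2 * N ^ 2 + a ^ 6 * S ^ 2 * N ^ 2) := by gcongr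
        _ = _ := by ring
    have h8 : ρ ^ 9 * N ≤ 2 * K * (a ^ 6 * S ^ 2) :=
      Nat.le_of_mul_le_mul_right h7 (by positivity)
    exact h8.trans (Nat.mul_le_mul_left _ (Nat.le_add_right _ _))
  · have h7 : (ρ ^ 3 * N) ^ 3 ≤ (2 * K * (a ^ 2 * S)) ^ 3 := by
      calc (ρ ^ 3 * N) ^ 3 = ρ ^ 9 * N ^ 3 := by ring
        _ ≤ K * (a ^ 6 * S ^ 2 * N ^ 2 + a ^ 6 * S ^ 3) := h5
        _ ≤ K * (a ^ 6 * S ^ 2 * S + a ^ 6 * S ^ 3) := by gcongr
        _ = 2 * K * (a ^ 2 * S) ^ 3 := by ring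
        _ ≤ (2 * K) ^ 3 * (a ^ 2 * S) ^ 3 := by
            gcongr
            exact Nat.le_self_pow (by norm_num) _
        _ = _ := by ring
    have h8 : ρ ^ 3 * N ≤ 2 * K * (a ^ 2 * S) := by
      by_contra hcon
      push Not at hcon
      exact absurd h7 (not_le.2 (Nat.pow_lt_pow_left hcon (by norm_num)))
    calc ρ ^ 9 * N = ρ ^ 6 * (ρ ^ 3 * N) := by ring
      _ ≤ ρ ^ 6 * (2 * K * (a ^ 2 * S)) := Nat.mul_le_mul_left _ h8
      _ = 2 * K * (a ^ 2 * ρ ^ 6 * S) := by ring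
      _ ≤ _ := Nat.mul_le_mul_left _ (Nat.le_add_left _ _)

end Pool.Agent.Lib.MP_b430f2_co.Plane
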