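import Mathlib
import Pool.Agent.Lib.MP_b430f2_co.Plane.Stmts
import Pool.Agent.Lib.MP_b430f2_co.Plane.AffEq

/-! M9: collinear sets, and the reduction to distinct abscissae. -/

namespace Pool.Agent.Lib.MP_b430f2_co.Plane

open Finset

/-- The coordinates `(p₀ + θ p₁, p₁)`. -/
noncomputable def coordL (θ : ℝ) : (Fin 2 → ℝ) ≃ₗ[ℝ] (ℝ × ℝ) where
  toFun p := (p 0 + θ * p 1, p 1)
  map_add' p q := by
    ext <;> simp
    ring
  map_smul' r p := by
    ext <;> simp
    ring
  invFun p := ![p.1 - θ * p.2, p.2]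
  left_inv p := by
    funext i
    fin_cases i <;> simp
  right_inv p := by
    ext <;> simp

theorem coordL_apply (θ : ℝ) (p : Fin 2 → ℝ) : coordL θ p = (p 0 + θ * p 1, p 1) := rfl

theorem exists_theta (P : Finset (Fin 2 → ℝ)) :
    ∃ θ : ℝ, Set.InjOn (fun p => (coordL θ p).1) (P : Set (Fin 2 → ℝ)) := by
  classical
  obtain ⟨θ, hθ⟩ := Infinite.exists_notMem_finset
    ((P ×ˢ P).image (fun pq => -((pq.1 0 - pq.2 0) / (pq.1 1 - pq.2 1))))
  refine ⟨θ, ?_⟩
  intro p hp q hq hpq
  simp only [coordL_apply] at hpq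
  by_contra hne
  have h1 : p 1 ≠ q 1 := by
    intro h
    apply hne
    rw [h] at hpq
    funext i
    fin_cases i
    · simpa using hpq
    · simpa using h
  apply hθ
  rw [Finset.mem_image]
  refine ⟨(p, q), Finset.mem_product.2 ⟨hp, hq⟩, ?_⟩
  have h2 : p 1 - q 1 ≠ 0 := sub_ne_zero.2 h1
  simp only
  rw [neg_eq_iff_eq_neg, div_eq_iff h2]
  linarith

theorem affEquivalent_iff_image (θ : ℝ) (A B : Finset (Fin 2 → ℝ)) :
    AffEquivalent A B ↔ PEquiv (A.map (coordL θ).toEquiv.toEmbedding)
      (B.map (coordL θ).toEquiv.toEmbedding) := by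
  rw [pequiv_iff]
  simp only [Finset.coe_map, Equiv.coe_toEmbedding, LinearEquiv.coe_toEquiv]
  constructor
  · rintro ⟨T, hT⟩
    refine ⟨((coordL θ).symm.toAffineEquiv.trans T).trans (coordL θ).toAffineEquiv, ?_⟩
    rw [← hT]
    ext p
    simp only [Set.mem_image, AffineEquiv.trans_apply, LinearEquiv.coe_toAffineEquiv,
      exists_exists_and_eq_and, LinearEquiv.symm_apply_apply]
  · rintro ⟨T, hT⟩
    refine ⟨((coordL θ).toAffineEquiv.trans T).trans (coordL θ).symm.toAffineEquiv, ?_⟩
    have h2 : (B : Set (Fin 2 → ℝ)) = (coordL θ).symm '' ((coordL θ) '' (B : Set (Fin 2 → ℝ))) := by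
      rw [← Set.image_comp]
      simp
    rw [h2, ← hT]
    ext p
    simp only [Set.mem_image, AffineEquiv.trans_apply, LinearEquiv.coe_toAffineEquiv,
      exists_exists_and_eq_and]

/-- M9b. -/
theorem coordStmt : CoordStmt := by
  classical
  intro k P
  obtain ⟨θ, hθ⟩ := exists_theta P
  set φ : (Fin 2 → ℝ) ≃ (ℝ × ℝ) := (coordL θ).toEquiv with hφ
  refine ⟨P.map φ.toEmbedding, ?_, Finset.card_map _, ?_⟩
  · intro p hp q hq hpq
    rw [Finset.mem_coe, Finset.mem_map] at hp hq
    obtain ⟨p', hp', rfl⟩ := hp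
    obtain ⟨q', hq', rfl⟩ := hq
    have := hθ hp' hq' hpq
    rw [this]
  · rw [planeClasses_eq, numClasses_eq]
    have hF : Function.Injective (fun c : Set (Finset (Fin 2 → ℝ)) =>
        (fun A : Finset (Fin 2 → ℝ) => A.map φ.toEmbedding) '' c) :=
      Set.image_injective.2 (Finset.map_injective _)
    rw [← Set.ncard_image_of_injective (classSet k P) hF]
    congr 1
    have hcl : ∀ A : Finset (Fin 2 → ℝ), pclass (A.map φ.toEmbedding) =
        (fun A : Finset (Fin 2 → ℝ) => A.map φ.toEmbedding) '' affClass A := by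
      intro A
      ext B
      simp only [pclass, affClass, Set.mem_image, Set.mem_ofPred_eq]
      constructor
      · intro h
        refine ⟨B.map φ.symm.toEmbedding, ?_, ?_⟩
        · rw [affEquivalent_iff_image θ, ← hφ, Finset.map_map]
          have : φ.symm.toEmbedding.trans φ.toEmbedding = Function.Embedding.refl _ := by
            ext x <;> simp
          rw [this, Finset.map_refl]
          exact h
        · rw [Finset.map_map]
          have : φ.symm.toEmbedding.trans φ.toEmbedding = Function.Embedding.refl _ := by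
            ext x <;> simp
          rw [this, Finset.map_refl]
      · rintro ⟨B', h, rfl⟩
        exact (affEquivalent_iff_image θ A B').1 h
    ext c
    constructor
    · rintro ⟨A, hA, hk, rfl⟩
      refine ⟨affClass (A.map φ.symm.toEmbedding), ?_, ?_⟩
      · refine ⟨_, ?_, ?_, rfl⟩
        · intro x hx
          rw [Finset.mem_map] at hx
          obtain ⟨y, hy, rfl⟩ := hx
          obtain ⟨z, hz, rfl⟩ := Finset.mem_map.1 (hA hy)
          simpa using hz
        · rw [Finset.card_map, hk]
      · simp only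
        rw [← hcl, Finset.map_map]
        have : φ.symm.toEmbedding.trans φ.toEmbedding = Function.Embedding.refl _ := by
          ext x <;> simp
        rw [this, Finset.map_refl]
        rfl
    · rintro ⟨c', ⟨A, hA, hk, rfl⟩, rfl⟩
      refine ⟨A.map φ.toEmbedding, Finset.map_subset_map.2 hA, by rw [Finset.card_map, hk], ?_⟩
      simp only
      rw [← hcl]
      rfl

/-- The point of the line `L` with abscissa `x 0`. -/
noncomputable def onLine (L : ℝ × ℝ) (x : Fin 1 → ℝ) : ℝ × ℝ := (x 0, L.1 * x 0 + L.2)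

theorem onLine_injective (L : ℝ × ℝ) : Function.Injective (onLine L) := by
  intro x y h
  funext i
  have := (Prod.mk.inj h).1
  fin_cases i
  exact this

/-- The affine map `x ↦ α x + β` of `ℝ^1`. -/
noncomputable def affOne (α β : ℝ) (hα : α ≠ 0) : (Fin 1 → ℝ) ≃ᵃ[ℝ] (Fin 1 → ℝ) :=
  (LinearEquiv.smulOfNeZero ℝ (Fin 1 → ℝ) α hα).toAffineEquiv.trans
    (AffineEquiv.constVAdd ℝ (Fin 1 → ℝ) (fun _ => β))

theorem affOne_apply (α β : ℝ) (hα : α ≠ 0) (x : Fin 1 → ℝ) (i : Fin 1) :
    affOne α β hα x i = α * x i + β := by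
  simp [affOne, add_comm]

theorem affEquivalent_of_onLine {L : ℝ × ℝ} {A B : Finset (Fin 1 → ℝ)} (hA : 2 ≤ A.card)
    (h : PEquiv (A.image (onLine L)) (B.image (onLine L))) : AffEquivalent A B := by
  classical
  obtain ⟨T, hT⟩ := h
  have h1 : ∀ x ∈ A, ∃ y ∈ B, onLine L y = T.app (onLine L x) := by
    intro x hx
    have : T.app (onLine L x) ∈ B.image (onLine L) := by
      rw [← hT]
      exact Finset.mem_image_of_mem _ (Finset.mem_image_of_mem _ hx)
    obtain ⟨y, hy, hxy⟩ := Finset.mem_image.1 this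
    exact ⟨y, hy, hxy⟩
  have h2 : ∀ y ∈ B, ∃ x ∈ A, T.app (onLine L x) = onLine L y := by
    intro y hy
    have : onLine L y ∈ (A.image (onLine L)).image T.app := by
      rw [hT]
      exact Finset.mem_image_of_mem _ hy
    obtain ⟨z, hz, hzy⟩ := Finset.mem_image.1 this
    obtain ⟨x, hx, rfl⟩ := Finset.mem_image.1 hz
    exact ⟨x, hx, hzy⟩
  set α := T.a + T.b * L.1 with hα
  set β := T.b * L.2 + T.e with hβ
  have hval : ∀ x y : Fin 1 → ℝ, onLine L y = T.app (onLine L x) → y 0 = α * x 0 + β := by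
    intro x y hxy
    have := congrArg Prod.fst hxy
    simp only [onLine, Aff.app] at this
    rw [this, hα, hβ]
    ring
  have hα0 : α ≠ 0 := by
    intro h0
    obtain ⟨x, hx, x', hx', hne⟩ := Finset.one_lt_card.1 (show 1 < A.card by omega)
    obtain ⟨y, hy, hxy⟩ := h1 x hx
    obtain ⟨y', hy', hxy'⟩ := h1 x' hx'
    have e1 := hval x y hxy
    have e2 := hval x' y' hxy'
    rw [h0, zero_mul, zero_add] at e1 e2
    have e3 : y = y' := by
      funext i
      fin_cases i
      exact e1.trans e2.symm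
    apply hne
    apply onLine_injective L
    apply T.app_injective
    rw [← hxy, ← hxy', e3]
  refine ⟨affOne α β hα0, ?_⟩
  ext y
  simp only [Set.mem_image, Finset.mem_coe]
  constructor
  · rintro ⟨x, hx, rfl⟩
    obtain ⟨y, hy, hxy⟩ := h1 x hx
    have : affOne α β hα0 x = y := by
      funext i
      rw [affOne_apply]
      fin_cases i
      exact (hval x y hxy).symm
    rw [this]
    exact hy
  · intro hy
    obtain ⟨x, hx, hxy⟩ := h2 y hy
    refine ⟨x, hx, ?_⟩
    funext i
    rw [affOne_apply]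
    fin_cases i
    exact (hval x y hxy.symm).symm

/-- M9a. -/
theorem collinearStmt : CollinearStmt := by
  classical
  intro k hk
  set C : ℕ := ((2 * k * 349528 ^ (1 + 1)) ^ (k - 1) * (4 ^ k * k ^ k * 4624)) with hC
  have hCk : (0 : ℝ) < (C : ℝ) + (k : ℝ) ^ (k - 1) := by
    have : (0 : ℝ) < (k : ℝ) ^ (k - 1) := by
      have : (0 : ℝ) < k := by exact_mod_cast (show 0 < k by omega)
      positivity
    positivity
  refine ⟨1 / ((C : ℝ) + (k : ℝ) ^ (k - 1)), by positivity, ?_⟩
  intro Q L hQ
  rw [div_mul_eq_mul_div, one_mul, div_le_iff₀ hCk]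
  have hposN := planeClasses_pos hQ
  have hpos : (1 : ℝ) ≤ planeClasses k Q := by exact_mod_cast hposN
  set P' : Finset (Fin 1 → ℝ) := (lineP Q L).image (fun p => fun _ => p.1) with hP'
  have hP'on : ∀ p ∈ lineP Q L, onLine L (fun _ => p.1) = p := by
    intro p hp
    have : OnL L p := (Finset.mem_filter.1 hp).2
    ext
    · rfl
    · exact this.symm
  have hcard : P'.card = (lineP Q L).card := by
    apply Finset.card_image_of_injOn
    intro p hp q hq hpq
    rw [← hP'on p hp, ← hP'on q hq]
    simp only at hpq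
    rw [hpq]
  have hsub : ∀ x ∈ P', onLine L x ∈ Q := by
    intro x hx
    obtain ⟨p, hp, rfl⟩ := Finset.mem_image.1 hx
    rw [hP'on p hp]
    exact (Finset.mem_filter.1 hp).1
  rcases lt_or_ge (lineP Q L).card k with hlt | hge
  · have h1 : ((lineP Q L).card : ℝ) ^ (k - 1) ≤ (k : ℝ) ^ (k - 1) := by
      apply pow_le_pow_left₀ (by positivity)
      exact_mod_cast hlt.le
    have hC0 : (0 : ℝ) ≤ (C : ℝ) := by positivity
    nlinarith [pow_nonneg (show (0 : ℝ) ≤ (k : ℝ) by positivity) (k - 1)]
  · have h1 := lower_nat (d := 1) (k := k) (by omega) P' (by rw [hcard]; exact hge)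
    rw [← hC, hcard] at h1
    have h2 : numClasses k P' ≤ planeClasses k Q := by
      rw [numClasses_eq, planeClasses_eq]
      -- representatives
      have hrep : ∀ c ∈ classSet k P', ∃ A : Finset (Fin 1 → ℝ), A ⊆ P' ∧ A.card = k ∧
          c = affClass A := fun c hc => hc
      choose! rep hr1 hr2 hr3 using hrep
      refine Set.ncard_le_ncard_of_injOn (fun c => pclass ((rep c).image (onLine L))) ?_ ?_
        (pclassSet_finite k Q)
      · intro c hc
        refine ⟨(rep c).image (onLine L), ?_, ?_, rfl⟩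
        · intro p hp
          obtain ⟨x, hx, rfl⟩ := Finset.mem_image.1 hp
          exact hsub x (hr1 c hc hx)
        · rw [Finset.card_image_of_injective _ (onLine_injective L), hr2 c hc]
      · intro c hc c' hc' hcc
        simp only at hcc
        rw [pclass_eq_iff] at hcc
        rw [hr3 c hc, hr3 c' hc', affClass_eq_iff]
        exact affEquivalent_of_onLine (by rw [hr2 c hc]; omega) hcc
    have h3 : ((lineP Q L).card : ℝ) ^ (k - 1) ≤ (C : ℝ) * planeClasses k Q := by
      have : (lineP Q L).card ^ (k - 1) ≤ C * planeClasses k Q :=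
        h1.trans (Nat.mul_le_mul_left _ h2)
      exact_mod_cast this
    have h4 : (0 : ℝ) ≤ (k : ℝ) ^ (k - 1) := by positivity
    nlinarith

end Pool.Agent.Lib.MP_b430f2_co.Plane
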