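import Mathlib
import Pool.Agent.Lib.MP_b430f2_co.Plane.Stmts
import Pool.Agent.Lib.MP_b430f2_co.Plane.AffEq

/-! M8: from the number of rich maps to the number of classes. -/

namespace Pool.Agent.Lib.MP_b430f2_co.Plane

open Finset

open Classical in
/-- The `k`-subsets of `Q` with at most two points on every line. -/
noncomputable def genSets (k : ℕ) (Q : Finset (ℝ × ℝ)) : Finset (Finset (ℝ × ℝ)) :=
  (Q.powersetCard k).filter (fun A => ∀ L, (lineP A L).card ≤ 2)

/-- Two points with distinct abscissae lie on exactly one line. -/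
theorem line_unique {p q L L' : ℝ × ℝ} (hpq : p.1 ≠ q.1) (h1 : OnL L p) (h2 : OnL L q)
    (h3 : OnL L' p) (h4 : OnL L' q) : L = L' := by
  unfold OnL at *
  have h5 : (L.1 - L'.1) * (p.1 - q.1) = 0 := by linarith
  have h6 : L.1 = L'.1 := by
    rcases mul_eq_zero.1 h5 with h | h
    · linarith
    · exact absurd (sub_eq_zero.1 h) hpq
  have h7 : L.2 = L'.2 := by
    rw [h1, h6] at h3
    linarith
  exact Prod.ext h6 h7

/-- The line through two points. -/
noncomputable def lineThrough (p q : ℝ × ℝ) : ℝ × ℝ :=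
  ((p.2 - q.2) / (p.1 - q.1), p.2 - (p.2 - q.2) / (p.1 - q.1) * p.1)

theorem lineThrough_left (p q : ℝ × ℝ) : OnL (lineThrough p q) p := by
  unfold OnL lineThrough
  ring

theorem lineThrough_right {p q : ℝ × ℝ} (hpq : p.1 ≠ q.1) : OnL (lineThrough p q) q := by
  unfold OnL lineThrough
  have h : p.1 - q.1 ≠ 0 := sub_ne_zero.2 hpq
  simp only
  field_simp
  ring

open Classical in
/-- The number of `k`-subsets of `Q` with three points on a line. -/
theorem card_bad_le {k : ℕ} (hk : 3 ≤ k) {Q : Finset (ℝ × ℝ)} {l : ℕ}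
    (hQ : Set.InjOn Prod.fst (Q : Set (ℝ × ℝ))) (hl : ∀ L, (lineP Q L).card ≤ l) :
    ((Q.powersetCard k).filter (fun A => ¬ ∀ L, (lineP A L).card ≤ 2)).card ≤
      Q.card ^ (k - 1) * l := by
  -- the index set
  set S : Finset ((ℝ × ℝ) × (ℝ × ℝ)) := Q ×ˢ Q with hS
  set Tr : Finset (Σ _ : (ℝ × ℝ) × (ℝ × ℝ), ℝ × ℝ) :=
    S.sigma (fun pq => lineP Q (lineThrough pq.1 pq.2)) with hTr
  have hTrcard : Tr.card ≤ Q.card ^ 2 * l := by
    rw [hTr, Finset.card_sigma]
    calc ∑ pq ∈ S, (lineP Q (lineThrough pq.1 pq.2)).card ≤ ∑ _pq ∈ S, l :=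
          Finset.sum_le_sum (fun pq _ => hl _)
      _ = Q.card ^ 2 * l := by
          rw [Finset.sum_const, smul_eq_mul, hS, Finset.card_product, sq]
  have hbad : ∀ A ∈ (Q.powersetCard k).filter (fun A => ¬ ∀ L, (lineP A L).card ≤ 2),
      ∃ p q r : ℝ × ℝ, p ∈ A ∧ q ∈ A ∧ r ∈ A ∧ p ≠ q ∧ p ≠ r ∧ q ≠ r ∧
        OnL (lineThrough p q) r := by
    intro A hA
    obtain ⟨hA1, hA2⟩ := Finset.mem_filter.1 hA
    rw [Finset.mem_powersetCard] at hA1
    push Not at hA2
    obtain ⟨L, hL⟩ := hA2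
    obtain ⟨p, q, r, hp, hq, hr, h1, h2, h3⟩ := Finset.two_lt_card_iff.1 hL
    have hp' := Finset.mem_filter.1 hp
    have hq' := Finset.mem_filter.1 hq
    have hr' := Finset.mem_filter.1 hr
    have hne : p.1 ≠ q.1 := fun h => h1 (hQ (hA1.1 hp'.1) (hA1.1 hq'.1) h)
    have hLeq : lineThrough p q = L :=
      line_unique hne (lineThrough_left p q) (lineThrough_right hne) hp'.2 hq'.2
    exact ⟨p, q, r, hp'.1, hq'.1, hr'.1, h1, h2, h3, by rw [hLeq]; exact hr'.2⟩
  choose! p q r hp hq hr h1 h2 h3 h4 using hbad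
  have hinj : ((Q.powersetCard k).filter (fun A => ¬ ∀ L, (lineP A L).card ≤ 2)).card ≤
      (Tr ×ˢ Q.powersetCard (k - 3)).card := by
    apply Finset.card_le_card_of_injOn
      (fun A => ((⟨(p A, q A), r A⟩ : Σ _ : (ℝ × ℝ) × (ℝ × ℝ), ℝ × ℝ), A \ {p A, q A, r A}))
    · intro A hA
      have hA' := Finset.mem_coe.1 hA
      obtain ⟨hA1, hA2⟩ := Finset.mem_filter.1 hA'
      rw [Finset.mem_powersetCard] at hA1
      rw [Finset.mem_coe, Finset.mem_product]
      constructor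
      · rw [hTr, Finset.mem_sigma]
        refine ⟨?_, ?_⟩
        · rw [hS, Finset.mem_product]
          exact ⟨hA1.1 (hp A hA'), hA1.1 (hq A hA')⟩
        · exact Finset.mem_filter.2 ⟨hA1.1 (hr A hA'), h4 A hA'⟩
      · rw [Finset.mem_powersetCard]
        refine ⟨Finset.sdiff_subset.trans hA1.1, ?_⟩
        rw [Finset.card_sdiff_of_subset, hA1.2]
        · congr 1
          rw [Finset.card_eq_three]
          exact ⟨_, _, _, h1 A hA', h2 A hA', h3 A hA', rfl⟩
        · intro x hx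
          simp only [Finset.mem_insert, Finset.mem_singleton] at hx
          rcases hx with rfl | rfl | rfl
          · exact hp A hA'
          · exact hq A hA'
          · exact hr A hA'
    · intro A hA B hB hAB
      have hA' := Finset.mem_coe.1 hA
      have hB' := Finset.mem_coe.1 hB
      have e1 := congrArg Prod.fst hAB
      have e2 := congrArg Prod.snd hAB
      simp only [Sigma.mk.injEq, heq_eq_eq, Prod.mk.injEq] at e1
      simp only at e2
      have e3 : ({p A, q A, r A} : Finset (ℝ × ℝ)) = {p B, q B, r B} := by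
        rw [e1.1.1, e1.1.2, e1.2]
      have e4 : ({p A, q A, r A} : Finset (ℝ × ℝ)) ⊆ A := by
        intro x hx
        simp only [Finset.mem_insert, Finset.mem_singleton] at hx
        rcases hx with rfl | rfl | rfl
        · exact hp A hA'
        · exact hq A hA'
        · exact hr A hA'
      have e5 : ({p B, q B, r B} : Finset (ℝ × ℝ)) ⊆ B := by
        intro x hx
        simp only [Finset.mem_insert, Finset.mem_singleton] at hx
        rcases hx with rfl | rfl | rfl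
        · exact hp B hB'
        · exact hq B hB'
        · exact hr B hB'
      rw [← Finset.sdiff_union_of_subset e4, ← Finset.sdiff_union_of_subset e5, e2, e3]
  refine hinj.trans ?_
  rw [Finset.card_product, Finset.card_powersetCard]
  calc Tr.card * Q.card.choose (k - 3) ≤ (Q.card ^ 2 * l) * Q.card ^ (k - 3) :=
        Nat.mul_le_mul hTrcard (Nat.choose_le_pow _ _)
    _ = Q.card ^ (2 + (k - 3)) * l := by rw [pow_add]; ring
    _ = Q.card ^ (k - 1) * l := by congr 2; omega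

/-- The number of `k`-subsets of `Q` with at most two points on every line. -/
theorem card_genSets_ge {k : ℕ} (hk : 3 ≤ k) {Q : Finset (ℝ × ℝ)} {l : ℕ}
    (hQ : Set.InjOn Prod.fst (Q : Set (ℝ × ℝ))) (hl : ∀ L, (lineP Q L).card ≤ l)
    (h1l : 1 ≤ l) (hq : 4 * k ^ k * l ≤ Q.card) :
    (Q.card : ℝ) ^ k ≤ 4 * (k : ℝ) ^ k * (genSets k Q).card := by
  classical
  set q := Q.card with hqdef
  have hkk : (1 : ℝ) ≤ k := by exact_mod_cast (show 1 ≤ k by omega)
  have hk2 : k ^ 2 ≤ k ^ k := Nat.pow_le_pow_right (by omega) (by omega)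
  have hq1 : 4 * k ^ k ≤ q := by
    calc 4 * k ^ k = 4 * k ^ k * 1 := by ring
      _ ≤ 4 * k ^ k * l := Nat.mul_le_mul_left _ h1l
      _ ≤ q := hq
  have hkq : k ≤ q := by
    have : k * 1 ≤ k ^ 2 := by rw [sq]; exact Nat.mul_le_mul_left _ (by omega)
    omega
  have hq0 : (0 : ℝ) < q := by exact_mod_cast (show 0 < q by omega)
  have hbad := card_bad_le hk hQ hl
  rw [← hqdef] at hbad
  have hsum : (genSets k Q).card +
      ((Q.powersetCard k).filter (fun A => ¬ ∀ L, (lineP A L).card ≤ 2)).card = q.choose k := by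
    rw [genSets, Finset.card_filter_add_card_filter_not, Finset.card_powersetCard]
  have hbadR : ((((Q.powersetCard k).filter (fun A => ¬ ∀ L, (lineP A L).card ≤ 2)).card : ℕ) : ℝ)
      ≤ (q : ℝ) ^ (k - 1) * l := by exact_mod_cast hbad
  have hsumR : ((genSets k Q).card : ℝ) +
      ((((Q.powersetCard k).filter (fun A => ¬ ∀ L, (lineP A L).card ≤ 2)).card : ℕ) : ℝ) =
      (q.choose k : ℝ) := by exact_mod_cast hsum
  -- the binomial coefficient
  have hch : (q : ℝ) ^ k ≤ 2 * (k : ℝ) ^ k * (q.choose k : ℝ) := by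
    have h1 : ((q + 1 - k : ℕ) : ℝ) ^ k ≤ (k.factorial : ℝ) * (q.choose k : ℝ) := by
      have := Nat.pow_sub_le_descFactorial q k
      rw [Nat.descFactorial_eq_factorial_mul_choose] at this
      exact_mod_cast this
    have h2 : ((q + 1 - k : ℕ) : ℝ) = q * (1 + (-((k : ℝ) - 1) / q)) := by
      rw [Nat.cast_sub (by omega)]
      push_cast
      field_simp
      ring
    have h3 : 1 + (k : ℝ) * (-((k : ℝ) - 1) / q) ≤ (1 + (-((k : ℝ) - 1) / q)) ^ k := by
      apply one_add_mul_le_pow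
      rw [neg_div, neg_le_neg_iff, div_le_iff₀ hq0]
      have : (k : ℝ) ≤ q := by exact_mod_cast hkq
      linarith
    have h4 : (1 : ℝ) / 2 ≤ 1 + (k : ℝ) * (-((k : ℝ) - 1) / q) := by
      have h5 : (k : ℝ) * (((k : ℝ) - 1) / q) ≤ 1 / 4 := by
        rw [← mul_div_assoc, div_le_iff₀ hq0]
        have h6 : (4 : ℝ) * (k : ℝ) ^ 2 ≤ q := by
          have : 4 * k ^ 2 ≤ q := by omega
          exact_mod_cast this
        nlinarith
      rw [neg_div]
      linarith
    have h5 : (q : ℝ) ^ k * (1 / 2) ≤ ((q + 1 - k : ℕ) : ℝ) ^ k := by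
      rw [h2, mul_pow]
      apply mul_le_mul_of_nonneg_left (h4.trans h3) (by positivity)
    have h6 : (k.factorial : ℝ) ≤ (k : ℝ) ^ k := by exact_mod_cast Nat.factorial_le_pow k
    have h7 : (0 : ℝ) ≤ (q.choose k : ℝ) := by positivity
    have h8 : (k.factorial : ℝ) * (q.choose k : ℝ) ≤ (k : ℝ) ^ k * (q.choose k : ℝ) :=
      mul_le_mul_of_nonneg_right h6 h7
    linarith
  have hb2 : 4 * (k : ℝ) ^ k * ((q : ℝ) ^ (k - 1) * l) ≤ (q : ℝ) ^ k := by
    have h9 : (4 : ℝ) * (k : ℝ) ^ k * l ≤ q := by exact_mod_cast hq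
    calc 4 * (k : ℝ) ^ k * ((q : ℝ) ^ (k - 1) * l) = (4 * (k : ℝ) ^ k * l) * (q : ℝ) ^ (k - 1) := by
          ring
      _ ≤ q * (q : ℝ) ^ (k - 1) := mul_le_mul_of_nonneg_right h9 (by positivity)
      _ = (q : ℝ) ^ k := by
          rw [← pow_succ']
          congr 1
          omega
  have h10 : (0 : ℝ) < (k : ℝ) ^ k := by positivity
  nlinarith

/-- The least number of points of the domain of `T` off a line. -/
noncomputable def uT (Q : Finset (ℝ × ℝ)) (T : Aff) : ℕ :=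
  sInf (Set.range (fun L : ℝ × ℝ => by
    classical exact ((dom Q T).filter (fun p => ¬ OnL L p)).card))

theorem nd_uT (Q : Finset (ℝ × ℝ)) (T : Aff) : ND Q (uT Q T) T := by
  intro L
  exact Nat.sInf_le ⟨L, rfl⟩

theorem exists_uT (Q : Finset (ℝ × ℝ)) (T : Aff) :
    ∃ L : ℝ × ℝ, (by classical exact ((dom Q T).filter (fun p => ¬ OnL L p)).card) = uT Q T := by
  have := Nat.sInf_mem (Set.range_nonempty (fun L : ℝ × ℝ => by
    classical exact ((dom Q T).filter (fun p => ¬ OnL L p)).card))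
  exact this

theorem uT_le (Q : Finset (ℝ × ℝ)) (T : Aff) : uT Q T ≤ Q.card := by
  classical
  obtain ⟨L, hL⟩ := exists_uT Q T
  rw [← hL]
  exact (Finset.card_filter_le _ _).trans (Finset.card_filter_le _ _)

open Classical in
/-- The number of general `k`-sets in the domain of `T`. -/
theorem card_omega_le {k : ℕ} (hk : 4 ≤ k) (Q : Finset (ℝ × ℝ)) (T : Aff) :
    ((genSets k Q).filter (fun A => A ⊆ dom Q T)).card ≤ 3 * Q.card ^ 2 * uT Q T ^ (k - 2) := by
  obtain ⟨L, hL⟩ := exists_uT Q T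
  set u := uT Q T with hu
  set D' := (dom Q T).filter (fun p => ¬ OnL L p) with hD'
  have hD'u : D'.card = u := by
    rw [← hL]
  have huq : u ≤ Q.card := uT_le Q T
  have h1 : ((genSets k Q).filter (fun A => A ⊆ dom Q T)).card ≤
      ((Finset.range 3).sigma (fun i => Q.powersetCard i ×ˢ D'.powersetCard (k - i))).card := by
    apply Finset.card_le_card_of_injOn
      (fun A => ⟨(lineP A L).card, lineP A L, A.filter (fun p => ¬ OnL L p)⟩)
    · intro A hA
      have hA' := Finset.mem_coe.1 hA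
      obtain ⟨hA1, hA2⟩ := Finset.mem_filter.1 hA'
      obtain ⟨hA3, hA4⟩ := Finset.mem_filter.1 hA1
      rw [Finset.mem_powersetCard] at hA3
      rw [Finset.mem_coe, Finset.mem_sigma]
      refine ⟨?_, ?_⟩
      · rw [Finset.mem_range]
        have := hA4 L
        simp only
        omega
      · simp only
        rw [Finset.mem_product, Finset.mem_powersetCard, Finset.mem_powersetCard]
        refine ⟨⟨(Finset.filter_subset _ _).trans hA3.1, rfl⟩, ?_, ?_⟩
        · intro p hp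
          obtain ⟨hp1, hp2⟩ := Finset.mem_filter.1 hp
          exact Finset.mem_filter.2 ⟨hA2 hp1, hp2⟩
        · have : (lineP A L).card + (A.filter (fun p => ¬ OnL L p)).card = A.card := by
            rw [lineP, Finset.card_filter_add_card_filter_not]
          simp only
          omega
    · intro A hA B hB hAB
      simp only [Sigma.mk.injEq] at hAB
      have h2 := eq_of_heq hAB.2
      have h3 : lineP A L = lineP B L := (Prod.mk.inj h2).1
      have h4 : A.filter (fun p => ¬ OnL L p) = B.filter (fun p => ¬ OnL L p) :=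
        (Prod.mk.inj h2).2
      have h5 : ∀ X : Finset (ℝ × ℝ), X = lineP X L ∪ X.filter (fun p => ¬ OnL L p) := by
        intro X
        rw [lineP, Finset.filter_union_filter_not_eq]
      rw [h5 A, h5 B, h3, h4]
  refine h1.trans ?_
  rw [Finset.card_sigma]
  have h2 : ∀ i ∈ Finset.range 3, (Q.powersetCard i ×ˢ D'.powersetCard (k - i)).card ≤
      Q.card ^ 2 * u ^ (k - 2) := by
    intro i hi
    rw [Finset.mem_range] at hi
    rw [Finset.card_product, Finset.card_powersetCard, Finset.card_powersetCard, hD'u]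
    calc Q.card.choose i * u.choose (k - i) ≤ Q.card ^ i * u ^ (k - i) :=
          Nat.mul_le_mul (Nat.choose_le_pow _ _) (Nat.choose_le_pow _ _)
      _ = Q.card ^ i * (u ^ (2 - i) * u ^ (k - 2)) := by
          rw [← pow_add]
          congr 2
          omega
      _ ≤ Q.card ^ i * (Q.card ^ (2 - i) * u ^ (k - 2)) := by
          apply Nat.mul_le_mul_left
          apply Nat.mul_le_mul_right
          exact Nat.pow_le_pow_left huq _
      _ = Q.card ^ (i + (2 - i)) * u ^ (k - 2) := by rw [pow_add]; ring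
      _ = Q.card ^ 2 * u ^ (k - 2) := by congr 2; omega
  calc ∑ i ∈ Finset.range 3, (Q.powersetCard i ×ˢ D'.powersetCard (k - i)).card
      ≤ ∑ _i ∈ Finset.range 3, Q.card ^ 2 * u ^ (k - 2) := Finset.sum_le_sum h2
    _ = 3 * Q.card ^ 2 * u ^ (k - 2) := by
        rw [Finset.sum_const, Finset.card_range, smul_eq_mul]; ring

theorem succ_pow_le (u j : ℕ) : (u + 1) ^ (j + 1) ≤ u ^ (j + 1) + (j + 1) * (u + 1) ^ j := by
  induction j with
  | zero => simp
  | succ j ih =>
    calc (u + 1) ^ (j + 1 + 1) = (u + 1) ^ (j + 1) * u + (u + 1) ^ (j + 1) := by ring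
      _ ≤ (u ^ (j + 1) + (j + 1) * (u + 1) ^ j) * u + (u + 1) ^ (j + 1) := by
          gcongr
      _ = u ^ (j + 1 + 1) + (j + 1) * ((u + 1) ^ j * u) + (u + 1) ^ (j + 1) := by ring
      _ ≤ u ^ (j + 1 + 1) + (j + 1) * ((u + 1) ^ j * (u + 1)) + (u + 1) ^ (j + 1) := by
          gcongr
          omega
      _ = u ^ (j + 1 + 1) + (j + 1 + 1) * (u + 1) ^ (j + 1) := by ring

theorem pow_le_layer (u j : ℕ) : u ^ (j + 1) ≤ ∑ v ∈ Finset.Icc 1 u, (j + 1) * v ^ j := by
  induction u with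
  | zero => simp
  | succ u ih =>
    rw [Finset.sum_Icc_succ_top (by omega)]
    exact (succ_pow_le u j).trans (Nat.add_le_add_right ih _)

/-- The layer cake bound. -/
theorem sum_uT_le {k C C₁ : ℕ} (hk : C₁ + 4 ≤ k) {Q : Finset (ℝ × ℝ)} {M : ℝ} (hM : 0 < M)
    (h : ∀ u : ℕ, 1 ≤ u → ∀ 𝓣 : Finset Aff, (∀ T ∈ 𝓣, ND Q u T) →
      (u : ℝ) ^ C₁ * 𝓣.card ≤ C * (Q.card : ℝ) ^ C₁ * M) (𝓣 : Finset Aff) :
    ∑ T ∈ 𝓣, ((uT Q T : ℕ) : ℝ) ^ (k - 2) ≤ k * C * M * (Q.card : ℝ) ^ (k - 2) := by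
  classical
  set q := Q.card with hq
  set j := k - 3 with hj
  have hk2 : k - 2 = j + 1 := by omega
  rw [hk2]
  have h1 : ∀ T ∈ 𝓣, ((uT Q T : ℕ) : ℝ) ^ (j + 1) ≤
      ∑ v ∈ Finset.Icc 1 q, (if v ≤ uT Q T then ((j : ℝ) + 1) * (v : ℝ) ^ j else 0) := by
    intro T _
    rw [← Finset.sum_filter]
    have h2 : (Finset.Icc 1 q).filter (fun v => v ≤ uT Q T) = Finset.Icc 1 (uT Q T) := by
      ext v
      simp only [Finset.mem_filter, Finset.mem_Icc]
      have := uT_le Q T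
      omega
    rw [h2]
    exact_mod_cast pow_le_layer (uT Q T) j
  have h3 : ∀ v ∈ Finset.Icc 1 q, ∑ T ∈ 𝓣, (if v ≤ uT Q T then ((j : ℝ) + 1) * (v : ℝ) ^ j else 0)
      ≤ ((j : ℝ) + 1) * (C * M * (q : ℝ) ^ j) := by
    intro v hv
    rw [Finset.mem_Icc] at hv
    rw [← Finset.sum_filter, Finset.sum_const, nsmul_eq_mul]
    have h4 := h v hv.1 (𝓣.filter (fun T => v ≤ uT Q T)) (by
      intro T hT L
      exact (Finset.mem_filter.1 hT).2.trans (nd_uT Q T L))
    have h5 : (v : ℝ) ^ j = (v : ℝ) ^ C₁ * (v : ℝ) ^ (j - C₁) := by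
      rw [← pow_add]; congr 1; omega
    have h6 : (q : ℝ) ^ j = (q : ℝ) ^ C₁ * (q : ℝ) ^ (j - C₁) := by
      rw [← pow_add]; congr 1; omega
    have hvq : (v : ℝ) ≤ q := by exact_mod_cast hv.2
    calc (((𝓣.filter (fun T => v ≤ uT Q T)).card : ℕ) : ℝ) * (((j : ℝ) + 1) * (v : ℝ) ^ j)
        = ((j : ℝ) + 1) * ((v : ℝ) ^ (j - C₁) *
          ((v : ℝ) ^ C₁ * (((𝓣.filter (fun T => v ≤ uT Q T)).card : ℕ) : ℝ))) := by
          rw [h5]; ring
      _ ≤ ((j : ℝ) + 1) * ((q : ℝ) ^ (j - C₁) * (C * (q : ℝ) ^ C₁ * M)) := by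
          gcongr
      _ = _ := by rw [h6]; ring
  calc ∑ T ∈ 𝓣, ((uT Q T : ℕ) : ℝ) ^ (j + 1)
      ≤ ∑ T ∈ 𝓣, ∑ v ∈ Finset.Icc 1 q,
          (if v ≤ uT Q T then ((j : ℝ) + 1) * (v : ℝ) ^ j else 0) := Finset.sum_le_sum h1
    _ = ∑ v ∈ Finset.Icc 1 q, ∑ T ∈ 𝓣,
          (if v ≤ uT Q T then ((j : ℝ) + 1) * (v : ℝ) ^ j else 0) := Finset.sum_comm
    _ ≤ ∑ _v ∈ Finset.Icc 1 q, ((j : ℝ) + 1) * (C * M * (q : ℝ) ^ j) := Finset.sum_le_sum h3
    _ = ((j : ℝ) + 1) * C * M * (q : ℝ) ^ (j + 1) := by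
        rw [Finset.sum_const, Nat.card_Icc, nsmul_eq_mul]
        simp only [Nat.add_sub_cancel]
        ring
    _ ≤ k * C * M * (q : ℝ) ^ (j + 1) := by
        have : (j : ℝ) + 1 ≤ k := by
          have : j + 1 ≤ k := by omega
          exact_mod_cast this
        gcongr

/-- M8. -/
theorem energyStmt : EnergyStmt := by
  classical
  intro k C C₁ hk
  have hkpos : (0 : ℝ) < k := by exact_mod_cast (show 0 < k by omega)
  refine ⟨1 / (48 * k * (C + 1) * ((k : ℝ) ^ k) ^ 2), by positivity, ?_⟩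
  intro Q l M hQ hl h1l hq hM h
  set q := Q.card with hqdef
  have hkk : 1 ≤ k ^ k := Nat.one_le_pow _ _ (by omega)
  have hqpos : 0 < q := by
    have : 0 < 4 * k ^ k * l := by positivity
    omega
  have hq0 : (0 : ℝ) < q := by exact_mod_cast hqpos
  have hgen := card_genSets_ge (k := k) (by omega) hQ hl h1l hq
  rw [← hqdef] at hgen
  -- Cauchy–Schwarz
  set B : Finset (Set (Finset (ℝ × ℝ))) := (genSets k Q).image pclass with hB
  have hBle : B.card ≤ planeClasses k Q := by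
    rw [planeClasses_eq, ← Set.ncard_coe_finset]
    apply Set.ncard_le_ncard _ (pclassSet_finite k Q)
    intro c hc
    rw [Finset.mem_coe, hB, Finset.mem_image] at hc
    obtain ⟨A, hA, rfl⟩ := hc
    obtain ⟨hA1, _⟩ := Finset.mem_filter.1 hA
    rw [Finset.mem_powersetCard] at hA1
    exact ⟨A, hA1.1, hA1.2, rfl⟩
  set E : Finset (Finset (ℝ × ℝ) × Finset (ℝ × ℝ)) :=
    (genSets k Q ×ˢ genSets k Q).filter (fun p => pclass p.1 = pclass p.2) with hE
  have hCS : (genSets k Q).card ^ 2 ≤ B.card * E.card := by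
    have h1 : (genSets k Q).card = ∑ b ∈ B, ((genSets k Q).filter (fun a => pclass a = b)).card :=
      Finset.card_eq_sum_card_fiberwise (fun a ha => Finset.mem_coe.2
        (Finset.mem_image_of_mem _ (Finset.mem_coe.1 ha)))
    have h2 : E.card = ∑ b ∈ B, ((genSets k Q).filter (fun a => pclass a = b)).card ^ 2 := by
      rw [Finset.card_eq_sum_card_fiberwise (f := fun p => pclass p.1) (t := B)]
      · apply Finset.sum_congr rfl
        intro b _
        rw [sq, ← Finset.card_product]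
        congr 1
        ext p
        simp only [hE, Finset.mem_filter, Finset.mem_product]
        constructor
        · rintro ⟨⟨⟨h3, h4⟩, h5⟩, h6⟩
          exact ⟨⟨h3, h6⟩, h4, h5 ▸ h6⟩
        · rintro ⟨⟨h3, h4⟩, h5, h6⟩
          exact ⟨⟨⟨h3, h5⟩, h4.trans h6.symm⟩, h4⟩
      · intro p hp
        have hp' := (Finset.mem_filter.1 (Finset.mem_coe.1 hp)).1
        exact Finset.mem_coe.2 (Finset.mem_image_of_mem _ (Finset.mem_product.1 hp').1)
    rw [h1, h2]
    exact_mod_cast sq_sum_le_card_mul_sum_sq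
  -- the maps
  have hT : ∀ p ∈ E, ∃ T : Aff, p.1.image T.app = p.2 := by
    intro p hp
    exact pclass_eq_iff.1 (Finset.mem_filter.1 hp).2
  have : Nonempty Aff := ⟨⟨1, 0, 0, 1, 0, 0, by norm_num⟩⟩
  choose! τ hτ using hT
  set 𝓣 : Finset Aff := E.image τ with h𝓣
  have hE2 : E.card ≤ ∑ T ∈ 𝓣, ((genSets k Q).filter (fun A => A ⊆ dom Q T)).card := by
    rw [Finset.card_eq_sum_card_fiberwise (f := τ) (t := 𝓣) (fun p hp => Finset.mem_coe.2
      (Finset.mem_image_of_mem _ (Finset.mem_coe.1 hp)))]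
    apply Finset.sum_le_sum
    intro T _
    apply Finset.card_le_card_of_injOn Prod.fst
    · intro p hp
      obtain ⟨hp1, hp2⟩ := Finset.mem_filter.1 (Finset.mem_coe.1 hp)
      have hp3 := Finset.mem_product.1 (Finset.mem_filter.1 hp1).1
      rw [Finset.mem_coe, Finset.mem_filter]
      refine ⟨hp3.1, ?_⟩
      intro x hx
      rw [dom, Finset.mem_filter]
      have h3 := (Finset.mem_powersetCard.1 (Finset.mem_filter.1 hp3.1).1).1
      have h4 := (Finset.mem_powersetCard.1 (Finset.mem_filter.1 hp3.2).1).1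
      refine ⟨h3 hx, h4 ?_⟩
      rw [← hτ p hp1, hp2]
      exact Finset.mem_image_of_mem _ hx
    · intro p hp p' hp' hpp
      obtain ⟨hp1, hp2⟩ := Finset.mem_filter.1 (Finset.mem_coe.1 hp)
      obtain ⟨hp1', hp2'⟩ := Finset.mem_filter.1 (Finset.mem_coe.1 hp')
      refine Prod.ext hpp ?_
      rw [← hτ p hp1, ← hτ p' hp1', hp2, hp2', hpp]
  have hsum := sum_uT_le hk hM h 𝓣
  rw [← hqdef] at hsum
  have hER : (E.card : ℝ) ≤ 3 * k * (C + 1) * M * (q : ℝ) ^ k := by
    have h1 : (E.card : ℝ) ≤ ∑ T ∈ 𝓣, (3 * (q : ℝ) ^ 2 * ((uT Q T : ℕ) : ℝ) ^ (k - 2)) := by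
      have h2 : E.card ≤ ∑ T ∈ 𝓣, 3 * q ^ 2 * uT Q T ^ (k - 2) :=
        hE2.trans (Finset.sum_le_sum (fun T _ => card_omega_le (by omega) Q T))
      exact_mod_cast h2
    rw [← Finset.mul_sum] at h1
    calc (E.card : ℝ) ≤ 3 * (q : ℝ) ^ 2 * ∑ T ∈ 𝓣, ((uT Q T : ℕ) : ℝ) ^ (k - 2) := h1
      _ ≤ 3 * (q : ℝ) ^ 2 * (k * C * M * (q : ℝ) ^ (k - 2)) := by gcongr
      _ = 3 * k * C * M * (q : ℝ) ^ (2 + (k - 2)) := by rw [pow_add]; ring
      _ = 3 * k * C * M * (q : ℝ) ^ k := by congr 2; omega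
      _ ≤ 3 * k * (C + 1) * M * (q : ℝ) ^ k := by
          gcongr
          linarith
  have hCSR : ((genSets k Q).card : ℝ) ^ 2 ≤ planeClasses k Q * (E.card : ℝ) := by
    have h1 : (genSets k Q).card ^ 2 ≤ planeClasses k Q * E.card :=
      hCS.trans (Nat.mul_le_mul_right _ hBle)
    exact_mod_cast h1
  have hqk : (0 : ℝ) < (q : ℝ) ^ k := by positivity
  have h2 : ((q : ℝ) ^ k) ^ 2 ≤ 16 * ((k : ℝ) ^ k) ^ 2 * ((genSets k Q).card : ℝ) ^ 2 := by
    calc ((q : ℝ) ^ k) ^ 2 ≤ (4 * (k : ℝ) ^ k * (genSets k Q).card) ^ 2 :=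
          pow_le_pow_left₀ hqk.le hgen 2
      _ = _ := by ring
  have h3 : (q : ℝ) ^ k * (q : ℝ) ^ k ≤
      (q : ℝ) ^ k * (48 * k * (C + 1) * ((k : ℝ) ^ k) ^ 2 * (M * planeClasses k Q)) := by
    calc (q : ℝ) ^ k * (q : ℝ) ^ k = ((q : ℝ) ^ k) ^ 2 := by ring
      _ ≤ 16 * ((k : ℝ) ^ k) ^ 2 * ((genSets k Q).card : ℝ) ^ 2 := h2
      _ ≤ 16 * ((k : ℝ) ^ k) ^ 2 * (planeClasses k Q * (3 * k * (C + 1) * M * (q : ℝ) ^ k)) := by
          gcongr
          exact hCSR.trans (by gcongr)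
      _ = _ := by ring
  have h4 := le_of_mul_le_mul_left h3 hqk
  rw [div_mul_eq_mul_div, one_mul, div_le_iff₀ (by positivity)]
  calc (q : ℝ) ^ k ≤ _ := h4
    _ = _ := by ring

end Pool.Agent.Lib.MP_b430f2_co.Plane
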