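import Mathlib
import Pool.Agent.Lib.MP_b430f2_co.Plane.Stmts
import Pool.Agent.Lib.MP_b430f2_co.Plane.Api

/-! M5: few rich affine maps fix two points of `P`. -/

namespace Pool.Agent.Lib.MP_b430f2_co.Plane

open Finset

namespace Hom

open Classical

/-- `H` moves every point along the direction of slope `c`. -/
structure IsSh (c : ℝ) (H : Aff) : Prop where
  hb : H.b ≠ 0
  h1 : H.c = c * (H.a - 1)
  h2 : H.d = 1 + c * H.b
  h3 : H.f = c * H.e

/-- The intercept of the line of slope `c` through `p`. -/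
def ro (c : ℝ) (p : ℝ × ℝ) : ℝ := p.2 - c * p.1

theorem onL_iff {c b : ℝ} {p : ℝ × ℝ} : OnL (c, b) p ↔ ro c p = b := by
  unfold OnL ro
  constructor <;> intro h <;> simp only at h ⊢ <;> linarith

theorem IsSh.ro_app {c : ℝ} {H : Aff} (h : IsSh c H) (p : ℝ × ℝ) :
    ro c (H.app p) = ro c p := by
  unfold ro
  simp only [Aff.app]
  rw [h.h1, h.h2, h.h3]
  ring

theorem fst_app (c : ℝ) (H : Aff) (p : ℝ × ℝ) :
    (H.app p).1 = (H.a + c * H.b) * p.1 + (H.b * ro c p + H.e) := by
  simp only [Aff.app, ro]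
  ring

theorem IsSh.gamma_ne {c : ℝ} {H : Aff} (h : IsSh c H) : H.a + c * H.b ≠ 0 := by
  intro h0
  apply H.det
  rw [h.h1, h.h2]
  linear_combination h0

theorem IsSh.slope {c : ℝ} {H : Aff} (h : IsSh c H) : (H.d - 1) / H.b = c := by
  have := h.hb
  rw [h.h2]
  field_simp
  ring

theorem isSh_of {P : Finset (ℝ × ℝ)} {l u : ℕ} (hP : Set.InjOn Prod.fst (P : Set (ℝ × ℝ)))
    (hl : ∀ L, (lineP P L).card ≤ l) (hlu : l < u) {H : Aff} (hm : ∃ p, H.app p ≠ p)
    (hf : ∃ p ∈ P, ∃ q ∈ P, p ≠ q ∧ H.app p = p ∧ H.app q = q) (hu : u ≤ (dom P H).card) :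
    IsSh ((H.d - 1) / H.b) H := by
  obtain ⟨p, hp, q, hq, hpq, hp0, hq0⟩ := hf
  have hne : p.1 - q.1 ≠ 0 := by
    intro h
    exact hpq (hP (Finset.mem_coe.2 hp) (Finset.mem_coe.2 hq) (by linarith))
  have e1 : H.a * p.1 + H.b * p.2 + H.e = p.1 := congrArg Prod.fst hp0
  have e2 : H.c * p.1 + H.d * p.2 + H.f = p.2 := congrArg Prod.snd hp0
  have e3 : H.a * q.1 + H.b * q.2 + H.e = q.1 := congrArg Prod.fst hq0
  have e4 : H.c * q.1 + H.d * q.2 + H.f = q.2 := congrArg Prod.snd hq0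
  have hb : H.b ≠ 0 := by
    intro hb
    have ha : H.a = 1 := by
      have : (H.a - 1) * (p.1 - q.1) = 0 := by rw [hb] at e1 e3; linarith
      rcases mul_eq_zero.1 this with h | h
      · linarith
      · exact absurd h hne
    have he : H.e = 0 := by rw [hb, ha] at e1; linarith
    have hd : H.d - 1 ≠ 0 := by
      intro hd
      have hc : H.c = 0 := by
        have : H.c * (p.1 - q.1) = 0 := by
          have : H.d = 1 := by linarith
          rw [this] at e2 e4; linarith
        rcases mul_eq_zero.1 this with h | h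
        · exact h
        · exact absurd h hne
      have hf : H.f = 0 := by
        have : H.d = 1 := by linarith
        rw [this, hc] at e2; linarith
      obtain ⟨x, hx⟩ := hm
      apply hx
      have hd1 : H.d = 1 := by linarith
      simp only [Aff.app]
      rw [ha, hb, hc, hd1, he, hf]
      apply Prod.ext <;> simp
    have hsub : dom P H ⊆ lineP P (-H.c / (H.d - 1), -H.f / (H.d - 1)) := by
      intro x hx
      unfold dom at hx
      rw [Finset.mem_filter] at hx
      unfold lineP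
      rw [Finset.mem_filter]
      refine ⟨hx.1, ?_⟩
      have hx1 : (H.app x).1 = x.1 := by
        simp only [Aff.app]
        rw [ha, hb, he]; ring
      have hx2 : H.app x = x := hP (Finset.mem_coe.2 hx.2) (Finset.mem_coe.2 hx.1) hx1
      have hx3 : H.c * x.1 + H.d * x.2 + H.f = x.2 := congrArg Prod.snd hx2
      unfold OnL
      simp only
      field_simp
      linarith
    have := Finset.card_le_card hsub
    have := hl (-H.c / (H.d - 1), -H.f / (H.d - 1))
    omega
  have hbc : H.b * H.c = (H.d - 1) * (H.a - 1) := by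
    have h1 : (H.b * H.c - (H.d - 1) * (H.a - 1)) * (p.1 - q.1) = 0 := by
      linear_combination H.b * (e2 - e4) - (H.d - 1) * (e1 - e3)
    rcases mul_eq_zero.1 h1 with h | h
    · linarith
    · exact absurd h hne
  have hbf : H.b * H.f = (H.d - 1) * H.e := by
    linear_combination H.b * e2 - (H.d - 1) * e1 - p.1 * hbc
  refine ⟨hb, ?_, ?_, ?_⟩
  · field_simp
    linarith
  · field_simp
    ring
  · field_simp
    linarith

/-- The number of points of `P` on the line of slope `c` through `p`. -/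
noncomputable def mu (P : Finset (ℝ × ℝ)) (c : ℝ) (p : ℝ × ℝ) : ℕ :=
  (lineP P (c, ro c p)).card

/-- The abscissae of the points of `P` in the row `(c, b)`. -/
noncomputable def X (P : Finset (ℝ × ℝ)) (c b : ℝ) : Finset ℝ := (lineP P (c, b)).image Prod.fst

theorem mem_lineP {P : Finset (ℝ × ℝ)} {c b : ℝ} {p : ℝ × ℝ} :
    p ∈ lineP P (c, b) ↔ p ∈ P ∧ ro c p = b := by
  unfold lineP
  rw [Finset.mem_filter, onL_iff]

theorem mem_dom {P : Finset (ℝ × ℝ)} {H : Aff} {p : ℝ × ℝ} :
    p ∈ dom P H ↔ p ∈ P ∧ H.app p ∈ P := by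
  unfold dom
  rw [Finset.mem_filter]

theorem card_X_le (P : Finset (ℝ × ℝ)) (c : ℝ) (p : ℝ × ℝ) : (X P c (ro c p)).card ≤ mu P c p :=
  Finset.card_image_le

theorem row_rich {P : Finset (ℝ × ℝ)} (hP : Set.InjOn Prod.fst (P : Set (ℝ × ℝ))) {c : ℝ}
    {H : Aff} (h : IsSh c H) (b : ℝ) :
    ((dom P H).filter (fun x => ro c x = b)).card ≤
      ((X P c b).filter (fun x => (H.a + c * H.b) * x + (H.b * b + H.e) ∈ X P c b)).card := by
  have hinj : Set.InjOn Prod.fst (((dom P H).filter (fun x => ro c x = b) :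
      Finset (ℝ × ℝ)) : Set (ℝ × ℝ)) := by
    intro x hx y hy hxy
    rw [Finset.mem_coe, Finset.mem_filter, mem_dom] at hx hy
    exact hP (Finset.mem_coe.2 hx.1.1) (Finset.mem_coe.2 hy.1.1) hxy
  rw [← Finset.card_image_of_injOn hinj]
  apply Finset.card_le_card
  intro z hz
  rw [Finset.mem_image] at hz
  obtain ⟨x, hx, rfl⟩ := hz
  rw [Finset.mem_filter, mem_dom] at hx
  obtain ⟨⟨hxP, hxH⟩, hxb⟩ := hx
  rw [Finset.mem_filter]
  constructor
  · exact Finset.mem_image.2 ⟨x, mem_lineP.2 ⟨hxP, hxb⟩, rfl⟩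
  · refine Finset.mem_image.2 ⟨H.app x, mem_lineP.2 ⟨hxH, ?_⟩, ?_⟩
    · rw [h.ro_app, hxb]
    · rw [fst_app c, hxb]

theorem pair_bound {C : ℕ} (hC : ∀ (X Y : Finset ℝ) (𝓖 : Finset (ℝ × ℝ)) (m : ℕ), 2 ≤ m →
    (∀ g ∈ 𝓖, g.1 ≠ 0 ∧ m ≤ (X.filter (fun x => g.1 * x + g.2 ∈ Y)).card) →
    m ^ 3 * 𝓖.card ≤ C * (X.card + Y.card) ^ 4)
    {P : Finset (ℝ × ℝ)} (hP : Set.InjOn Prod.fst (P : Set (ℝ × ℝ))) {n u : ℕ} (hn : 0 < n)
    (hu : 0 < u)
    {c : ℝ} (𝓗 : Finset Aff) (hsh : ∀ H ∈ 𝓗, IsSh c H) (p p' : ℝ × ℝ) (hne : ro c p ≠ ro c p')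
    (hp : 16 * n ≤ mu P c p * u) (hp' : 16 * n ≤ mu P c p' * u)
    (hg : ∀ H ∈ 𝓗, mu P c p * u ≤
      4 * n * ((dom P H).filter (fun x => ro c x = ro c p)).card)
    (hg' : ∀ H ∈ 𝓗, mu P c p' * u ≤
      4 * n * ((dom P H).filter (fun x => ro c x = ro c p')).card) :
    u ^ 4 * 𝓗.card ≤ 4096 * C * n ^ 4 * (mu P c p * mu P c p') := by
  rcases 𝓗.eq_empty_or_nonempty with h0 | h0
  · rw [h0]; simp
  obtain ⟨H₁, hH₁, hmin₁⟩ := Finset.exists_min_image 𝓗
    (fun H => ((dom P H).filter (fun x => ro c x = ro c p)).card) h0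
  obtain ⟨H₂, hH₂, hmin₂⟩ := Finset.exists_min_image 𝓗
    (fun H => ((dom P H).filter (fun x => ro c x = ro c p')).card) h0
  set m := ((dom P H₁).filter (fun x => ro c x = ro c p)).card with hm
  set m' := ((dom P H₂).filter (fun x => ro c x = ro c p')).card with hm'
  have hm4 : 4 ≤ m := by
    have := hg H₁ hH₁
    rw [← hm] at this
    have h2 : 16 * n ≤ 4 * n * m := le_trans hp this
    by_contra hlt
    have : m ≤ 3 := by omega
    have : 4 * n * m ≤ 4 * n * 3 := Nat.mul_le_mul_left _ this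
    omega
  have hm4' : 4 ≤ m' := by
    have := hg' H₂ hH₂
    rw [← hm'] at this
    have h2 : 16 * n ≤ 4 * n * m' := le_trans hp' this
    by_contra hlt
    have : m' ≤ 3 := by omega
    have : 4 * n * m' ≤ 4 * n * 3 := Nat.mul_le_mul_left _ this
    omega
  -- the first row
  set G := 𝓗.image (fun H => (H.a + c * H.b, H.b * ro c p + H.e)) with hG
  have hGcard : m ^ 3 * G.card ≤ C * ((X P c (ro c p)).card + (X P c (ro c p)).card) ^ 4 := by
    apply hC _ _ G m (by omega)
    intro g hg1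
    rw [hG, Finset.mem_image] at hg1
    obtain ⟨H, hH, rfl⟩ := hg1
    exact ⟨(hsh H hH).gamma_ne, le_trans (hmin₁ H hH) (row_rich hP (hsh H hH) _)⟩
  -- fibres
  have hfib : ∀ g ∈ G, (𝓗.filter (fun H => (H.a + c * H.b, H.b * ro c p + H.e) = g)).card ≤
      4 * n * mu P c p' / u := by
    intro g hg1
    rw [Nat.le_div_iff_mul_le hu]
    set F := 𝓗.filter (fun H => (H.a + c * H.b, H.b * ro c p + H.e) = g) with hF
    -- the pairs `(x, γ x + δ')`
    have hcount : m' * F.card ≤ mu P c p' * mu P c p' := by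
      have hsum : ∑ H ∈ F, m' ≤ ∑ H ∈ F, ((X P c (ro c p')).filter
          (fun x => (H.a + c * H.b) * x + (H.b * ro c p' + H.e) ∈ X P c (ro c p'))).card := by
        apply Finset.sum_le_sum
        intro H hH
        rw [hF, Finset.mem_filter] at hH
        exact le_trans (hmin₂ H hH.1) (row_rich hP (hsh H hH.1) _)
      rw [Finset.sum_const, smul_eq_mul, mul_comm] at hsum
      refine le_trans hsum ?_
      rw [← Finset.card_sigma]
      have hcard : (X P c (ro c p') ×ˢ X P c (ro c p')).card ≤ mu P c p' * mu P c p' := by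
        rw [Finset.card_product]
        exact Nat.mul_le_mul (card_X_le _ _ _) (card_X_le _ _ _)
      refine le_trans ?_ hcard
      apply Finset.card_le_card_of_injOn
        (fun s : (_ : Aff) × ℝ => (s.2, (s.1.a + c * s.1.b) * s.2 + (s.1.b * ro c p' + s.1.e)))
      · intro s hs
        rw [Finset.mem_coe, Finset.mem_sigma] at hs
        have hs2 := Finset.mem_filter.1 hs.2
        rw [Finset.mem_coe, Finset.mem_product]
        exact ⟨hs2.1, hs2.2⟩
      · rintro ⟨H, x⟩ hs ⟨H', x'⟩ hs' heq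
        rw [Finset.mem_coe, Finset.mem_sigma] at hs hs'
        simp only [Prod.mk.injEq] at heq
        obtain ⟨hxx, hyy⟩ := heq
        subst hxx
        have hH := hs.1
        have hH' := hs'.1
        simp only [hF, Finset.mem_filter] at hH hH'
        have hA := hH.2.trans hH'.2.symm
        simp only [Prod.mk.injEq] at hA
        obtain ⟨hA1, hA2⟩ := hA
        have hbb : (H.b - H'.b) * (ro c p - ro c p') = 0 := by
          rw [hA1] at hyy
          linarith
        have hb' : H.b = H'.b := by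
          rcases mul_eq_zero.1 hbb with h | h
          · linarith
          · exact absurd (by linarith) hne
        have he' : H.e = H'.e := by rw [hb'] at hA2; linarith
        have ha' : H.a = H'.a := by rw [hb'] at hA1; linarith
        have hHH : H = H' := by
          have s1 := hsh H hH.1
          have s2 := hsh H' hH'.1
          apply Aff.ext ha' hb' _ _ he' _
          · rw [s1.h1, s2.h1, ha']
          · rw [s1.h2, s2.h2, hb']
          · rw [s1.h3, s2.h3, he']
        subst hHH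
        rfl
    have h1 : mu P c p' * u ≤ 4 * n * m' := hg' H₂ hH₂
    have hmupos : 0 < mu P c p' := by
      rcases Nat.eq_zero_or_pos (mu P c p') with h | h
      · rw [h] at hp'; omega
      · exact h
    have h2 : (F.card * u) * mu P c p' ≤ (4 * n * mu P c p') * mu P c p' := by
      calc (F.card * u) * mu P c p' = F.card * (mu P c p' * u) := by ring
        _ ≤ F.card * (4 * n * m') := Nat.mul_le_mul_left _ h1
        _ = 4 * n * (m' * F.card) := by ring
        _ ≤ 4 * n * (mu P c p' * mu P c p') := Nat.mul_le_mul_left _ hcount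
        _ = (4 * n * mu P c p') * mu P c p' := by ring
    exact Nat.le_of_mul_le_mul_right h2 hmupos
  have hcard : 𝓗.card ≤ (4 * n * mu P c p' / u) * G.card :=
    Finset.card_le_mul_card_image 𝓗 _ hfib
  have hcard2 : u * 𝓗.card ≤ 4 * n * mu P c p' * G.card := by
    calc u * 𝓗.card ≤ u * ((4 * n * mu P c p' / u) * G.card) := Nat.mul_le_mul_left _ hcard
      _ = ((4 * n * mu P c p' / u) * u) * G.card := by ring
      _ ≤ 4 * n * mu P c p' * G.card := Nat.mul_le_mul_right _ (Nat.div_mul_le_self _ _)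
  have hmupos : 0 < mu P c p := by
    rcases Nat.eq_zero_or_pos (mu P c p) with h | h
    · rw [h] at hp; omega
    · exact h
  have hGu : u ^ 3 * G.card ≤ 1024 * C * n ^ 3 * mu P c p := by
    have h1 : mu P c p * u ≤ 4 * n * m := hg H₁ hH₁
    have h3 : (u ^ 3 * G.card) * mu P c p ^ 3 ≤ (1024 * C * n ^ 3 * mu P c p) * mu P c p ^ 3 := by
      calc (u ^ 3 * G.card) * mu P c p ^ 3 = (mu P c p * u) ^ 3 * G.card := by ring
        _ ≤ (4 * n * m) ^ 3 * G.card :=
          Nat.mul_le_mul_right _ (Nat.pow_le_pow_left h1 3)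
        _ = 64 * n ^ 3 * (m ^ 3 * G.card) := by ring
        _ ≤ 64 * n ^ 3 * (C * ((X P c (ro c p)).card + (X P c (ro c p)).card) ^ 4) :=
          Nat.mul_le_mul_left _ hGcard
        _ ≤ 64 * n ^ 3 * (C * (mu P c p + mu P c p) ^ 4) := by
          apply Nat.mul_le_mul_left
          apply Nat.mul_le_mul_left
          exact Nat.pow_le_pow_left (Nat.add_le_add (card_X_le _ _ _) (card_X_le _ _ _)) 4
        _ = (1024 * C * n ^ 3 * mu P c p) * mu P c p ^ 3 := by ring
    exact Nat.le_of_mul_le_mul_right h3 (by positivity)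
  calc u ^ 4 * 𝓗.card = u ^ 3 * (u * 𝓗.card) := by ring
    _ ≤ u ^ 3 * (4 * n * mu P c p' * G.card) := Nat.mul_le_mul_left _ hcard2
    _ = 4 * n * mu P c p' * (u ^ 3 * G.card) := by ring
    _ ≤ 4 * n * mu P c p' * (1024 * C * n ^ 3 * mu P c p) := Nat.mul_le_mul_left _ hGu
    _ = 4096 * C * n ^ 4 * (mu P c p * mu P c p') := by ring


/-- Points of `P` in rows that are not rich. -/
def Rich (P : Finset (ℝ × ℝ)) (u : ℕ) (c : ℝ) (p : ℝ × ℝ) : Prop :=
  16 * P.card ≤ mu P c p * u

theorem mu_congr {P : Finset (ℝ × ℝ)} {c : ℝ} {p q : ℝ × ℝ} (h : ro c p = ro c q) :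
    mu P c p = mu P c q := by
  unfold mu; rw [h]

theorem sum_rows_le (P : Finset (ℝ × ℝ)) (c : ℝ) (S : Finset ℝ) :
    ∑ b ∈ S, (lineP P (c, b)).card ≤ P.card := by
  have h : ∀ b ∈ S, lineP P (c, b) = (P.filter (fun p => ro c p ∈ S)).filter
      (fun p => ro c p = b) := by
    intro b hb
    ext p
    rw [mem_lineP, Finset.mem_filter, Finset.mem_filter]
    constructor
    · rintro ⟨h1, h2⟩
      exact ⟨⟨h1, by rw [h2]; exact hb⟩, h2⟩
    · rintro ⟨⟨h1, _⟩, h2⟩
      exact ⟨h1, h2⟩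
  rw [Finset.sum_congr rfl (fun b hb => by rw [h b hb])]
  rw [← Finset.card_eq_sum_card_fiberwise (f := ro c)]
  · exact Finset.card_filter_le _ _
  · intro p hp
    rw [Finset.mem_coe, Finset.mem_filter] at hp
    exact hp.2

/-- Few points lie in rows in which `D` is thin. -/
theorem thin_rows (P D : Finset (ℝ × ℝ)) (u : ℕ) (c : ℝ) (hD : D ⊆ P) :
    4 * (D.filter (fun p => 4 * P.card *
      (D.filter (fun x => ro c x = ro c p)).card < mu P c p * u)).card ≤ u := by
  set T := D.filter (fun p => 4 * P.card *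
      (D.filter (fun x => ro c x = ro c p)).card < mu P c p * u) with hT
  rcases Nat.eq_zero_or_pos P.card with h0 | h0
  · have : D = ∅ := by
      have := Finset.card_le_card hD
      exact Finset.card_eq_zero.1 (by omega)
    rw [hT, this]; simp
  have h1 : T.card = ∑ b ∈ T.image (ro c), (T.filter (fun p => ro c p = b)).card := by
    apply Finset.card_eq_sum_card_fiberwise
    intro p hp
    exact Finset.mem_coe.2 (Finset.mem_image_of_mem _ (Finset.mem_coe.1 hp))
  have h2 : 4 * P.card * T.card ≤ P.card * u := by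
    rw [h1, Finset.mul_sum]
    calc ∑ b ∈ T.image (ro c), 4 * P.card * (T.filter (fun p => ro c p = b)).card
        ≤ ∑ b ∈ T.image (ro c), (lineP P (c, b)).card * u := by
          apply Finset.sum_le_sum
          intro b hb
          rw [Finset.mem_image] at hb
          obtain ⟨p, hp, rfl⟩ := hb
          rw [hT, Finset.mem_filter] at hp
          refine le_trans (Nat.mul_le_mul_left _ (Finset.card_le_card ?_)) hp.2.le
          apply Finset.filter_subset_filter
          rw [hT]; exact Finset.filter_subset _ _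
      _ = (∑ b ∈ T.image (ro c), (lineP P (c, b)).card) * u := by rw [Finset.sum_mul]
      _ ≤ P.card * u := Nat.mul_le_mul_right _ (sum_rows_le P c _)
  have h3 : P.card * (4 * T.card) ≤ P.card * u := by linarith
  exact Nat.le_of_mul_le_mul_left h3 h0

/-- Pairs in different rows. -/
theorem pairs_lb (P D : Finset (ℝ × ℝ)) (l u : ℕ) (c : ℝ) (hD : D ⊆ P)
    (hl : ∀ L, (lineP P L).card ≤ l) (hlu : 32 * l ≤ u) (hDu : u ≤ 2 * D.card) :
    u ^ 2 ≤ 8 * ((D ×ˢ D).filter (fun q => ro c q.1 ≠ ro c q.2)).card := by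
  have h1 : D.card * (D.card - l) ≤ ((D ×ˢ D).filter (fun q => ro c q.1 ≠ ro c q.2)).card := by
    rw [Finset.card_filter, Finset.sum_product, ← smul_eq_mul, ← Finset.sum_const]
    apply Finset.sum_le_sum
    intro p hp
    rw [← Finset.card_filter]
    have h2 : (D.filter (fun x => ro c p = ro c x)).card ≤ l := by
      refine le_trans (Finset.card_le_card ?_) (hl (c, ro c p))
      intro x hx
      rw [Finset.mem_filter] at hx
      exact mem_lineP.2 ⟨hD hx.1, hx.2.symm⟩
    have h3 := Finset.card_filter_add_card_filter_not (s := D) (fun x => ro c p = ro c x)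
    have h4 : (D.filter (fun x => ¬ (ro c p = ro c x))).card =
        (D.filter (fun x => ro c (p, x).1 ≠ ro c (p, x).2)).card := rfl
    omega
  have h5 : D.card - l + l = D.card := Nat.sub_add_cancel (by omega)
  obtain ⟨r, hr⟩ : ∃ r, r = D.card - l := ⟨_, rfl⟩
  rw [← hr] at h1 h5
  have h6 : u ^ 2 ≤ 8 * (D.card * r) := by
    have : 15 * D.card ≤ 16 * r := by omega
    nlinarith
  omega

/-- Case B for one slope. -/
theorem caseB {C : ℕ} (hC : ∀ (X Y : Finset ℝ) (𝓖 : Finset (ℝ × ℝ)) (m : ℕ), 2 ≤ m →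
    (∀ g ∈ 𝓖, g.1 ≠ 0 ∧ m ≤ (X.filter (fun x => g.1 * x + g.2 ∈ Y)).card) →
    m ^ 3 * 𝓖.card ≤ C * (X.card + Y.card) ^ 4)
    {P : Finset (ℝ × ℝ)} (hP : Set.InjOn Prod.fst (P : Set (ℝ × ℝ))) {l u : ℕ} (hn : 0 < P.card)
    (hu : 0 < u) (hl : ∀ L, (lineP P L).card ≤ l) (hlu : 32 * l ≤ u)
    {c : ℝ} (𝓗 : Finset Aff) (hsh : ∀ H ∈ 𝓗, IsSh c H)
    (hB : ∀ H ∈ 𝓗, 3 * u ≤ 4 * ((dom P H).filter (Rich P u c)).card) :
    u ^ 6 * 𝓗.card ≤ 32768 * C * P.card ^ 4 * (∑ p ∈ P.filter (Rich P u c), mu P c p) ^ 2 := by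
  set R := P.filter (Rich P u c) with hR
  set good : Aff → (ℝ × ℝ) → Prop := fun H p =>
    mu P c p * u ≤ 4 * P.card * ((dom P H).filter (fun x => ro c x = ro c p)).card with hgood
  have hdomP : ∀ H : Aff, dom P H ⊆ P := fun H => Finset.filter_subset _ _
  have hpairs : ∀ H ∈ 𝓗, u ^ 2 ≤ 8 * ((R ×ˢ R).filter
      (fun q => ro c q.1 ≠ ro c q.2 ∧ good H q.1 ∧ good H q.2)).card := by
    intro H hH
    set D := ((dom P H).filter (Rich P u c)).filter (good H) with hD
    have hDR : D ⊆ R := by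
      intro x hx
      rw [hD, Finset.mem_filter, Finset.mem_filter] at hx
      rw [hR, Finset.mem_filter]
      exact ⟨hdomP H hx.1.1, hx.1.2⟩
    have h1 : u ≤ 2 * D.card := by
      have h2 := Finset.card_filter_add_card_filter_not
        (s := (dom P H).filter (Rich P u c)) (good H)
      have h3 : (((dom P H).filter (Rich P u c)).filter (fun x => ¬ good H x)).card ≤
          ((dom P H).filter (fun p => 4 * P.card *
            ((dom P H).filter (fun x => ro c x = ro c p)).card < mu P c p * u)).card := by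
        apply Finset.card_le_card
        intro x hx
        rw [Finset.mem_filter, Finset.mem_filter] at hx
        rw [Finset.mem_filter]
        exact ⟨hx.1.1, not_le.1 hx.2⟩
      have h4 := thin_rows P (dom P H) u c (hdomP H)
      have h5 := hB H hH
      rw [← hD] at h2
      omega
    have h2 := pairs_lb P D l u c (hDR.trans (Finset.filter_subset _ _)) hl hlu h1
    refine le_trans h2 (Nat.mul_le_mul_left _ (Finset.card_le_card ?_))
    intro q hq
    rw [Finset.mem_filter, Finset.mem_product] at hq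
    rw [Finset.mem_filter, Finset.mem_product]
    exact ⟨⟨hDR hq.1.1, hDR hq.1.2⟩, hq.2, (Finset.mem_filter.1 hq.1.1).2,
      (Finset.mem_filter.1 hq.1.2).2⟩
  have hsum : u ^ 2 * 𝓗.card ≤ 8 * ∑ q ∈ R ×ˢ R, (𝓗.filter
      (fun H => ro c q.1 ≠ ro c q.2 ∧ good H q.1 ∧ good H q.2)).card := by
    have h1 : u ^ 2 * 𝓗.card = ∑ H ∈ 𝓗, u ^ 2 := by
      rw [Finset.sum_const, smul_eq_mul, mul_comm]
    rw [h1, Finset.mul_sum]
    have h2 : ∑ H ∈ 𝓗, ((R ×ˢ R).filter
        (fun q => ro c q.1 ≠ ro c q.2 ∧ good H q.1 ∧ good H q.2)).card =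
        ∑ q ∈ R ×ˢ R, (𝓗.filter
          (fun H => ro c q.1 ≠ ro c q.2 ∧ good H q.1 ∧ good H q.2)).card :=
      Finset.sum_card_bipartiteAbove_eq_sum_card_bipartiteBelow
        (fun (H : Aff) (q : (ℝ × ℝ) × (ℝ × ℝ)) =>
          ro c q.1 ≠ ro c q.2 ∧ good H q.1 ∧ good H q.2)
    rw [← Finset.mul_sum, ← h2, Finset.mul_sum]
    exact Finset.sum_le_sum hpairs
  have hN : ∀ q ∈ R ×ˢ R, u ^ 4 * (𝓗.filter
      (fun H => ro c q.1 ≠ ro c q.2 ∧ good H q.1 ∧ good H q.2)).card ≤
      4096 * C * P.card ^ 4 * (mu P c q.1 * mu P c q.2) := by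
    intro q hq
    rw [Finset.mem_product, hR, Finset.mem_filter, Finset.mem_filter] at hq
    by_cases hne : ro c q.1 = ro c q.2
    · have : 𝓗.filter (fun H => ro c q.1 ≠ ro c q.2 ∧ good H q.1 ∧ good H q.2) = ∅ := by
        rw [Finset.filter_eq_empty_iff]
        intro H _ h
        exact h.1 hne
      rw [this]; simp
    · apply pair_bound hC hP hn hu _ _ q.1 q.2 hne hq.1.2 hq.2.2
      · intro H hH
        rw [Finset.mem_filter] at hH
        exact hH.2.2.1
      · intro H hH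
        rw [Finset.mem_filter] at hH
        exact hH.2.2.2
      · intro H hH
        rw [Finset.mem_filter] at hH
        exact hsh H hH.1
  calc u ^ 6 * 𝓗.card = u ^ 4 * (u ^ 2 * 𝓗.card) := by ring
    _ ≤ u ^ 4 * (8 * ∑ q ∈ R ×ˢ R, (𝓗.filter
      (fun H => ro c q.1 ≠ ro c q.2 ∧ good H q.1 ∧ good H q.2)).card) :=
        Nat.mul_le_mul_left _ hsum
    _ = 8 * ∑ q ∈ R ×ˢ R, u ^ 4 * (𝓗.filter
      (fun H => ro c q.1 ≠ ro c q.2 ∧ good H q.1 ∧ good H q.2)).card := by
        rw [Finset.mul_sum, Finset.mul_sum, Finset.mul_sum]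
        apply Finset.sum_congr rfl
        intro q _; ring
    _ ≤ 8 * ∑ q ∈ R ×ˢ R, 4096 * C * P.card ^ 4 * (mu P c q.1 * mu P c q.2) :=
        Nat.mul_le_mul_left _ (Finset.sum_le_sum hN)
    _ = 32768 * C * P.card ^ 4 * (∑ p ∈ R, mu P c p) ^ 2 := by
        rw [← Finset.mul_sum, sq, Finset.sum_mul_sum, Finset.sum_product]
        ring

/-- Non-collinear triples. -/
theorem triples_lb (D : Finset (ℝ × ℝ)) (l u : ℕ) (hP : Set.InjOn Prod.fst (D : Set (ℝ × ℝ)))
    (hl : ∀ L, (D.filter (fun p => OnL L p)).card ≤ l) (hl1 : 1 ≤ l) (hlu : 32 * l ≤ u)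
    (hDu : u ≤ 4 * D.card) :
    u ^ 3 ≤ 128 * ((D ×ˢ (D ×ˢ D)).filter (fun t => NCol t.1 t.2.1 t.2.2)).card := by
  obtain ⟨r, hr⟩ : ∃ r, r = D.card - 1 := ⟨_, rfl⟩
  obtain ⟨s, hs⟩ : ∃ s, s = D.card - l := ⟨_, rfl⟩
  have h1 : D.card * (r * s) ≤ ((D ×ˢ (D ×ˢ D)).filter (fun t => NCol t.1 t.2.1 t.2.2)).card := by
    rw [Finset.card_filter, Finset.sum_product, ← smul_eq_mul, ← Finset.sum_const]
    apply Finset.sum_le_sum
    intro p hp
    rw [Finset.sum_product]
    have h2 : r * s ≤ ∑ q ∈ D.erase p, ∑ x ∈ D, if NCol p q x then 1 else 0 := by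
      rw [hr, ← Finset.card_erase_of_mem hp, ← smul_eq_mul, ← Finset.sum_const]
      apply Finset.sum_le_sum
      intro q hq
      rw [Finset.mem_erase] at hq
      rw [← Finset.card_filter]
      have hpq : p.1 ≠ q.1 := fun h => hq.1 (hP (Finset.mem_coe.2 hq.2) (Finset.mem_coe.2 hp) h.symm)
      have h3 : (D.filter (fun x => ¬ OnL (thr p q) x)).card ≤
          (D.filter (fun x => NCol p q x)).card := by
        apply Finset.card_le_card
        intro x hx
        rw [Finset.mem_filter] at hx ⊢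
        exact ⟨hx.1, OnL.ncol (thr_left p q) (thr_right hpq) (Ne.symm hq.1) hx.2⟩
      have h4 := Finset.card_filter_add_card_filter_not (s := D) (fun x => OnL (thr p q) x)
      have h5 := hl (thr p q)
      omega
    refine le_trans h2 ?_
    exact Finset.sum_le_sum_of_subset (Finset.erase_subset _ _)
  have h3 : 7 * D.card ≤ 8 * r := by omega
  have h4 : 7 * D.card ≤ 8 * s := by omega
  have h5 : u ^ 3 ≤ 128 * (D.card * (r * s)) := by
    have h6 : (7 * D.card) * (7 * D.card) ≤ (8 * r) * (8 * s) := Nat.mul_le_mul h3 h4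
    have h7 : u ^ 3 ≤ (4 * D.card) ^ 3 := Nat.pow_le_pow_left hDu 3
    have h8 : 49 * (D.card * (D.card * D.card)) ≤ 64 * (D.card * (r * s)) := by
      have := Nat.mul_le_mul_left D.card h6
      linarith
    have h9 : (4 * D.card) ^ 3 = 64 * (D.card * (D.card * D.card)) := by ring
    omega
  omega

/-- Case A for one slope. -/
theorem caseA {P : Finset (ℝ × ℝ)} (hP : Set.InjOn Prod.fst (P : Set (ℝ × ℝ))) {l u : ℕ}
    (hl : ∀ L, (lineP P L).card ≤ l) (hl1 : 1 ≤ l) (hlu : 32 * l ≤ u)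
    {c : ℝ} (𝓗 : Finset Aff) (hsh : ∀ H ∈ 𝓗, IsSh c H)
    (hA : ∀ H ∈ 𝓗, u ≤ 4 * ((dom P H).filter (fun p => ¬ Rich P u c p)).card) :
    u ^ 6 * 𝓗.card ≤ 524288 * P.card ^ 6 := by
  set Q := (P ×ˢ P).filter (fun q => ¬ Rich P u c q.1 ∧ ro c q.2 = ro c q.1) with hQ
  have hQcard : u * Q.card ≤ 16 * P.card ^ 2 := by
    have h1 : Q.card ≤ ∑ p ∈ P.filter (fun p => ¬ Rich P u c p), mu P c p := by
      rw [hQ, Finset.card_filter, Finset.sum_product, Finset.sum_filter]
      apply Finset.sum_le_sum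
      intro p hp
      split_ifs with h
      · apply le_of_eq
        apply Finset.sum_eq_zero
        intro x _
        rw [if_neg]
        intro h'
        exact h'.1 h
      · rw [← Finset.card_filter]
        apply Finset.card_le_card
        intro x hx
        rw [Finset.mem_filter] at hx
        exact mem_lineP.2 ⟨hx.1, hx.2.2⟩
    calc u * Q.card ≤ u * ∑ p ∈ P.filter (fun p => ¬ Rich P u c p), mu P c p :=
          Nat.mul_le_mul_left _ h1
      _ = ∑ p ∈ P.filter (fun p => ¬ Rich P u c p), u * mu P c p := Finset.mul_sum _ _ _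
      _ ≤ ∑ p ∈ P.filter (fun p => ¬ Rich P u c p), 16 * P.card := by
          apply Finset.sum_le_sum
          intro p hp
          rw [Finset.mem_filter] at hp
          have := not_le.1 hp.2
          rw [mul_comm]; exact this.le
      _ = (P.filter (fun p => ¬ Rich P u c p)).card * (16 * P.card) := by
          rw [Finset.sum_const, smul_eq_mul]
      _ ≤ P.card * (16 * P.card) := Nat.mul_le_mul_right _ (Finset.card_filter_le _ _)
      _ = 16 * P.card ^ 2 := by ring
  set DD : Aff → Finset (ℝ × ℝ) := fun H => (dom P H).filter (fun p => ¬ Rich P u c p) with hDD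
  have hDsub : ∀ H, DD H ⊆ P := fun H => (Finset.filter_subset _ _).trans (Finset.filter_subset _ _)
  have hlow : ∀ H ∈ 𝓗, u ^ 3 ≤
      128 * ((DD H ×ˢ (DD H ×ˢ DD H)).filter (fun t => NCol t.1 t.2.1 t.2.2)).card := by
    intro H hH
    apply triples_lb (DD H) l u
    · exact hP.mono (Finset.coe_subset.2 (hDsub H))
    · intro L
      refine le_trans (Finset.card_le_card ?_) (hl L)
      unfold lineP
      exact Finset.filter_subset_filter _ (hDsub H)
    · exact hl1
    · exact hlu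
    · exact hA H hH
  have hup : ∑ H ∈ 𝓗, ((DD H ×ˢ (DD H ×ˢ DD H)).filter
      (fun t => NCol t.1 t.2.1 t.2.2)).card ≤ (Q ×ˢ (Q ×ˢ Q)).card := by
    rw [← Finset.card_sigma]
    apply Finset.card_le_card_of_injOn
      (fun s : (_ : Aff) × ((ℝ × ℝ) × ((ℝ × ℝ) × (ℝ × ℝ))) =>
        ((s.2.1, s.1.app s.2.1), ((s.2.2.1, s.1.app s.2.2.1), (s.2.2.2, s.1.app s.2.2.2))))
    · intro s hs
      rw [Finset.mem_coe, Finset.mem_sigma] at hs
      obtain ⟨hs1, hs2⟩ := hs
      have hs3 := (Finset.mem_filter.1 hs2).1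
      rw [Finset.mem_product, Finset.mem_product] at hs3
      have key : ∀ p ∈ DD s.1, (p, s.1.app p) ∈ Q := by
        intro p hp
        have hp1 := Finset.mem_filter.1 hp
        have hp2 := mem_dom.1 hp1.1
        exact Finset.mem_filter.2 ⟨Finset.mem_product.2 ⟨hp2.1, hp2.2⟩, hp1.2,
          (hsh _ hs1).ro_app p⟩
      rw [Finset.mem_coe, Finset.mem_product, Finset.mem_product]
      exact ⟨key _ hs3.1, key _ hs3.2.1, key _ hs3.2.2⟩
    · rintro ⟨H, p, q, r⟩ hs ⟨H', p', q', r'⟩ hs' heq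
      simp only [Prod.mk.injEq] at heq
      obtain ⟨⟨h1, h2⟩, ⟨h3, h4⟩, h5, h6⟩ := heq
      subst h1; subst h3; subst h5
      rw [Finset.mem_coe, Finset.mem_sigma] at hs
      have hn := (Finset.mem_filter.1 hs.2).2
      have : H = H' := Aff.ext_of_ncol hn h2 h4 h6
      subst this
      rfl
  have h1 : u ^ 3 * 𝓗.card ≤ 128 * Q.card ^ 3 := by
    calc u ^ 3 * 𝓗.card = ∑ H ∈ 𝓗, u ^ 3 := by rw [Finset.sum_const, smul_eq_mul, mul_comm]
      _ ≤ ∑ H ∈ 𝓗, 128 * ((DD H ×ˢ (DD H ×ˢ DD H)).filter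
          (fun t => NCol t.1 t.2.1 t.2.2)).card := Finset.sum_le_sum hlow
      _ = 128 * ∑ H ∈ 𝓗, ((DD H ×ˢ (DD H ×ˢ DD H)).filter
          (fun t => NCol t.1 t.2.1 t.2.2)).card := by rw [Finset.mul_sum]
      _ ≤ 128 * (Q ×ˢ (Q ×ˢ Q)).card := Nat.mul_le_mul_left _ hup
      _ = 128 * Q.card ^ 3 := by rw [Finset.card_product, Finset.card_product]; ring
  calc u ^ 6 * 𝓗.card = u ^ 3 * (u ^ 3 * 𝓗.card) := by ring
    _ ≤ u ^ 3 * (128 * Q.card ^ 3) := Nat.mul_le_mul_left _ h1
    _ = 128 * (u * Q.card) ^ 3 := by ring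
    _ ≤ 128 * (16 * P.card ^ 2) ^ 3 :=
        Nat.mul_le_mul_left _ (Nat.pow_le_pow_left hQcard 3)
    _ = 524288 * P.card ^ 6 := by ring

/-- The number of pairs of distinct points on a line of slope `c`. -/
noncomputable def sp (P : Finset (ℝ × ℝ)) (c : ℝ) : ℕ :=
  ((P ×ˢ P).filter (fun q => q.1 ≠ q.2 ∧ ro c q.1 = ro c q.2)).card

theorem sum_sp_le {P : Finset (ℝ × ℝ)} (hP : Set.InjOn Prod.fst (P : Set (ℝ × ℝ)))
    (S : Finset ℝ) : ∑ c ∈ S, sp P c ≤ P.card ^ 2 := by
  unfold sp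
  rw [← Finset.card_sigma, sq, ← Finset.card_product]
  apply Finset.card_le_card_of_injOn (fun s : (_ : ℝ) × ((ℝ × ℝ) × (ℝ × ℝ)) => s.2)
  · intro s hs
    rw [Finset.mem_coe, Finset.mem_sigma] at hs
    exact (Finset.mem_filter.1 hs.2).1
  · rintro ⟨c, p, q⟩ hs ⟨c', p', q'⟩ hs' heq
    simp only [Prod.mk.injEq] at heq
    obtain ⟨h1, h2⟩ := heq
    subst h1; subst h2
    rw [Finset.mem_coe, Finset.mem_sigma] at hs hs'
    have h1 := Finset.mem_filter.1 hs.2
    have h2 := Finset.mem_filter.1 hs'.2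
    have h3 := Finset.mem_product.1 h1.1
    have hpq : p.1 - q.1 ≠ 0 := by
      intro h
      exact h1.2.1 (hP (Finset.mem_coe.2 h3.1) (Finset.mem_coe.2 h3.2) (by simpa using sub_eq_zero.1 h))
    have e1 : p.2 - c * p.1 = q.2 - c * q.1 := h1.2.2
    have e2 : p.2 - c' * p.1 = q.2 - c' * q.1 := h2.2.2
    have : (c - c') * (p.1 - q.1) = 0 := by linarith
    rcases mul_eq_zero.1 this with h | h
    · have : c = c' := by linarith
      subst this; rfl
    · exact absurd h hpq

theorem rich_sum_le {P : Finset (ℝ × ℝ)} {u : ℕ} (hn : 0 < P.card) (huP : u ≤ P.card) (c : ℝ) :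
    ∑ p ∈ P.filter (Rich P u c), mu P c p ≤ 2 * sp P c := by
  have h1 : sp P c = ∑ p ∈ P, (mu P c p - 1) := by
    unfold sp
    rw [Finset.card_filter, Finset.sum_product]
    apply Finset.sum_congr rfl
    intro p hp
    rw [← Finset.card_filter]
    have : P.filter (fun x => (p, x).1 ≠ (p, x).2 ∧ ro c (p, x).1 = ro c (p, x).2) =
        (lineP P (c, ro c p)).erase p := by
      ext x
      rw [Finset.mem_filter, Finset.mem_erase, mem_lineP]
      constructor
      · rintro ⟨h1, h2, h3⟩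
        exact ⟨Ne.symm h2, h1, h3.symm⟩
      · rintro ⟨h1, h2, h3⟩
        exact ⟨h2, Ne.symm h1, h3.symm⟩
    rw [this, Finset.card_erase_of_mem (mem_lineP.2 ⟨hp, rfl⟩)]
    rfl
  rw [h1, Finset.mul_sum]
  calc ∑ p ∈ P.filter (Rich P u c), mu P c p
      ≤ ∑ p ∈ P.filter (Rich P u c), 2 * (mu P c p - 1) := by
        apply Finset.sum_le_sum
        intro p hp
        rw [Finset.mem_filter] at hp
        have h2 : 16 * P.card ≤ mu P c p * u := hp.2
        have h3 : 16 ≤ mu P c p := by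
          by_contra hlt
          have h4 : mu P c p ≤ 15 := by omega
          have h5 : mu P c p * u ≤ 15 * P.card := Nat.mul_le_mul h4 huP
          omega
        omega
    _ ≤ ∑ p ∈ P, 2 * (mu P c p - 1) :=
        Finset.sum_le_sum_of_subset (Finset.filter_subset _ _)

theorem slope_pairs {P : Finset (ℝ × ℝ)} {l u : ℕ} {c : ℝ} {H : Aff} (h : IsSh c H)
    (hl : ∀ L, (lineP P L).card ≤ l) (hlu : 32 * l ≤ u) (hu : u ≤ (dom P H).card) :
    u ≤ 2 * sp P c := by
  -- the points moved by `H`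
  have h1 : ((dom P H).filter (fun p => H.app p ≠ p)).card ≤ sp P c := by
    unfold sp
    apply Finset.card_le_card_of_injOn (fun p => (p, H.app p))
    · intro p hp
      rw [Finset.mem_coe, Finset.mem_filter, mem_dom] at hp
      rw [Finset.mem_coe, Finset.mem_filter, Finset.mem_product]
      exact ⟨⟨hp.1.1, hp.1.2⟩, Ne.symm hp.2, (h.ro_app p).symm⟩
    · intro p _ q _ hpq
      exact (Prod.mk.inj hpq).1
  have h2 : ((dom P H).filter (fun p => ¬ (H.app p ≠ p))).card ≤ l := by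
    refine le_trans (Finset.card_le_card ?_) (hl (-(H.a - 1) / H.b, -H.e / H.b))
    intro p hp
    rw [Finset.mem_filter, mem_dom, not_not] at hp
    unfold lineP
    rw [Finset.mem_filter]
    refine ⟨hp.1.1, ?_⟩
    have h3 : H.a * p.1 + H.b * p.2 + H.e = p.1 := congrArg Prod.fst hp.2
    have hb := h.hb
    unfold OnL
    simp only
    field_simp
    linarith
  have h3 := Finset.card_filter_add_card_filter_not (s := dom P H) (fun p => H.app p ≠ p)
  omega

end Hom

open Classical in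
theorem homStmt (hLine : LineStmt) : HomStmt := by
  obtain ⟨C, hC⟩ := hLine
  refine ⟨1048576 + 131072 * C, 7, ?_⟩
  intro P l u hP hl hl1 hlu 𝓗 h𝓗
  rcases 𝓗.eq_empty_or_nonempty with h0 | h0
  · rw [h0]; simp
  obtain ⟨H₀, hH₀⟩ := h0
  have hu : 0 < u := by omega
  have huP : u ≤ P.card :=
    le_trans (h𝓗 H₀ hH₀).2.2 (Finset.card_le_card (Finset.filter_subset _ _))
  have hn : 0 < P.card := by omega
  have hsh : ∀ H ∈ 𝓗, Hom.IsSh ((H.d - 1) / H.b) H := fun H hH =>
    Hom.isSh_of hP hl (by omega) (h𝓗 H hH).1 (h𝓗 H hH).2.1 (h𝓗 H hH).2.2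
  set sl : Aff → ℝ := fun H => (H.d - 1) / H.b with hsl
  set S := 𝓗.image sl with hS
  set n := P.card with hnn
  set e : ℝ → ℕ := fun c => ∑ p ∈ P.filter (Hom.Rich P u c), Hom.mu P c p with he
  have hcount : 𝓗.card = ∑ c ∈ S, (𝓗.filter (fun H => sl H = c)).card :=
    Finset.card_eq_sum_card_fiberwise (fun H hH =>
      Finset.mem_coe.2 (Finset.mem_image_of_mem _ (Finset.mem_coe.1 hH)))
  have hone : ∀ c ∈ S, u ^ 6 * (𝓗.filter (fun H => sl H = c)).card ≤
      524288 * n ^ 6 + 32768 * C * n ^ 4 * (e c) ^ 2 := by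
    intro c _
    set F := 𝓗.filter (fun H => sl H = c) with hF
    have hFsh : ∀ H ∈ F, Hom.IsSh c H := by
      intro H hH
      rw [hF, Finset.mem_filter] at hH
      have := hsh H hH.1
      rw [← hH.2]
      exact this
    have hsplit := Finset.card_filter_add_card_filter_not (s := F)
      (fun H => u ≤ 4 * ((dom P H).filter (fun p => ¬ Hom.Rich P u c p)).card)
    have hA := Hom.caseA hP hl hl1 hlu
      (F.filter (fun H => u ≤ 4 * ((dom P H).filter (fun p => ¬ Hom.Rich P u c p)).card))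
      (fun H hH => hFsh H (Finset.mem_filter.1 hH).1) (fun H hH => (Finset.mem_filter.1 hH).2)
    have hB := Hom.caseB hC hP hn hu hl hlu
      (F.filter (fun H => ¬ (u ≤ 4 * ((dom P H).filter (fun p => ¬ Hom.Rich P u c p)).card)))
      (fun H hH => hFsh H (Finset.mem_filter.1 hH).1) (by
        intro H hH
        rw [Finset.mem_filter] at hH
        have h1 := (h𝓗 H (Finset.mem_filter.1 hH.1).1).2.2
        have h2 := Finset.card_filter_add_card_filter_not (s := dom P H) (Hom.Rich P u c)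
        have h3 := hH.2
        omega)
    rw [← hsplit, Nat.mul_add]
    exact Nat.add_le_add hA hB
  have hSu : u * S.card ≤ 2 * n ^ 2 := by
    calc u * S.card = ∑ c ∈ S, u := by rw [Finset.sum_const, smul_eq_mul, mul_comm]
      _ ≤ ∑ c ∈ S, 2 * Hom.sp P c := by
          apply Finset.sum_le_sum
          intro c hc
          rw [hS, Finset.mem_image] at hc
          obtain ⟨H, hH, rfl⟩ := hc
          exact Hom.slope_pairs (hsh H hH) hl hlu (h𝓗 H hH).2.2
      _ = 2 * ∑ c ∈ S, Hom.sp P c := by rw [Finset.mul_sum]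
      _ ≤ 2 * n ^ 2 := Nat.mul_le_mul_left _ (Hom.sum_sp_le hP S)
  have hel : ∀ c, e c ≤ n * l := by
    intro c
    calc e c ≤ ∑ p ∈ P.filter (Hom.Rich P u c), l := Finset.sum_le_sum (fun p _ => hl _)
      _ = (P.filter (Hom.Rich P u c)).card * l := by rw [Finset.sum_const, smul_eq_mul]
      _ ≤ n * l := Nat.mul_le_mul_right _ (Finset.card_filter_le _ _)
  have hesum : ∑ c ∈ S, (e c) ^ 2 ≤ n * l * (2 * n ^ 2) := by
    calc ∑ c ∈ S, (e c) ^ 2 ≤ ∑ c ∈ S, n * l * (2 * Hom.sp P c) := by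
          apply Finset.sum_le_sum
          intro c _
          rw [sq]
          exact Nat.mul_le_mul (hel c) (Hom.rich_sum_le hn huP c)
      _ = n * l * (2 * ∑ c ∈ S, Hom.sp P c) := by
          rw [Finset.mul_sum, Finset.mul_sum]
      _ ≤ n * l * (2 * n ^ 2) :=
          Nat.mul_le_mul_left _ (Nat.mul_le_mul_left _ (Hom.sum_sp_le hP S))
  calc u ^ 7 * 𝓗.card = u * ∑ c ∈ S, u ^ 6 * (𝓗.filter (fun H => sl H = c)).card := by
        rw [← Finset.mul_sum, ← hcount]; ring
    _ ≤ u * ∑ c ∈ S, (524288 * n ^ 6 + 32768 * C * n ^ 4 * (e c) ^ 2) :=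
        Nat.mul_le_mul_left _ (Finset.sum_le_sum hone)
    _ = 524288 * n ^ 6 * (u * S.card) + u * (32768 * C * n ^ 4 * ∑ c ∈ S, (e c) ^ 2) := by
        rw [Finset.sum_add_distrib, Finset.sum_const, smul_eq_mul, ← Finset.mul_sum]
        ring
    _ ≤ 524288 * n ^ 6 * (2 * n ^ 2) + n * (32768 * C * n ^ 4 * (n * l * (2 * n ^ 2))) := by
        apply Nat.add_le_add
        · exact Nat.mul_le_mul_left _ hSu
        · apply Nat.mul_le_mul huP
          exact Nat.mul_le_mul_left _ hesum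
    _ = 1048576 * n ^ 8 + 65536 * C * (n ^ 8 * l) := by ring
    _ ≤ 1048576 * (n ^ 8 * l) + 131072 * C * (n ^ 8 * l) := by
        apply Nat.add_le_add
        · apply Nat.mul_le_mul_left
          exact Nat.le_mul_of_pos_right _ hl1
        · apply Nat.mul_le_mul_right
          omega
    _ = (1048576 + 131072 * C) * n ^ 7 * (n * l) := by ring

end Pool.Agent.Lib.MP_b430f2_co.Plane
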