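import Mathlib
import Pool.Agent.Lib.MP_b430f2_co.Chains
import Pool.Agent.Lib.MP_b430f2_co.Plane.Defs
import Pool.Agent.Lib.MP_b430f2_co.Plane.Stmts

/-! M0. Rich affine maps between two finite sets of reals. -/

namespace Pool.Agent.Lib.MP_b430f2_co.Plane

open Finset

/-- The graph of `x ↦ g.1 * x + g.2` from `X` to `Y`. -/
noncomputable def lgraph (X Y : Finset ℝ) (g : ℝ × ℝ) : Finset (ℝ × ℝ) :=
  (X.filter (fun x => g.1 * x + g.2 ∈ Y)).image (fun x => (x, g.1 * x + g.2))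

theorem mem_lgraph {X Y : Finset ℝ} {g p : ℝ × ℝ} :
    p ∈ lgraph X Y g ↔ p.1 ∈ X ∧ p.2 ∈ Y ∧ p.2 = g.1 * p.1 + g.2 := by
  simp only [lgraph, Finset.mem_image, Finset.mem_filter]
  constructor
  · rintro ⟨x, ⟨h1, h2⟩, rfl⟩
    exact ⟨h1, h2, rfl⟩
  · rintro ⟨h1, h2, h3⟩
    exact ⟨p.1, ⟨h1, h3 ▸ h2⟩, by rw [← h3]⟩

theorem card_lgraph (X Y : Finset ℝ) (g : ℝ × ℝ) :
    (lgraph X Y g).card = (X.filter (fun x => g.1 * x + g.2 ∈ Y)).card := by
  apply Finset.card_image_of_injOn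
  intro x _ y _ h
  exact (Prod.mk.inj h).1

/-- Two points with different abscissae determine the affine function. -/
theorem eq_of_two {g g' p q : ℝ × ℝ} (hpq : p.1 ≠ q.1) (h1 : p.2 = g.1 * p.1 + g.2)
    (h2 : q.2 = g.1 * q.1 + g.2) (h3 : p.2 = g'.1 * p.1 + g'.2) (h4 : q.2 = g'.1 * q.1 + g'.2) :
    g = g' := by
  have h5 : (g.1 - g'.1) * (p.1 - q.1) = 0 := by
    linear_combination -h1 + h2 + h3 - h4
  have h6 : g.1 = g'.1 := by
    rcases mul_eq_zero.1 h5 with h | h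
    · linarith
    · exact absurd (by linarith) hpq
  have h7 : g.2 = g'.2 := by
    rw [h6] at h1
    linarith
  exact Prod.ext h6 h7

theorem line : LineStmt := by
  classical
  refine ⟨1156, ?_⟩
  intro X Y 𝓖 m hm h𝓖
  have hcard : ∀ g ∈ 𝓖, m ≤ (lgraph X Y g).card := by
    intro g hg
    rw [card_lgraph]
    convert (h𝓖 g hg).2
  have hshare : ∀ g g' p q : ℝ × ℝ, p ∈ lgraph X Y g → q ∈ lgraph X Y g → p ∈ lgraph X Y g' →
      q ∈ lgraph X Y g' → p ≠ q → g = g' := by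
    intro g g' p q h1 h2 h3 h4 hne
    rw [mem_lgraph] at h1 h2 h3 h4
    apply eq_of_two (p := p) (q := q) _ h1.2.2 h2.2.2 h3.2.2 h4.2.2
    intro h
    apply hne
    apply Prod.ext h
    rw [h1.2.2, h2.2.2, h]
  have hinj : Set.InjOn (lgraph X Y) (𝓖 : Set (ℝ × ℝ)) := by
    intro g hg g' _ h
    obtain ⟨p, hp, q, hq, hpq⟩ := Finset.one_lt_card.1 (lt_of_lt_of_le (by omega) (hcard g hg))
    exact hshare g g' p q hp hq (h ▸ hp) (h ▸ hq) hpq
  have hF : RichFamily (X ∪ Y) (fun x : ℝ => x) (𝓖.image (lgraph X Y)) := by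
    refine ⟨fun x _ y _ h => h, ?_, ?_, ?_, ?_, ?_⟩
    · intro G hG p hp
      obtain ⟨g, hg, rfl⟩ := Finset.mem_image.1 hG
      rw [mem_lgraph] at hp
      rw [Finset.mem_product]
      exact ⟨Finset.mem_union_left _ hp.1, Finset.mem_union_right _ hp.2.1⟩
    · intro G hG p hp q hq h
      obtain ⟨g, hg, rfl⟩ := Finset.mem_image.1 hG
      rw [mem_lgraph] at hp hq
      apply Prod.ext h
      rw [hp.2.2, hq.2.2, h]
    · intro G hG
      obtain ⟨g, hg, rfl⟩ := Finset.mem_image.1 hG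
      refine ⟨lgraph X Y g, subset_rfl, by omega, ?_⟩
      rcases le_total 0 g.1 with h0 | h0
      · left
        intro p hp q hq h
        rw [mem_lgraph] at hp hq
        simp only [hp.2.2, hq.2.2] at h ⊢
        nlinarith
      · right
        intro p hp q hq h
        rw [mem_lgraph] at hp hq
        simp only [hp.2.2, hq.2.2] at h ⊢
        nlinarith
    · intro G hG
      obtain ⟨g, hg, rfl⟩ := Finset.mem_image.1 hG
      exact hm.trans (hcard g hg)
    · intro G hG G' hG' p hp q hq hp' hq' hne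
      obtain ⟨g, hg, rfl⟩ := Finset.mem_image.1 hG
      obtain ⟨g', hg', rfl⟩ := Finset.mem_image.1 hG'
      rw [hshare g g' p q hp hq hp' hq' hne]
  have h1 := hF.card_rich m
  have h2 : (𝓖.image (lgraph X Y)).filter (fun G => m ≤ G.card) = 𝓖.image (lgraph X Y) := by
    apply Finset.filter_true_of_mem
    intro G hG
    obtain ⟨g, hg, rfl⟩ := Finset.mem_image.1 hG
    exact hcard g hg
  rw [h2, Finset.card_image_of_injOn hinj] at h1
  refine h1.trans (Nat.mul_le_mul_left _ (Nat.pow_le_pow_left (Finset.card_union_le _ _) 4))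

end Pool.Agent.Lib.MP_b430f2_co.Plane
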