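import Pool.Agent.Lib.MP_b430f2_co.Plane.Stmts

/-! M2. Parallel rows: `PlStmt` from `LineStmt` and `ColStmt`. -/

namespace Pool.Agent.Lib.MP_b430f2_co.Plane

open Finset

namespace Pl

open Classical in
/-- a row -/
noncomputable def row (R : Finset (ℝ × ℝ)) (c : ℝ) : Finset ℝ :=
  (R.filter (fun p => p.1 = c)).image Prod.snd

theorem mem_row {R : Finset (ℝ × ℝ)} {c x : ℝ} : x ∈ row R c ↔ (c, x) ∈ R := by
  unfold row
  rw [mem_image]
  constructor
  · rintro ⟨p, hp, rfl⟩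
    rw [mem_filter] at hp
    obtain ⟨h1, rfl⟩ := hp
    exact h1
  · intro h
    exact ⟨(c, x), mem_filter.mpr ⟨h, rfl⟩, rfl⟩

theorem card_row (R : Finset (ℝ × ℝ)) (c : ℝ) :
    (row R c).card ≤ (R.filter (fun p => p.1 = c)).card := by
  classical
  unfold row
  convert card_image_le

open Classical in
/-- the translations `δ` for which `x ↦ γ x + δ` is rich -/
noncomputable def DD (X Y : Finset ℝ) (w : ℕ) (γ : ℝ) : Finset ℝ :=
  ((X ×ˢ Y).image (fun p => p.2 - γ * p.1)).filter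
    (fun δ => w ≤ (X.filter (fun x => γ * x + δ ∈ Y)).card)

theorem mem_DD {X Y : Finset ℝ} {w : ℕ} {γ δ : ℝ} (hw : 1 ≤ w) :
    δ ∈ DD X Y w γ ↔ w ≤ (X.filter (fun x => γ * x + δ ∈ Y)).card := by
  classical
  unfold DD
  rw [mem_filter]
  constructor
  · rintro ⟨-, h⟩
    exact h
  · intro h
    refine ⟨?_, h⟩
    have h1 : 0 < (X.filter (fun x => γ * x + δ ∈ Y)).card := by omega
    obtain ⟨x, hx⟩ := card_pos.mp h1
    rw [mem_filter] at hx
    rw [mem_image]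
    refine ⟨(x, γ * x + δ), mem_product.mpr hx, ?_⟩
    simp

theorem card_DD {X Y : Finset ℝ} {w : ℕ} {γ : ℝ} (hw : 1 ≤ w) :
    w * (DD X Y w γ).card ≤ X.card * Y.card := by
  classical
  rw [← card_product]
  have h1 : (DD X Y w γ).card * w ≤
      ∑ δ ∈ DD X Y w γ, ((X ×ˢ Y).filter (fun p => p.2 - γ * p.1 = δ)).card := by
    rw [← smul_eq_mul]
    apply card_nsmul_le_sum
    intro δ hδ
    rw [mem_DD hw] at hδ
    refine hδ.trans ?_
    apply card_le_card_of_injOn (fun x => (x, γ * x + δ))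
    · intro x hx
      rw [mem_coe, mem_filter] at hx
      rw [mem_coe, mem_filter]
      refine ⟨mem_product.mpr hx, ?_⟩
      simp
    · intro x _ y _ h
      exact (Prod.mk.inj h).1
  have h2 : ∑ δ ∈ DD X Y w γ, ((X ×ˢ Y).filter (fun p => p.2 - γ * p.1 = δ)).card ≤
      (X ×ˢ Y).card := by
    rw [← card_biUnion]
    · apply card_le_card
      intro p hp
      rw [mem_biUnion] at hp
      obtain ⟨δ, -, h⟩ := hp
      exact (mem_filter.mp h).1
    · intro x _ y _ hxy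
      rw [Function.onFun, disjoint_left]
      intro p h1 h2
      exact hxy ((mem_filter.mp h1).2.symm.trans (mem_filter.mp h2).2)
  rw [mul_comm]
  exact h1.trans h2

theorem sum_DD {C : ℕ} (hL : ∀ (X Y : Finset ℝ) (𝓖 : Finset (ℝ × ℝ)) (m : ℕ), 2 ≤ m →
    (∀ g ∈ 𝓖, g.1 ≠ 0 ∧ m ≤ (X.filter (fun x => g.1 * x + g.2 ∈ Y)).card) →
    m ^ 3 * 𝓖.card ≤ C * (X.card + Y.card) ^ 4) {X Y Γ : Finset ℝ} {w : ℕ} (hw : 2 ≤ w)
    (hΓ : ∀ γ ∈ Γ, γ ≠ 0) :
    w ^ 3 * ∑ γ ∈ Γ, (DD X Y w γ).card ≤ C * (X.card + Y.card) ^ 4 := by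
  classical
  have h1 : ∑ γ ∈ Γ, (DD X Y w γ).card =
      ((Γ.sigma (fun γ => DD X Y w γ)).image (fun s => (s.1, s.2))).card := by
    rw [card_image_of_injective, card_sigma]
    rintro ⟨a, b⟩ ⟨c, d⟩ h
    obtain ⟨h1, h2⟩ := Prod.mk.inj h
    simp only at h1 h2
    subst h1; subst h2; rfl
  rw [h1]
  apply hL _ _ _ _ hw
  intro g hg
  rw [mem_image] at hg
  obtain ⟨⟨γ, δ⟩, hs, rfl⟩ := hg
  rw [mem_sigma] at hs
  refine ⟨hΓ _ hs.1, ?_⟩
  have := (mem_DD (by omega)).mp hs.2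
  exact this

end Pl

open Pl in
theorem pl (h0 : LineStmt) (h1 : ColStmt) : PlStmt := by
  classical
  obtain ⟨C₀, hC₀⟩ := h0
  obtain ⟨C₁, hC₁⟩ := h1
  refine ⟨256 * C₀ ^ 2 * C₁, ?_⟩
  intro R₁ R₂ 𝓖 a B ρ w hρ hw ha₁ ha₂ hB₁ hB₂ hG
  set X := R₁.image Prod.fst with hX
  set Y := R₂.image Prod.fst with hY
  -- the row map is rich
  have hrich : ∀ g ∈ 𝓖, ∀ c ∈ X, w ≤ (R₁.filter (fun p => p.1 = c ∧ pmap g p ∈ R₂)).card →
      g.1 * c + g.2.1 ∈ Y ∧ g.2.2.2.1 * c + g.2.2.2.2 ∈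
        DD (row R₁ c) (row R₂ (g.1 * c + g.2.1)) w g.2.2.1 := by
    intro g hg c hc hw'
    constructor
    · have h1 : 0 < (R₁.filter (fun p => p.1 = c ∧ pmap g p ∈ R₂)).card := by omega
      obtain ⟨p, hp⟩ := card_pos.mp h1
      rw [mem_filter] at hp
      obtain ⟨hp1, rfl, hp3⟩ := hp
      exact mem_image_of_mem Prod.fst hp3
    · rw [mem_DD (by omega)]
      refine hw'.trans ?_
      apply card_le_card_of_injOn Prod.snd
      · intro p hp
        rw [mem_coe, mem_filter] at hp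
        obtain ⟨hp1, rfl, hp3⟩ := hp
        rw [mem_coe, mem_filter, mem_row, mem_row]
        refine ⟨hp1, ?_⟩
        have : pmap g p = (g.1 * p.1 + g.2.1, g.2.2.1 * p.2 + (g.2.2.2.1 * p.1 + g.2.2.2.2)) := by
          unfold pmap
          rw [add_assoc]
        rwa [this] at hp3
      · intro p hp q hq h
        rw [mem_coe, mem_filter] at hp hq
        exact Prod.ext (hp.2.1.trans hq.2.1.symm) h
  -- step 1
  have s1 : ρ ^ 3 * (𝓖.image (fun g => (g.1, g.2.1))).card ≤ 16 * C₀ * a ^ 4 := by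
    have := hC₀ X Y (𝓖.image (fun g => (g.1, g.2.1))) ρ hρ (by
      intro q hq
      rw [mem_image] at hq
      obtain ⟨g, hg, rfl⟩ := hq
      refine ⟨(hG g hg).1, (hG g hg).2.2.trans ?_⟩
      apply card_le_card
      intro c hc
      rw [mem_filter] at hc ⊢
      exact ⟨hc.1, (hrich g hg c hc.1 hc.2).1⟩)
    calc ρ ^ 3 * (𝓖.image (fun g => (g.1, g.2.1))).card ≤ C₀ * (X.card + Y.card) ^ 4 := this
      _ ≤ C₀ * (2 * a) ^ 4 := by
          apply Nat.mul_le_mul_left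
          apply Nat.pow_le_pow_left
          omega
      _ = 16 * C₀ * a ^ 4 := by ring
  -- step 2 and 3
  have s2 : ∀ ab ∈ 𝓖.image (fun g => (g.1, g.2.1)),
      ρ ^ 9 * w ^ 4 * (𝓖.filter (fun g => (g.1, g.2.1) = ab)).card ≤
        16 * C₀ * C₁ * (a ^ 8 * B ^ 6 + a ^ 3 * ρ ^ 6 * w * B ^ 4) := by
    rintro ⟨α, β⟩ -
    set 𝓕 := 𝓖.filter (fun g => (g.1, g.2.1) = (α, β)) with h𝓕
    set Γ := 𝓕.image (fun g => g.2.2.1) with hΓ
    set S : ℝ → ℕ := fun γ => ∑ c ∈ X, (DD (row R₁ c) (row R₂ (α * c + β)) w γ).card with hS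
    have hΓ0 : ∀ γ ∈ Γ, γ ≠ 0 := by
      intro γ hγ
      rw [hΓ, mem_image] at hγ
      obtain ⟨g, hg, rfl⟩ := hγ
      exact (hG g (mem_filter.mp hg).1).2.1
    have e1 : 𝓕.card = ∑ γ ∈ Γ, (𝓕.filter (fun g => g.2.2.1 = γ)).card :=
      card_eq_sum_card_image _ _
    have e2 : ∀ γ ∈ Γ, ρ ^ 9 * (𝓕.filter (fun g => g.2.2.1 = γ)).card ≤
        C₁ * (a ^ 6 * (S γ) ^ 2 + a ^ 2 * ρ ^ 6 * S γ) := by
      intro γ hγ
      set 𝓛 := (𝓕.filter (fun g => g.2.2.1 = γ)).image (fun g => (g.2.2.2.1, g.2.2.2.2)) with h𝓛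
      have c1 : (𝓕.filter (fun g => g.2.2.1 = γ)).card = 𝓛.card := by
        rw [h𝓛, card_image_of_injOn]
        rintro ⟨g1, g2, g3, g4, g5⟩ hg ⟨g1', g2', g3', g4', g5'⟩ hg' h
        simp only [coe_filter, Set.mem_ofPred_eq, h𝓕, mem_filter, Prod.mk.injEq] at hg hg' h
        simp only [Prod.mk.injEq]
        refine ⟨?_, ?_, ?_, h.1, h.2⟩
        · rw [hg.1.2.1, hg'.1.2.1]
        · rw [hg.1.2.2, hg'.1.2.2]
        · rw [hg.2, hg'.2]
      rw [c1]
      have := hC₁ X (fun c => DD (row R₁ c) (row R₂ (α * c + β)) w γ) 𝓛 ρ hρ (by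
        intro L hL
        rw [h𝓛, mem_image] at hL
        obtain ⟨g, hg, rfl⟩ := hL
        rw [mem_filter] at hg
        obtain ⟨hg1, hg2⟩ := hg
        rw [h𝓕, mem_filter] at hg1
        obtain ⟨hg1, hg3⟩ := hg1
        obtain ⟨hg4, hg5⟩ := Prod.mk.inj hg3
        refine (hG g hg1).2.2.trans ?_
        apply card_le_card
        intro c hc
        rw [mem_filter] at hc ⊢
        have := (hrich g hg1 c hc.1 hc.2).2
        rw [hg4, hg5, hg2] at this
        exact ⟨hc.1, this⟩)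
      refine this.trans ?_
      apply Nat.mul_le_mul_left
      apply Nat.add_le_add
      · apply Nat.mul_le_mul
        · exact Nat.pow_le_pow_left ha₁ _
        · exact le_rfl
      · apply Nat.mul_le_mul
        · apply Nat.mul_le_mul
          · exact Nat.pow_le_pow_left ha₁ _
          · exact le_rfl
        · exact le_rfl
    -- bound for S γ
    have e3 : ∀ γ, w * S γ ≤ a * B ^ 2 := by
      intro γ
      rw [hS]
      simp only
      rw [mul_sum]
      calc ∑ c ∈ X, w * (DD (row R₁ c) (row R₂ (α * c + β)) w γ).card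
          ≤ ∑ c ∈ X, B ^ 2 := by
            apply sum_le_sum
            intro c _
            refine (card_DD (by omega)).trans ?_
            rw [pow_two]
            apply Nat.mul_le_mul
            · refine (card_row _ _).trans ?_
              convert hB₁ c
            · refine (card_row _ _).trans ?_
              convert hB₂ _
        _ = X.card * B ^ 2 := by rw [sum_const, smul_eq_mul]
        _ ≤ a * B ^ 2 := Nat.mul_le_mul_right _ ha₁
    have e4 : w ^ 3 * ∑ γ ∈ Γ, S γ ≤ 16 * C₀ * a * B ^ 4 := by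
      rw [hS]
      simp only
      rw [sum_comm, mul_sum]
      calc ∑ c ∈ X, w ^ 3 * ∑ γ ∈ Γ, (DD (row R₁ c) (row R₂ (α * c + β)) w γ).card
          ≤ ∑ c ∈ X, 16 * C₀ * B ^ 4 := by
            apply sum_le_sum
            intro c _
            refine (sum_DD hC₀ hw hΓ0).trans ?_
            calc C₀ * ((row R₁ c).card + (row R₂ (α * c + β)).card) ^ 4 ≤ C₀ * (2 * B) ^ 4 := by
                  apply Nat.mul_le_mul_left
                  apply Nat.pow_le_pow_left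
                  have h1 : (row R₁ c).card ≤ B := by
                    refine (card_row _ _).trans ?_
                    convert hB₁ c
                  have h2 : (row R₂ (α * c + β)).card ≤ B := by
                    refine (card_row _ _).trans ?_
                    convert hB₂ _
                  omega
              _ = 16 * C₀ * B ^ 4 := by ring
        _ = X.card * (16 * C₀ * B ^ 4) := by rw [sum_const, smul_eq_mul]
        _ ≤ a * (16 * C₀ * B ^ 4) := Nat.mul_le_mul_right _ ha₁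
        _ = 16 * C₀ * a * B ^ 4 := by ring
    have e5 : w ^ 4 * ∑ γ ∈ Γ, (S γ) ^ 2 ≤ 16 * C₀ * a ^ 2 * B ^ 6 := by
      calc w ^ 4 * ∑ γ ∈ Γ, (S γ) ^ 2 = w ^ 3 * ∑ γ ∈ Γ, (w * S γ) * S γ := by
            rw [mul_sum, mul_sum]
            apply sum_congr rfl
            intro γ _
            ring
        _ ≤ w ^ 3 * ∑ γ ∈ Γ, (a * B ^ 2) * S γ := by
            apply Nat.mul_le_mul_left
            apply sum_le_sum
            intro γ _
            exact Nat.mul_le_mul_right _ (e3 γ)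
        _ = (a * B ^ 2) * (w ^ 3 * ∑ γ ∈ Γ, S γ) := by
            rw [← mul_sum]
            ring
        _ ≤ (a * B ^ 2) * (16 * C₀ * a * B ^ 4) := Nat.mul_le_mul_left _ e4
        _ = 16 * C₀ * a ^ 2 * B ^ 6 := by ring
    calc ρ ^ 9 * w ^ 4 * 𝓕.card
        = w ^ 4 * ∑ γ ∈ Γ, ρ ^ 9 * (𝓕.filter (fun g => g.2.2.1 = γ)).card := by
          rw [e1, ← mul_sum]
          ring
      _ ≤ w ^ 4 * ∑ γ ∈ Γ, C₁ * (a ^ 6 * (S γ) ^ 2 + a ^ 2 * ρ ^ 6 * S γ) := by
          apply Nat.mul_le_mul_left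
          exact sum_le_sum e2
      _ = C₁ * (a ^ 6 * (w ^ 4 * ∑ γ ∈ Γ, (S γ) ^ 2) +
            a ^ 2 * ρ ^ 6 * w * (w ^ 3 * ∑ γ ∈ Γ, S γ)) := by
          rw [← mul_sum, sum_add_distrib, ← mul_sum, ← mul_sum]
          ring
      _ ≤ C₁ * (a ^ 6 * (16 * C₀ * a ^ 2 * B ^ 6) +
            a ^ 2 * ρ ^ 6 * w * (16 * C₀ * a * B ^ 4)) := by
          apply Nat.mul_le_mul_left
          apply Nat.add_le_add
          · exact Nat.mul_le_mul_left _ e5
          · exact Nat.mul_le_mul_left _ e4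
      _ = 16 * C₀ * C₁ * (a ^ 8 * B ^ 6 + a ^ 3 * ρ ^ 6 * w * B ^ 4) := by ring
  -- step 4
  have e6 : 𝓖.card = ∑ ab ∈ 𝓖.image (fun g => (g.1, g.2.1)),
      (𝓖.filter (fun g => (g.1, g.2.1) = ab)).card := card_eq_sum_card_image _ _
  calc ρ ^ 12 * w ^ 4 * 𝓖.card
      = ρ ^ 3 * ∑ ab ∈ 𝓖.image (fun g => (g.1, g.2.1)),
          ρ ^ 9 * w ^ 4 * (𝓖.filter (fun g => (g.1, g.2.1) = ab)).card := by
        rw [e6, ← mul_sum]
        ring
    _ ≤ ρ ^ 3 * ∑ ab ∈ 𝓖.image (fun g => (g.1, g.2.1)),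
          16 * C₀ * C₁ * (a ^ 8 * B ^ 6 + a ^ 3 * ρ ^ 6 * w * B ^ 4) := by
        apply Nat.mul_le_mul_left
        exact sum_le_sum s2
    _ = (ρ ^ 3 * (𝓖.image (fun g => (g.1, g.2.1))).card) *
          (16 * C₀ * C₁ * (a ^ 8 * B ^ 6 + a ^ 3 * ρ ^ 6 * w * B ^ 4)) := by
        rw [sum_const, smul_eq_mul]
        ring
    _ ≤ (16 * C₀ * a ^ 4) *
          (16 * C₀ * C₁ * (a ^ 8 * B ^ 6 + a ^ 3 * ρ ^ 6 * w * B ^ 4)) :=
        Nat.mul_le_mul_right _ s1
    _ = 256 * C₀ ^ 2 * C₁ * (a ^ 12 * B ^ 6 + a ^ 7 * ρ ^ 6 * w * B ^ 4) := by ring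

end Pool.Agent.Lib.MP_b430f2_co.Plane
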