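import Mathlib
import Pool.Agent.Lib.MP_b430f2_co.Plane.Cells

/-! M4. Few pairs of points lie on rich lines. -/

namespace Pool.Agent.Lib.MP_b430f2_co.Plane

open Finset

/-- the partition of `P` by lines (helper44) in terms of `Off` -/
theorem exists_cells (h : ℕ) (P : Finset (ℝ × ℝ)) :
    ∃ (Λ : Finset (ℝ × ℝ × ℝ)) (κ : ℝ × ℝ → List (Bool × Bool)),
      Λ.card < 4 ^ h ∧ (∀ l ∈ Λ, ¬ (l.1 = 0 ∧ l.2.1 = 0 ∧ l.2.2 = 0)) ∧
      (∀ z, 4 ^ h * (cellOf Λ κ P z).card ≤ P.card) ∧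
      (∀ (L : ℝ × ℝ) (S : Finset (ℝ × ℝ)), (∀ x ∈ S, x ∈ P ∧ OnL L x ∧ Off Λ x) →
        (S.image κ).card ≤ 3 ^ h) := by
  obtain ⟨Λ, κ, h1, h2, h3, h4⟩ := exists_partition h P Prod.fst Prod.snd
  have hn := numLines_le h
  refine ⟨Λ, κ, by omega, h2, fun z => ?_, fun L S hS => ?_⟩
  · refine le_trans (Nat.mul_le_mul_left _ (Finset.card_le_card ?_)) (h3 z)
    intro x hx
    obtain ⟨a1, a2, a3⟩ := mem_cellOf.1 hx
    exact Finset.mem_filter.2 ⟨a1, a2, a3⟩
  · refine le_trans (Finset.card_le_card ?_) (h4 (-L.2) (-L.1) 1 (by simp))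
    apply Finset.image_subset_image
    intro x hx
    obtain ⟨a1, a2, a3⟩ := hS x hx
    unfold OnL at a2
    exact Finset.mem_filter.2 ⟨a1, a3, by linarith⟩

/-- a functional vanishing at two points of a line vanishes on the line -/
theorem vanish {l : ℝ × ℝ × ℝ} {L x y p : ℝ × ℝ} (hx : OnL L x) (hy : OnL L y) (hxy : x ≠ y)
    (hp : OnL L p) (lx : l.1 + l.2.1 * x.1 + l.2.2 * x.2 = 0)
    (ly : l.1 + l.2.1 * y.1 + l.2.2 * y.2 = 0) : l.1 + l.2.1 * p.1 + l.2.2 * p.2 = 0 := by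
  have h1 := OnL.fst_ne hx hy hxy
  unfold OnL at hx hy hp
  rw [hx] at lx
  rw [hy] at ly
  rw [hp]
  have h2 : (l.2.1 + l.2.2 * L.1) * (x.1 - y.1) = 0 := by linarith
  have h3 : l.2.1 + l.2.2 * L.1 = 0 :=
    (mul_eq_zero.1 h2).resolve_right (sub_ne_zero.2 h1)
  have h4 : l.1 + l.2.2 * L.2 = 0 := by linear_combination lx - x.1 * h3
  linear_combination h4 + p.1 * h3

open Classical in
/-- Cauchy-Schwarz for the cells meeting a set -/
theorem sq_le_pairs (S : Finset (ℝ × ℝ)) (κ : ℝ × ℝ → List (Bool × Bool)) (m : ℕ)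
    (hm : (S.image κ).card ≤ m) : S.card * S.card ≤
      m * (((S ×ˢ S).filter (fun xy => κ xy.1 = κ xy.2 ∧ xy.1 ≠ xy.2)).card + S.card) := by
  set E := (S ×ˢ S).filter (fun xy => κ xy.1 = κ xy.2) with hE
  have h1 : S.card = ∑ z ∈ S.image κ, (S.filter (fun x => κ x = z)).card :=
    Finset.card_eq_sum_card_fiberwise (fun x hx => Finset.mem_image_of_mem κ hx)
  have h2 : S.card ^ 2 ≤ (S.image κ).card * ∑ z ∈ S.image κ, (S.filter (fun x => κ x = z)).card ^ 2 := by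
    rw [h1]
    exact sq_sum_le_card_mul_sum_sq
  have h3 : ∑ z ∈ S.image κ, (S.filter (fun x => κ x = z)).card ^ 2 ≤ E.card := by
    rw [Finset.card_eq_sum_card_fiberwise (s := E) (t := S.image κ) (f := fun xy => κ xy.1)]
    · apply Finset.sum_le_sum
      intro z _
      rw [pow_two, ← Finset.card_product]
      apply Finset.card_le_card
      intro xy hxy
      rw [Finset.mem_product, Finset.mem_filter, Finset.mem_filter] at hxy
      rw [Finset.mem_filter, hE, Finset.mem_filter, Finset.mem_product]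
      exact ⟨⟨⟨hxy.1.1, hxy.2.1⟩, hxy.1.2.trans hxy.2.2.symm⟩, hxy.1.2⟩
    · intro xy hxy
      have h5 := (Finset.mem_product.1 (Finset.mem_filter.1 hxy).1).1
      exact Finset.mem_image_of_mem κ h5
  have h4 : E.card ≤ ((S ×ˢ S).filter (fun xy => κ xy.1 = κ xy.2 ∧ xy.1 ≠ xy.2)).card +
      S.card := by
    rw [← Finset.card_filter_add_card_filter_not (s := E) (fun xy => xy.1 ≠ xy.2)]
    apply Nat.add_le_add
    · apply Finset.card_le_card
      intro xy hxy
      rw [hE, Finset.mem_filter, Finset.mem_filter] at hxy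
      rw [Finset.mem_filter]
      exact ⟨hxy.1.1, hxy.1.2, hxy.2⟩
    · apply Finset.card_le_card_of_injOn Prod.fst
      · intro xy hxy
        have h5 := (Finset.mem_filter.1 hxy).1
        exact (Finset.mem_product.1 (Finset.mem_filter.1 h5).1).1
      · intro xy hxy xy' hxy' h6
        have h7 := (Finset.mem_filter.1 (Finset.mem_coe.1 hxy)).2
        have h8 := (Finset.mem_filter.1 (Finset.mem_coe.1 hxy')).2
        rw [not_not] at h7 h8
        exact Prod.ext h6 (h7.symm.trans (h6.trans h8))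
  calc S.card * S.card = S.card ^ 2 := by ring
    _ ≤ _ := h2
    _ ≤ m * E.card := Nat.mul_le_mul hm h3
    _ ≤ _ := Nat.mul_le_mul_left _ h4

open Classical in
/-- pairs of points of a common cell -/
theorem same_cell (h : ℕ) (P : Finset (ℝ × ℝ)) (Λ : Finset (ℝ × ℝ × ℝ))
    (κ : ℝ × ℝ → List (Bool × Bool)) (h3 : ∀ z, 4 ^ h * (cellOf Λ κ P z).card ≤ P.card) :
    4 ^ h * ((P ×ˢ P).filter (fun xy => Off Λ xy.1 ∧ Off Λ xy.2 ∧ κ xy.1 = κ xy.2)).card ≤
      P.card ^ 2 := by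
  have h1 : ((P ×ˢ P).filter (fun xy => Off Λ xy.1 ∧ Off Λ xy.2 ∧ κ xy.1 = κ xy.2)).card ≤
      ∑ x ∈ P, (cellOf Λ κ P (κ x)).card := by
    rw [Finset.card_eq_sum_card_fiberwise (t := P) (f := Prod.fst)]
    · apply Finset.sum_le_sum
      intro x _
      apply Finset.card_le_card_of_injOn Prod.snd
      · intro xy hxy
        have h5 := Finset.mem_filter.1 (Finset.mem_coe.1 hxy)
        have h6 := Finset.mem_filter.1 h5.1
        apply Finset.mem_coe.2
        rw [mem_cellOf]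
        refine ⟨(Finset.mem_product.1 h6.1).2, h6.2.2.1, ?_⟩
        rw [← h6.2.2.2, h5.2]
      · intro xy hxy xy' hxy' h6
        have h5 := (Finset.mem_filter.1 (Finset.mem_coe.1 hxy)).2
        have h7 := (Finset.mem_filter.1 (Finset.mem_coe.1 hxy')).2
        exact Prod.ext (h5.trans h7.symm) h6
    · intro xy hxy
      exact (Finset.mem_product.1 (Finset.mem_filter.1 hxy).1).1
  calc _ ≤ 4 ^ h * ∑ x ∈ P, (cellOf Λ κ P (κ x)).card := Nat.mul_le_mul_left _ h1
    _ = ∑ x ∈ P, 4 ^ h * (cellOf Λ κ P (κ x)).card := by rw [Finset.mul_sum]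
    _ ≤ ∑ x ∈ P, P.card := Finset.sum_le_sum (fun x _ => h3 (κ x))
    _ = P.card ^ 2 := by rw [Finset.sum_const, smul_eq_mul, pow_two]

open Classical in
/-- M4 -/
theorem richPair : RichPairStmt := by
  intro h P l w hinj hl hw
  by_cases hh : 4 ^ h < 8 * 3 ^ h
  · have h1 : ((P ×ˢ P).filter (fun pq => pq.1 ≠ pq.2 ∧ ∃ L, OnL L pq.1 ∧ OnL L pq.2 ∧
        w ≤ (lineP P L).card)).card ≤ P.card ^ 2 := by
      refine (Finset.card_filter_le _ _).trans ?_
      rw [Finset.card_product, pow_two]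
    calc _ ≤ 4 ^ h * P.card ^ 2 := Nat.mul_le_mul_left _ h1
      _ ≤ 8 * 3 ^ h * P.card ^ 2 := Nat.mul_le_mul_right _ hh.le
      _ ≤ _ := Nat.le_add_right _ _
  rw [not_lt] at hh
  obtain ⟨Λ, κ, c1, c2, c3, c4⟩ := exists_cells h P
  set R := (P ×ˢ P).filter (fun pq => pq.1 ≠ pq.2 ∧ ∃ L, OnL L pq.1 ∧ OnL L pq.2 ∧
    w ≤ (lineP P L).card) with hR
  have memR : ∀ pq ∈ R, pq.1 ∈ P ∧ pq.2 ∈ P ∧ pq.1 ≠ pq.2 ∧ pq.1.1 ≠ pq.2.1 ∧
      w ≤ (lineP P (thr pq.1 pq.2)).card := by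
    intro pq hpq
    rw [hR, Finset.mem_filter, Finset.mem_product] at hpq
    obtain ⟨⟨h1, h2⟩, h3, L, h4, h5, h6⟩ := hpq
    have h7 : pq.1.1 ≠ pq.2.1 := fun h8 => h3 (hinj h1 h2 h8)
    refine ⟨h1, h2, h3, h7, ?_⟩
    rw [← OnL.eq_thr h7 h4 h5]
    exact h6
  set R1 := R.filter (fun pq => ∃ l ∈ Λ, l.1 + l.2.1 * pq.1.1 + l.2.2 * pq.1.2 = 0 ∧
    l.1 + l.2.1 * pq.2.1 + l.2.2 * pq.2.2 = 0) with hR1
  set R2 := R.filter (fun pq => ¬ ∃ l ∈ Λ, l.1 + l.2.1 * pq.1.1 + l.2.2 * pq.1.2 = 0 ∧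
    l.1 + l.2.1 * pq.2.1 + l.2.2 * pq.2.2 = 0) with hR2
  have hsum : R1.card + R2.card = R.card := Finset.card_filter_add_card_filter_not _
  -- pairs on the lines of the partition
  have b1 : R1.card ≤ 4 ^ h * l ^ 2 := by
    have h1 : R1 ⊆ Λ.biUnion (fun l => lineP P (-l.2.1 / l.2.2, -l.1 / l.2.2) ×ˢ
        lineP P (-l.2.1 / l.2.2, -l.1 / l.2.2)) := by
      intro pq hpq
      obtain ⟨h2, l, hl, h3, h4⟩ := Finset.mem_filter.1 hpq
      obtain ⟨m1, m2, m3, m4, m5⟩ := memR pq h2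
      have h5 : l.2.2 ≠ 0 := by
        intro h6
        rw [h6] at h3 h4
        have h7 : l.2.1 * (pq.1.1 - pq.2.1) = 0 := by linarith
        have h8 : l.2.1 = 0 := (mul_eq_zero.1 h7).resolve_right (sub_ne_zero.2 m4)
        rw [h8] at h3
        exact c2 l hl ⟨by linarith, h8, h6⟩
      rw [Finset.mem_biUnion]
      refine ⟨l, hl, ?_⟩
      rw [Finset.mem_product, mem_lineP, mem_lineP]
      refine ⟨⟨m1, ?_⟩, m2, ?_⟩
      · unfold OnL
        simp only
        field_simp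
        linarith
      · unfold OnL
        simp only
        field_simp
        linarith
    calc R1.card ≤ _ := Finset.card_le_card h1
      _ ≤ ∑ m ∈ Λ, (lineP P (-m.2.1 / m.2.2, -m.1 / m.2.2) ×ˢ
        lineP P (-m.2.1 / m.2.2, -m.1 / m.2.2)).card := Finset.card_biUnion_le
      _ ≤ ∑ m ∈ Λ, l ^ 2 := by
          apply Finset.sum_le_sum
          intro m _
          rw [Finset.card_product, pow_two]
          exact Nat.mul_le_mul (hl _) (hl _)
      _ ≤ 4 ^ h * l ^ 2 := by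
          rw [Finset.sum_const, smul_eq_mul]
          exact Nat.mul_le_mul_right _ c1.le
  -- the other pairs
  have b2 : 4 ^ h * R2.card ≤ 8 * 3 ^ h * P.card ^ 2 := by
    set 𝓛 := R2.image (fun pq => thr pq.1 pq.2) with h𝓛
    set G : ℝ × ℝ → Finset (ℝ × ℝ) := fun L => (lineP P L).filter (fun x => Off Λ x) with hG
    set N : ℝ × ℝ → Finset ((ℝ × ℝ) × (ℝ × ℝ)) := fun L =>
      (G L ×ˢ G L).filter (fun xy => κ xy.1 = κ xy.2 ∧ xy.1 ≠ xy.2) with hN
    have key : ∀ L ∈ 𝓛, (lineP P L).card * (lineP P L).card ≤ 8 * 3 ^ h * (N L).card := by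
      intro L hL
      obtain ⟨pq, hpq, hpL⟩ := Finset.mem_image.1 hL
      obtain ⟨h2, h3⟩ := Finset.mem_filter.1 hpq
      obtain ⟨m1, m2, m3, m4, m5⟩ := memR pq h2
      rw [hpL] at m5
      have hp : OnL L pq.1 := hpL ▸ thr_left _ _
      have hq : OnL L pq.2 := hpL ▸ thr_right m4
      have g1 : (lineP P L).card ≤ (G L).card + Λ.card := by
        rw [← Finset.card_filter_add_card_filter_not (s := lineP P L) (fun x => Off Λ x)]
        apply Nat.add_le_add_left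
        have h4 : ∀ x : ℝ × ℝ, ¬ Off Λ x → ∃ l ∈ Λ, l.1 + l.2.1 * x.1 + l.2.2 * x.2 = 0 := by
          intro x hx
          unfold Off at hx
          push Not at hx
          exact hx
        choose! f hf1 hf2 using h4
        apply Finset.card_le_card_of_injOn f
        · intro x hx
          exact hf1 x (Finset.mem_filter.1 (Finset.mem_coe.1 hx)).2
        · intro x hx y hy hxy
          by_contra hne
          obtain ⟨x1, x2⟩ := Finset.mem_filter.1 (Finset.mem_coe.1 hx)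
          obtain ⟨y1, y2⟩ := Finset.mem_filter.1 (Finset.mem_coe.1 hy)
          have e1 := hf2 x x2
          have e2 := hf2 y y2
          rw [← hxy] at e2
          exact h3 ⟨f x, hf1 x x2, vanish (mem_lineP.1 x1).2 (mem_lineP.1 y1).2 hne hp e1 e2,
            vanish (mem_lineP.1 x1).2 (mem_lineP.1 y1).2 hne hq e1 e2⟩
      have g2 : (G L).card * (G L).card ≤ 3 ^ h * ((N L).card + (G L).card) := by
        apply sq_le_pairs
        apply c4 L
        intro x hx
        obtain ⟨x1, x2⟩ := Finset.mem_filter.1 hx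
        exact ⟨(mem_lineP.1 x1).1, (mem_lineP.1 x1).2, x2⟩
      generalize (lineP P L).card = lam at m5 g1 ⊢
      generalize (G L).card = g at g1 g2
      generalize (N L).card = n at g2 ⊢
      generalize 4 ^ h = a at hh c1 hw
      generalize 3 ^ h = b at hh g2 ⊢
      have g3 : lam ≤ 2 * g := by omega
      have g4 : 8 * b ≤ g := by omega
      have g5 : 8 * b * g ≤ g * g := Nat.mul_le_mul_right _ g4
      have g6 : lam * lam ≤ (2 * g) * (2 * g) := Nat.mul_le_mul g3 g3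
      nlinarith
    have h1 : R2.card ≤ ∑ L ∈ 𝓛, (lineP P L).card * (lineP P L).card := by
      have h2 : R2 ⊆ 𝓛.biUnion (fun L => lineP P L ×ˢ lineP P L) := by
        intro pq hpq
        obtain ⟨h2, h3⟩ := Finset.mem_filter.1 hpq
        obtain ⟨m1, m2, m3, m4, m5⟩ := memR pq h2
        rw [Finset.mem_biUnion]
        refine ⟨thr pq.1 pq.2, Finset.mem_image.2 ⟨pq, hpq, rfl⟩, ?_⟩
        rw [Finset.mem_product, mem_lineP, mem_lineP]
        exact ⟨⟨m1, thr_left _ _⟩, m2, thr_right m4⟩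
      refine (Finset.card_le_card h2).trans (Finset.card_biUnion_le.trans ?_)
      apply Finset.sum_le_sum
      intro L _
      rw [Finset.card_product]
    have h2 : ∑ L ∈ 𝓛, (N L).card ≤
        ((P ×ˢ P).filter (fun xy => Off Λ xy.1 ∧ Off Λ xy.2 ∧ κ xy.1 = κ xy.2)).card := by
      rw [← Finset.card_biUnion]
      · apply Finset.card_le_card
        intro xy hxy
        obtain ⟨L, _, h3⟩ := Finset.mem_biUnion.1 hxy
        obtain ⟨h4, h5, h6⟩ := Finset.mem_filter.1 h3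
        obtain ⟨h7, h8⟩ := Finset.mem_product.1 h4
        obtain ⟨x1, x2⟩ := Finset.mem_filter.1 h7
        obtain ⟨y1, y2⟩ := Finset.mem_filter.1 h8
        rw [Finset.mem_filter, Finset.mem_product]
        exact ⟨⟨(mem_lineP.1 x1).1, (mem_lineP.1 y1).1⟩, x2, y2, h5⟩
      · intro L _ L' _ hne
        rw [Function.onFun, Finset.disjoint_left]
        intro xy h3 h3'
        obtain ⟨h4, h5, h6⟩ := Finset.mem_filter.1 h3
        obtain ⟨h4', h5', h6'⟩ := Finset.mem_filter.1 h3'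
        obtain ⟨h7, h8⟩ := Finset.mem_product.1 h4
        obtain ⟨h7', h8'⟩ := Finset.mem_product.1 h4'
        exact h6 (OnL.eq_point hne (mem_lineP.1 (Finset.mem_filter.1 h7).1).2
          (mem_lineP.1 (Finset.mem_filter.1 h8).1).2
          (mem_lineP.1 (Finset.mem_filter.1 h7').1).2
          (mem_lineP.1 (Finset.mem_filter.1 h8').1).2)
    have h3 := same_cell h P Λ κ c3
    calc 4 ^ h * R2.card ≤ 4 ^ h * ∑ L ∈ 𝓛, (lineP P L).card * (lineP P L).card :=
          Nat.mul_le_mul_left _ h1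
      _ ≤ 4 ^ h * ∑ L ∈ 𝓛, 8 * 3 ^ h * (N L).card :=
          Nat.mul_le_mul_left _ (Finset.sum_le_sum key)
      _ = 8 * 3 ^ h * (4 ^ h * ∑ L ∈ 𝓛, (N L).card) := by rw [← Finset.mul_sum]; ring
      _ ≤ 8 * 3 ^ h * (4 ^ h * _) := Nat.mul_le_mul_left _ (Nat.mul_le_mul_left _ h2)
      _ ≤ 8 * 3 ^ h * P.card ^ 2 := Nat.mul_le_mul_left _ h3
  calc 4 ^ h * R.card = 4 ^ h * R2.card + 4 ^ h * R1.card := by rw [← hsum]; ring
    _ ≤ 8 * 3 ^ h * P.card ^ 2 + 4 ^ h * (4 ^ h * l ^ 2) :=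
        Nat.add_le_add b2 (Nat.mul_le_mul_left _ b1)
    _ = 8 * 3 ^ h * P.card ^ 2 + 16 ^ h * l ^ 2 := by
        rw [← mul_assoc (4 ^ h) (4 ^ h), ← mul_pow]
        norm_num

end Pool.Agent.Lib.MP_b430f2_co.Plane
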