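import Mathlib
import Pool.Agent.Lib.MP_b430f2_co.Plane.Defs
import Pool.Agent.Lib.MP_b430f2_co.Plane.Api

/-! Rich lines, and the rich lines of an affine map. -/

namespace Pool.Agent.Lib.MP_b430f2_co.Plane

open Finset

open Classical in
/-- The lines with at least `w` points of `P`. -/
noncomputable def rich (P : Finset (ℝ × ℝ)) (w : ℕ) : Finset (ℝ × ℝ) :=
  ((P ×ˢ P).image (fun pq => thr pq.1 pq.2)).filter (fun L => w ≤ (lineP P L).card)

theorem mem_rich {P : Finset (ℝ × ℝ)} {w : ℕ} (hw : 2 ≤ w) {L : ℝ × ℝ} :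
    L ∈ rich P w ↔ w ≤ (lineP P L).card := by
  classical
  constructor
  · intro h
    exact (mem_filter.1 h).2
  · intro h
    refine mem_filter.2 ⟨?_, h⟩
    obtain ⟨p, hp, q, hq, hpq⟩ := Finset.one_lt_card.1 (lt_of_lt_of_le (by omega) h)
    rw [mem_lineP] at hp hq
    exact mem_image.2 ⟨(p, q), mem_product.2 ⟨hp.1, hq.1⟩,
      (OnL.eq_thr (OnL.fst_ne hp.2 hq.2 hpq) hp.2 hq.2).symm⟩

theorem card_rich_mul_le {P : Finset (ℝ × ℝ)} {w : ℕ} (hw : 2 ≤ w) (h : 4 * P.card ≤ w ^ 2) :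
    (rich P w).card * w ≤ 2 * P.card := by
  classical
  set R := rich P w with hR
  set n := P.card with hn
  set I := ∑ L ∈ R, (lineP P L).card with hI
  have h1 : R.card * w ≤ I := by
    rw [hI, ← smul_eq_mul]
    exact Finset.card_nsmul_le_sum _ _ _ (fun L hL => (mem_rich hw).1 hL)
  have h2 : ∑ p ∈ P, (R.filter (fun L => OnL L p)).card = I := by
    rw [hI]
    simp only [lineP, Finset.card_filter]
    rw [Finset.sum_comm]
  have h3 : ∑ p ∈ P, (R.filter (fun L => OnL L p)).card ^ 2 ≤ I + R.card ^ 2 := by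
    calc ∑ p ∈ P, (R.filter (fun L => OnL L p)).card ^ 2
        = ∑ p ∈ P, ((R ×ˢ R).filter (fun LL => OnL LL.1 p ∧ OnL LL.2 p)).card := by
          refine Finset.sum_congr rfl (fun p _ => ?_)
          rw [sq, ← Finset.card_product]
          congr 1
          ext LL
          simp only [mem_product, mem_filter]
          tauto
      _ = ∑ LL ∈ R ×ˢ R, (P.filter (fun p => OnL LL.1 p ∧ OnL LL.2 p)).card := by
          simp only [Finset.card_filter]
          rw [Finset.sum_comm]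
      _ ≤ ∑ LL ∈ R ×ˢ R, ((if LL.1 = LL.2 then (lineP P LL.1).card else 0) + 1) := by
          refine Finset.sum_le_sum (fun LL _ => ?_)
          by_cases hLL : LL.1 = LL.2
          · rw [if_pos hLL]
            refine le_trans (Finset.card_le_card ?_) (Nat.le_succ _)
            intro p hp
            rw [mem_lineP]
            rw [mem_filter] at hp
            exact ⟨hp.1, hp.2.1⟩
          · rw [if_neg hLL]
            rw [Nat.zero_add]
            refine Finset.card_le_one.2 (fun p hp q hq => ?_)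
            rw [mem_filter] at hp hq
            exact OnL.eq_point hLL hp.2.1 hq.2.1 hp.2.2 hq.2.2
      _ = I + R.card ^ 2 := by
          rw [Finset.sum_add_distrib, Finset.sum_product]
          congr 1
          · rw [hI]
            refine Finset.sum_congr rfl (fun L hL => ?_)
            rw [Finset.sum_ite_eq, if_pos hL]
          · simp [sq]
  have h4 : I ^ 2 ≤ n * (I + R.card ^ 2) := by
    calc I ^ 2 = (∑ p ∈ P, (R.filter (fun L => OnL L p)).card) ^ 2 := by rw [h2]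
      _ ≤ P.card * ∑ p ∈ P, (R.filter (fun L => OnL L p)).card ^ 2 := sq_sum_le_card_mul_sum_sq
      _ ≤ n * (I + R.card ^ 2) := Nat.mul_le_mul_left _ h3
  have h5 : 4 * n * R.card ^ 2 ≤ I ^ 2 := by
    calc 4 * n * R.card ^ 2 ≤ w ^ 2 * R.card ^ 2 := Nat.mul_le_mul_right _ h
      _ = (R.card * w) ^ 2 := by ring
      _ ≤ I ^ 2 := Nat.pow_le_pow_left h1 2
  have h6 : I ≤ 2 * n := by
    by_contra hcon
    push Not at hcon
    nlinarith
  exact le_trans h1 h6

open Classical in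
/-- The lines with at least `w` points of `P` that `T` maps into `P`. -/
noncomputable def tlines (P : Finset (ℝ × ℝ)) (w : ℕ) (T : Aff) : Finset (ℝ × ℝ) :=
  (rich P w).filter (fun L => w ≤ (lineP (dom P T) L).card)

theorem mem_tlines {P : Finset (ℝ × ℝ)} {w : ℕ} (hw : 2 ≤ w) {T : Aff} {L : ℝ × ℝ} :
    L ∈ tlines P w T ↔ w ≤ (lineP (dom P T) L).card := by
  classical
  constructor
  · intro h
    exact (mem_filter.1 h).2
  · intro h
    refine mem_filter.2 ⟨(mem_rich hw).2 (le_trans h (Finset.card_le_card ?_)), h⟩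
    intro p hp
    rw [mem_lineP] at hp ⊢
    exact ⟨(mem_dom.1 hp.1).1, hp.2⟩

theorem tlines_subset {P : Finset (ℝ × ℝ)} {w : ℕ} {T : Aff} : tlines P w T ⊆ rich P w := by
  classical
  exact Finset.filter_subset _ _

theorem good_tlines {P : Finset (ℝ × ℝ)} (hP : Set.InjOn Prod.fst (P : Set (ℝ × ℝ))) {w : ℕ}
    (hw : 2 ≤ w) {T : Aff} {L : ℝ × ℝ} (hL : L ∈ tlines P w T) : Good T L := by
  classical
  rw [mem_tlines hw] at hL
  obtain ⟨p, hp, q, hq, hpq⟩ := Finset.one_lt_card.1 (lt_of_lt_of_le (by omega) hL)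
  rw [mem_lineP, mem_dom] at hp hq
  refine good_of_two hp.2 hq.2 (fun h => hpq (T.app_injective ?_))
  exact hP (mem_coe.2 hp.1.2) (mem_coe.2 hq.1.2) h

theorem img_tlines {P : Finset (ℝ × ℝ)} (hP : Set.InjOn Prod.fst (P : Set (ℝ × ℝ))) {w : ℕ}
    (hw : 2 ≤ w) {T : Aff} {L : ℝ × ℝ} (hL : L ∈ tlines P w T) : imgL T L ∈ rich P w := by
  classical
  have hG := good_tlines hP hw hL
  rw [mem_tlines hw] at hL
  rw [mem_rich hw]
  refine le_trans hL (Finset.card_le_card_of_injOn T.app ?_ (T.app_injective.injOn))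
  intro p hp
  rw [mem_coe, mem_lineP, mem_dom] at hp
  rw [mem_coe, mem_lineP]
  exact ⟨hp.1.2, OnL.img hG hp.2⟩

/-- Three non-collinear points of `dom P T` when `T` is non-degenerate. -/
theorem ND.exists_ncol {P : Finset (ℝ × ℝ)} (hP : Set.InjOn Prod.fst (P : Set (ℝ × ℝ))) {u : ℕ}
    (hu : 1 ≤ u) {T : Aff} (hT : ND P u T) :
    ∃ p ∈ dom P T, ∃ q ∈ dom P T, ∃ r ∈ dom P T, NCol p q r := by
  classical
  have h0 := hT (0, 0)
  obtain ⟨p, hp⟩ := Finset.card_pos.1 (lt_of_lt_of_le (by omega) h0)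
  rw [mem_filter] at hp
  have h1 := hT (0, p.2)
  obtain ⟨q, hq⟩ := Finset.card_pos.1 (lt_of_lt_of_le (by omega) h1)
  rw [mem_filter] at hq
  have hpq : p ≠ q := by
    intro h
    apply hq.2
    rw [← h]
    simp [OnL]
  have hpq1 : p.1 ≠ q.1 := by
    intro h
    exact hpq (hP (mem_coe.2 (mem_dom.1 hp.1).1) (mem_coe.2 (mem_dom.1 hq.1).1) h)
  have h2 := hT (thr p q)
  obtain ⟨r, hr⟩ := Finset.card_pos.1 (lt_of_lt_of_le (by omega) h2)
  rw [mem_filter] at hr
  exact ⟨p, hp.1, q, hq.1, r, hr.1, OnL.ncol (thr_left p q) (thr_right hpq1) hpq hr.2⟩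

/-- The trivial bound. -/
theorem card_le_pow_six {P : Finset (ℝ × ℝ)} (hP : Set.InjOn Prod.fst (P : Set (ℝ × ℝ))) {u : ℕ}
    (hu : 1 ≤ u) {𝓣 : Finset Aff} (h𝓣 : ∀ T ∈ 𝓣, ND P u T) : 𝓣.card ≤ P.card ^ 6 := by
  classical
  have key : ∀ T : Aff, ∃ z : ((ℝ × ℝ) × (ℝ × ℝ) × (ℝ × ℝ)) × ((ℝ × ℝ) × (ℝ × ℝ) × (ℝ × ℝ)),
      T ∈ 𝓣 → z ∈ (P ×ˢ P ×ˢ P) ×ˢ (P ×ˢ P ×ˢ P) ∧ NCol z.1.1 z.1.2.1 z.1.2.2 ∧
        T.app z.1.1 = z.2.1 ∧ T.app z.1.2.1 = z.2.2.1 ∧ T.app z.1.2.2 = z.2.2.2 := by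
    intro T
    by_cases hT : T ∈ 𝓣
    · obtain ⟨p, hp, q, hq, r, hr, h⟩ := ND.exists_ncol hP hu (h𝓣 T hT)
      rw [mem_dom] at hp hq hr
      refine ⟨((p, q, r), (T.app p, T.app q, T.app r)), fun _ => ⟨?_, h, rfl, rfl, rfl⟩⟩
      simp only [mem_product]
      exact ⟨⟨hp.1, hq.1, hr.1⟩, hp.2, hq.2, hr.2⟩
    · exact ⟨((0, 0, 0), (0, 0, 0)), fun h => absurd h hT⟩
  choose z hz using key
  have h1 : 𝓣.card ≤ ((P ×ˢ P ×ˢ P) ×ˢ (P ×ˢ P ×ˢ P)).card := by
    refine Finset.card_le_card_of_injOn z (fun T hT => mem_coe.2 (hz T (mem_coe.1 hT)).1) ?_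
    intro T hT T' hT' h
    obtain ⟨_, h1, h2, h3, h4⟩ := hz T (mem_coe.1 hT)
    obtain ⟨_, h1', h2', h3', h4'⟩ := hz T' (mem_coe.1 hT')
    rw [← h] at h1' h2' h3' h4'
    exact Aff.ext_of_ncol h1 (h2.trans h2'.symm) (h3.trans h3'.symm) (h4.trans h4'.symm)
  refine le_trans h1 (le_of_eq ?_)
  simp only [Finset.card_product]
  ring

/-- The union of the pieces with few points of the domain is small; hence there are many
`T`-lines. -/
theorem card_tlines {P : Finset (ℝ × ℝ)} {l w u : ℕ} {𝓢 : Finset (Finset (ℝ × ℝ))}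
    (hl : ∀ L, (lineP P L).card ≤ 2 * l) (hl1 : 1 ≤ l) (hw : 2 ≤ w)
    (hwu : 8 * P.card * w ≤ l * u)
    (h𝓢 : ∀ S ∈ 𝓢, S ⊆ P ∧ l ≤ S.card ∧ ∃ L, ∀ p ∈ S, OnL L p)
    (hdis : ∀ S ∈ 𝓢, ∀ S' ∈ 𝓢, S ≠ S' → Disjoint S S') (hcov : ∀ p ∈ P, ∃ S ∈ 𝓢, p ∈ S)
    (hu : 1 ≤ u) {T : Aff} (hT : ND P u T) :
    2 ≤ (tlines P w T).card ∧ 7 * u ≤ 16 * l * (tlines P w T).card := by
  classical
  -- the points of the domain off the `T`-lines
  set D := dom P T with hD
  set B := D.filter (fun p => ∀ L ∈ tlines P w T, ¬ OnL L p) with hB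
  have hn𝓢 : 𝓢.card * l ≤ P.card := by
    have h1 : 𝓢.card * l ≤ ∑ S ∈ 𝓢, S.card := by
      rw [← smul_eq_mul]
      exact Finset.card_nsmul_le_sum _ _ _ (fun S hS => (h𝓢 S hS).2.1)
    have h2 : ∑ S ∈ 𝓢, S.card = (𝓢.biUnion id).card := by
      rw [Finset.card_biUnion]
      · rfl
      · intro S hS S' hS' h
        exact hdis S hS S' hS' h
    rw [h2] at h1
    refine le_trans h1 (Finset.card_le_card ?_)
    intro p hp
    obtain ⟨S, hS, hpS⟩ := mem_biUnion.1 hp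
    exact (h𝓢 S hS).1 hpS
  have hBcard : 8 * B.card ≤ u := by
    have h1 : B ⊆ 𝓢.biUnion (fun S => B.filter (fun p => p ∈ S)) := by
      intro p hp
      obtain ⟨S, hS, hpS⟩ := hcov p (mem_dom.1 (mem_filter.1 hp).1).1
      exact mem_biUnion.2 ⟨S, hS, mem_filter.2 ⟨hp, hpS⟩⟩
    have h2 : B.card ≤ 𝓢.card * w := by
      refine le_trans (Finset.card_le_card h1) (Finset.card_biUnion_le_card_mul _ _ _ ?_)
      intro S hS
      by_contra hcon
      push Not at hcon
      obtain ⟨L, hL⟩ := (h𝓢 S hS).2.2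
      have hLT : L ∈ tlines P w T := by
        rw [mem_tlines hw]
        refine le_trans hcon.le (Finset.card_le_card ?_)
        intro p hp
        rw [mem_filter] at hp
        rw [mem_lineP]
        exact ⟨(mem_filter.1 hp.1).1, hL p hp.2⟩
      obtain ⟨p, hp⟩ := Finset.card_pos.1 (lt_of_le_of_lt (Nat.zero_le _) hcon)
      rw [mem_filter] at hp
      exact (mem_filter.1 hp.1).2 L hLT (hL p hp.2)
    have h3 : l * (8 * B.card) ≤ l * u := by
      calc l * (8 * B.card) ≤ l * (8 * (𝓢.card * w)) := by gcongr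
        _ = 8 * (𝓢.card * l) * w := by ring
        _ ≤ 8 * P.card * w := by gcongr
        _ ≤ l * u := hwu
    exact Nat.le_of_mul_le_mul_left h3 (by omega)
  constructor
  · by_contra hcon
    push Not at hcon
    -- there is a line `L` containing all `T`-lines
    obtain ⟨L, hL⟩ : ∃ L, ∀ L' ∈ tlines P w T, L' = L := by
      rcases Finset.eq_empty_or_nonempty (tlines P w T) with h | ⟨L, hL⟩
      · exact ⟨(0, 0), fun L' h' => by simp [h] at h'⟩
      · exact ⟨L, fun L' hL' => Finset.card_le_one.1 (by omega) L' hL' L hL⟩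
    have h1 := hT L
    have h2 : (D.filter (fun p => ¬ OnL L p)) ⊆ B := by
      intro p hp
      rw [mem_filter] at hp
      exact mem_filter.2 ⟨hp.1, fun L' hL' => by rw [hL L' hL']; exact hp.2⟩
    have h3 := le_trans h1 (Finset.card_le_card h2)
    omega
  · have h1 : D ⊆ B ∪ (tlines P w T).biUnion (fun L => lineP P L) := by
      intro p hp
      by_cases h : ∀ L ∈ tlines P w T, ¬ OnL L p
      · exact mem_union_left _ (mem_filter.2 ⟨hp, h⟩)
      · push Not at h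
        obtain ⟨L, hL, hpL⟩ := h
        exact mem_union_right _ (mem_biUnion.2 ⟨L, hL, mem_lineP.2 ⟨(mem_dom.1 hp).1, hpL⟩⟩)
    have h2 : D.card ≤ B.card + (tlines P w T).card * (2 * l) := by
      refine le_trans (Finset.card_le_card h1) (le_trans (Finset.card_union_le _ _) ?_)
      gcongr
      exact Finset.card_biUnion_le_card_mul _ _ _ (fun L _ => hl L)
    have h3 : u ≤ D.card := le_trans (hT (0, 0)) (Finset.card_le_card (Finset.filter_subset _ _))
    nlinarith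

end Pool.Agent.Lib.MP_b430f2_co.Plane
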