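import Mathlib
import Pool.Agent.Lib.MP_b430f2_co.Plane.Stmts
import Pool.Agent.Lib.MP_b430f2_co.Plane.Rich

/-! Maps with at least two rich lines: coding by two lines. -/

namespace Pool.Agent.Lib.MP_b430f2_co.Plane

open Finset

/-- The coefficients of the restriction of `T` to `L`, as a map of abscissae. -/
noncomputable def lcoef (T : Aff) (L : ℝ × ℝ) : ℝ × ℝ := (T.a + T.b * L.1, T.b * L.2 + T.e)

theorem app_fst_of_onL {T : Aff} {L p : ℝ × ℝ} (hp : OnL L p) :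
    (T.app p).1 = (lcoef T L).1 * p.1 + (lcoef T L).2 := by
  unfold OnL at hp
  simp only [Aff.app, lcoef]
  rw [hp]
  ring

theorem app_eq_of_lcoef {T T' : Aff} {L : ℝ × ℝ} (hG : Good T L) (hG' : Good T' L)
    (himg : imgL T L = imgL T' L) (hc : lcoef T L = lcoef T' L) {p : ℝ × ℝ} (hp : OnL L p) :
    T.app p = T'.app p := by
  have h1 : (T.app p).1 = (T'.app p).1 := by
    rw [app_fst_of_onL hp, app_fst_of_onL hp, hc]
  have h2 := OnL.img hG hp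
  have h3 := OnL.img hG' hp
  rw [himg] at h2
  unfold OnL at h2 h3
  exact Prod.ext h1 (by rw [h2, h3, h1])

theorem Aff.ext_of_two_lines {T T' : Aff} {L₁ L₂ : ℝ × ℝ} (h : L₁ ≠ L₂)
    (hG1 : Good T L₁) (hG1' : Good T' L₁) (hG2 : Good T L₂) (hG2' : Good T' L₂)
    (hi1 : imgL T L₁ = imgL T' L₁) (hi2 : imgL T L₂ = imgL T' L₂)
    (hc1 : lcoef T L₁ = lcoef T' L₁) (hc2 : lcoef T L₂ = lcoef T' L₂) : T = T' := by
  have hp : OnL L₁ (0, L₁.2) := by simp [OnL]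
  have hq : OnL L₁ (1, L₁.1 + L₁.2) := by simp [OnL]
  have hp' : OnL L₂ (0, L₂.2) := by simp [OnL]
  have hq' : OnL L₂ (1, L₂.1 + L₂.2) := by simp [OnL]
  obtain ⟨r, hr, hr'⟩ : ∃ r, OnL L₂ r ∧ ¬ OnL L₁ r := by
    by_contra hcon
    push Not at hcon
    exact h (OnL.eq_of_two (p := (0, L₂.2)) (q := (1, L₂.1 + L₂.2)) (by norm_num)
      (hcon _ hp') (hcon _ hq') hp' hq')
  have hpq : ((0, L₁.2) : ℝ × ℝ) ≠ (1, L₁.1 + L₁.2) := by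
    intro h'
    have := congrArg Prod.fst h'
    norm_num at this
  exact Aff.ext_of_ncol (OnL.ncol hp hq hpq hr') (app_eq_of_lcoef hG1 hG1' hi1 hc1 hp)
    (app_eq_of_lcoef hG1 hG1' hi1 hc1 hq) (app_eq_of_lcoef hG2 hG2' hi2 hc2 hr)

open Classical in
theorem card_lcoef_le {C : ℕ} (hC : ∀ (X Y : Finset ℝ) (𝓖 : Finset (ℝ × ℝ)) (m : ℕ), 2 ≤ m →
      (∀ g ∈ 𝓖, g.1 ≠ 0 ∧ m ≤ (X.filter (fun x => g.1 * x + g.2 ∈ Y)).card) →
      m ^ 3 * 𝓖.card ≤ C * (X.card + Y.card) ^ 4)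
    {P : Finset (ℝ × ℝ)} (hP : Set.InjOn Prod.fst (P : Set (ℝ × ℝ))) {l w : ℕ}
    (hl : ∀ L, (lineP P L).card ≤ 2 * l) (hw : 2 ≤ w) (𝓣 : Finset Aff) (L L' : ℝ × ℝ)
    (h𝓣 : ∀ T ∈ 𝓣, L ∈ tlines P w T ∧ imgL T L = L') :
    w ^ 3 * (𝓣.image (fun T => lcoef T L)).card ≤ C * (4 * l) ^ 4 := by
  refine le_trans (hC ((lineP P L).image Prod.fst) ((lineP P L').image Prod.fst) _ w hw ?_) ?_
  · intro g hg
    obtain ⟨T, hT, rfl⟩ := mem_image.1 hg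
    obtain ⟨h1, h2⟩ := h𝓣 T hT
    have hG := good_tlines hP hw h1
    refine ⟨hG, ?_⟩
    rw [mem_tlines hw] at h1
    refine le_trans h1 (Finset.card_le_card_of_injOn Prod.fst ?_ ?_)
    · intro p hp
      rw [mem_coe, mem_lineP, mem_dom] at hp
      rw [mem_coe, mem_filter]
      refine ⟨mem_image.2 ⟨p, mem_lineP.2 ⟨hp.1.1, hp.2⟩, rfl⟩, ?_⟩
      rw [← app_fst_of_onL hp.2]
      exact mem_image.2 ⟨T.app p, mem_lineP.2 ⟨hp.1.2, h2 ▸ OnL.img hG hp.2⟩, rfl⟩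
    · intro p hp q hq h
      rw [mem_coe, mem_lineP, mem_dom] at hp hq
      exact hP (mem_coe.2 hp.1.1) (mem_coe.2 hq.1.1) h
  · have h1 : ((lineP P L).image Prod.fst).card ≤ 2 * l := le_trans Finset.card_image_le (hl L)
    have h2 : ((lineP P L').image Prod.fst).card ≤ 2 * l := le_trans Finset.card_image_le (hl L')
    gcongr
    omega

theorem str_few {C : ℕ} (hC : ∀ (X Y : Finset ℝ) (𝓖 : Finset (ℝ × ℝ)) (m : ℕ), 2 ≤ m →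
      (∀ g ∈ 𝓖, g.1 ≠ 0 ∧ m ≤ (X.filter (fun x => g.1 * x + g.2 ∈ Y)).card) →
      m ^ 3 * 𝓖.card ≤ C * (X.card + Y.card) ^ 4)
    {P : Finset (ℝ × ℝ)} (hP : Set.InjOn Prod.fst (P : Set (ℝ × ℝ))) {l w : ℕ}
    (hl : ∀ L, (lineP P L).card ≤ 2 * l) (hw : 2 ≤ w) (𝓣 : Finset Aff)
    (h𝓣 : ∀ T ∈ 𝓣, 2 ≤ (tlines P w T).card) :
    w ^ 6 * 𝓣.card ≤ (C * (4 * l) ^ 4) ^ 2 * (rich P w).card ^ 4 := by
  classical
  have key : ∀ T : Aff, ∃ z : (ℝ × ℝ) × (ℝ × ℝ), T ∈ 𝓣 → z.1 ∈ tlines P w T ∧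
      z.2 ∈ tlines P w T ∧ z.1 ≠ z.2 := by
    intro T
    by_cases hT : T ∈ 𝓣
    · obtain ⟨L, hL, L', hL', h⟩ := Finset.one_lt_card.1
        (lt_of_lt_of_le (by norm_num : 1 < 2) (h𝓣 T hT))
      exact ⟨(L, L'), fun _ => ⟨hL, hL', h⟩⟩
    · exact ⟨0, fun h => absurd h hT⟩
  choose z hz using key
  set R := rich P w with hR
  let F : Aff → ((ℝ × ℝ) × (ℝ × ℝ)) × ((ℝ × ℝ) × (ℝ × ℝ)) := fun T =>
    (((z T).1, (z T).2), (imgL T (z T).1, imgL T (z T).2))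
  have hF : ∀ T ∈ 𝓣, F T ∈ (R ×ˢ R) ×ˢ (R ×ˢ R) := by
    intro T hT
    obtain ⟨h1, h2, _⟩ := hz T hT
    simp only [F, mem_product]
    exact ⟨⟨tlines_subset h1, tlines_subset h2⟩, img_tlines hP hw h1, img_tlines hP hw h2⟩
  have hfib : ∀ y ∈ (R ×ˢ R) ×ˢ (R ×ˢ R),
      w ^ 6 * (𝓣.filter (fun T => F T = y)).card ≤ (C * (4 * l) ^ 4) ^ 2 := by
    rintro ⟨⟨L₁, L₂⟩, ⟨L₁', L₂'⟩⟩ _
    set 𝓕 := 𝓣.filter (fun T => F T = ((L₁, L₂), (L₁', L₂'))) with h𝓕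
    have hmem : ∀ T ∈ 𝓕, L₁ ∈ tlines P w T ∧ L₂ ∈ tlines P w T ∧ L₁ ≠ L₂ ∧
        imgL T L₁ = L₁' ∧ imgL T L₂ = L₂' := by
      intro T hT
      rw [h𝓕, mem_filter] at hT
      obtain ⟨hT1, hT2⟩ := hT
      obtain ⟨h1, h2, h3⟩ := hz T hT1
      simp only [F, Prod.mk.injEq] at hT2
      obtain ⟨⟨e1, e2⟩, e3, e4⟩ := hT2
      rw [e1] at h1 h3 e3
      rw [e2] at h2 h3 e4
      exact ⟨h1, h2, h3, e3, e4⟩
    have h1 : 𝓕.card ≤ (𝓕.image (fun T => lcoef T L₁)).card *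
        (𝓕.image (fun T => lcoef T L₂)).card := by
      rw [← Finset.card_product]
      refine Finset.card_le_card_of_injOn (fun T => (lcoef T L₁, lcoef T L₂)) ?_ ?_
      · intro T hT
        exact mem_coe.2 (mem_product.2 ⟨mem_image_of_mem _ (mem_coe.1 hT),
          mem_image_of_mem _ (mem_coe.1 hT)⟩)
      · intro T hT T' hT' h
        simp only [Prod.mk.injEq] at h
        obtain ⟨a1, a2, a3, a4, a5⟩ := hmem T (mem_coe.1 hT)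
        obtain ⟨b1, b2, b3, b4, b5⟩ := hmem T' (mem_coe.1 hT')
        exact Aff.ext_of_two_lines a3 (good_tlines hP hw a1) (good_tlines hP hw b1)
          (good_tlines hP hw a2) (good_tlines hP hw b2) (a4.trans b4.symm) (a5.trans b5.symm)
          h.1 h.2
    have h2 := card_lcoef_le hC hP hl hw 𝓕 L₁ L₁'
      (fun T hT => ⟨(hmem T hT).1, (hmem T hT).2.2.2.1⟩)
    have h3 := card_lcoef_le hC hP hl hw 𝓕 L₂ L₂'
      (fun T hT => ⟨(hmem T hT).2.1, (hmem T hT).2.2.2.2⟩)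
    calc w ^ 6 * 𝓕.card ≤ w ^ 6 * ((𝓕.image (fun T => lcoef T L₁)).card *
          (𝓕.image (fun T => lcoef T L₂)).card) := by gcongr
      _ = (w ^ 3 * (𝓕.image (fun T => lcoef T L₁)).card) *
          (w ^ 3 * (𝓕.image (fun T => lcoef T L₂)).card) := by ring
      _ ≤ (C * (4 * l) ^ 4) * (C * (4 * l) ^ 4) := Nat.mul_le_mul h2 h3
      _ = (C * (4 * l) ^ 4) ^ 2 := by ring
  calc w ^ 6 * 𝓣.card = w ^ 6 * ∑ y ∈ (R ×ˢ R) ×ˢ (R ×ˢ R),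
        (𝓣.filter (fun T => F T = y)).card := by
        rw [Finset.card_eq_sum_card_fiberwise (f := F) (t := (R ×ˢ R) ×ˢ (R ×ˢ R)) hF]
    _ = ∑ y ∈ (R ×ˢ R) ×ˢ (R ×ˢ R), w ^ 6 * (𝓣.filter (fun T => F T = y)).card := by
        rw [Finset.mul_sum]
    _ ≤ ∑ y ∈ (R ×ˢ R) ×ˢ (R ×ˢ R), (C * (4 * l) ^ 4) ^ 2 := Finset.sum_le_sum hfib
    _ = (C * (4 * l) ^ 4) ^ 2 * R.card ^ 4 := by
        simp only [Finset.sum_const, smul_eq_mul, Finset.card_product]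
        ring

end Pool.Agent.Lib.MP_b430f2_co.Plane
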