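import Mathlib
import Pool.Agent.Lib.MP_b430f2_co.Plane.Rich

/-! Maps with many parallel rich lines. -/

namespace Pool.Agent.Lib.MP_b430f2_co.Plane

open Finset

open Classical in
/-- The points of `P` on rich lines of slope `s`, in the coordinates (intercept, abscissa). -/
noncomputable def rows (P : Finset (ℝ × ℝ)) (w : ℕ) (s : ℝ) : Finset (ℝ × ℝ) :=
  (P.filter (fun p => ((s, p.2 - s * p.1) : ℝ × ℝ) ∈ rich P w)).image
    (fun p => (p.2 - s * p.1, p.1))

open Classical in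
/-- Rich slopes. -/
noncomputable def slopes (P : Finset (ℝ × ℝ)) (w ρ : ℕ) : Finset ℝ :=
  ((rich P w).image Prod.fst).filter (fun s => ρ ≤ ((rich P w).filter (fun L => L.1 = s)).card)

theorem card_slopes_le {P : Finset (ℝ × ℝ)} {w ρ : ℕ} :
    ρ * (slopes P w ρ).card ≤ (rich P w).card := by
  classical
  refine le_trans (Finset.mul_card_image_le_card_of_maps_to (f := Prod.fst)
    (s := (rich P w).filter (fun L => L.1 ∈ slopes P w ρ)) (t := slopes P w ρ) ?_ ρ ?_)
    (Finset.card_le_card (Finset.filter_subset _ _))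
  · intro L hL
    exact (mem_filter.1 hL).2
  · intro s hs
    have h1 := (mem_filter.1 hs).2
    refine le_trans h1 (Finset.card_le_card ?_)
    intro L hL
    rw [mem_filter] at hL
    rw [mem_filter, mem_filter]
    refine ⟨⟨hL.1, ?_⟩, hL.2⟩
    rw [hL.2]
    exact hs

theorem mem_slopes {P : Finset (ℝ × ℝ)} {w ρ : ℕ} (hρ : 1 ≤ ρ) {s : ℝ} :
    s ∈ slopes P w ρ ↔ ρ ≤ ((rich P w).filter (fun L => L.1 = s)).card := by
  classical
  constructor
  · intro h
    exact (mem_filter.1 h).2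
  · intro h
    refine mem_filter.2 ⟨?_, h⟩
    obtain ⟨L, hL⟩ := Finset.card_pos.1 (lt_of_lt_of_le (by omega) h)
    rw [mem_filter] at hL
    exact mem_image.2 ⟨L, hL.1, hL.2⟩

theorem card_rows_fst {P : Finset (ℝ × ℝ)} {w : ℕ} {s : ℝ} :
    ((rows P w s).image Prod.fst).card ≤ (rich P w).card := by
  classical
  refine Finset.card_le_card_of_injOn (fun c => ((s, c) : ℝ × ℝ)) ?_ ?_
  · intro c hc
    rw [mem_coe, mem_image] at hc
    obtain ⟨z, hz, rfl⟩ := hc
    obtain ⟨p, hp, rfl⟩ := mem_image.1 hz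
    exact mem_coe.2 (mem_filter.1 hp).2
  · intro c _ c' _ h
    exact (Prod.mk.injEq _ _ _ _ ▸ h : s = s ∧ c = c').2

theorem card_rows_row {P : Finset (ℝ × ℝ)} {l w : ℕ} (hl : ∀ L, (lineP P L).card ≤ 2 * l)
    (s c : ℝ) : ((rows P w s).filter (fun p => p.1 = c)).card ≤ 2 * l := by
  classical
  refine le_trans (Finset.card_le_card_of_injOn (t := lineP P (s, c))
    (fun z => ((z.2, s * z.2 + z.1) : ℝ × ℝ)) ?_ ?_) (hl (s, c))
  · intro z hz
    rw [mem_coe, mem_filter] at hz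
    obtain ⟨hz1, hz2⟩ := hz
    obtain ⟨p, hp, rfl⟩ := mem_image.1 hz1
    simp only at hz2
    have : ((p.1, s * p.1 + (p.2 - s * p.1)) : ℝ × ℝ) = p := by
      apply Prod.ext
      · rfl
      · simp
    rw [mem_coe, mem_lineP]
    simp only
    rw [this]
    refine ⟨(mem_filter.1 hp).1, ?_⟩
    simp only [OnL]
    linarith
  · intro z _ z' _ h
    simp only [Prod.mk.injEq] at h
    refine Prod.ext ?_ h.1
    have h2 := h.2
    rw [h.1] at h2
    linarith

/-- The coordinates of `T`. -/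
noncomputable def gT (s s' : ℝ) (T : Aff) : ℝ × ℝ × ℝ × ℝ × ℝ :=
  (T.d - s' * T.b, T.f - s' * T.e, T.a + T.b * s, T.b, T.e)

theorem gT_injOn {s s' : ℝ} {T T' : Aff} (h : T.c + T.d * s = s' * (T.a + T.b * s))
    (h' : T'.c + T'.d * s = s' * (T'.a + T'.b * s)) (hg : gT s s' T = gT s s' T') : T = T' := by
  simp only [gT, Prod.mk.injEq] at hg
  obtain ⟨h1, h2, h3, h4, h5⟩ := hg
  have ha : T.a = T'.a := by rw [h4] at h3; linarith
  have hd : T.d = T'.d := by rw [h4] at h1; linarith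
  have hf : T.f = T'.f := by rw [h5] at h2; linarith
  have hc : T.c = T'.c := by rw [h3, hd] at h; linarith
  exact Aff.ext ha h4 hc hd h5 hf

theorem pmap_gT {s s' : ℝ} {T : Aff} (h : T.c + T.d * s = s' * (T.a + T.b * s)) (p : ℝ × ℝ) :
    pmap (gT s s' T) (p.2 - s * p.1, p.1) = ((T.app p).2 - s' * (T.app p).1, (T.app p).1) := by
  simp only [pmap, gT, Aff.app]
  apply Prod.ext
  · linear_combination (-p.1) * h
  · simp only; ring

theorem str_par {C : ℕ} (hC : ∀ (R₁ R₂ : Finset (ℝ × ℝ)) (𝓖 : Finset (ℝ × ℝ × ℝ × ℝ × ℝ))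
      (a B ρ w : ℕ), 2 ≤ ρ → 2 ≤ w →
      (R₁.image Prod.fst).card ≤ a → (R₂.image Prod.fst).card ≤ a →
      (∀ c, (R₁.filter (fun p => p.1 = c)).card ≤ B) →
      (∀ c, (R₂.filter (fun p => p.1 = c)).card ≤ B) →
      (∀ g ∈ 𝓖, g.1 ≠ 0 ∧ g.2.2.1 ≠ 0 ∧ ρ ≤ ((R₁.image Prod.fst).filter
        (fun c => w ≤ (R₁.filter (fun p => p.1 = c ∧ pmap g p ∈ R₂)).card)).card) →
      ρ ^ 12 * w ^ 4 * 𝓖.card ≤ C * (a ^ 12 * B ^ 6 + a ^ 7 * ρ ^ 6 * w * B ^ 4))
    {P : Finset (ℝ × ℝ)} (hP : Set.InjOn Prod.fst (P : Set (ℝ × ℝ))) {l w ρ : ℕ}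
    (hl : ∀ L, (lineP P L).card ≤ 2 * l) (hw : 2 ≤ w) (hρ : 2 ≤ ρ) (𝓣 : Finset Aff)
    (h𝓣 : ∀ T ∈ 𝓣, ∃ s, ρ ≤ ((tlines P w T).filter (fun L => L.1 = s)).card) :
    ρ ^ 14 * w ^ 4 * 𝓣.card ≤ C * ((rich P w).card ^ 14 * (2 * l) ^ 6 +
      (rich P w).card ^ 9 * ρ ^ 6 * w * (2 * l) ^ 4) := by
  classical
  have key : ∀ T : Aff, ∃ s, T ∈ 𝓣 → ρ ≤ ((tlines P w T).filter (fun L => L.1 = s)).card := by
    intro T
    by_cases hT : T ∈ 𝓣
    · obtain ⟨s, hs⟩ := h𝓣 T hT
      exact ⟨s, fun _ => hs⟩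
    · exact ⟨0, fun h => absurd h hT⟩
  choose s hs using key
  set Λ := slopes P w ρ with hΛ
  let s' : Aff → ℝ := fun T => (T.c + T.d * s T) / (T.a + T.b * s T)
  have hgood : ∀ T ∈ 𝓣, T.a + T.b * s T ≠ 0 := by
    intro T hT
    obtain ⟨L, hL⟩ := Finset.card_pos.1 (lt_of_lt_of_le (by omega) (hs T hT))
    rw [mem_filter] at hL
    have := good_tlines hP hw hL.1
    unfold Good at this
    rw [hL.2] at this
    exact this
  have hs1 : ∀ T ∈ 𝓣, s T ∈ Λ := by
    intro T hT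
    rw [hΛ, mem_slopes (by omega)]
    refine le_trans (hs T hT) (Finset.card_le_card ?_)
    intro L hL
    rw [mem_filter] at hL ⊢
    exact ⟨tlines_subset hL.1, hL.2⟩
  have hs2 : ∀ T ∈ 𝓣, s' T ∈ Λ := by
    intro T hT
    rw [hΛ, mem_slopes (by omega)]
    refine le_trans (hs T hT) (Finset.card_le_card_of_injOn (imgL T) ?_ ?_)
    · intro L hL
      rw [mem_coe, mem_filter] at hL ⊢
      refine ⟨img_tlines hP hw hL.1, ?_⟩
      simp only [imgL, s']
      rw [hL.2]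
    · intro L hL L' hL' h
      rw [mem_coe, mem_filter] at hL hL'
      exact imgL_injective (good_tlines hP hw hL.1) (good_tlines hP hw hL'.1) h
  have hmaps : ∀ T ∈ 𝓣, (s T, s' T) ∈ Λ ×ˢ Λ := fun T hT =>
    mem_product.2 ⟨hs1 T hT, hs2 T hT⟩
  set A := (rich P w).card with hA
  set M := C * (A ^ 12 * (2 * l) ^ 6 + A ^ 7 * ρ ^ 6 * w * (2 * l) ^ 4) with hM
  have hfib : ∀ y ∈ Λ ×ˢ Λ,
      ρ ^ 12 * w ^ 4 * (𝓣.filter (fun T => (s T, s' T) = y)).card ≤ M := by
    rintro ⟨σ, σ'⟩ _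
    set 𝓕 := 𝓣.filter (fun T => (s T, s' T) = (σ, σ')) with h𝓕
    have hmem : ∀ T ∈ 𝓕, T ∈ 𝓣 ∧ s T = σ ∧ T.c + T.d * σ = σ' * (T.a + T.b * σ) := by
      intro T hT
      rw [h𝓕, mem_filter] at hT
      obtain ⟨hT1, hT2⟩ := hT
      rw [Prod.mk.injEq] at hT2
      obtain ⟨e1, e2⟩ := hT2
      refine ⟨hT1, e1, ?_⟩
      rw [← e2, ← e1]
      exact (div_mul_cancel₀ _ (hgood T hT1)).symm
    have hcard : 𝓕.card = (𝓕.image (gT σ σ')).card := by
      rw [Finset.card_image_of_injOn]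
      intro T hT T' hT' h
      exact gT_injOn (hmem T (mem_coe.1 hT)).2.2 (hmem T' (mem_coe.1 hT')).2.2 h
    rw [hcard]
    refine hC (rows P w σ) (rows P w σ') _ A (2 * l) ρ w hρ hw card_rows_fst card_rows_fst
      (card_rows_row hl σ) (card_rows_row hl σ') ?_
    intro g hg
    obtain ⟨T, hT, rfl⟩ := mem_image.1 hg
    obtain ⟨hT1, hT2, hT3⟩ := hmem T hT
    have hG := hgood T hT1
    rw [hT2] at hG
    refine ⟨?_, hG, ?_⟩
    · intro h0
      apply T.det
      simp only [gT] at h0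
      linear_combination (T.a + T.b * σ) * h0 - T.b * hT3
    · have h1 := hs T hT1
      rw [hT2] at h1
      refine le_trans h1 (Finset.card_le_card_of_injOn Prod.snd ?_ ?_)
      · intro L hL
        rw [mem_coe, mem_filter] at hL
        obtain ⟨hL1, hL2⟩ := hL
        have hLr : L ∈ rich P w := tlines_subset hL1
        have hwL := (mem_tlines hw).1 hL1
        have hGL := good_tlines hP hw hL1
        have hGi := img_tlines hP hw hL1
        have hLσ : L = (σ, L.2) := Prod.ext hL2 rfl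
        -- the coordinates of points of `L`
        have hpt : ∀ p, OnL L p → p.2 - σ * p.1 = L.2 := by
          intro p hp
          unfold OnL at hp
          rw [hp, hL2]; ring
        have hpr : ∀ p ∈ P, OnL L p → ((L.2, p.1) : ℝ × ℝ) ∈ rows P w σ := by
          intro p hp hpL
          refine mem_image.2 ⟨p, mem_filter.2 ⟨hp, ?_⟩, ?_⟩
          · rw [hpt p hpL, ← hLσ]
            exact hLr
          · rw [hpt p hpL]
        rw [mem_coe, mem_filter]
        constructor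
        · obtain ⟨p, hp⟩ := Finset.card_pos.1 (lt_of_lt_of_le (by omega) hwL)
          rw [mem_lineP, mem_dom] at hp
          exact mem_image.2 ⟨_, hpr p hp.1.1 hp.2, rfl⟩
        · refine le_trans hwL (Finset.card_le_card_of_injOn
            (fun p => ((L.2, p.1) : ℝ × ℝ)) ?_ ?_)
          · intro p hp
            rw [mem_coe, mem_lineP, mem_dom] at hp
            rw [mem_coe, mem_filter]
            refine ⟨hpr p hp.1.1 hp.2, rfl, ?_⟩
            have e1 : ((L.2, p.1) : ℝ × ℝ) = (p.2 - σ * p.1, p.1) := by rw [hpt p hp.2]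
            change pmap (gT σ σ' T) ((L.2, p.1) : ℝ × ℝ) ∈ rows P w σ'
            rw [e1, pmap_gT hT3]
            refine mem_image.2 ⟨T.app p, mem_filter.2 ⟨hp.1.2, ?_⟩, rfl⟩
            have e2 : ((σ', (T.app p).2 - σ' * (T.app p).1) : ℝ × ℝ) = imgL T L := by
              have e3 := OnL.img hGL hp.2
              unfold OnL at e3
              have e4 : (imgL T L).1 = σ' := by
                simp only [imgL]
                rw [hL2, hT3]
                exact mul_div_cancel_right₀ _ hG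
              apply Prod.ext
              · exact e4.symm
              · rw [e4] at e3
                simp only
                rw [e3]; ring
            rw [e2]
            exact hGi
          · intro p hp q hq h
            rw [mem_coe, mem_lineP, mem_dom] at hp hq
            rw [Prod.mk.injEq] at h
            exact hP (mem_coe.2 hp.1.1) (mem_coe.2 hq.1.1) h.2
      · intro L hL L' hL' h
        rw [mem_coe, mem_filter] at hL hL'
        exact Prod.ext (hL.2.trans hL'.2.symm) h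
  have hsum : ρ ^ 12 * w ^ 4 * 𝓣.card ≤ M * Λ.card ^ 2 := by
    calc ρ ^ 12 * w ^ 4 * 𝓣.card = ρ ^ 12 * w ^ 4 * ∑ y ∈ Λ ×ˢ Λ,
          (𝓣.filter (fun T => (s T, s' T) = y)).card := by
          rw [Finset.card_eq_sum_card_fiberwise (f := fun T => (s T, s' T)) (t := Λ ×ˢ Λ) hmaps]
      _ = ∑ y ∈ Λ ×ˢ Λ, ρ ^ 12 * w ^ 4 * (𝓣.filter (fun T => (s T, s' T) = y)).card := by
          rw [Finset.mul_sum]
      _ ≤ ∑ y ∈ Λ ×ˢ Λ, M := Finset.sum_le_sum hfib
      _ = M * Λ.card ^ 2 := by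
          simp only [Finset.sum_const, smul_eq_mul, Finset.card_product]
          ring
  have hslo : ρ * Λ.card ≤ A := card_slopes_le
  calc ρ ^ 14 * w ^ 4 * 𝓣.card = ρ ^ 2 * (ρ ^ 12 * w ^ 4 * 𝓣.card) := by ring
    _ ≤ ρ ^ 2 * (M * Λ.card ^ 2) := by gcongr
    _ = M * (ρ * Λ.card) ^ 2 := by ring
    _ ≤ M * A ^ 2 := by gcongr
    _ = C * (A ^ 14 * (2 * l) ^ 6 + A ^ 9 * ρ ^ 6 * w * (2 * l) ^ 4) := by
        rw [hM]; ring

end Pool.Agent.Lib.MP_b430f2_co.Plane
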