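import Mathlib
import Pool.Agent.Lib.MP_b430f2_co.Plane.Rich

/-! Maps with many rich lines of different slopes: coding by triples of lines. -/

namespace Pool.Agent.Lib.MP_b430f2_co.Plane

open Finset

theorem Aff.ext_of_three_lines {T T' : Aff} {L₁ L₂ L₃ p : ℝ × ℝ} (h12 : L₁.1 ≠ L₂.1)
    (h13 : L₁.1 ≠ L₃.1) (h23 : L₂.1 ≠ L₃.1)
    (h1 : Good T L₁ ∧ Good T' L₁ ∧ imgL T L₁ = imgL T' L₁)
    (h2 : Good T L₂ ∧ Good T' L₂ ∧ imgL T L₂ = imgL T' L₂)
    (h3 : Good T L₃ ∧ Good T' L₃ ∧ imgL T L₃ = imgL T' L₃)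
    (hp1 : OnL L₁ p) (hp2 : ¬ OnL L₂ p) (hp : T.app p = T'.app p) : T = T' := by
  -- the intersection point
  set x₀ := (L₂.2 - L₁.2) / (L₁.1 - L₂.1) with hx₀
  have hs : L₁.1 - L₂.1 ≠ 0 := sub_ne_zero.2 h12
  have hx : x₀ * (L₁.1 - L₂.1) = L₂.2 - L₁.2 := div_mul_cancel₀ _ hs
  have ho1 : OnL L₁ (x₀, L₁.1 * x₀ + L₁.2) := by simp [OnL]
  have ho2 : OnL L₂ (x₀, L₁.1 * x₀ + L₁.2) := by
    simp only [OnL]; linarith
  have hL12 : L₁ ≠ L₂ := fun h => h12 (by rw [h])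
  have hTo : T.app (x₀, L₁.1 * x₀ + L₁.2) = T'.app (x₀, L₁.1 * x₀ + L₁.2) := by
    refine OnL.eq_point (L := imgL T L₁) (L' := imgL T L₂) ?_ (OnL.img h1.1 ho1) ?_
      (OnL.img h2.1 ho2) ?_
    · intro h
      exact hL12 (imgL_injective h1.1 h2.1 h)
    · rw [h1.2.2]; exact OnL.img h1.2.1 ho1
    · rw [h2.2.2]; exact OnL.img h2.2.1 ho2
  -- `S = T'⁻¹ T`
  set S := T'.inv.comp T with hS
  have hSapp : ∀ q, T'.app (S.app q) = T.app q := by
    intro q
    rw [hS, Aff.comp_app, Aff.app_inv]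
  have hfix : ∀ q, T.app q = T'.app q → S.app q = q := by
    intro q hq
    apply T'.app_injective
    rw [hSapp, hq]
  have hpres : ∀ L, Good T L ∧ Good T' L ∧ imgL T L = imgL T' L →
      S.c + S.d * L.1 = L.1 * (S.a + S.b * L.1) := by
    intro L hL
    have h : ∀ q, OnL L q → OnL L (S.app q) := by
      intro q hq
      apply OnL.of_img hL.2.1
      rw [hSapp, ← hL.2.2]
      exact OnL.img hL.1 hq
    have e1 := h (0, L.2) (by simp [OnL])
    have e2 := h (1, L.1 + L.2) (by simp [OnL])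
    simp only [OnL, Aff.app] at e1 e2
    linarith
  have hSo := hfix _ hTo
  have hSp := hfix _ hp
  have k1 := hpres L₁ h1
  have k2 := hpres L₂ h2
  have k3 := hpres L₃ h3
  simp only [Aff.app, Prod.mk.injEq] at hSo
  have hSp' := congrArg Prod.fst hSp
  simp only [Aff.app] at hSp'
  have hp1' : p.2 = L₁.1 * p.1 + L₁.2 := hp1
  have hpx : p.1 - x₀ ≠ 0 := by
    intro h
    apply hp2
    have h' : p.1 = x₀ := by linarith
    have : p = (x₀, L₁.1 * x₀ + L₁.2) := Prod.ext h' (by rw [hp1', h'])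
    rw [this]
    exact ho2
  have m1 : S.a + S.b * L₁.1 = 1 := by
    have : (p.1 - x₀) * (S.a + S.b * L₁.1 - 1) = 0 := by
      rw [hp1'] at hSp'
      linear_combination hSp' - hSo.1
    rcases mul_eq_zero.1 this with h | h
    · exact absurd h hpx
    · linarith
  rw [m1] at k1
  have m2 : S.d = 1 + S.b * L₂.1 := by
    have : (L₁.1 - L₂.1) * (S.d - (1 + S.b * L₂.1)) = 0 := by
      linear_combination k1 - k2 - L₂.1 * m1
    rcases mul_eq_zero.1 this with h | h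
    · exact absurd h hs
    · linarith
  have m3 : S.d = 1 + S.b * L₃.1 := by
    have : (L₁.1 - L₃.1) * (S.d - (1 + S.b * L₃.1)) = 0 := by
      linear_combination k1 - k3 - L₃.1 * m1
    rcases mul_eq_zero.1 this with h | h
    · exact absurd h (sub_ne_zero.2 h13)
    · linarith
  have hb : S.b = 0 := by
    have : (L₂.1 - L₃.1) * S.b = 0 := by linear_combination m3 - m2
    rcases mul_eq_zero.1 this with h | h
    · exact absurd h (sub_ne_zero.2 h23)
    · exact h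
  have hd : S.d = 1 := by rw [m2, hb]; ring
  have ha : S.a = 1 := by rw [hb] at m1; linarith
  have hc : S.c = 0 := by rw [hd] at k1; linarith
  have he : S.e = 0 := by have := hSo.1; rw [ha, hb] at this; linarith
  have hf : S.f = 0 := by have := hSo.2; rw [hc, hd] at this; linarith
  have hSid : ∀ q, S.app q = q := by
    intro q
    simp only [Aff.app, ha, hb, hc, hd, he, hf]
    exact Prod.ext (by simp) (by simp)
  have hTT : ∀ q, T.app q = T'.app q := by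
    intro q
    rw [← hSapp q, hSid q]
  exact Aff.ext_of_ncol (p := (0, 0)) (q := (1, 0)) (r := (0, 1)) (by simp [NCol]) (hTT _)
    (hTT _) (hTT _)

open Classical in
/-- Flags of rich lines. -/
noncomputable def flags (P : Finset (ℝ × ℝ)) (w : ℕ) : Finset ((ℝ × ℝ) × (ℝ × ℝ)) :=
  ((rich P w) ×ˢ P).filter (fun z => OnL z.1 z.2)

theorem card_flags_le {P : Finset (ℝ × ℝ)} {l w : ℕ} (hl : ∀ L, (lineP P L).card ≤ 2 * l) :
    (flags P w).card ≤ (rich P w).card * (2 * l) := by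
  classical
  have h1 : flags P w ⊆ (rich P w).biUnion (fun L => (lineP P L).image (fun p => (L, p))) := by
    intro z hz
    simp only [flags, mem_filter, mem_product] at hz
    exact mem_biUnion.2 ⟨z.1, hz.1.1, mem_image.2 ⟨z.2, mem_lineP.2 ⟨hz.1.2, hz.2⟩, rfl⟩⟩
  refine le_trans (Finset.card_le_card h1) (Finset.card_biUnion_le_card_mul _ _ _ ?_)
  intro L _
  exact le_trans Finset.card_image_le (hl L)

open Classical in
/-- The codes of `T`. -/
noncomputable def tcodes (P : Finset (ℝ × ℝ)) (w : ℕ) (T : Aff) :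
    Finset (((ℝ × ℝ) × (ℝ × ℝ)) × ((ℝ × ℝ) × (ℝ × ℝ))) :=
  ((flags P w) ×ˢ ((rich P w) ×ˢ (rich P w))).filter (fun z =>
    z.1.1 ∈ tlines P w T ∧ z.2.1 ∈ tlines P w T ∧ z.2.2 ∈ tlines P w T ∧ z.1.2 ∈ dom P T ∧
    z.1.1.1 ≠ z.2.1.1 ∧ z.1.1.1 ≠ z.2.2.1 ∧ z.2.1.1 ≠ z.2.2.1 ∧ ¬ OnL z.2.1 z.1.2)

/-- The action of `T` on codes. -/
noncomputable def cmap (T : Aff) (z : ((ℝ × ℝ) × (ℝ × ℝ)) × ((ℝ × ℝ) × (ℝ × ℝ))) :
    ((ℝ × ℝ) × (ℝ × ℝ)) × ((ℝ × ℝ) × (ℝ × ℝ)) :=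
  ((imgL T z.1.1, T.app z.1.2), (imgL T z.2.1, imgL T z.2.2))

theorem cmap_mem {P : Finset (ℝ × ℝ)} (hP : Set.InjOn Prod.fst (P : Set (ℝ × ℝ))) {w : ℕ}
    (hw : 2 ≤ w) {T : Aff} {z : ((ℝ × ℝ) × (ℝ × ℝ)) × ((ℝ × ℝ) × (ℝ × ℝ))}
    (hz : z ∈ tcodes P w T) : cmap T z ∈ (flags P w) ×ˢ ((rich P w) ×ˢ (rich P w)) := by
  classical
  simp only [tcodes, mem_filter, mem_product, flags] at hz
  obtain ⟨⟨⟨⟨_, h1⟩, h2⟩, _, _⟩, h3, h4, h5, h6, _⟩ := hz
  simp only [cmap, mem_product, flags, mem_filter]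
  rw [mem_dom] at h6
  exact ⟨⟨⟨img_tlines hP hw h3, h6.2⟩, OnL.img (good_tlines hP hw h3) h2⟩,
    img_tlines hP hw h4, img_tlines hP hw h5⟩

theorem cmap_inj {P : Finset (ℝ × ℝ)} (hP : Set.InjOn Prod.fst (P : Set (ℝ × ℝ))) {w : ℕ}
    (hw : 2 ≤ w) {T T' : Aff} {z : ((ℝ × ℝ) × (ℝ × ℝ)) × ((ℝ × ℝ) × (ℝ × ℝ))}
    (hz : z ∈ tcodes P w T) (hz' : z ∈ tcodes P w T') (h : cmap T z = cmap T' z) : T = T' := by
  classical
  simp only [tcodes, mem_filter, mem_product, flags] at hz hz'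
  obtain ⟨⟨⟨⟨_, h1⟩, h2⟩, _, _⟩, h3, h4, h5, h6, h7, h8, h9, h10⟩ := hz
  obtain ⟨_, h3', h4', h5', _⟩ := hz'
  simp only [cmap, Prod.mk.injEq] at h
  obtain ⟨⟨k1, k2⟩, k3, k4⟩ := h
  exact Aff.ext_of_three_lines h7 h8 h9 ⟨good_tlines hP hw h3, good_tlines hP hw h3', k1⟩
    ⟨good_tlines hP hw h4, good_tlines hP hw h4', k3⟩
    ⟨good_tlines hP hw h5, good_tlines hP hw h5', k4⟩ h2 h10 k2

theorem card_tcodes_ge {P : Finset (ℝ × ℝ)} {w : ℕ}
    (hw : 2 ≤ w) {T : Aff}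
    (hT : ∀ s, 10 * ((tlines P w T).filter (fun L => L.1 = s)).card ≤ (tlines P w T).card) :
    (tlines P w T).card ^ 3 * (w - 1) ≤ 2 * (tcodes P w T).card := by
  classical
  set tl := tlines P w T with htl
  set b := tl.card with hb
  have hq : ∀ s, (tl.filter (fun L => L.1 = s)).card ≤ b / 10 := by
    intro s
    have := hT s
    omega
  have hq' : ∀ s, b - b / 10 ≤ (tl.filter (fun L => L.1 ≠ s)).card := by
    intro s
    have h1 := Finset.card_filter_add_card_filter_not (s := tl) (fun L : ℝ × ℝ => L.1 = s)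
    have h2 := hq s
    simp only [ne_eq]
    omega
  have hq2 : ∀ s s', b - 2 * (b / 10) ≤ (tl.filter (fun L => s ≠ L.1 ∧ s' ≠ L.1)).card := by
    intro s s'
    have h1 := Finset.card_filter_add_card_filter_not (s := tl)
      (fun L : ℝ × ℝ => s ≠ L.1 ∧ s' ≠ L.1)
    have h2 := hq s
    have h2' := hq s'
    have h3 : (tl.filter (fun L => ¬ (s ≠ L.1 ∧ s' ≠ L.1))).card ≤
        (tl.filter (fun L => L.1 = s)).card + (tl.filter (fun L => L.1 = s')).card := by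
      refine le_trans (Finset.card_le_card ?_) (Finset.card_union_le _ _)
      intro L hL
      rw [mem_filter] at hL
      rw [mem_union, mem_filter, mem_filter]
      by_cases h : s = L.1
      · exact Or.inl ⟨hL.1, h.symm⟩
      · by_cases h' : s' = L.1
        · exact Or.inr ⟨hL.1, h'.symm⟩
        · exact absurd ⟨h, h'⟩ hL.2
    omega
  set Y := (tl ×ˢ tl).filter (fun z => z.1.1 ≠ z.2.1) with hY
  have hYcard : b * (b - b / 10) ≤ Y.card := by
    have h1 : Y.card = ∑ L ∈ tl, (tl.filter (fun L' => L.1 ≠ L'.1)).card := by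
      rw [hY, Finset.card_filter, Finset.sum_product]
      simp only [Finset.card_filter]
    rw [h1, ← smul_eq_mul, hb]
    refine Finset.card_nsmul_le_sum _ _ _ (fun L _ => ?_)
    refine le_trans (hq' L.1) (le_of_eq ?_)
    congr 1
    ext L'
    simp only [mem_filter, ne_eq]
    constructor
    · rintro ⟨h1, h2⟩
      exact ⟨h1, fun h => h2 h.symm⟩
    · rintro ⟨h1, h2⟩
      exact ⟨h1, fun h => h2 h.symm⟩
  -- fibres
  have hmaps : ∀ z ∈ tcodes P w T, ((z.1.1, z.2.1) : (ℝ × ℝ) × (ℝ × ℝ)) ∈ Y := by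
    intro z hz
    simp only [tcodes, mem_filter, mem_product] at hz
    rw [hY, mem_filter, mem_product]
    exact ⟨⟨hz.2.1, hz.2.2.1⟩, hz.2.2.2.2.2.1⟩
  have hfib : ∀ y ∈ Y, (b - 2 * (b / 10)) * (w - 1) ≤
      ((tcodes P w T).filter (fun z => ((z.1.1, z.2.1) : (ℝ × ℝ) × (ℝ × ℝ)) = y)).card := by
    rintro ⟨L₁, L₂⟩ hy
    rw [hY, mem_filter, mem_product] at hy
    obtain ⟨⟨h1, h2⟩, h3⟩ := hy
    simp only at h1 h2 h3
    have hL12 : L₁ ≠ L₂ := fun h => h3 (by rw [h])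
    set X₃ := tl.filter (fun L => L₁.1 ≠ L.1 ∧ L₂.1 ≠ L.1) with hX₃
    set Xp := (lineP (dom P T) L₁).filter (fun p => ¬ OnL L₂ p) with hXp
    have hXpcard : w - 1 ≤ Xp.card := by
      have e1 := Finset.card_filter_add_card_filter_not (s := lineP (dom P T) L₁)
        (fun p => OnL L₂ p)
      have e2 : ((lineP (dom P T) L₁).filter (fun p => OnL L₂ p)).card ≤ 1 := by
        refine Finset.card_le_one.2 (fun p hp q hq => ?_)
        rw [mem_filter, mem_lineP] at hp hq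
        exact OnL.eq_point hL12 hp.1.2 hq.1.2 hp.2 hq.2
      have e3 := (mem_tlines hw).1 h1
      have e4 : Xp.card = ((lineP (dom P T) L₁).filter (fun p => ¬ OnL L₂ p)).card := by
        rw [hXp]
      rw [← e4] at e1
      omega
    calc (b - 2 * (b / 10)) * (w - 1) ≤ X₃.card * Xp.card :=
          Nat.mul_le_mul (hq2 L₁.1 L₂.1) hXpcard
      _ = (X₃ ×ˢ Xp).card := (Finset.card_product _ _).symm
      _ ≤ _ := by
          refine Finset.card_le_card_of_injOn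
            (fun z => ((L₁, z.2), (L₂, z.1))) ?_ ?_
          · intro z hz
            rw [mem_coe, mem_product, hX₃, hXp, mem_filter, mem_filter, mem_lineP] at hz
            obtain ⟨⟨k1, k2, k3⟩, ⟨k4, k5⟩, k6⟩ := hz
            rw [mem_coe, mem_filter]
            refine ⟨?_, rfl⟩
            simp only [tcodes, flags, mem_filter, mem_product]
            exact ⟨⟨⟨⟨tlines_subset h1, (mem_dom.1 k4).1⟩, k5⟩, tlines_subset h2,
              tlines_subset k1⟩, h1, h2, k1, k4, h3, k2, k3, k6⟩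
          · intro z _ z' _ h
            simp only [Prod.mk.injEq, true_and] at h
            exact Prod.ext h.2 h.1
  have h1 : ((b - 2 * (b / 10)) * (w - 1)) * Y.card ≤ (tcodes P w T).card :=
    Finset.mul_card_image_le_card_of_maps_to hmaps _ hfib
  have h2 : ((b - 2 * (b / 10)) * (w - 1)) * (b * (b - b / 10)) ≤ (tcodes P w T).card :=
    le_trans (Nat.mul_le_mul_left _ hYcard) h1
  have h3 : b ^ 3 ≤ 2 * ((b - 2 * (b / 10)) * (b * (b - b / 10))) := by
    obtain ⟨q, hq⟩ : ∃ q, q = b / 10 := ⟨_, rfl⟩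
    rw [← hq]
    have h10 : 10 * q ≤ b := by omega
    obtain ⟨t, ht⟩ : ∃ t, b = 10 * q + t := ⟨b - 10 * q, by omega⟩
    have e1 : b - 2 * q = 8 * q + t := by omega
    have e2 : b - q = 9 * q + t := by omega
    rw [e1, e2, ht]
    nlinarith [Nat.zero_le (q * q * q), Nat.zero_le (q * q * t), Nat.zero_le (q * t * t),
      Nat.zero_le (t * t * t)]
  calc b ^ 3 * (w - 1) ≤ (2 * ((b - 2 * (b / 10)) * (b * (b - b / 10)))) * (w - 1) := by gcongr
    _ = 2 * (((b - 2 * (b / 10)) * (w - 1)) * (b * (b - b / 10))) := by ring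
    _ ≤ 2 * (tcodes P w T).card := by gcongr

theorem str_triple {P : Finset (ℝ × ℝ)} (hP : Set.InjOn Prod.fst (P : Set (ℝ × ℝ))) {l w : ℕ}
    (hl : ∀ L, (lineP P L).card ≤ 2 * l) (hw : 2 ≤ w) (b₀ : ℕ) (𝓣 : Finset Aff)
    (h𝓣 : ∀ T ∈ 𝓣, b₀ ≤ (tlines P w T).card ∧
      ∀ s, 10 * ((tlines P w T).filter (fun L => L.1 = s)).card ≤ (tlines P w T).card) :
    𝓣.card * (b₀ ^ 3 * (w - 1)) ≤ 2 * ((rich P w).card ^ 3 * (2 * l)) ^ 2 := by
  classical
  set U := (flags P w) ×ˢ ((rich P w) ×ˢ (rich P w)) with hU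
  have hUcard : U.card ≤ (rich P w).card ^ 3 * (2 * l) := by
    rw [hU, Finset.card_product, Finset.card_product]
    calc (flags P w).card * ((rich P w).card * (rich P w).card)
        ≤ ((rich P w).card * (2 * l)) * ((rich P w).card * (rich P w).card) := by
          gcongr
          exact card_flags_le hl
      _ = (rich P w).card ^ 3 * (2 * l) := by ring
  -- the pairs (T, z)
  have h1 : ∑ T ∈ 𝓣, (tcodes P w T).card ≤ U.card ^ 2 := by
    rw [← Finset.card_sigma, sq, ← Finset.card_product]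
    refine Finset.card_le_card_of_injOn (fun x => (x.2, cmap x.1 x.2)) ?_ ?_
    · rintro ⟨T, z⟩ hx
      rw [mem_coe, mem_sigma] at hx
      rw [mem_coe, mem_product]
      refine ⟨?_, cmap_mem hP hw hx.2⟩
      exact (mem_filter.1 hx.2).1
    · rintro ⟨T, z⟩ hx ⟨T', z'⟩ hx' h
      rw [mem_coe, mem_sigma] at hx hx'
      simp only [Prod.mk.injEq] at h
      obtain ⟨rfl, h2⟩ := h
      have := cmap_inj hP hw hx.2 hx'.2 h2
      subst this
      rfl
  have h2 : 𝓣.card * (b₀ ^ 3 * (w - 1)) ≤ ∑ T ∈ 𝓣, 2 * (tcodes P w T).card := by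
    rw [← smul_eq_mul]
    refine Finset.card_nsmul_le_sum _ _ _ (fun T hT => ?_)
    obtain ⟨k1, k2⟩ := h𝓣 T hT
    refine le_trans ?_ (card_tcodes_ge hw k2)
    gcongr
  calc 𝓣.card * (b₀ ^ 3 * (w - 1)) ≤ ∑ T ∈ 𝓣, 2 * (tcodes P w T).card := h2
    _ = 2 * ∑ T ∈ 𝓣, (tcodes P w T).card := by rw [Finset.mul_sum]
    _ ≤ 2 * U.card ^ 2 := by gcongr
    _ ≤ 2 * ((rich P w).card ^ 3 * (2 * l)) ^ 2 := by gcongr

end Pool.Agent.Lib.MP_b430f2_co.Plane
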