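import Mathlib
import Pool.Agent.Lib.MP_b430f2_co.Plane.Stmts
import Pool.Agent.Lib.MP_b430f2_co.Plane.StrFew
import Pool.Agent.Lib.MP_b430f2_co.Plane.StrTriple
import Pool.Agent.Lib.MP_b430f2_co.Plane.StrPar

/-! The structured case. -/

namespace Pool.Agent.Lib.MP_b430f2_co.Plane

open Finset

theorem str_ar1 {N A w n l u C : ℕ} (h : w ^ 6 * N ≤ (C * (4 * l) ^ 4) ^ 2 * A ^ 4)
    (hA : A * w ≤ 2 * n) (hlu : l * u ≤ 16 * n * w) (hul : 7 * u ≤ 640 * l) (hl : 1 ≤ l)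
    (hun : u ≤ n) : u ^ 32 * N ≤ (640 ^ 4 * (16 ^ 11 * 4 ^ 8 * C ^ 2)) * n ^ 32 * l ^ 2 := by
  obtain ⟨K, hK⟩ : ∃ K, K = 16 ^ 11 * 4 ^ 8 * C ^ 2 := ⟨_, rfl⟩
  have h1 : (l * u) ^ 10 * N ≤ K * n ^ 14 * l ^ 8 := by
    calc (l * u) ^ 10 * N ≤ (16 * n * w) ^ 10 * N := by gcongr
      _ = (16 * n) ^ 10 * w ^ 4 * (w ^ 6 * N) := by ring
      _ ≤ (16 * n) ^ 10 * w ^ 4 * ((C * (4 * l) ^ 4) ^ 2 * A ^ 4) := by gcongr
      _ = (16 * n) ^ 10 * (C * (4 * l) ^ 4) ^ 2 * (A * w) ^ 4 := by ring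
      _ ≤ (16 * n) ^ 10 * (C * (4 * l) ^ 4) ^ 2 * (2 * n) ^ 4 := by gcongr
      _ = K * n ^ 14 * l ^ 8 := by rw [hK]; ring
  have h2 : l ^ 2 * u ^ 10 * N ≤ K * n ^ 14 := by
    refine Nat.le_of_mul_le_mul_left (c := l ^ 8) ?_ (pow_pos (Nat.lt_of_lt_of_le Nat.zero_lt_one hl) _)
    calc l ^ 8 * (l ^ 2 * u ^ 10 * N) = (l * u) ^ 10 * N := by ring
      _ ≤ K * n ^ 14 * l ^ 8 := h1
      _ = l ^ 8 * (K * n ^ 14) := by ring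
  have h3 : u ^ 14 * N ≤ 640 ^ 4 * K * n ^ 14 * l ^ 2 := by
    calc u ^ 14 * N = u ^ 4 * (u ^ 10 * N) := by ring
      _ ≤ (7 * u) ^ 4 * (u ^ 10 * N) := by
          gcongr
          omega
      _ ≤ (640 * l) ^ 4 * (u ^ 10 * N) := by gcongr
      _ = 640 ^ 4 * l ^ 2 * (l ^ 2 * u ^ 10 * N) := by ring
      _ ≤ 640 ^ 4 * l ^ 2 * (K * n ^ 14) := by gcongr
      _ = 640 ^ 4 * K * n ^ 14 * l ^ 2 := by ring
  rw [← hK]
  calc u ^ 32 * N = u ^ 18 * (u ^ 14 * N) := by ring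
    _ ≤ n ^ 18 * (640 ^ 4 * K * n ^ 14 * l ^ 2) := by gcongr
    _ = (640 ^ 4 * K) * n ^ 32 * l ^ 2 := by ring

theorem str_ar2 {N A w n l u b : ℕ} (h : N * (b ^ 3 * (w - 1)) ≤ 2 * (A ^ 3 * (2 * l)) ^ 2)
    (hA : A * w ≤ 2 * n) (hlu : l * u ≤ 16 * n * w) (hb : 7 * u ≤ 32 * l * b) (hw : 2 ≤ w)
    (hn : n ^ 3 ≤ l ^ 4) (hl : 1 ≤ l)
    (hun : u ≤ n) : u ^ 32 * N ≤ 2 ^ 53 * n ^ 32 * l ^ 2 := by
  have h0 : w ≤ 2 * (w - 1) := by omega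
  have h1 : N * b ^ 3 * w ^ 7 ≤ 2 ^ 10 * n ^ 6 * l ^ 2 := by
    calc N * b ^ 3 * w ^ 7 = w * (N * b ^ 3 * w ^ 6) := by ring
      _ ≤ (2 * (w - 1)) * (N * b ^ 3 * w ^ 6) := by gcongr
      _ = 2 * w ^ 6 * (N * (b ^ 3 * (w - 1))) := by ring
      _ ≤ 2 * w ^ 6 * (2 * (A ^ 3 * (2 * l)) ^ 2) := by gcongr
      _ = 16 * l ^ 2 * (A * w) ^ 6 := by ring
      _ ≤ 16 * l ^ 2 * (2 * n) ^ 6 := by gcongr
      _ = 2 ^ 10 * n ^ 6 * l ^ 2 := by ring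
  have h2 : u ^ 10 * l ^ 7 * N ≤ 2 ^ 53 * n ^ 13 * l ^ 5 := by
    calc u ^ 10 * l ^ 7 * N = u ^ 3 * (l * u) ^ 7 * N := by ring
      _ ≤ (7 * u) ^ 3 * (l * u) ^ 7 * N := by
          gcongr
          omega
      _ ≤ (32 * l * b) ^ 3 * (16 * n * w) ^ 7 * N := by gcongr
      _ = 2 ^ 43 * l ^ 3 * n ^ 7 * (N * b ^ 3 * w ^ 7) := by ring
      _ ≤ 2 ^ 43 * l ^ 3 * n ^ 7 * (2 ^ 10 * n ^ 6 * l ^ 2) := by gcongr
      _ = 2 ^ 53 * n ^ 13 * l ^ 5 := by ring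
  have h3 : u ^ 10 * N ≤ 2 ^ 53 * n ^ 10 * l ^ 2 := by
    refine Nat.le_of_mul_le_mul_left (c := l ^ 7) ?_ (pow_pos (Nat.lt_of_lt_of_le Nat.zero_lt_one hl) _)
    calc l ^ 7 * (u ^ 10 * N) = u ^ 10 * l ^ 7 * N := by ring
      _ ≤ 2 ^ 53 * n ^ 13 * l ^ 5 := h2
      _ = 2 ^ 53 * n ^ 10 * l ^ 5 * n ^ 3 := by ring
      _ ≤ 2 ^ 53 * n ^ 10 * l ^ 5 * l ^ 4 := by gcongr
      _ = l ^ 7 * (2 ^ 53 * n ^ 10 * l ^ 2) := by ring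
  calc u ^ 32 * N = u ^ 22 * (u ^ 10 * N) := by ring
    _ ≤ n ^ 22 * (2 ^ 53 * n ^ 10 * l ^ 2) := by gcongr
    _ = 2 ^ 53 * n ^ 32 * l ^ 2 := by ring

theorem str_ar3 {N A w n l u ρ C : ℕ} (h : ρ ^ 14 * w ^ 4 * N ≤ C * (A ^ 14 * (2 * l) ^ 6 +
      A ^ 9 * ρ ^ 6 * w * (2 * l) ^ 4))
    (hA : A * w ≤ 2 * n) (hlu : l * u ≤ 16 * n * w) (hρ : 7 * u ≤ 320 * l * ρ)
    (hwl : w ≤ l) (hρl : ρ * l ≤ n)
    (hn : n ≤ l ^ 2) (hl : 1 ≤ l) :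
    u ^ 32 * N ≤ (2 * 320 ^ 14 * 16 ^ 18 * 2 ^ 20 * C) * n ^ 32 * l ^ 2 := by
  have h1 : ρ ^ 14 * w ^ 18 * N ≤ C * (2 ^ 20 * n ^ 14 * l ^ 6 + 2 ^ 20 * n ^ 15 * l ^ 4) := by
    calc ρ ^ 14 * w ^ 18 * N = w ^ 14 * (ρ ^ 14 * w ^ 4 * N) := by ring
      _ ≤ w ^ 14 * (C * (A ^ 14 * (2 * l) ^ 6 + A ^ 9 * ρ ^ 6 * w * (2 * l) ^ 4)) := by gcongr
      _ = C * ((A * w) ^ 14 * (2 * l) ^ 6 + (A * w) ^ 9 * (ρ * w) ^ 6 * (2 * l) ^ 4) := by ring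
      _ ≤ C * ((2 * n) ^ 14 * (2 * l) ^ 6 + (2 * n) ^ 9 * (ρ * l) ^ 6 * (2 * l) ^ 4) := by gcongr
      _ ≤ C * ((2 * n) ^ 14 * (2 * l) ^ 6 + (2 * n) ^ 9 * n ^ 6 * (2 * l) ^ 4) := by gcongr
      _ = C * (2 ^ 20 * n ^ 14 * l ^ 6 + 2 ^ 13 * n ^ 15 * l ^ 4) := by ring
      _ ≤ C * (2 ^ 20 * n ^ 14 * l ^ 6 + 2 ^ 20 * n ^ 15 * l ^ 4) := by
          gcongr
          · norm_num
          · norm_num
  refine Nat.le_of_mul_le_mul_left (c := l ^ 18) ?_ (pow_pos (Nat.lt_of_lt_of_le Nat.zero_lt_one hl) _)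
  calc l ^ 18 * (u ^ 32 * N) = u ^ 14 * (l * u) ^ 18 * N := by ring
    _ ≤ (7 * u) ^ 14 * (l * u) ^ 18 * N := by
        gcongr
        omega
    _ ≤ (320 * l * ρ) ^ 14 * (16 * n * w) ^ 18 * N := by gcongr
    _ = 320 ^ 14 * 16 ^ 18 * l ^ 14 * n ^ 18 * (ρ ^ 14 * w ^ 18 * N) := by ring
    _ ≤ 320 ^ 14 * 16 ^ 18 * l ^ 14 * n ^ 18 *
        (C * (2 ^ 20 * n ^ 14 * l ^ 6 + 2 ^ 20 * n ^ 15 * l ^ 4)) := by gcongr
    _ = 320 ^ 14 * 16 ^ 18 * 2 ^ 20 * C * (n ^ 32 * l ^ 20 + n ^ 32 * l ^ 18 * n) := by ring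
    _ ≤ 320 ^ 14 * 16 ^ 18 * 2 ^ 20 * C * (n ^ 32 * l ^ 20 + n ^ 32 * l ^ 18 * l ^ 2) := by
        gcongr
    _ = l ^ 18 * ((2 * 320 ^ 14 * 16 ^ 18 * 2 ^ 20 * C) * n ^ 32 * l ^ 2) := by ring

/-- M7. The structured case. -/
theorem str (hLine : LineStmt) (hPl : PlStmt) : StrStmt := by
  classical
  obtain ⟨C, hC⟩ := hLine
  obtain ⟨D, hD⟩ := hPl
  refine ⟨2 ^ 120 + 640 ^ 4 * (16 ^ 11 * 4 ^ 8 * C ^ 2) + 2 ^ 53 +
    2 * 320 ^ 14 * 16 ^ 18 * 2 ^ 20 * D, 32, ?_⟩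
  intro P l 𝓢 hP hl hl1 hnl h𝓢 hdis hcov u hu 𝓣 h𝓣
  obtain ⟨K1, hK1⟩ : ∃ K, K = 640 ^ 4 * (16 ^ 11 * 4 ^ 8 * C ^ 2) := ⟨_, rfl⟩
  obtain ⟨K2, hK2⟩ : ∃ K, K = 2 * 320 ^ 14 * 16 ^ 18 * 2 ^ 20 * D := ⟨_, rfl⟩
  rw [← hK1, ← hK2]
  set n := P.card with hn
  rcases Finset.eq_empty_or_nonempty 𝓣 with he | ⟨T₀, hT₀⟩
  · rw [he]; simp
  have hun : u ≤ n := by
    refine le_trans (h𝓣 T₀ hT₀ (0, 0)) (Finset.card_le_card ?_)
    intro p hp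
    exact (mem_dom.1 (mem_filter.1 hp).1).1
  have hn1 : 1 ≤ n := le_trans hu hun
  have hl2 : 1 ≤ l ^ 2 := Nat.one_le_pow _ _ (by omega)
  by_cases hsmall : u ^ 4 < 2 ^ 20 * n ^ 3
  · have h6 := card_le_pow_six hP hu h𝓣
    calc u ^ 32 * 𝓣.card ≤ u ^ 32 * n ^ 6 := by gcongr
      _ = u ^ 8 * (u ^ 4) ^ 6 * n ^ 6 := by ring
      _ ≤ n ^ 8 * (2 ^ 20 * n ^ 3) ^ 6 * n ^ 6 := by gcongr
      _ = 2 ^ 120 * n ^ 32 * 1 := by ring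
      _ ≤ (2 ^ 120 + K1 + 2 ^ 53 + K2) * n ^ 32 * l ^ 2 := by
          gcongr
          omega
  push Not at hsmall
  set w := l * u / (8 * n) with hwdef
  have hw8 : 8 * n * w ≤ l * u := Nat.mul_div_le _ _
  have hw9 : l * u < 8 * n * (w + 1) := by
    have := Nat.lt_div_mul_add (a := l * u) (b := 8 * n) (by omega)
    rw [← hwdef] at this
    calc l * u < w * (8 * n) + 8 * n := this
      _ = 8 * n * (w + 1) := by ring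
  have hw1 : 16 * n < (w + 1) ^ 2 := by
    by_contra hcon
    push Not at hcon
    have h1 : (l * u) ^ 4 < (8 * n * (w + 1)) ^ 4 := Nat.pow_lt_pow_left hw9 (by norm_num)
    have h2 : (8 * n * (w + 1)) ^ 4 ≤ 2 ^ 20 * n ^ 6 := by
      calc (8 * n * (w + 1)) ^ 4 = (8 * n) ^ 4 * ((w + 1) ^ 2) ^ 2 := by ring
        _ ≤ (8 * n) ^ 4 * (16 * n) ^ 2 := by gcongr
        _ = 2 ^ 20 * n ^ 6 := by ring
    have h3 : 2 ^ 20 * n ^ 6 ≤ (l * u) ^ 4 := by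
      calc 2 ^ 20 * n ^ 6 = n ^ 3 * (2 ^ 20 * n ^ 3) := by ring
        _ ≤ l ^ 4 * u ^ 4 := Nat.mul_le_mul hnl hsmall
        _ = (l * u) ^ 4 := by ring
    omega
  have hw3 : 3 ≤ w := by
    by_contra hcon
    have h1 : w + 1 ≤ 3 := by omega
    have h2 : (w + 1) ^ 2 ≤ 3 ^ 2 := Nat.pow_le_pow_left h1 2
    omega
  have hw2 : 2 ≤ w := by omega
  have hw4 : 4 * n ≤ w ^ 2 := by nlinarith
  have hlu : l * u ≤ 16 * n * w := by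
    have : 8 * n * (w + 1) ≤ 16 * n * w := by nlinarith
    omega
  have hA : (rich P w).card * w ≤ 2 * n := card_rich_mul_le hw2 hw4
  have hb := fun T hT => card_tlines (T := T) hl hl1 hw2 hw8 h𝓢 hdis hcov hu (h𝓣 T hT)
  by_cases hul : 7 * u ≤ 640 * l
  · have h1 := str_few hC hP hl hw2 𝓣 (fun T hT => (hb T hT).1)
    have h2 := str_ar1 h1 hA hlu hul hl1 hun
    rw [← hK1] at h2
    refine le_trans h2 ?_
    gcongr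
    omega
  push Not at hul
  set 𝓐 := 𝓣.filter (fun T => ∀ s, 10 * ((tlines P w T).filter (fun L => L.1 = s)).card ≤
    (tlines P w T).card) with h𝓐
  set 𝓑 := 𝓣.filter (fun T => ¬ ∀ s, 10 * ((tlines P w T).filter (fun L => L.1 = s)).card ≤
    (tlines P w T).card) with h𝓑
  have hsplit : 𝓣.card = 𝓐.card + 𝓑.card := by
    rw [h𝓐, h𝓑]
    exact (Finset.card_filter_add_card_filter_not _).symm
  -- part A
  have hAbound : u ^ 32 * 𝓐.card ≤ 2 ^ 53 * n ^ 32 * l ^ 2 := by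
    set b := 7 * u / (16 * l) with hbdef
    have hb1 : 1 ≤ b := by
      rw [hbdef, Nat.one_le_div_iff (by omega)]
      omega
    have hb2 : 7 * u < 16 * l * (b + 1) := by
      have := Nat.lt_div_mul_add (a := 7 * u) (b := 16 * l) (by omega)
      rw [← hbdef] at this
      calc 7 * u < b * (16 * l) + 16 * l := this
        _ = 16 * l * (b + 1) := by ring
    have hb3 : 7 * u ≤ 32 * l * b := by
      have : 16 * l * (b + 1) ≤ 32 * l * b := by nlinarith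
      omega
    have h1 := str_triple hP hl hw2 b 𝓐 (by
      intro T hT
      rw [h𝓐, mem_filter] at hT
      refine ⟨?_, hT.2⟩
      have := (hb T hT.1).2
      exact Nat.div_le_of_le_mul this)
    exact str_ar2 h1 hA hlu hb3 hw2 hnl hl1 hun
  -- part B
  have hBbound : u ^ 32 * 𝓑.card ≤ K2 * n ^ 32 * l ^ 2 := by
    set ρ := 7 * u / (160 * l) with hρdef
    have hρ4 : 4 ≤ ρ := by
      rw [hρdef, Nat.le_div_iff_mul_le (by omega)]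
      omega
    have hρ0 : 160 * l * ρ ≤ 7 * u := Nat.mul_div_le _ _
    have hρ2 : 7 * u < 160 * l * (ρ + 1) := by
      have := Nat.lt_div_mul_add (a := 7 * u) (b := 160 * l) (by omega)
      rw [← hρdef] at this
      calc 7 * u < ρ * (160 * l) + 160 * l := this
        _ = 160 * l * (ρ + 1) := by ring
    have hρ3 : 7 * u ≤ 320 * l * ρ := by
      have : 160 * l * (ρ + 1) ≤ 320 * l * ρ := by nlinarith
      omega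
    have h1 := str_par hD hP hl hw2 (by omega : 2 ≤ ρ) 𝓑 (by
      intro T hT
      rw [h𝓑, mem_filter] at hT
      obtain ⟨hT1, hT2⟩ := hT
      push Not at hT2
      obtain ⟨s, hs⟩ := hT2
      refine ⟨s, ?_⟩
      have h2 := (hb T hT1).2
      apply Nat.div_le_of_le_mul
      calc 7 * u ≤ 16 * l * (tlines P w T).card := h2
        _ ≤ 16 * l * (10 * ((tlines P w T).filter (fun L => L.1 = s)).card) := by gcongr
        _ = 160 * l * ((tlines P w T).filter (fun L => L.1 = s)).card := by ring)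
    rw [hK2]
    refine str_ar3 h1 hA hlu hρ3 ?_ ?_ ?_ hl1
    · -- w ≤ l
      have : 8 * n * w ≤ n * (8 * l) := by
        calc 8 * n * w ≤ l * u := hw8
          _ ≤ l * n := by gcongr
          _ ≤ n * (8 * l) := by nlinarith
      have h3 : n * (8 * w) ≤ n * (8 * l) := by linarith
      have := Nat.le_of_mul_le_mul_left h3 (by omega)
      omega
    · -- ρ l ≤ n
      have : 160 * (ρ * l) ≤ 7 * n := by
        calc 160 * (ρ * l) = 160 * l * ρ := by ring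
          _ ≤ 7 * u := hρ0
          _ ≤ 7 * n := by omega
      omega
    · -- n ≤ l ^ 2
      by_contra hcon
      push Not at hcon
      have h3 : (l ^ 2) ^ 3 < n ^ 3 := Nat.pow_lt_pow_left hcon (by norm_num)
      have h4 : l ^ 4 ≤ (l ^ 2) ^ 3 := by
        calc l ^ 4 = l ^ 4 * 1 := by ring
          _ ≤ l ^ 4 * l ^ 2 := by gcongr
          _ = (l ^ 2) ^ 3 := by ring
      omega
  calc u ^ 32 * 𝓣.card = u ^ 32 * 𝓐.card + u ^ 32 * 𝓑.card := by rw [hsplit]; ring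
    _ ≤ 2 ^ 53 * n ^ 32 * l ^ 2 + K2 * n ^ 32 * l ^ 2 := Nat.add_le_add hAbound hBbound
    _ = (2 ^ 53 + K2) * n ^ 32 * l ^ 2 := by ring
    _ ≤ (2 ^ 120 + K1 + 2 ^ 53 + K2) * n ^ 32 * l ^ 2 := by
        gcongr
        omega

end Pool.Agent.Lib.MP_b430f2_co.Plane
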