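import Mathlib
import Pool.Agent.Lib.MP_b430f2_co.UpperBound
import Pool.Agent.Lib.MP_b430f2_co.Plane.Stmts
import Pool.Agent.Lib.MP_b430f2_co.Plane.Line
import Pool.Agent.Lib.MP_b430f2_co.Plane.Col
import Pool.Agent.Lib.MP_b430f2_co.Plane.Pl
import Pool.Agent.Lib.MP_b430f2_co.Plane.Str
import Pool.Agent.Lib.MP_b430f2_co.Plane.Energy
import Pool.Agent.Lib.MP_b430f2_co.Plane.Coord
import Pool.Agent.Lib.MP_b430f2_co.Plane.Final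
import Pool.Agent.Lib.MP_b430f2_co.Plane.Cells
import Pool.Agent.Lib.MP_b430f2_co.Plane.RichPairs
import Pool.Agent.Lib.MP_b430f2_co.Plane.Hom

/-! Assembly: the order of magnitude of `f_2(k,n)` for all large `k`. -/

namespace Pool.Agent.Lib.MP_b430f2_co.Plane

open Finset

/-- The lower bound for planar sets. -/
theorem planar_lower (hU : UnstrStmt) : ∃ k₀ : ℕ, ∀ k : ℕ, k₀ ≤ k → ∃ c : ℝ, 0 < c ∧
    ∀ n : ℕ, k ≤ n →
      c * (n : ℝ) ^ (((k : ℝ) * ((k : ℝ) - 1)) / ((k : ℝ) + 1)) ≤ (fmin 2 k n : ℝ) := by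
  obtain ⟨k₀, h⟩ := finalStmt hU (str line (pl line col)) energyStmt collinearStmt
  refine ⟨k₀, fun k hk => ?_⟩
  obtain ⟨c, hc, hc'⟩ := h k hk
  refine ⟨c, hc, fun n hn => ?_⟩
  obtain ⟨P, hP, hPm⟩ : ∃ P : Finset (Fin 2 → ℝ), P.card = n ∧ numClasses k P = fmin 2 k n := by
    have hne : {m : ℕ | ∃ P : Finset (Fin 2 → ℝ), P.card = n ∧ numClasses k P = m}.Nonempty := by
      obtain ⟨P, hP⟩ := Infinite.exists_subset_card_eq (Fin 2 → ℝ) n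
      exact ⟨_, P, hP, rfl⟩
    exact Nat.sInf_mem hne
  obtain ⟨Q, hQ1, hQ2, hQ3⟩ := coordStmt k P
  have h1 := hc' Q hQ1 (by rw [hQ2, hP]; exact hn)
  rw [hQ3, hPm, hQ2, hP] at h1
  exact h1

/-- The order of magnitude of `f_2(k,n)` for all large `k`. -/
theorem planar_order (hU : UnstrStmt) : ∃ k₀ : ℕ, ∀ k : ℕ, k₀ ≤ k → ∃ c C : ℝ, 0 < c ∧ 0 < C ∧
    ∀ n : ℕ, k ≤ n →
      c * (n : ℝ) ^ (((k : ℝ) * ((k : ℝ) - 1)) / ((k : ℝ) + 1)) ≤ (fmin 2 k n : ℝ) ∧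
      (fmin 2 k n : ℝ) ≤ C * (n : ℝ) ^ (((k : ℝ) * ((k : ℝ) - 1)) / ((k : ℝ) + 1)) := by
  obtain ⟨k₀, h⟩ := planar_lower hU
  refine ⟨max k₀ 1, fun k hk => ?_⟩
  obtain ⟨c, hc, hc'⟩ := h k (le_trans (le_max_left _ _) hk)
  have hk1 : 1 ≤ k := le_trans (le_max_right _ _) hk
  obtain ⟨C, hC, hC'⟩ := upper_bound 2 k (by norm_num) hk1
  refine ⟨c, C, hc, hC, fun n hn => ⟨hc' n hn, ?_⟩⟩
  have h1 := hC' n (le_trans hk1 hn)
  have h2 : (k : ℝ) + ((2 : ℕ) : ℝ) - 1 = (k : ℝ) + 1 := by push_cast; ring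
  rw [h2] at h1
  exact h1

end Pool.Agent.Lib.MP_b430f2_co.Plane
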