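import Mathlib
import Pool.Agent.Lib.MP_b430f2_co.Plane.Api

/-! Double counting for the unstructured case. -/

namespace Pool.Agent.Lib.MP_b430f2_co.Plane

open Finset

/-- Many pairs of large subsets of `P` have a large intersection. -/
theorem many_common {ι α : Type*} [DecidableEq ι] [DecidableEq α] (P : Finset α)
    (𝓕 : Finset ι) (I : ι → Finset α) (hI : ∀ i ∈ 𝓕, I i ⊆ P) (u : ℕ)
    (hu : ∀ i ∈ 𝓕, u ≤ (I i).card) :
    u ^ 2 * 𝓕.card ^ 2 ≤ 2 * P.card ^ 2 *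
      ((𝓕 ×ˢ 𝓕).filter (fun z => u ^ 2 ≤ 2 * P.card * (I z.1 ∩ I z.2).card)).card := by
  classical
  set n := P.card with hn
  have h1 : ∑ p ∈ P, (𝓕.filter (fun i => p ∈ I i)).card = ∑ i ∈ 𝓕, (I i).card := by
    simp only [card_filter]
    rw [sum_comm]
    refine sum_congr rfl (fun i hi => ?_)
    rw [← card_filter]
    congr 1
    ext p
    rw [mem_filter]
    exact ⟨fun h => h.2, fun h => ⟨hI i hi h, h⟩⟩
  have h2 : ∑ p ∈ P, (𝓕.filter (fun i => p ∈ I i)).card ^ 2 =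
      ∑ z ∈ 𝓕 ×ˢ 𝓕, (I z.1 ∩ I z.2).card := by
    calc ∑ p ∈ P, (𝓕.filter (fun i => p ∈ I i)).card ^ 2
        = ∑ p ∈ P, ((𝓕 ×ˢ 𝓕).filter (fun z => p ∈ I z.1 ∧ p ∈ I z.2)).card := by
          refine sum_congr rfl (fun p _ => ?_)
          rw [sq, ← card_product]
          congr 1
          ext z
          simp only [mem_product, mem_filter]
          tauto
      _ = ∑ z ∈ 𝓕 ×ˢ 𝓕, (P.filter (fun p => p ∈ I z.1 ∧ p ∈ I z.2)).card := by
          simp only [card_filter]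
          rw [sum_comm]
      _ = ∑ z ∈ 𝓕 ×ˢ 𝓕, (I z.1 ∩ I z.2).card := by
          refine sum_congr rfl (fun z hz => ?_)
          congr 1
          ext p
          rw [mem_filter, mem_inter]
          rw [mem_product] at hz
          exact ⟨fun h => h.2, fun h => ⟨hI z.1 hz.1 h.1, h⟩⟩
  have h3 : (𝓕.card * u) ^ 2 ≤ n * ∑ z ∈ 𝓕 ×ˢ 𝓕, (I z.1 ∩ I z.2).card := by
    have h4 : 𝓕.card * u ≤ ∑ i ∈ 𝓕, (I i).card := by
      rw [← smul_eq_mul]
      exact card_nsmul_le_sum _ _ _ hu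
    calc (𝓕.card * u) ^ 2 ≤ (∑ i ∈ 𝓕, (I i).card) ^ 2 := Nat.pow_le_pow_left h4 2
      _ = (∑ p ∈ P, (𝓕.filter (fun i => p ∈ I i)).card) ^ 2 := by rw [h1]
      _ ≤ n * ∑ p ∈ P, (𝓕.filter (fun i => p ∈ I i)).card ^ 2 := sq_sum_le_card_mul_sum_sq
      _ = n * ∑ z ∈ 𝓕 ×ˢ 𝓕, (I z.1 ∩ I z.2).card := by rw [h2]
  set G := (𝓕 ×ˢ 𝓕).filter (fun z => u ^ 2 ≤ 2 * n * (I z.1 ∩ I z.2).card) with hG
  have h5 : 2 * n * ∑ z ∈ 𝓕 ×ˢ 𝓕, (I z.1 ∩ I z.2).card ≤
      2 * n ^ 2 * G.card + u ^ 2 * 𝓕.card ^ 2 := by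
    rw [mul_sum, ← sum_filter_add_sum_filter_not (𝓕 ×ˢ 𝓕)
      (fun z => u ^ 2 ≤ 2 * n * (I z.1 ∩ I z.2).card), ← hG]
    refine add_le_add ?_ ?_
    · calc ∑ z ∈ G, 2 * n * (I z.1 ∩ I z.2).card ≤ ∑ z ∈ G, 2 * n * n := by
            refine sum_le_sum (fun z hz => ?_)
            rw [hG, mem_filter, mem_product] at hz
            gcongr
            exact card_le_card (inter_subset_left.trans (hI z.1 hz.1.1))
        _ = 2 * n ^ 2 * G.card := by
            rw [sum_const, smul_eq_mul]; ring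
    · calc ∑ z ∈ (𝓕 ×ˢ 𝓕).filter (fun z => ¬ u ^ 2 ≤ 2 * n * (I z.1 ∩ I z.2).card),
            2 * n * (I z.1 ∩ I z.2).card
          ≤ ∑ z ∈ (𝓕 ×ˢ 𝓕).filter (fun z => ¬ u ^ 2 ≤ 2 * n * (I z.1 ∩ I z.2).card), u ^ 2 := by
            refine sum_le_sum (fun z hz => ?_)
            rw [mem_filter] at hz
            omega
        _ = u ^ 2 * ((𝓕 ×ˢ 𝓕).filter
              (fun z => ¬ u ^ 2 ≤ 2 * n * (I z.1 ∩ I z.2).card)).card := by
            rw [sum_const, smul_eq_mul]; ring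
        _ ≤ u ^ 2 * (𝓕 ×ˢ 𝓕).card := by
            gcongr
            exact filter_subset _ _
        _ = u ^ 2 * 𝓕.card ^ 2 := by rw [card_product]; ring
  nlinarith

open Classical in
/-- The points of `P` that are images of points of `P`. -/
noncomputable def img (P : Finset (ℝ × ℝ)) (T : Aff) : Finset (ℝ × ℝ) :=
  P.filter (fun y => T.inv.app y ∈ P)

theorem mem_img {P : Finset (ℝ × ℝ)} {T : Aff} {y : ℝ × ℝ} :
    y ∈ img P T ↔ y ∈ P ∧ T.inv.app y ∈ P := by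
  classical
  unfold img
  rw [mem_filter]

theorem card_dom_le_img (P : Finset (ℝ × ℝ)) (T : Aff) : (dom P T).card ≤ (img P T).card := by
  classical
  refine card_le_card_of_injOn T.app ?_ T.app_injective.injOn
  intro p hp
  rw [mem_coe, mem_dom] at hp
  rw [mem_coe, mem_img, Aff.inv_app]
  exact ⟨hp.2, hp.1⟩

theorem card_img_inter_le [DecidableEq (ℝ × ℝ)] (P : Finset (ℝ × ℝ)) (T T' : Aff) :
    (img P T ∩ img P T').card ≤ (dom P (T.inv.comp T')).card := by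
  classical
  refine card_le_card_of_injOn T'.inv.app ?_ T'.inv.app_injective.injOn
  intro y hy
  rw [mem_coe, mem_inter, mem_img, mem_img] at hy
  rw [mem_coe, mem_dom, Aff.comp_app, Aff.app_inv]
  exact ⟨hy.2.2, hy.1.2⟩

theorem Aff.ext_app {T T' : Aff} (h : ∀ p, T.app p = T'.app p) : T = T' :=
  Aff.ext_of_ncol (p := (0, 0)) (q := (1, 0)) (r := (0, 1)) (by simp [NCol]) (h _) (h _) (h _)

/-- The identity. -/
def Aff.one : Aff := ⟨1, 0, 0, 1, 0, 0, by norm_num⟩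

theorem Aff.one_app (p : ℝ × ℝ) : Aff.one.app p = p := by
  simp [Aff.app, Aff.one]

/-- The fixed points of `H ≠ id` lie on the line through two of them. -/
theorem fixed_onL {H : Aff} (hH : ∃ p, H.app p ≠ p) {L p q r : ℝ × ℝ} (hp : OnL L p)
    (hq : OnL L q) (hpq : p ≠ q) (h1 : H.app p = p) (h2 : H.app q = q) (h3 : H.app r = r) :
    OnL L r := by
  by_contra hr
  obtain ⟨s, hs⟩ := hH
  apply hs
  have : H = Aff.one := Aff.ext_of_ncol (OnL.ncol hp hq hpq hr) (by rw [h1, Aff.one_app])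
    (by rw [h2, Aff.one_app]) (by rw [h3, Aff.one_app])
  rw [this, Aff.one_app]

theorem card_fixed_pairs_le {P : Finset (ℝ × ℝ)}
    (hP : Set.InjOn Prod.fst (P : Set (ℝ × ℝ))) {w : ℕ} {G : Finset ((ℝ × ℝ) × (ℝ × ℝ))}
    (hG : ∀ z ∈ G, z.1 ∈ P ∧ z.2 ∈ P ∧ z.1 ≠ z.2 ∧
      ∀ L, OnL L z.1 → OnL L z.2 → (lineP P L).card < w) {H : Aff} (hH : ∃ p, H.app p ≠ p)
    [DecidablePred fun z : (ℝ × ℝ) × (ℝ × ℝ) => H.app z.1 = z.1 ∧ H.app z.2 = z.2] :
    (G.filter (fun z => H.app z.1 = z.1 ∧ H.app z.2 = z.2)).card ≤ w ^ 2 := by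
  classical
  rcases Finset.eq_empty_or_nonempty (G.filter (fun z => H.app z.1 = z.1 ∧ H.app z.2 = z.2))
    with h | ⟨z₀, hz₀⟩
  · rw [h]; simp
  rw [mem_filter] at hz₀
  obtain ⟨h1, h2, h3⟩ := hz₀
  obtain ⟨k1, k2, k3, k4⟩ := hG z₀ h1
  have hx : z₀.1.1 ≠ z₀.2.1 := fun h => k3 (hP (mem_coe.2 k1) (mem_coe.2 k2) h)
  have hL1 := thr_left z₀.1 z₀.2
  have hL2 := thr_right hx
  have hw := k4 _ hL1 hL2
  have hsub : G.filter (fun z => H.app z.1 = z.1 ∧ H.app z.2 = z.2) ⊆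
      (lineP P (thr z₀.1 z₀.2)) ×ˢ (lineP P (thr z₀.1 z₀.2)) := by
    intro z hz
    rw [mem_filter] at hz
    obtain ⟨m1, m2, m3⟩ := hz
    obtain ⟨n1, n2, _, _⟩ := hG z m1
    rw [mem_product, mem_lineP, mem_lineP]
    exact ⟨⟨n1, fixed_onL hH hL1 hL2 k3 h2 h3 m2⟩, ⟨n2, fixed_onL hH hL1 hL2 k3 h2 h3 m3⟩⟩
  calc _ ≤ ((lineP P (thr z₀.1 z₀.2)) ×ˢ (lineP P (thr z₀.1 z₀.2))).card := card_le_card hsub
    _ = (lineP P (thr z₀.1 z₀.2)).card * (lineP P (thr z₀.1 z₀.2)).card := card_product _ _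
    _ ≤ w * w := Nat.mul_le_mul hw.le hw.le
    _ = w ^ 2 := by ring

open Classical in
/-- The double counting inequality. -/
theorem core_ineq {P : Finset (ℝ × ℝ)} (hP : Set.InjOn Prod.fst (P : Set (ℝ × ℝ))) {u w : ℕ}
    (𝓣 : Finset Aff) (hu : ∀ T ∈ 𝓣, u ≤ (dom P T).card)
    (G₁ G₂ : Finset ((ℝ × ℝ) × (ℝ × ℝ)))
    (hG₁ : ∀ z ∈ G₁, z.1 ∈ P ∧ z.2 ∈ P ∧ z.1 ≠ z.2 ∧
      ∀ L, OnL L z.1 → OnL L z.2 → (lineP P L).card < w) :
    ∃ 𝓗 : Finset Aff, (∀ H ∈ 𝓗, (∃ p, H.app p ≠ p) ∧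
      (∃ p ∈ P, ∃ q ∈ P, p ≠ q ∧ H.app p = p ∧ H.app q = q) ∧
      u ^ 2 / (2 * P.card) ≤ (dom P H).card) ∧
    u ^ 2 * (∑ T ∈ 𝓣, (G₁.filter (fun z => (T.app z.1, T.app z.2) ∈ G₂)).card) ^ 2 ≤
      G₁.card * G₂.card * (2 * P.card ^ 2 *
        (∑ T ∈ 𝓣, (G₁.filter (fun z => (T.app z.1, T.app z.2) ∈ G₂)).card +
          𝓣.card * (𝓗.card * w ^ 2))) := by
  set n := P.card with hn
  set 𝓗 := ((𝓣 ×ˢ 𝓣).image (fun z => z.1.inv.comp z.2)).filter (fun H =>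
    (∃ p, H.app p ≠ p) ∧ (∃ p ∈ P, ∃ q ∈ P, p ≠ q ∧ H.app p = p ∧ H.app q = q) ∧
      u ^ 2 / (2 * n) ≤ (dom P H).card) with h𝓗
  refine ⟨𝓗, fun H hH => (mem_filter.1 hH).2, ?_⟩
  set S := ∑ T ∈ 𝓣, (G₁.filter (fun z => (T.app z.1, T.app z.2) ∈ G₂)).card with hS
  let TQ : ((ℝ × ℝ) × (ℝ × ℝ)) × ((ℝ × ℝ) × (ℝ × ℝ)) → Finset Aff := fun q =>
    𝓣.filter (fun T => T.app q.1.1 = q.2.1 ∧ T.app q.1.2 = q.2.2)
  have hS' : ∑ q ∈ G₁ ×ˢ G₂, (TQ q).card = S := by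
    rw [hS]
    simp only [TQ, card_filter]
    rw [sum_comm]
    refine sum_congr rfl (fun T _ => ?_)
    rw [sum_product]
    refine sum_congr rfl (fun z _ => ?_)
    by_cases hz : (T.app z.1, T.app z.2) ∈ G₂
    · rw [if_pos hz, sum_eq_single (T.app z.1, T.app z.2)]
      · simp
      · intro y _ hy
        rw [if_neg]
        rintro ⟨e1, e2⟩
        exact hy (Prod.ext e1.symm e2.symm)
      · intro h
        exact absurd hz h
    · rw [if_neg hz]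
      refine sum_eq_zero (fun y hy => ?_)
      rw [if_neg]
      rintro ⟨e1, e2⟩
      apply hz
      have : y = (T.app z.1, T.app z.2) := Prod.ext e1.symm e2.symm
      rw [← this]
      exact hy
  have h1 : S ^ 2 ≤ (G₁.card * G₂.card) * ∑ q ∈ G₁ ×ˢ G₂, (TQ q).card ^ 2 := by
    rw [← hS', ← card_product]
    exact sq_sum_le_card_mul_sum_sq
  let good : ((ℝ × ℝ) × (ℝ × ℝ)) × ((ℝ × ℝ) × (ℝ × ℝ)) → Finset (Aff × Aff) := fun q =>
    ((TQ q) ×ˢ (TQ q)).filter (fun z => u ^ 2 ≤ 2 * n * (img P z.1 ∩ img P z.2).card)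
  have h2 : ∀ q, u ^ 2 * (TQ q).card ^ 2 ≤ 2 * n ^ 2 * (good q).card := by
    intro q
    refine many_common P (TQ q) (img P) (fun T _ => filter_subset _ _) u ?_
    intro T hT
    exact (hu T (mem_filter.1 hT).1).trans (card_dom_le_img P T)
  have h3 : ∑ q ∈ G₁ ×ˢ G₂, (good q).card ≤ S + 𝓣.card * (𝓗.card * w ^ 2) := by
    have h4 : ∀ q, (good q).card ≤ (TQ q).card + ((good q).filter (fun z => z.1 ≠ z.2)).card := by
      intro q
      rw [← card_filter_add_card_filter_not (s := good q) (fun z => z.1 = z.2)]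
      refine add_le_add ?_ le_rfl
      refine card_le_card_of_injOn Prod.fst ?_ ?_
      · intro z hz
        rw [mem_coe, mem_filter, mem_filter, mem_product] at hz
        exact hz.1.1.1
      · intro z hz z' hz' h
        rw [mem_coe, mem_filter] at hz hz'
        exact Prod.ext h (by rw [← hz.2, ← hz'.2]; exact h)
    have h5 : ∑ q ∈ G₁ ×ˢ G₂, ((good q).filter (fun z => z.1 ≠ z.2)).card ≤
        𝓣.card * (𝓗.card * w ^ 2) := by
      have hB : ((𝓗 ×ˢ G₁).filter (fun y => y.1.app y.2.1 = y.2.1 ∧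
          y.1.app y.2.2 = y.2.2)).card ≤ 𝓗.card * w ^ 2 := by
        rw [card_filter, sum_product, ← smul_eq_mul]
        refine sum_le_card_nsmul _ _ _ (fun H hH => ?_)
        rw [← card_filter]
        exact card_fixed_pairs_le hP hG₁ (mem_filter.1 hH).2.1
      rw [← card_sigma]
      refine le_trans (card_le_card_of_injOn
        (t := 𝓣 ×ˢ ((𝓗 ×ˢ G₁).filter (fun y => y.1.app y.2.1 = y.2.1 ∧
          y.1.app y.2.2 = y.2.2)))
        (fun x => (x.2.1, (x.2.1.inv.comp x.2.2, x.1.1))) ?_ ?_) ?_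
      · rintro ⟨q, T, T'⟩ hx
        rw [mem_coe, mem_sigma, mem_filter, mem_filter, mem_product, mem_product] at hx
        simp only at hx
        obtain ⟨hq, ⟨⟨hT, hT'⟩, hg⟩, hne⟩ := hx
        rw [mem_filter] at hT hT'
        obtain ⟨hT0, hT1, hT2⟩ := hT
        obtain ⟨hT0', hT1', hT2'⟩ := hT'
        have f1 : (T.inv.comp T').app q.1.1 = q.1.1 := by
          rw [Aff.comp_app, hT1', ← hT1, Aff.inv_app]
        have f2 : (T.inv.comp T').app q.1.2 = q.1.2 := by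
          rw [Aff.comp_app, hT2', ← hT2, Aff.inv_app]
        obtain ⟨g1, g2, g3, _⟩ := hG₁ q.1 hq.1
        rw [mem_coe, mem_product]
        refine ⟨hT0, ?_⟩
        rw [mem_filter, mem_product]
        refine ⟨⟨?_, hq.1⟩, f1, f2⟩
        rw [h𝓗, mem_filter]
        refine ⟨mem_image.2 ⟨(T, T'), mem_product.2 ⟨hT0, hT0'⟩, rfl⟩, ?_,
          ⟨q.1.1, g1, q.1.2, g2, g3, f1, f2⟩, ?_⟩
        · by_contra hcon
          push Not at hcon
          apply hne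
          refine (Aff.ext_app (fun p => ?_)).symm
          have := hcon p
          rw [Aff.comp_app] at this
          rw [← Aff.app_inv T (T'.app p), this]
        · refine le_trans (Nat.div_le_of_le_mul hg) (card_img_inter_le P T T')
      · rintro ⟨q, T, T'⟩ hx ⟨q', R, R'⟩ hx' h
        rw [mem_coe, mem_sigma, mem_filter, mem_filter, mem_product, mem_product] at hx hx'
        simp only at hx hx'
        simp only [Prod.mk.injEq] at h
        obtain ⟨e1, e2, e3⟩ := h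
        subst e1
        have e4 : T' = R' := by
          refine Aff.ext_app (fun p => ?_)
          have : (T.inv.comp T').app p = (T.inv.comp R').app p := by rw [e2]
          rw [Aff.comp_app, Aff.comp_app] at this
          exact T.inv.app_injective this
        subst e4
        obtain ⟨hq, ⟨⟨hT, _⟩, _⟩, _⟩ := hx
        obtain ⟨hq', ⟨⟨hT', _⟩, _⟩, _⟩ := hx'
        rw [mem_filter] at hT hT'
        have e5 : q = q' := by
          refine Prod.ext e3 (Prod.ext ?_ ?_)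
          · rw [← hT.2.1, ← hT'.2.1, e3]
          · rw [← hT.2.2, ← hT'.2.2, e3]
        subst e5
        rfl
      · rw [card_product]
        exact Nat.mul_le_mul_left _ hB
    calc ∑ q ∈ G₁ ×ˢ G₂, (good q).card
        ≤ ∑ q ∈ G₁ ×ˢ G₂, ((TQ q).card + ((good q).filter (fun z => z.1 ≠ z.2)).card) :=
          sum_le_sum (fun q _ => h4 q)
      _ = S + ∑ q ∈ G₁ ×ˢ G₂, ((good q).filter (fun z => z.1 ≠ z.2)).card := by
          rw [sum_add_distrib, hS']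
      _ ≤ S + 𝓣.card * (𝓗.card * w ^ 2) := by gcongr
  calc u ^ 2 * S ^ 2 ≤ u ^ 2 * ((G₁.card * G₂.card) * ∑ q ∈ G₁ ×ˢ G₂, (TQ q).card ^ 2) := by
        gcongr
    _ = (G₁.card * G₂.card) * ∑ q ∈ G₁ ×ˢ G₂, u ^ 2 * (TQ q).card ^ 2 := by
        rw [← mul_sum]; ring
    _ ≤ (G₁.card * G₂.card) * ∑ q ∈ G₁ ×ˢ G₂, 2 * n ^ 2 * (good q).card := by
        exact Nat.mul_le_mul_left _ (sum_le_sum (fun q _ => h2 q))
    _ = (G₁.card * G₂.card) * (2 * n ^ 2 * ∑ q ∈ G₁ ×ˢ G₂, (good q).card) := by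
        rw [← mul_sum]
    _ ≤ (G₁.card * G₂.card) * (2 * n ^ 2 * (S + 𝓣.card * (𝓗.card * w ^ 2))) := by gcongr

end Pool.Agent.Lib.MP_b430f2_co.Plane
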