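import Mathlib
import Pool.Agent.Lib.MP_b430f2_co.Plane.Stmts

/-! The combinatorial core of the unstructured case. -/

namespace Pool.Agent.Lib.MP_b430f2_co.Plane

open Finset

/-- M6 core (from `CellStmt` and `RichPairStmt`). -/
def CoreStmt : Prop := ∀ (h : ℕ) (P : Finset (ℝ × ℝ)) (l u : ℕ) (𝓣 : Finset Aff),
  Set.InjOn Prod.fst (P : Set (ℝ × ℝ)) → (∀ L, (lineP P L).card ≤ l) → 1 ≤ l → 1 ≤ u →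
  (∀ T ∈ 𝓣, ND P u T) → 4 * 4 ^ h * l ≤ u →
  8 * 13 ^ h * (4 ^ (40 * h) * P.card + (8 * 3 ^ (40 * h) * P.card ^ 2 + 16 ^ (40 * h) * l ^ 2)) ≤
    4 ^ (40 * h) * u ^ 2 →
  ∃ 𝓗 : Finset Aff, (∀ H ∈ 𝓗, (∃ p, H.app p ≠ p) ∧
      (∃ p ∈ P, ∃ q ∈ P, p ≠ q ∧ H.app p = p ∧ H.app q = q) ∧
      u ^ 2 / (2 * P.card) ≤ (dom P H).card) ∧
    (16 ^ h * u ^ 4 * 𝓣.card ≤ 32 * 13 ^ h * P.card ^ 6 ∨
      16 ^ h * u ^ 6 * 𝓣.card ≤ 256 * 169 ^ h * P.card ^ 6 * (𝓗.card * (2 * 4 ^ (40 * h)) ^ 2))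

end Pool.Agent.Lib.MP_b430f2_co.Plane
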