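import Mathlib
import Pool.Agent.Lib.MP_b430f2_co.Plane.CoreStmt
import Pool.Agent.Lib.MP_b430f2_co.Plane.CoreA

/-! The combinatorial core of the unstructured case. -/

namespace Pool.Agent.Lib.MP_b430f2_co.Plane

open Finset

/-- Cauchy-Schwarz for fibres. -/
theorem sq_card_le_fibres {α β : Type*} [DecidableEq α] [DecidableEq β] (D : Finset α)
    (g : α → β) :
    D.card ^ 2 ≤ (D.image g).card * ((D ×ˢ D).filter (fun z => g z.1 = g z.2)).card := by
  classical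
  have h1 : D.card = ∑ v ∈ D.image g, (D.filter (fun x => g x = v)).card :=
    card_eq_sum_card_image g D
  have h2 : ((D ×ˢ D).filter (fun z => g z.1 = g z.2)).card =
      ∑ v ∈ D.image g, (D.filter (fun x => g x = v)).card ^ 2 := by
    rw [card_eq_sum_card_fiberwise (f := fun z => g z.1) (t := D.image g)]
    · refine sum_congr rfl (fun v _ => ?_)
      rw [sq, ← card_product]
      congr 1
      ext z
      simp only [mem_filter, mem_product]
      constructor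
      · rintro ⟨⟨⟨h1, h2⟩, h3⟩, h4⟩
        exact ⟨⟨h1, h4⟩, h2, by rw [← h3, h4]⟩
      · rintro ⟨⟨h1, h4⟩, h2, h3⟩
        exact ⟨⟨⟨h1, h2⟩, by rw [h4, h3]⟩, h4⟩
    · intro z hz
      rw [mem_coe, mem_filter, mem_product] at hz
      exact mem_coe.2 (mem_image_of_mem _ hz.1.1)
  rw [h2]
  calc D.card ^ 2 = (∑ v ∈ D.image g, (D.filter (fun x => g x = v)).card) ^ 2 := by rw [← h1]
    _ ≤ _ := sq_sum_le_card_mul_sum_sq

theorem card_gline_le {P : Finset (ℝ × ℝ)} (hP : Set.InjOn Prod.fst (P : Set (ℝ × ℝ))) {l : ℕ}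
    (hl : ∀ L, (lineP P L).card ≤ l) (hl1 : 1 ≤ l) {m : ℝ × ℝ × ℝ}
    (hm : ¬ (m.1 = 0 ∧ m.2.1 = 0 ∧ m.2.2 = 0))
    [DecidablePred fun x : ℝ × ℝ => m.1 + m.2.1 * x.1 + m.2.2 * x.2 = 0] :
    (P.filter (fun x => m.1 + m.2.1 * x.1 + m.2.2 * x.2 = 0)).card ≤ l := by
  classical
  by_cases h2 : m.2.2 = 0
  · refine le_trans (card_le_one.2 (fun x hx y hy => ?_)) hl1
    rw [mem_filter, h2] at hx hy
    by_cases h1 : m.2.1 = 0
    · exfalso
      rw [h1] at hx
      apply hm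
      refine ⟨?_, h1, h2⟩
      linarith [hx.2]
    · refine hP (mem_coe.2 hx.1) (mem_coe.2 hy.1) ?_
      have : m.2.1 * (x.1 - y.1) = 0 := by linarith [hx.2, hy.2]
      rcases mul_eq_zero.1 this with h | h
      · exact absurd h h1
      · linarith
  · refine le_trans (card_le_card ?_) (hl (-m.2.1 / m.2.2, -m.1 / m.2.2))
    intro x hx
    rw [mem_filter] at hx
    rw [mem_lineP]
    refine ⟨hx.1, ?_⟩
    unfold OnL
    simp only
    have e1 : m.2.2 * x.2 = -m.2.1 * x.1 + -m.1 := by linarith [hx.2]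
    have e2 : x.2 = (-m.2.1 * x.1 + -m.1) / m.2.2 := by
      rw [← e1, mul_div_cancel_left₀ _ h2]
    rw [e2]
    ring

theorem core_arith {N S n u h H : ℕ} (hu : 1 ≤ u) (h1 : N * u ^ 2 ≤ 8 * 13 ^ h * S)
    (h2 : 16 ^ h * u ^ 2 * S ^ 2 ≤ 2 * n ^ 6 * (S + N * H)) :
    16 ^ h * u ^ 4 * N ≤ 32 * 13 ^ h * n ^ 6 ∨
      16 ^ h * u ^ 6 * N ≤ 256 * 169 ^ h * n ^ 6 * H := by
  rcases Nat.eq_zero_or_pos N with hN | hN
  · left; rw [hN]; simp
  have hS : 0 < S := by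
    by_contra hcon
    have hS0 : S = 0 := by omega
    rw [hS0] at h1
    have : 0 < N * u ^ 2 := Nat.mul_pos hN (Nat.pow_pos hu)
    omega
  rcases le_total (N * H) S with hc | hc
  · left
    have h3 : 16 ^ h * u ^ 2 * S ≤ 4 * n ^ 6 := by
      refine Nat.le_of_mul_le_mul_left (c := S) ?_ hS
      calc S * (16 ^ h * u ^ 2 * S) = 16 ^ h * u ^ 2 * S ^ 2 := by ring
        _ ≤ 2 * n ^ 6 * (S + N * H) := h2
        _ ≤ 2 * n ^ 6 * (S + S) := by gcongr
        _ = S * (4 * n ^ 6) := by ring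
    calc 16 ^ h * u ^ 4 * N = 16 ^ h * u ^ 2 * (N * u ^ 2) := by ring
      _ ≤ 16 ^ h * u ^ 2 * (8 * 13 ^ h * S) := by gcongr
      _ = 8 * 13 ^ h * (16 ^ h * u ^ 2 * S) := by ring
      _ ≤ 8 * 13 ^ h * (4 * n ^ 6) := by gcongr
      _ = 32 * 13 ^ h * n ^ 6 := by ring
  · right
    refine Nat.le_of_mul_le_mul_left (c := N) ?_ hN
    calc N * (16 ^ h * u ^ 6 * N) = 16 ^ h * u ^ 2 * (N * u ^ 2) ^ 2 := by ring
      _ ≤ 16 ^ h * u ^ 2 * (8 * 13 ^ h * S) ^ 2 := by gcongr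
      _ = 64 * (13 ^ 2) ^ h * (16 ^ h * u ^ 2 * S ^ 2) := by
          rw [← pow_mul, Nat.mul_comm 2 h, pow_mul]; ring
      _ = 64 * 169 ^ h * (16 ^ h * u ^ 2 * S ^ 2) := by norm_num
      _ ≤ 64 * 169 ^ h * (2 * n ^ 6 * (S + N * H)) := by gcongr
      _ ≤ 64 * 169 ^ h * (2 * n ^ 6 * (N * H + N * H)) := by gcongr
      _ = N * (256 * 169 ^ h * n ^ 6 * H) := by ring

/-- M6 core. -/
theorem core (hCell : CellStmt) (hRP : RichPairStmt) : CoreStmt := by
  classical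
  intro h P l u 𝓣 hP hl hl1 hu h𝓣 ha hc
  obtain ⟨Λ, κ, hΛ, hΛ0, hcell, hvis⟩ := hCell h P
  set n := P.card with hn
  set w := 2 * 4 ^ (40 * h) with hw
  let Off : ℝ × ℝ → Prop := fun x => ∀ m ∈ Λ, m.1 + m.2.1 * x.1 + m.2.2 * x.2 ≠ 0
  set P' := P.filter Off with hP'
  set Z := P.filter (fun x => ¬ Off x) with hZ
  have hZcard : Z.card ≤ 4 ^ h * l := by
    have h1 : Z ⊆ Λ.biUnion (fun m => P.filter (fun x => m.1 + m.2.1 * x.1 + m.2.2 * x.2 = 0)) := by
      intro x hx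
      rw [hZ, mem_filter] at hx
      obtain ⟨hx1, hx2⟩ := hx
      simp only [Off] at hx2
      push Not at hx2
      obtain ⟨m, hm, hm'⟩ := hx2
      exact mem_biUnion.2 ⟨m, hm, mem_filter.2 ⟨hx1, hm'⟩⟩
    refine le_trans (card_le_card h1) (le_trans (card_biUnion_le_card_mul _ _ l ?_) ?_)
    · intro m hm
      exact card_gline_le hP hl hl1 (hΛ0 m hm)
    · gcongr
  set G₂ := (P' ×ˢ P').filter (fun z => κ z.1 = κ z.2) with hG₂
  have hG₂card : 4 ^ h * G₂.card ≤ n ^ 2 := by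
    have h1 : G₂.card = ∑ x ∈ P', (P'.filter (fun y => κ x = κ y)).card := by
      rw [hG₂, card_filter, sum_product]
      simp only [card_filter]
    rw [h1, mul_sum]
    calc ∑ x ∈ P', 4 ^ h * (P'.filter (fun y => κ x = κ y)).card ≤ ∑ x ∈ P', n := by
          refine sum_le_sum (fun x _ => le_trans ?_ (hcell (κ x)))
          gcongr
          intro y hy
          rw [hP', mem_filter, mem_filter] at hy
          exact mem_filter.2 ⟨hy.1.1, hy.1.2, hy.2.symm⟩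
      _ = P'.card * n := by rw [sum_const, smul_eq_mul]
      _ ≤ n * n := Nat.mul_le_mul_right _ (card_le_card (filter_subset _ _))
      _ = n ^ 2 := by ring
  set G₁ := G₂.filter (fun z => z.1 ≠ z.2 ∧ ∀ L, OnL L z.1 → OnL L z.2 → (lineP P L).card < w)
    with hG₁
  have hG₁card : 4 ^ h * G₁.card ≤ n ^ 2 :=
    le_trans (Nat.mul_le_mul_left _ (card_le_card (filter_subset _ _))) hG₂card
  set Rp := (P ×ˢ P).filter (fun pq => pq.1 ≠ pq.2 ∧ ∃ L, OnL L pq.1 ∧ OnL L pq.2 ∧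
    w ≤ (lineP P L).card) with hRp
  have hRpcard : 4 ^ (40 * h) * Rp.card ≤ 8 * 3 ^ (40 * h) * n ^ 2 + 16 ^ (40 * h) * l ^ 2 :=
    hRP (40 * h) P l w hP hl (le_of_eq hw.symm)
  have hbad : 8 * 13 ^ h * (n + Rp.card) ≤ u ^ 2 := by
    refine Nat.le_of_mul_le_mul_left (c := 4 ^ (40 * h)) ?_ (by positivity)
    calc 4 ^ (40 * h) * (8 * 13 ^ h * (n + Rp.card))
        = 8 * 13 ^ h * (4 ^ (40 * h) * n + 4 ^ (40 * h) * Rp.card) := by ring
      _ ≤ 8 * 13 ^ h * (4 ^ (40 * h) * n +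
          (8 * 3 ^ (40 * h) * n ^ 2 + 16 ^ (40 * h) * l ^ 2)) := by gcongr
      _ ≤ 4 ^ (40 * h) * u ^ 2 := hc
  have hdom : ∀ T ∈ 𝓣, u ≤ (dom P T).card := by
    intro T hT
    exact le_trans (h𝓣 T hT (0, 0)) (card_le_card (filter_subset _ _))
  have hE : ∀ T ∈ 𝓣, u ^ 2 ≤
      8 * 13 ^ h * (G₁.filter (fun z => (T.app z.1, T.app z.2) ∈ G₂)).card := by
    intro T hT
    set E := G₁.filter (fun z => (T.app z.1, T.app z.2) ∈ G₂) with hE
    set D := P.filter (fun x => Off x ∧ T.app x ∈ P ∧ Off (T.app x)) with hD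
    have hDu : u ≤ 2 * D.card := by
      have h1 : dom P T ⊆ D ∪ (Z ∪ (dom P T).filter (fun x => T.app x ∈ Z)) := by
        intro x hx
        rw [mem_dom] at hx
        by_cases h1 : Off x
        · by_cases h2 : Off (T.app x)
          · exact mem_union_left _ (mem_filter.2 ⟨hx.1, h1, hx.2, h2⟩)
          · refine mem_union_right _ (mem_union_right _ (mem_filter.2 ⟨mem_dom.2 hx, ?_⟩))
            exact mem_filter.2 ⟨hx.2, h2⟩
        · exact mem_union_right _ (mem_union_left _ (mem_filter.2 ⟨hx.1, h1⟩))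
      have h2 : ((dom P T).filter (fun x => T.app x ∈ Z)).card ≤ Z.card := by
        refine card_le_card_of_injOn T.app ?_ T.app_injective.injOn
        intro x hx
        rw [mem_coe, mem_filter] at hx
        exact mem_coe.2 hx.2
      have h3 := card_le_card h1
      have h4 := card_union_le D (Z ∪ (dom P T).filter (fun x => T.app x ∈ Z))
      have h5 := card_union_le Z ((dom P T).filter (fun x => T.app x ∈ Z))
      have h6 := hdom T hT
      have h7 : 4 * (4 ^ h * l) ≤ u := by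
        calc 4 * (4 ^ h * l) = 4 * 4 ^ h * l := by ring
          _ ≤ u := ha
      omega
    set F := (D ×ˢ D).filter
      (fun z => ((κ z.1, κ (T.app z.1)) : List (Bool × Bool) × List (Bool × Bool)) =
        (κ z.2, κ (T.app z.2))) with hF
    have hDF : D.card ^ 2 ≤ 13 ^ h * F.card := by
      refine le_trans (sq_card_le_fibres D (fun x => (κ x, κ (T.app x)))) ?_
      gcongr
      exact hvis T
    have hFsub : F ⊆ E ∪ ((F.filter (fun z => z.1 = z.2)) ∪ Rp) := by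
      intro z hz
      by_cases h1 : z.1 = z.2
      · exact mem_union_right _ (mem_union_left _ (mem_filter.2 ⟨hz, h1⟩))
      · rw [hF, mem_filter, mem_product, hD, mem_filter, mem_filter, Prod.mk.injEq] at hz
        obtain ⟨⟨⟨a1, a2, a3, a4⟩, b1, b2, b3, b4⟩, c1, c2⟩ := hz
        by_cases h2 : ∃ L, OnL L z.1 ∧ OnL L z.2 ∧ w ≤ (lineP P L).card
        · exact mem_union_right _ (mem_union_right _
            (mem_filter.2 ⟨mem_product.2 ⟨a1, b1⟩, h1, h2⟩))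
        · push Not at h2
          refine mem_union_left _ (mem_filter.2 ⟨mem_filter.2 ⟨mem_filter.2 ⟨mem_product.2
            ⟨mem_filter.2 ⟨a1, a2⟩, mem_filter.2 ⟨b1, b2⟩⟩, c1⟩, h1, h2⟩, ?_⟩)
          exact mem_filter.2 ⟨mem_product.2
            ⟨mem_filter.2 ⟨a3, a4⟩, mem_filter.2 ⟨b3, b4⟩⟩, c2⟩
    have hFdiag : (F.filter (fun z => z.1 = z.2)).card ≤ n := by
      refine card_le_card_of_injOn Prod.fst ?_ ?_
      · intro z hz
        rw [mem_coe, mem_filter, hF, mem_filter, mem_product, hD, mem_filter] at hz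
        exact mem_coe.2 hz.1.1.1.1
      · intro z hz z' hz' h
        rw [mem_coe, mem_filter] at hz hz'
        exact Prod.ext h (by rw [← hz.2, ← hz'.2]; exact h)
    have hFcard : F.card ≤ E.card + (n + Rp.card) := by
      refine le_trans (card_le_card hFsub) (le_trans (card_union_le _ _) ?_)
      gcongr
      refine le_trans (card_union_le _ _) ?_
      gcongr
    have h8 : u ^ 2 ≤ 4 * 13 ^ h * F.card := by
      calc u ^ 2 ≤ (2 * D.card) ^ 2 := by gcongr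
        _ = 4 * D.card ^ 2 := by ring
        _ ≤ 4 * (13 ^ h * F.card) := by gcongr
        _ = 4 * 13 ^ h * F.card := by ring
    have h9 : 4 * 13 ^ h * F.card ≤ 4 * 13 ^ h * E.card + 4 * 13 ^ h * (n + Rp.card) := by
      calc 4 * 13 ^ h * F.card ≤ 4 * 13 ^ h * (E.card + (n + Rp.card)) := by gcongr
        _ = _ := by ring
    have h10 : 2 * (4 * 13 ^ h * (n + Rp.card)) ≤ u ^ 2 := by
      calc 2 * (4 * 13 ^ h * (n + Rp.card)) = 8 * 13 ^ h * (n + Rp.card) := by ring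
        _ ≤ u ^ 2 := hbad
    have h11 : 8 * 13 ^ h * E.card = 2 * (4 * 13 ^ h * E.card) := by ring
    omega
  obtain ⟨𝓗, h𝓗, hmain⟩ := core_ineq (w := w) hP 𝓣 hdom G₁ G₂ (by
    intro z hz
    rw [hG₁, mem_filter, hG₂, mem_filter, mem_product, hP', mem_filter, mem_filter] at hz
    exact ⟨hz.1.1.1.1, hz.1.1.2.1, hz.2.1, hz.2.2⟩)
  refine ⟨𝓗, h𝓗, ?_⟩
  set S := ∑ T ∈ 𝓣, (G₁.filter (fun z => (T.app z.1, T.app z.2) ∈ G₂)).card with hS
  have hNS : 𝓣.card * u ^ 2 ≤ 8 * 13 ^ h * S := by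
    rw [hS, mul_sum, ← smul_eq_mul]
    refine card_nsmul_le_sum _ _ _ (fun T hT => ?_)
    exact hE T hT
  refine core_arith hu hNS ?_
  calc 16 ^ h * u ^ 2 * S ^ 2 = 16 ^ h * (u ^ 2 * S ^ 2) := by ring
    _ ≤ 16 ^ h * (G₁.card * G₂.card * (2 * n ^ 2 * (S + 𝓣.card * (𝓗.card * w ^ 2)))) := by
        gcongr
    _ = (4 ^ h * G₁.card) * (4 ^ h * G₂.card) *
        (2 * n ^ 2 * (S + 𝓣.card * (𝓗.card * w ^ 2))) := by
        have : (16 : ℕ) ^ h = 4 ^ h * 4 ^ h := by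
          rw [← mul_pow]
          norm_num
        rw [this]; ring
    _ ≤ n ^ 2 * n ^ 2 * (2 * n ^ 2 * (S + 𝓣.card * (𝓗.card * w ^ 2))) := by gcongr
    _ = 2 * n ^ 6 * (S + 𝓣.card * (𝓗.card * w ^ 2)) := by ring

end Pool.Agent.Lib.MP_b430f2_co.Plane
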