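import Mathlib
import Pool.Agent.Lib.MP_b430f2_co.Plane.Stmts

/-! M10: the greedy decomposition and the final computation. -/

namespace Pool.Agent.Lib.MP_b430f2_co.Plane

open Finset

theorem lineP_subset {P Q : Finset (ℝ × ℝ)} (h : P ⊆ Q) (L : ℝ × ℝ) : lineP P L ⊆ lineP Q L := by
  classical
  exact Finset.filter_subset_filter _ h

theorem card_lineP_le {P Q : Finset (ℝ × ℝ)} (h : P ⊆ Q) (L : ℝ × ℝ) :
    (lineP P L).card ≤ (lineP Q L).card := Finset.card_le_card (lineP_subset h L)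

theorem planeClasses_mono' {k : ℕ} {P Q : Finset (ℝ × ℝ)} (h : P ⊆ Q) :
    planeClasses k P ≤ planeClasses k Q := by
  classical
  unfold planeClasses
  apply Set.ncard_le_ncard
  · rintro c ⟨A, hA, hk, rfl⟩
    exact ⟨A, hA.trans h, hk, rfl⟩
  · have : {c : Set (Finset (ℝ × ℝ)) |
        ∃ A : Finset (ℝ × ℝ), A ⊆ Q ∧ A.card = k ∧ c = {B | PEquiv A B}} ⊆
        (fun A : Finset (ℝ × ℝ) => {B | PEquiv A B}) '' (Q.powerset : Set (Finset (ℝ × ℝ))) := by
      rintro c ⟨A, hA, hk, rfl⟩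
      exact ⟨A, by simpa using hA, rfl⟩
    exact (Set.Finite.image _ (Finset.finite_toSet _)).subset this

/-- One stage of the greedy decomposition. -/
theorem greedy (l : ℕ) (hl : 1 ≤ l) (m : ℕ) : ∀ P : Finset (ℝ × ℝ), P.card ≤ m →
    ∃ (U R : Finset (ℝ × ℝ)) (𝓢 : Finset (Finset (ℝ × ℝ))), U ⊆ P ∧ R ⊆ P ∧
      U.card + R.card = P.card ∧ Disjoint U R ∧
      (∀ S ∈ 𝓢, S ⊆ U ∧ l ≤ S.card ∧ ∃ L, ∀ p ∈ S, OnL L p) ∧
      (∀ S ∈ 𝓢, ∀ S' ∈ 𝓢, S ≠ S' → Disjoint S S') ∧ (∀ p ∈ U, ∃ S ∈ 𝓢, p ∈ S) ∧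
      ∀ L, (lineP R L).card < l := by
  classical
  induction m with
  | zero =>
    intro P hP
    have hP0 : P = ∅ := Finset.card_eq_zero.1 (Nat.le_zero.1 hP)
    subst hP0
    refine ⟨∅, ∅, ∅, by simp, by simp, by simp, by simp, by simp, by simp, by simp, ?_⟩
    intro L
    simp [lineP]
    omega
  | succ m ih =>
    intro P hP
    by_cases h : ∀ L, (lineP P L).card < l
    · refine ⟨∅, P, ∅, by simp, Finset.Subset.refl _, by simp, by simp, by simp, by simp,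
        by simp, h⟩
    · push Not at h
      obtain ⟨L, hL⟩ := h
      have hsub : lineP P L ⊆ P := Finset.filter_subset _ _
      have hcard : (P \ lineP P L).card + (lineP P L).card = P.card :=
        Finset.card_sdiff_add_card_eq_card hsub
      obtain ⟨U, R, 𝓢, hU, hR, hcd, hdis, h1, h2, h3, h4⟩ := ih (P \ lineP P L) (by omega)
      have hdU : Disjoint (lineP P L) U := by
        rw [Finset.disjoint_left]
        intro p hp hpU
        exact (Finset.mem_sdiff.1 (hU hpU)).2 hp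
      have hdR : Disjoint (lineP P L) R := by
        rw [Finset.disjoint_left]
        intro p hp hpU
        exact (Finset.mem_sdiff.1 (hR hpU)).2 hp
      refine ⟨lineP P L ∪ U, R, insert (lineP P L) 𝓢, ?_, ?_, ?_, ?_, ?_, ?_, ?_, h4⟩
      · exact Finset.union_subset hsub (hU.trans Finset.sdiff_subset)
      · exact hR.trans Finset.sdiff_subset
      · rw [Finset.card_union_of_disjoint hdU]
        omega
      · rw [Finset.disjoint_union_left]
        exact ⟨hdR, hdis⟩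
      · intro S hS
        rcases Finset.mem_insert.1 hS with rfl | hS
        · exact ⟨Finset.subset_union_left, hL, L, fun p hp => (Finset.mem_filter.1 hp).2⟩
        · obtain ⟨a, b, c⟩ := h1 S hS
          exact ⟨a.trans Finset.subset_union_right, b, c⟩
      · intro S hS S' hS' hne
        rcases Finset.mem_insert.1 hS with rfl | hS
        · rcases Finset.mem_insert.1 hS' with rfl | hS'
          · exact absurd rfl hne
          · exact Finset.disjoint_of_subset_right (h1 S' hS').1 hdU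
        · rcases Finset.mem_insert.1 hS' with rfl | hS'
          · exact (Finset.disjoint_of_subset_right (h1 S hS).1 hdU).symm
          · exact h2 S hS S' hS' hne
      · intro p hp
        rcases Finset.mem_union.1 hp with hp | hp
        · exact ⟨_, Finset.mem_insert_self _ _, hp⟩
        · obtain ⟨S, hS, hpS⟩ := h3 p hp
          exact ⟨S, Finset.mem_insert_of_mem hS, hpS⟩

theorem structured_bound (hS : StrStmt) (hE : EnergyStmt) : ∃ k₁ : ℕ, ∀ k : ℕ, k₁ ≤ k →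
    ∃ c : ℝ, 0 < c ∧ ∀ (U : Finset (ℝ × ℝ)) (l : ℕ) (𝓢 : Finset (Finset (ℝ × ℝ))),
      Set.InjOn Prod.fst (U : Set (ℝ × ℝ)) →
      (∀ L, (lineP U L).card ≤ 2 * l) → 1 ≤ l → U.card ^ 3 ≤ l ^ 4 →
      (∀ S ∈ 𝓢, S ⊆ U ∧ l ≤ S.card ∧ ∃ L, ∀ p ∈ S, OnL L p) →
      (∀ S ∈ 𝓢, ∀ S' ∈ 𝓢, S ≠ S' → Disjoint S S') → (∀ p ∈ U, ∃ S ∈ 𝓢, p ∈ S) →
      4 * k ^ k * (2 * l) ≤ U.card →
      c * (U.card : ℝ) ^ k ≤ (l : ℝ) ^ 2 * planeClasses k U := by
  obtain ⟨C, C₁, hS⟩ := hS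
  refine ⟨C₁ + 4, fun k hk => ?_⟩
  obtain ⟨c, hc, hE⟩ := hE k C C₁ hk
  refine ⟨c, hc, fun U l 𝓢 hinj hlin hl h34 h1 h2 h3 hsize => ?_⟩
  refine hE U (2 * l) ((l : ℝ) ^ 2) hinj hlin (by omega) hsize (by positivity) ?_
  intro u hu 𝓣 h𝓣
  have := hS U l 𝓢 hinj hlin hl h34 h1 h2 h3 u hu 𝓣 h𝓣
  exact_mod_cast this

theorem unstructured_bound (hU : UnstrStmt) (hE : EnergyStmt) : ∃ (k₁ : ℕ) (δ : ℝ), 0 < δ ∧
    ∀ k : ℕ, k₁ ≤ k → ∃ c : ℝ, 0 < c ∧ ∀ (P : Finset (ℝ × ℝ)),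
      Set.InjOn Prod.fst (P : Set (ℝ × ℝ)) →
      (∀ L, ((lineP P L).card : ℝ) ≤ 4 * (P.card : ℝ) ^ (3 / 4 : ℝ)) →
      (16 * k ^ k) ^ 4 ≤ P.card → 1 ≤ P.card →
      c * (P.card : ℝ) ^ ((k : ℝ) - 2 + δ) ≤ planeClasses k P := by
  obtain ⟨C, C₁, δ, hδ, hU⟩ := hU
  refine ⟨C₁ + 4, δ, hδ, fun k hk => ?_⟩
  obtain ⟨c, hc, hE⟩ := hE k C C₁ hk
  refine ⟨c, hc, fun P hinj hlin hsize hpos => ?_⟩
  have hn : (0 : ℝ) < P.card := by exact_mod_cast hpos
  have hn1 : (1 : ℝ) ≤ P.card := by exact_mod_cast hpos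
  have hpow : (1 : ℝ) ≤ (P.card : ℝ) ^ (3 / 4 : ℝ) := Real.one_le_rpow hn1 (by norm_num)
  have hM : (0 : ℝ) < (P.card : ℝ) ^ (2 - δ) := Real.rpow_pos_of_pos hn _
  have key := hE P ⌊4 * (P.card : ℝ) ^ (3 / 4 : ℝ)⌋₊ ((P.card : ℝ) ^ (2 - δ)) hinj
    (fun L => Nat.le_floor (hlin L)) ?_ ?_ hM (fun u hu 𝓣 h𝓣 => hU P hinj hlin u hu 𝓣 h𝓣)
  · have h1 : (P.card : ℝ) ^ ((k : ℝ) - 2 + δ) * (P.card : ℝ) ^ (2 - δ) = (P.card : ℝ) ^ k := by
      rw [← Real.rpow_add hn, ← Real.rpow_natCast]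
      congr 1
      ring
    rw [← h1] at key
    have h2 : (P.card : ℝ) ^ (2 - δ) * (c * (P.card : ℝ) ^ ((k : ℝ) - 2 + δ)) ≤
        (P.card : ℝ) ^ (2 - δ) * planeClasses k P := by
      calc _ = c * ((P.card : ℝ) ^ ((k : ℝ) - 2 + δ) * (P.card : ℝ) ^ (2 - δ)) := by ring
        _ ≤ _ := key
    exact le_of_mul_le_mul_left h2 hM
  · apply Nat.le_floor
    push_cast
    linarith
  · have h1 : ((4 * k ^ k * ⌊4 * (P.card : ℝ) ^ (3 / 4 : ℝ)⌋₊ : ℕ) : ℝ) ≤ (P.card : ℝ) := by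
      push_cast
      have h2 : (⌊4 * (P.card : ℝ) ^ (3 / 4 : ℝ)⌋₊ : ℝ) ≤ 4 * (P.card : ℝ) ^ (3 / 4 : ℝ) :=
        Nat.floor_le (by positivity)
      have h3 : (16 * (k : ℝ) ^ k) ≤ (P.card : ℝ) ^ (1 / 4 : ℝ) := by
        have h4 : ((16 * (k : ℝ) ^ k) ^ 4) ≤ (P.card : ℝ) := by exact_mod_cast hsize
        have h5 : ((16 * (k : ℝ) ^ k) ^ 4) ^ (1 / 4 : ℝ) = 16 * (k : ℝ) ^ k := by
          have := Real.pow_rpow_inv_natCast (x := 16 * (k : ℝ) ^ k) (n := 4) (by positivity)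
            (by norm_num)
          calc ((16 * (k : ℝ) ^ k) ^ 4) ^ (1 / 4 : ℝ)
              = ((16 * (k : ℝ) ^ k) ^ 4) ^ (((4 : ℕ) : ℝ)⁻¹) := by norm_num
            _ = _ := this
        rw [← h5]
        exact Real.rpow_le_rpow (by positivity) h4 (by norm_num)
      calc 4 * (k : ℝ) ^ k * (⌊4 * (P.card : ℝ) ^ (3 / 4 : ℝ)⌋₊ : ℝ)
          ≤ 4 * (k : ℝ) ^ k * (4 * (P.card : ℝ) ^ (3 / 4 : ℝ)) :=
            mul_le_mul_of_nonneg_left h2 (by positivity)
        _ = (16 * (k : ℝ) ^ k) * (P.card : ℝ) ^ (3 / 4 : ℝ) := by ring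
        _ ≤ (P.card : ℝ) ^ (1 / 4 : ℝ) * (P.card : ℝ) ^ (3 / 4 : ℝ) :=
            mul_le_mul_of_nonneg_right h3 (by positivity)
        _ = (P.card : ℝ) := by
            rw [← Real.rpow_add hn]
            norm_num
    exact_mod_cast h1

/-- The greedy stages. `B` is the target bound, `a` the bound for the size of stage `j + 1`. -/
theorem stages (Q : Finset (ℝ × ℝ)) (J : ℕ) (t : ℕ → ℝ) (a : ℕ → ℝ)
    (ht : ∀ j ≤ J, 1 ≤ t j) (hhalf : ∀ j, t (j + 1) = t j / 2)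
    (h0 : ∀ L, ((lineP Q L).card : ℝ) < t 0)
    (hgood : ∀ j < J, ∀ (U : Finset (ℝ × ℝ)) (𝓢 : Finset (Finset (ℝ × ℝ))), U ⊆ Q →
      (∀ L, (lineP U L).card ≤ 2 * ⌈t (j + 1)⌉₊) →
      (∀ S ∈ 𝓢, S ⊆ U ∧ ⌈t (j + 1)⌉₊ ≤ S.card ∧ ∃ L, ∀ p ∈ S, OnL L p) →
      (∀ S ∈ 𝓢, ∀ S' ∈ 𝓢, S ≠ S' → Disjoint S S') → (∀ p ∈ U, ∃ S ∈ 𝓢, p ∈ S) →
      (U.card : ℝ) ≤ a j) :
    ∀ m ≤ J, ∃ R ⊆ Q, (∀ L, ((lineP R L).card : ℝ) < t m) ∧
      (Q.card : ℝ) - R.card ≤ ∑ j ∈ Finset.range m, a j := by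
  intro m
  induction m with
  | zero =>
    intro _
    exact ⟨Q, Finset.Subset.refl _, h0, by simp⟩
  | succ m ih =>
    intro hm
    obtain ⟨R, hRQ, hlin, hcard⟩ := ih (by omega)
    have htm := ht (m + 1) hm
    obtain ⟨U, R', 𝓢, hU, hR', hcd, -, h1, h2, h3, h4⟩ :=
      greedy ⌈t (m + 1)⌉₊ (Nat.one_le_iff_ne_zero.2 (by
        intro h
        rw [Nat.ceil_eq_zero] at h
        linarith)) R.card R le_rfl
    have hlinU : ∀ L, (lineP U L).card ≤ 2 * ⌈t (m + 1)⌉₊ := by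
      intro L
      have h5 : ((lineP U L).card : ℝ) ≤ (lineP R L).card := by
        exact_mod_cast card_lineP_le hU L
      have h6 := hlin L
      have h7 : t m = 2 * t (m + 1) := by rw [hhalf]; ring
      have h8 : t (m + 1) ≤ ⌈t (m + 1)⌉₊ := Nat.le_ceil _
      have h9 : ((lineP U L).card : ℝ) ≤ ((2 * ⌈t (m + 1)⌉₊ : ℕ) : ℝ) := by
        push_cast
        linarith
      exact_mod_cast h9
    have hUa := hgood m (by omega) U 𝓢 (hU.trans hRQ) hlinU h1 h2 h3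
    refine ⟨R', hR'.trans hRQ, ?_, ?_⟩
    · intro L
      have := h4 L
      exact (Nat.lt_ceil).1 this
    · rw [Finset.sum_range_succ]
      have : (U.card : ℝ) + R'.card = R.card := by exact_mod_cast hcd
      linarith

theorem exists_last (L₀ A : ℝ) (hA : 0 < A) (h : A ≤ L₀) :
    ∃ J : ℕ, A ≤ L₀ / 2 ^ J ∧ L₀ / 2 ^ (J + 1) < A := by
  classical
  have hL : 0 < L₀ := lt_of_lt_of_le hA h
  have hex : ∃ j : ℕ, L₀ / 2 ^ j < A := by
    obtain ⟨j, hj⟩ := pow_unbounded_of_one_lt (L₀ / A) (by norm_num : (1 : ℝ) < 2)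
    refine ⟨j, ?_⟩
    rw [div_lt_iff₀ hA] at hj
    rw [div_lt_iff₀ (by positivity)]
    linarith
  obtain ⟨j₀, hj₀, hmin⟩ : ∃ j₀ : ℕ, L₀ / 2 ^ j₀ < A ∧ ∀ j < j₀, ¬ (L₀ / 2 ^ j < A) :=
    ⟨Nat.find hex, Nat.find_spec hex, fun j hj => Nat.find_min hex hj⟩
  have hj0 : j₀ ≠ 0 := by
    rintro rfl
    simp at hj₀
    linarith
  obtain ⟨J, rfl⟩ := Nat.exists_eq_succ_of_ne_zero hj0
  exact ⟨J, not_lt.1 (hmin J (by omega)), hj₀⟩

theorem finalStmt (hU : UnstrStmt) (hS : StrStmt) (hE : EnergyStmt) (hC : CollinearStmt) :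
    FinalStmt := by
  obtain ⟨k₁, hS'⟩ := structured_bound hS hE
  obtain ⟨k₂, δ, hδ, hU'⟩ := unstructured_bound hU hE
  obtain ⟨k₃, hk₃⟩ := exists_nat_gt (2 / δ)
  refine ⟨max (max k₁ k₂) (max 4 k₃), fun k hk => ?_⟩
  have hkk₁ : k₁ ≤ k := le_trans (le_trans (le_max_left _ _) (le_max_left _ _)) hk
  have hkk₂ : k₂ ≤ k := le_trans (le_trans (le_max_right _ _) (le_max_left _ _)) hk
  have hk4 : 4 ≤ k := le_trans (le_trans (le_max_left _ _) (le_max_right _ _)) hk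
  have hkk₃ : k₃ ≤ k := le_trans (le_trans (le_max_right _ _) (le_max_right _ _)) hk
  obtain ⟨cS, hcS, hS''⟩ := hS' k hkk₁
  obtain ⟨cU, hcU, hU''⟩ := hU' k hkk₂
  obtain ⟨cL, hcL, hC'⟩ := hC k hk4
  have hκ4 : (4 : ℝ) ≤ (k : ℝ) := by exact_mod_cast hk4
  have hκδ : 2 / ((k : ℝ) + 1) ≤ δ := by
    have h1 : 2 / δ < k := lt_of_lt_of_le hk₃ (by exact_mod_cast hkk₃)
    rw [div_lt_iff₀ hδ] at h1
    rw [div_le_iff₀ (by positivity)]
    nlinarith
  obtain ⟨r, hr0, hr1, hrk⟩ : ∃ r : ℝ, 1 / 2 ≤ r ∧ r < 1 ∧ r ^ k = 1 / 2 := by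
    refine ⟨(1 / 2 : ℝ) ^ ((k : ℝ)⁻¹), ?_, ?_, ?_⟩
    · calc (1 / 2 : ℝ) = (1 / 2 : ℝ) ^ (1 : ℝ) := by norm_num
        _ ≤ _ := by
          apply Real.rpow_le_rpow_of_exponent_ge (by norm_num) (by norm_num)
          rw [inv_le_one₀ (by positivity)]
          linarith
    · apply Real.rpow_lt_one (by norm_num) (by norm_num)
      positivity
    · exact Real.rpow_inv_natCast_pow (by norm_num) (by omega)
  obtain ⟨ck, hck⟩ : ∃ ck : ℝ, ck = (1 - r) / 2 := ⟨_, rfl⟩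
  have hck0 : 0 < ck := by rw [hck]; linarith
  obtain ⟨e, he⟩ : ∃ e : ℝ, e = ((k : ℝ) * ((k : ℝ) - 1)) / ((k : ℝ) + 1) := ⟨_, rfl⟩
  have he0 : 0 ≤ e := by
    rw [he]
    apply div_nonneg _ (by positivity)
    nlinarith
  have he1 : e = (k : ℝ) - 2 + 2 / ((k : ℝ) + 1) := by
    rw [he]
    field_simp
    ring
  have he2 : e ≤ (k : ℝ) - 2 + δ := by rw [he1]; linarith
  obtain ⟨n₁, hn₁⟩ := exists_nat_ge ((16 * (k : ℝ) ^ k / ck) ^ (k + 1))
  obtain ⟨n₀, hn₀⟩ : ∃ n₀ : ℕ, n₀ = max n₁ (2 * (16 * k ^ k) ^ 4) := ⟨_, rfl⟩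
  obtain ⟨c, hc⟩ : ∃ c : ℝ, c = min (min cL (cS * ck ^ k / 4))
      (min (cU / 2 ^ ((k : ℝ) - 2 + δ)) (1 / ((n₀ : ℝ) + 1) ^ e)) := ⟨_, rfl⟩
  have hc1 : c ≤ cL := by rw [hc]; exact le_trans (min_le_left _ _) (min_le_left _ _)
  have hc2 : c ≤ cS * ck ^ k / 4 := by
    rw [hc]; exact le_trans (min_le_left _ _) (min_le_right _ _)
  have hc3 : c ≤ cU / 2 ^ ((k : ℝ) - 2 + δ) := by
    rw [hc]; exact le_trans (min_le_right _ _) (min_le_left _ _)
  have hc4 : c ≤ 1 / ((n₀ : ℝ) + 1) ^ e := by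
    rw [hc]; exact le_trans (min_le_right _ _) (min_le_right _ _)
  have hc0 : 0 < c := by
    rw [hc]
    refine lt_min (lt_min hcL (by positivity)) (lt_min (by positivity) (by positivity))
  refine ⟨c, hc0, fun Q hinj hQk => ?_⟩
  rw [← he]
  obtain ⟨N, hN⟩ : ∃ N : ℝ, N = (Q.card : ℝ) := ⟨_, rfl⟩
  rw [← hN]
  have hNk : (k : ℝ) ≤ N := by rw [hN]; exact_mod_cast hQk
  have hN1 : 1 ≤ N := by linarith
  have hN0 : 0 < N := by linarith
  rcases lt_or_ge Q.card n₀ with hsmall | hlarge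
  · have hne : Q.Nonempty := by
      rw [← Finset.card_pos]
      omega
    obtain ⟨p, hp⟩ := hne
    have h1 := hC' Q (0, p.2) hQk
    have h2 : 1 ≤ (lineP Q (0, p.2)).card := by
      apply Finset.card_pos.2
      classical
      exact ⟨p, Finset.mem_filter.2 ⟨hp, by simp [OnL]⟩⟩
    have h3 : (0 : ℝ) < planeClasses k Q := by
      refine lt_of_lt_of_le ?_ h1
      have : (0 : ℝ) < (lineP Q (0, p.2)).card := by exact_mod_cast h2
      positivity
    have h4 : (1 : ℝ) ≤ planeClasses k Q := by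
      have : 0 < planeClasses k Q := by exact_mod_cast h3
      exact_mod_cast this
    refine le_trans ?_ h4
    have h5 : N ≤ (n₀ : ℝ) + 1 := by
      rw [hN]
      have : (Q.card : ℝ) < n₀ := by exact_mod_cast hsmall
      linarith
    calc c * N ^ e ≤ (1 / ((n₀ : ℝ) + 1) ^ e) * ((n₀ : ℝ) + 1) ^ e :=
          mul_le_mul hc4 (Real.rpow_le_rpow hN0.le h5 he0) (by positivity) (by positivity)
      _ = 1 := by
          rw [div_mul_cancel₀]
          positivity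
  · obtain ⟨L₀, hL₀⟩ : ∃ L₀ : ℝ, L₀ = N ^ ((k : ℝ) / ((k : ℝ) + 1)) := ⟨_, rfl⟩
    have hL₀pos : 0 < L₀ := by rw [hL₀]; positivity
    have hNL : N ^ k = N ^ e * L₀ ^ 2 := by
      rw [hL₀, ← Real.rpow_natCast N k, ← Real.rpow_natCast (N ^ ((k : ℝ) / ((k : ℝ) + 1))) 2,
        ← Real.rpow_mul hN0.le, ← Real.rpow_add hN0]
      congr 1
      rw [he]
      push_cast
      field_simp
      ring
    have hNe : L₀ ^ (k - 1) = N ^ e := by
      rw [hL₀, ← Real.rpow_natCast (N ^ ((k : ℝ) / ((k : ℝ) + 1))) (k - 1),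
        ← Real.rpow_mul hN0.le]
      congr 1
      rw [he, Nat.cast_sub (by omega)]
      push_cast
      field_simp
    by_cases hline : ∃ L, L₀ ≤ (lineP Q L).card
    · obtain ⟨L, hL⟩ := hline
      calc c * N ^ e ≤ cL * N ^ e := mul_le_mul_of_nonneg_right hc1 (by positivity)
        _ = cL * L₀ ^ (k - 1) := by rw [hNe]
        _ ≤ cL * ((lineP Q L).card : ℝ) ^ (k - 1) :=
            mul_le_mul_of_nonneg_left (pow_le_pow_left₀ hL₀pos.le hL _) hcL.le
        _ ≤ _ := hC' Q L hQk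
    · push Not at hline
      by_contra hcon
      push Not at hcon
      have hA1 : 1 ≤ N ^ (3 / 4 : ℝ) := Real.one_le_rpow hN1 (by norm_num)
      have hA : N ^ (3 / 4 : ℝ) ≤ L₀ := by
        rw [hL₀]
        apply Real.rpow_le_rpow_of_exponent_le hN1
        rw [div_le_div_iff₀ (by norm_num) (by positivity)]
        linarith
      obtain ⟨J, hJ1, hJ2⟩ := exists_last L₀ (N ^ (3 / 4 : ℝ)) (by positivity) hA
      have htJ : ∀ j ≤ J, N ^ (3 / 4 : ℝ) ≤ L₀ / 2 ^ j := by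
        intro j hj
        refine le_trans hJ1 ?_
        apply div_le_div_of_nonneg_left hL₀pos.le (by positivity)
        exact pow_le_pow_right₀ (by norm_num) hj
      -- the size condition
      have hbig : 16 * (k : ℝ) ^ k * L₀ ≤ ck * N := by
        have h1 : (16 * (k : ℝ) ^ k / ck) ^ (k + 1) ≤ N := by
          refine le_trans hn₁ ?_
          have : n₁ ≤ Q.card := le_trans (by rw [hn₀]; exact le_max_left _ _) hlarge
          rw [hN]
          exact_mod_cast this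
        have h2 : 16 * (k : ℝ) ^ k / ck ≤ N ^ (((k + 1 : ℕ) : ℝ)⁻¹) := by
          have h3 : ((16 * (k : ℝ) ^ k / ck) ^ (k + 1)) ^ (((k + 1 : ℕ) : ℝ)⁻¹) =
              16 * (k : ℝ) ^ k / ck := Real.pow_rpow_inv_natCast (by positivity) (by omega)
          rw [← h3]
          exact Real.rpow_le_rpow (by positivity) h1 (by positivity)
        have h4 : N ^ (((k + 1 : ℕ) : ℝ)⁻¹) * L₀ = N := by
          rw [hL₀, ← Real.rpow_add hN0]
          have : (((k + 1 : ℕ) : ℝ)⁻¹) + (k : ℝ) / ((k : ℝ) + 1) = 1 := by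
            push_cast
            field_simp
            ring
          rw [this, Real.rpow_one]
        rw [div_le_iff₀ hck0] at h2
        calc 16 * (k : ℝ) ^ k * L₀ ≤ (N ^ (((k + 1 : ℕ) : ℝ)⁻¹) * ck) * L₀ :=
              mul_le_mul_of_nonneg_right h2 hL₀pos.le
          _ = ck * (N ^ (((k + 1 : ℕ) : ℝ)⁻¹) * L₀) := by ring
          _ = ck * N := by rw [h4]
      obtain ⟨R, hRQ, hRlin, hRcard⟩ := stages Q J (fun j => L₀ / 2 ^ j)
        (fun j => ck * N * r ^ (j + 1)) (fun j hj => le_trans hA1 (htJ j hj))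
        (fun j => by rw [pow_succ]; field_simp) (by simpa using hline)
        (by
          intro j hj U 𝓢 hUQ hlinU h1 h2 h3
          by_contra hbad
          push Not at hbad
          obtain ⟨t, ht⟩ : ∃ t : ℝ, t = L₀ / 2 ^ (j + 1) := ⟨_, rfl⟩
          simp only [← ht] at hlinU h1
          have htA : N ^ (3 / 4 : ℝ) ≤ t := by rw [ht]; exact htJ (j + 1) hj
          have ht1 : 1 ≤ t := le_trans hA1 htA
          have hl1 : 1 ≤ ⌈t⌉₊ := Nat.one_le_iff_ne_zero.2 (by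
            intro h
            rw [Nat.ceil_eq_zero] at h
            linarith)
          have hl2 : (⌈t⌉₊ : ℝ) ≤ 2 * t := by
            have := Nat.ceil_lt_add_one (show (0 : ℝ) ≤ t by linarith)
            linarith
          have hl3 : t ≤ (⌈t⌉₊ : ℝ) := Nat.le_ceil _
          have hUN : (U.card : ℝ) ≤ N := by
            rw [hN]
            exact_mod_cast Finset.card_le_card hUQ
          have h34 : U.card ^ 3 ≤ ⌈t⌉₊ ^ 4 := by
            have : ((U.card : ℝ)) ^ 3 ≤ (⌈t⌉₊ : ℝ) ^ 4 := by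
              calc ((U.card : ℝ)) ^ 3 ≤ N ^ 3 := pow_le_pow_left₀ (by positivity) hUN 3
                _ = (N ^ (3 / 4 : ℝ)) ^ 4 := by
                    rw [← Real.rpow_natCast (N ^ (3 / 4 : ℝ)) 4, ← Real.rpow_mul hN0.le,
                      ← Real.rpow_natCast N 3]
                    norm_num
                _ ≤ (⌈t⌉₊ : ℝ) ^ 4 := pow_le_pow_left₀ (by positivity) (le_trans htA hl3) 4
            exact_mod_cast this
          have hrj : (1 / 2 : ℝ) ^ (j + 1) ≤ r ^ (j + 1) :=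
            pow_le_pow_left₀ (by norm_num) hr0 _
          have ht2 : t = L₀ * (1 / 2 : ℝ) ^ (j + 1) := by
            rw [ht, one_div, inv_pow]
            rfl
          have hsize : 4 * k ^ k * (2 * ⌈t⌉₊) ≤ U.card := by
            have : ((4 * k ^ k * (2 * ⌈t⌉₊) : ℕ) : ℝ) ≤ U.card := by
              push_cast
              calc 4 * (k : ℝ) ^ k * (2 * (⌈t⌉₊ : ℝ)) ≤ 4 * (k : ℝ) ^ k * (2 * (2 * t)) := by
                    apply mul_le_mul_of_nonneg_left _ (by positivity)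
                    linarith
                _ = (16 * (k : ℝ) ^ k * L₀) * (1 / 2 : ℝ) ^ (j + 1) := by rw [ht2]; ring
                _ ≤ (ck * N) * r ^ (j + 1) :=
                    mul_le_mul hbig hrj (by positivity) (by positivity)
                _ ≤ U.card := hbad.le
            exact_mod_cast this
          have key := hS'' U ⌈t⌉₊ 𝓢 (hinj.mono (by exact_mod_cast hUQ)) hlinU hl1 h34 h1 h2 h3
            hsize
          have hpc : (planeClasses k U : ℝ) ≤ planeClasses k Q := by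
            exact_mod_cast planeClasses_mono' hUQ
          have hUk : ck ^ k * N ^ k * (1 / 2 : ℝ) ^ (j + 1) < (U.card : ℝ) ^ k := by
            have h5 : (ck * N * r ^ (j + 1)) ^ k = ck ^ k * N ^ k * (1 / 2 : ℝ) ^ (j + 1) := by
              rw [mul_pow, mul_pow, ← pow_mul, mul_comm (j + 1) k, pow_mul, hrk]
            rw [← h5]
            exact pow_lt_pow_left₀ hbad (by positivity) (by omega)
          have h6 : cS * (ck ^ k * N ^ k * (1 / 2 : ℝ) ^ (j + 1)) <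
              (2 * t) ^ 2 * (cS * ck ^ k / 4 * N ^ e) := by
            calc cS * (ck ^ k * N ^ k * (1 / 2 : ℝ) ^ (j + 1)) < cS * (U.card : ℝ) ^ k :=
                  mul_lt_mul_of_pos_left hUk hcS
              _ ≤ (⌈t⌉₊ : ℝ) ^ 2 * planeClasses k U := key
              _ ≤ (2 * t) ^ 2 * (cS * ck ^ k / 4 * N ^ e) := by
                  apply mul_le_mul (pow_le_pow_left₀ (by positivity) hl2 2) _ (by positivity)
                    (by positivity)
                  refine le_trans hpc (le_trans hcon.le ?_)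
                  exact mul_le_mul_of_nonneg_right hc2 (by positivity)
          have h7 : (2 * t) ^ 2 * (cS * ck ^ k / 4 * N ^ e) =
              cS * ck ^ k * N ^ k * ((1 / 2 : ℝ) ^ (j + 1)) ^ 2 := by
            rw [hNL, ht2]
            ring
          rw [h7] at h6
          have h8 : ((1 / 2 : ℝ) ^ (j + 1)) ^ 2 ≤ (1 / 2 : ℝ) ^ (j + 1) := by
            have h9 : (1 / 2 : ℝ) ^ (j + 1) ≤ 1 := pow_le_one₀ (by norm_num) (by norm_num)
            have h10 : (0 : ℝ) < (1 / 2 : ℝ) ^ (j + 1) := by positivity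
            nlinarith
          have h11 : cS * ck ^ k * N ^ k * ((1 / 2 : ℝ) ^ (j + 1)) ^ 2 ≤
              cS * (ck ^ k * N ^ k * (1 / 2 : ℝ) ^ (j + 1)) := by
            calc _ ≤ cS * ck ^ k * N ^ k * (1 / 2 : ℝ) ^ (j + 1) :=
                  mul_le_mul_of_nonneg_left h8 (by positivity)
              _ = _ := by ring
          linarith) J le_rfl
      have hsum : ∑ j ∈ Finset.range J, ck * N * r ^ (j + 1) ≤ N / 2 := by
        have h1 : ∑ j ∈ Finset.range J, ck * N * r ^ (j + 1) =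
            ck * N * r * ∑ j ∈ Finset.range J, r ^ j := by
          rw [Finset.mul_sum]
          apply Finset.sum_congr rfl
          intro j _
          rw [pow_succ]
          ring
        have h2 : (1 - r) * ∑ j ∈ Finset.range J, r ^ j ≤ 1 := by
          have := mul_neg_geom_sum r J
          rw [this]
          have : 0 ≤ r ^ J := by positivity
          linarith
        rw [h1, hck]
        have h3 : (1 - r) / 2 * N * r * ∑ j ∈ Finset.range J, r ^ j =
            (N * r / 2) * ((1 - r) * ∑ j ∈ Finset.range J, r ^ j) := by ring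
        rw [h3]
        calc (N * r / 2) * ((1 - r) * ∑ j ∈ Finset.range J, r ^ j) ≤ (N * r / 2) * 1 :=
              mul_le_mul_of_nonneg_left h2 (by positivity)
          _ ≤ N / 2 := by nlinarith
      have hRhalf : N / 2 ≤ (R.card : ℝ) := by
        rw [← hN] at hRcard
        linarith
      have hRsize : (16 * k ^ k) ^ 4 ≤ R.card := by
        have h1 : 2 * (16 * k ^ k) ^ 4 ≤ Q.card :=
          le_trans (by rw [hn₀]; exact le_max_right _ _) hlarge
        have h2 : ((2 * (16 * k ^ k) ^ 4 : ℕ) : ℝ) ≤ N := by rw [hN]; exact_mod_cast h1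
        have h3 : (((16 * k ^ k) ^ 4 : ℕ) : ℝ) ≤ R.card := by
          push_cast at h2 ⊢
          linarith
        exact_mod_cast h3
      have hR1 : 1 ≤ R.card := by
        have : (0 : ℝ) < R.card := by linarith
        exact_mod_cast this
      have hRlin' : ∀ L, ((lineP R L).card : ℝ) ≤ 4 * (R.card : ℝ) ^ (3 / 4 : ℝ) := by
        intro L
        have h1 := hRlin L
        have h2 : L₀ / 2 ^ J = 2 * (L₀ / 2 ^ (J + 1)) := by rw [pow_succ]; field_simp
        have h3 : N ^ (3 / 4 : ℝ) ≤ 2 * (R.card : ℝ) ^ (3 / 4 : ℝ) := by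
          have h4 : N ≤ 2 * (R.card : ℝ) := by linarith
          calc N ^ (3 / 4 : ℝ) ≤ (2 * (R.card : ℝ)) ^ (3 / 4 : ℝ) :=
                Real.rpow_le_rpow hN0.le h4 (by norm_num)
            _ = 2 ^ (3 / 4 : ℝ) * (R.card : ℝ) ^ (3 / 4 : ℝ) :=
                Real.mul_rpow (by norm_num) (by positivity)
            _ ≤ 2 * (R.card : ℝ) ^ (3 / 4 : ℝ) := by
                apply mul_le_mul_of_nonneg_right _ (by positivity)
                calc (2 : ℝ) ^ (3 / 4 : ℝ) ≤ 2 ^ (1 : ℝ) :=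
                      Real.rpow_le_rpow_of_exponent_le (by norm_num) (by norm_num)
                  _ = 2 := by norm_num
        rw [h2] at h1
        linarith
      have key := hU'' R (hinj.mono (by exact_mod_cast hRQ)) hRlin' hRsize hR1
      have hpc : (planeClasses k R : ℝ) ≤ planeClasses k Q := by
        exact_mod_cast planeClasses_mono' hRQ
      have hexp : 0 ≤ (k : ℝ) - 2 + δ := by linarith
      have h1 : N ^ e ≤ 2 ^ ((k : ℝ) - 2 + δ) * (R.card : ℝ) ^ ((k : ℝ) - 2 + δ) := by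
        calc N ^ e ≤ N ^ ((k : ℝ) - 2 + δ) := Real.rpow_le_rpow_of_exponent_le hN1 he2
          _ ≤ (2 * (R.card : ℝ)) ^ ((k : ℝ) - 2 + δ) :=
              Real.rpow_le_rpow hN0.le (by linarith) hexp
          _ = _ := Real.mul_rpow (by norm_num) (by positivity)
      have h2 : c * N ^ e ≤ cU * (R.card : ℝ) ^ ((k : ℝ) - 2 + δ) := by
        calc c * N ^ e ≤ (cU / 2 ^ ((k : ℝ) - 2 + δ)) *
              (2 ^ ((k : ℝ) - 2 + δ) * (R.card : ℝ) ^ ((k : ℝ) - 2 + δ)) :=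
              mul_le_mul hc3 h1 (by positivity) (by positivity)
          _ = _ := by
              rw [← mul_assoc, div_mul_cancel₀]
              positivity
      linarith

end Pool.Agent.Lib.MP_b430f2_co.Plane
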