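import Mathlib
import Pool.Agent.Lib.MP_b430f2_co.Plane.CoreStmt
import Pool.Agent.Lib.MP_b430f2_co.Plane.Rich

/-! The arithmetic of the unstructured case. -/

namespace Pool.Agent.Lib.MP_b430f2_co.Plane

open Finset

/-- Raising the exponent. -/
theorem raise_exp {u n N K M : ℝ} {a b : ℕ} (hu : 0 ≤ u) (hun : u ≤ n) (hK : 0 ≤ K) (hM : 0 ≤ M)
    (hab : a ≤ b) (h : u ^ a * N ≤ K * n ^ a * M) : u ^ b * N ≤ K * n ^ b * M := by
  obtain ⟨c, rfl⟩ := Nat.exists_eq_add_of_le hab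
  have hn : 0 ≤ n := hu.trans hun
  have h1 : u ^ c ≤ n ^ c := pow_le_pow_left₀ hu hun c
  calc u ^ (a + c) * N = u ^ c * (u ^ a * N) := by ring
    _ ≤ u ^ c * (K * n ^ a * M) := mul_le_mul_of_nonneg_left h (pow_nonneg hu c)
    _ ≤ n ^ c * (K * n ^ a * M) := mul_le_mul_of_nonneg_right h1 (by positivity)
    _ = K * n ^ (a + c) * M := by ring

/-- `l ^ 4 ≤ 256 n ^ 3` for `l = ⌊4 n ^ (3 / 4)⌋`. -/
theorem floor_pow_four (n : ℕ) : (⌊4 * (n : ℝ) ^ (3 / 4 : ℝ)⌋₊) ^ 4 ≤ 256 * n ^ 3 := by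
  have h0 : (0 : ℝ) ≤ 4 * (n : ℝ) ^ (3 / 4 : ℝ) := by positivity
  have h1 : ((⌊4 * (n : ℝ) ^ (3 / 4 : ℝ)⌋₊ : ℕ) : ℝ) ≤ 4 * (n : ℝ) ^ (3 / 4 : ℝ) :=
    Nat.floor_le h0
  have h2 : (((⌊4 * (n : ℝ) ^ (3 / 4 : ℝ)⌋₊ : ℕ) : ℝ)) ^ 4 ≤ (4 * (n : ℝ) ^ (3 / 4 : ℝ)) ^ 4 :=
    pow_le_pow_left₀ (by positivity) h1 4
  have h3 : (4 * (n : ℝ) ^ (3 / 4 : ℝ)) ^ 4 = 256 * (n : ℝ) ^ 3 := by
    rw [mul_pow, ← Real.rpow_natCast ((n : ℝ) ^ (3 / 4 : ℝ)) 4, ← Real.rpow_mul (by positivity)]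
    norm_num
  rw [h3] at h2
  exact_mod_cast h2

/-- (a) -/
theorem ineq_a {n l u h : ℕ} (h1 : 1 ≤ h) (hn : 4 ^ (400 * h) ≤ n) (hl : l ^ 4 ≤ 256 * n ^ 3)
    (hu : n ≤ u * 4 ^ h) : 4 * 4 ^ h * l ≤ u := by
  have h2 : 4 ^ (8 + 8 * h) ≤ n := le_trans (Nat.pow_le_pow_right (by norm_num) (by omega)) hn
  have h3 : (4 * 4 ^ (2 * h) * l) ^ 4 ≤ n ^ 4 := by
    calc (4 * 4 ^ (2 * h) * l) ^ 4 = 4 ^ (4 + 8 * h) * l ^ 4 := by
          rw [mul_pow, mul_pow, ← pow_mul, pow_add]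
          ring
      _ ≤ 4 ^ (4 + 8 * h) * (256 * n ^ 3) := Nat.mul_le_mul_left _ hl
      _ = 4 ^ (8 + 8 * h) * n ^ 3 := by
          rw [show 8 + 8 * h = (4 + 8 * h) + 4 by ring, pow_add 4 (4 + 8 * h) 4]
          ring
      _ ≤ n * n ^ 3 := Nat.mul_le_mul_right _ h2
      _ = n ^ 4 := by ring
  have h4 : 4 * 4 ^ (2 * h) * l ≤ n := (Nat.pow_le_pow_iff_left (by norm_num)).1 h3
  have h5 : (4 * 4 ^ h * l) * 4 ^ h ≤ u * 4 ^ h := by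
    calc (4 * 4 ^ h * l) * 4 ^ h = 4 * 4 ^ (2 * h) * l := by rw [two_mul, pow_add]; ring
      _ ≤ n := h4
      _ ≤ u * 4 ^ h := hu
  exact Nat.le_of_mul_le_mul_right h5 (by positivity)

/-- (c) -/
theorem ineq_c {n l u h : ℕ} (h1 : 1 ≤ h) (hn : 4 ^ (400 * h) ≤ n) (hl : l ^ 4 ≤ 256 * n ^ 3)
    (hu : n ≤ u * 4 ^ h) :
    8 * 13 ^ h * (4 ^ (40 * h) * n + (8 * 3 ^ (40 * h) * n ^ 2 + 16 ^ (40 * h) * l ^ 2)) ≤
      4 ^ (40 * h) * u ^ 2 := by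
  have hu2 : n ^ 2 ≤ u ^ 2 * 16 ^ h := by
    calc n ^ 2 ≤ (u * 4 ^ h) ^ 2 := Nat.pow_le_pow_left hu 2
      _ = u ^ 2 * 16 ^ h := by rw [mul_pow, ← pow_mul, mul_comm h 2, pow_mul]; norm_num
  have e208 : (208 : ℕ) ^ h = 13 ^ h * 16 ^ h := by rw [← mul_pow]; norm_num
  have h208 : (208 : ℕ) ^ h ≤ 4 ^ (4 * h) := by
    rw [pow_mul]
    exact Nat.pow_le_pow_left (by norm_num) h
  have t1 : 24 * 208 ^ h ≤ n := by
    calc 24 * 208 ^ h ≤ 4 ^ 3 * 4 ^ (4 * h) := Nat.mul_le_mul (by norm_num) h208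
      _ = 4 ^ (3 + 4 * h) := by rw [pow_add]
      _ ≤ 4 ^ (400 * h) := Nat.pow_le_pow_right (by norm_num) (by omega)
      _ ≤ n := hn
  have t2 : 192 * (208 * 3 ^ 40) ^ h ≤ (4 ^ 40) ^ h := by
    obtain ⟨k, rfl⟩ := Nat.exists_eq_add_of_le h1
    have : 192 * (208 * 3 ^ 40) ≤ 4 ^ 40 := by norm_num
    have h' : (208 * 3 ^ 40) ^ k ≤ (4 ^ 40) ^ k := Nat.pow_le_pow_left (by norm_num) k
    calc 192 * (208 * 3 ^ 40) ^ (1 + k) = (192 * (208 * 3 ^ 40)) * (208 * 3 ^ 40) ^ k := by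
          rw [pow_add, pow_one, ← mul_assoc]
      _ ≤ 4 ^ 40 * (4 ^ 40) ^ k := Nat.mul_le_mul this h'
      _ = (4 ^ 40) ^ (1 + k) := by rw [pow_add, pow_one]
  have t2' : 192 * 208 ^ h * 3 ^ (40 * h) ≤ 4 ^ (40 * h) := by
    rw [pow_mul, pow_mul, mul_assoc, ← mul_pow]
    exact t2
  have t3 : 24 * 208 ^ h * 4 ^ (40 * h) * l ^ 2 ≤ n ^ 2 := by
    refine (Nat.pow_le_pow_iff_left (n := 2) (by norm_num)).1 ?_
    calc (24 * 208 ^ h * 4 ^ (40 * h) * l ^ 2) ^ 2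
        = 576 * (208 ^ h) ^ 2 * (4 ^ (40 * h)) ^ 2 * l ^ 4 := by ring
      _ ≤ 576 * (4 ^ (4 * h)) ^ 2 * (4 ^ (40 * h)) ^ 2 * (256 * n ^ 3) :=
          Nat.mul_le_mul (Nat.mul_le_mul_right _ (Nat.mul_le_mul_left _
            (Nat.pow_le_pow_left h208 2))) hl
      _ = 147456 * (4 ^ (4 * h)) ^ 2 * (4 ^ (40 * h)) ^ 2 * n ^ 3 := by ring
      _ ≤ 4 ^ 9 * (4 ^ (4 * h)) ^ 2 * (4 ^ (40 * h)) ^ 2 * n ^ 3 := by
          refine Nat.mul_le_mul_right _ (Nat.mul_le_mul_right _ (Nat.mul_le_mul_right _ ?_))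
          norm_num
      _ = 4 ^ (9 + 88 * h) * n ^ 3 := by
          rw [← pow_mul, ← pow_mul, ← pow_add, ← pow_add]
          congr 2
          ring
      _ ≤ 4 ^ (400 * h) * n ^ 3 :=
          Nat.mul_le_mul_right _ (Nat.pow_le_pow_right (by norm_num) (by omega))
      _ ≤ n * n ^ 3 := Nat.mul_le_mul_right _ hn
      _ = (n ^ 2) ^ 2 := by ring
  have e16 : (16 : ℕ) ^ (40 * h) = 4 ^ (40 * h) * 4 ^ (40 * h) := by
    rw [← mul_pow]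
    norm_num
  set A := (4 : ℕ) ^ (40 * h) with hA
  set B := (3 : ℕ) ^ (40 * h) with hB
  set D := (208 : ℕ) ^ h with hD
  have key : 3 * (16 ^ h * (8 * 13 ^ h * (A * n + (8 * B * n ^ 2 + 16 ^ (40 * h) * l ^ 2)))) ≤
      3 * (A * (u ^ 2 * 16 ^ h)) := by
    calc 3 * (16 ^ h * (8 * 13 ^ h * (A * n + (8 * B * n ^ 2 + 16 ^ (40 * h) * l ^ 2))))
        = A * n * (24 * D) + (192 * D * B) * n ^ 2 + A * (24 * D * A * l ^ 2) := by
          rw [e16, e208]; ring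
      _ ≤ A * n * n + A * n ^ 2 + A * n ^ 2 := by
          refine Nat.add_le_add (Nat.add_le_add (Nat.mul_le_mul_left _ t1)
            (Nat.mul_le_mul_right _ t2')) (Nat.mul_le_mul_left _ t3)
      _ = 3 * (A * n ^ 2) := by ring
      _ ≤ 3 * (A * (u ^ 2 * 16 ^ h)) := by gcongr
  have key' : 16 ^ h * (8 * 13 ^ h * (A * n + (8 * B * n ^ 2 + 16 ^ (40 * h) * l ^ 2))) ≤
      16 ^ h * (A * u ^ 2) := by
    have := Nat.le_of_mul_le_mul_left key (by norm_num)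
    calc _ ≤ A * (u ^ 2 * 16 ^ h) := this
      _ = 16 ^ h * (A * u ^ 2) := by ring
  exact Nat.le_of_mul_le_mul_left key' (by positivity)

/-- (d) -/
theorem ineq_d {n l u h : ℕ} (h1 : 1 ≤ h) (hn : 4 ^ (400 * h) ≤ n) (hl : l ^ 4 ≤ 256 * n ^ 3)
    (hu : n ≤ u * 4 ^ h) : 32 * l * (2 * n) ≤ u ^ 2 := by
  have h2 : 4 ^ (16 + 8 * h) ≤ n := le_trans (Nat.pow_le_pow_right (by norm_num) (by omega)) hn
  have h3 : (32 * l * (2 * n) * 4 ^ (2 * h)) ^ 4 ≤ (n ^ 2) ^ 4 := by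
    calc (32 * l * (2 * n) * 4 ^ (2 * h)) ^ 4 = 4 ^ 12 * (4 ^ (2 * h)) ^ 4 * n ^ 4 * l ^ 4 := by ring
      _ ≤ 4 ^ 12 * (4 ^ (2 * h)) ^ 4 * n ^ 4 * (256 * n ^ 3) := Nat.mul_le_mul_left _ hl
      _ = 4 ^ 12 * 4 ^ 4 * (4 ^ (2 * h)) ^ 4 * n ^ 7 := by ring
      _ = 4 ^ (16 + 8 * h) * n ^ 7 := by
          rw [← pow_mul, ← pow_add, ← pow_add]
          congr 2
          ring
      _ ≤ n * n ^ 7 := Nat.mul_le_mul_right _ h2
      _ = (n ^ 2) ^ 4 := by ring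
  have h4 : 32 * l * (2 * n) * 4 ^ (2 * h) ≤ n ^ 2 := (Nat.pow_le_pow_iff_left (by norm_num)).1 h3
  have h5 : 32 * l * (2 * n) * 4 ^ (2 * h) ≤ u ^ 2 * 4 ^ (2 * h) := by
    calc _ ≤ n ^ 2 := h4
      _ ≤ (u * 4 ^ h) ^ 2 := Nat.pow_le_pow_left hu 2
      _ = u ^ 2 * 4 ^ (2 * h) := by rw [mul_pow, ← pow_mul, mul_comm h 2]
  exact Nat.le_of_mul_le_mul_right h5 (by positivity)

theorem rpow_inv_le {n x : ℝ} {k : ℕ} (hk : k ≠ 0) (hn : 0 ≤ n) (hx : 0 ≤ x) (h : n ≤ x ^ k) :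
    n ^ ((k : ℝ)⁻¹) ≤ x :=
  (Real.rpow_le_rpow hn h (by positivity)).trans_eq (Real.pow_rpow_inv_natCast hx hk)

/-- `4 ^ (1 / 10) ≤ 16 / 13`, so `n ^ (1 / 4000)` is at most `(16 / 13) ^ (h + 1)`. -/
theorem exists_delta : ∃ δ : ℝ, 0 < δ ∧ δ ≤ 1 / 100 ∧ ∀ n h : ℕ, n < 4 ^ (400 * (h + 1)) →
    (n : ℝ) ^ δ ≤ (16 / 13 : ℝ) ^ (h + 1) := by
  obtain ⟨k, hk⟩ : ∃ k : ℕ, k = 400 := ⟨_, rfl⟩
  refine ⟨((10 * k : ℕ) : ℝ)⁻¹, ?_, ?_, ?_⟩
  · rw [hk]; norm_num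
  · rw [hk]; norm_num
  intro n h hn
  rw [← hk] at hn
  refine rpow_inv_le (by omega) (by positivity) (by positivity) ?_
  have h1 : (n : ℝ) ≤ (4 : ℝ) ^ (k * (h + 1)) := by exact_mod_cast hn.le
  refine h1.trans ?_
  have h4 : (4 : ℝ) ≤ (16 / 13 : ℝ) ^ 10 := by norm_num
  have e : (h + 1) * (10 * k) = 10 * (k * (h + 1)) := by ring
  rw [← pow_mul, e, pow_mul (16 / 13 : ℝ) 10]
  exact pow_le_pow_left₀ (by norm_num) h4 _

/-- Consequences of `n ≤ 4 ^ 400 * (n / u) ^ 400`. -/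
theorem trivial_case {n u N h k K : ℕ} (hK : K = (4 ^ k) ^ 6) (hun : u ≤ n) (hN6 : N ≤ n ^ 6)
    (hlt : n < 4 ^ (k * (h + 1))) (hA : h = 0 ∨ u * 4 ^ h < n) :
    u ^ (k * 6) * N ≤ K * n ^ (k * 6) := by
  have h1 : u ^ k * n ≤ 4 ^ k * n ^ k := by
    rcases hA with h0 | hA
    · rw [h0, Nat.zero_add, Nat.mul_one] at hlt
      calc u ^ k * n ≤ n ^ k * 4 ^ k :=
            Nat.mul_le_mul (Nat.pow_le_pow_left hun _) hlt.le
        _ = 4 ^ k * n ^ k := Nat.mul_comm _ _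
    · calc u ^ k * n ≤ u ^ k * 4 ^ (k * (h + 1)) := Nat.mul_le_mul_left _ hlt.le
        _ = 4 ^ k * (u * 4 ^ h) ^ k := by
            rw [mul_pow, ← pow_mul, show k * (h + 1) = h * k + k by ring, pow_add]
            ring
        _ ≤ 4 ^ k * n ^ k := Nat.mul_le_mul_left _ (Nat.pow_le_pow_left hA.le _)
  calc u ^ (k * 6) * N ≤ u ^ (k * 6) * n ^ 6 := Nat.mul_le_mul_left _ hN6
    _ = (u ^ k * n) ^ 6 := by rw [mul_pow, ← pow_mul]
    _ ≤ (4 ^ k * n ^ k) ^ 6 := Nat.pow_le_pow_left h1 6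
    _ = K * n ^ (k * 6) := by rw [mul_pow, ← pow_mul n, hK]

/-- M6 from its combinatorial core. -/
theorem unstr_of_core (hHom : HomStmt) (hcore : CoreStmt) : UnstrStmt := by
  obtain ⟨C', D, hHom⟩ := hHom
  obtain ⟨δ, hδ0, hδ1, hδ⟩ := exists_delta
  obtain ⟨k, hk⟩ : ∃ k : ℕ, k = 400 := ⟨_, rfl⟩
  obtain ⟨K, hK⟩ : ∃ K : ℕ, K = (4 ^ k) ^ 6 := ⟨_, rfl⟩
  refine ⟨K + 64 + 4096 * C' * 4 ^ D, k * 6 + 6 + 2 * D, δ, hδ0, ?_⟩
  intro P hP hline u hu 𝓣 h𝓣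
  set n := P.card with hn
  set N := 𝓣.card with hN
  -- trivial cases
  rcases 𝓣.eq_empty_or_nonempty with h0 | ⟨T₀, hT₀⟩
  · rw [hN, h0, Finset.card_empty, Nat.cast_zero, mul_zero]
    positivity
  have hun : u ≤ n := by
    classical
    refine le_trans (h𝓣 T₀ hT₀ (0, 0)) ?_
    refine le_trans (Finset.card_le_card (Finset.filter_subset _ _)) ?_
    exact Finset.card_le_card (Finset.filter_subset _ _)
  have hn1 : 1 ≤ n := le_trans hu hun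
  have hn1' : (1 : ℝ) ≤ n := by exact_mod_cast hn1
  have hun' : (u : ℝ) ≤ n := by exact_mod_cast hun
  have hN6 : N ≤ n ^ 6 := card_le_pow_six hP hu h𝓣
  have hM1 : (1 : ℝ) ≤ (n : ℝ) ^ (2 - δ : ℝ) := Real.one_le_rpow hn1' (by linarith)
  have hMn : (n : ℝ) ^ 2 = (n : ℝ) ^ (2 - δ : ℝ) * (n : ℝ) ^ δ := by
    rw [← Real.rpow_add (by linarith), sub_add_cancel, ← Real.rpow_natCast]
    norm_num
  have hM3 : (n : ℝ) ^ (82 / 400 + (1 + 3 / 4) : ℝ) ≤ (n : ℝ) ^ (2 - δ : ℝ) := by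
    refine Real.rpow_le_rpow_of_exponent_le hn1' ?_
    linarith
  generalize (n : ℝ) ^ (2 - δ : ℝ) = M at hM1 hMn hM3 ⊢
  have hM0 : 0 ≤ M := by linarith
  -- it suffices to prove one of three estimates
  suffices key : (u : ℝ) ^ (k * 6) * N ≤ K * n ^ (k * 6) * M ∨
      (u : ℝ) ^ 4 * N ≤ 64 * n ^ 4 * M ∨
      (u : ℝ) ^ (6 + 2 * D) * N ≤ (4096 * C' * 4 ^ D) * n ^ (6 + 2 * D) * M by
    have hfin : ∀ (K₁ : ℝ) (a : ℕ), 0 ≤ K₁ → K₁ ≤ ((K + 64 + 4096 * C' * 4 ^ D : ℕ) : ℝ) →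
        a ≤ k * 6 + 6 + 2 * D → (u : ℝ) ^ a * N ≤ K₁ * n ^ a * M →
        (u : ℝ) ^ (k * 6 + 6 + 2 * D) * N ≤
          ((K + 64 + 4096 * C' * 4 ^ D : ℕ) : ℝ) * n ^ (k * 6 + 6 + 2 * D) * M := by
      intro K₁ a hK hK' ha h
      refine (raise_exp (by positivity) hun' hK hM0 ha h).trans ?_
      gcongr
    rcases key with h | h | h
    · refine hfin K (k * 6) (by positivity) ?_ (by omega) h
      push_cast
      have : (0 : ℝ) ≤ 4096 * C' * 4 ^ D := by positivity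
      linarith
    · refine hfin 64 4 (by positivity) ?_ (by omega) h
      push_cast
      have : (0 : ℝ) ≤ K + 4096 * C' * 4 ^ D := by positivity
      linarith
    · refine hfin (4096 * C' * 4 ^ D) (6 + 2 * D) (by positivity) ?_ (by omega) h
      push_cast
      have : (0 : ℝ) ≤ K := by positivity
      linarith
  obtain ⟨h, hle, hlt⟩ : ∃ h : ℕ, 4 ^ (k * h) ≤ n ∧ n < 4 ^ (k * (h + 1)) := by
    refine ⟨Nat.log (4 ^ k) n, ?_, ?_⟩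
    · have := Nat.pow_log_le_self (4 ^ k) (x := n) (by omega)
      rwa [← pow_mul] at this
    · have := Nat.lt_pow_succ_log_self (b := 4 ^ k) (Nat.one_lt_pow (by omega) (by norm_num)) n
      rwa [← pow_mul] at this
  by_cases hA : h = 0 ∨ u * 4 ^ h < n
  · left
    have h2 := trivial_case hK hun hN6 hlt hA
    have h3 : (u : ℝ) ^ (k * 6) * N ≤ K * n ^ (k * 6) := by exact_mod_cast h2
    refine h3.trans ?_
    exact le_mul_of_one_le_right (by positivity) hM1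
  · push Not at hA
    obtain ⟨hh0, hA⟩ := hA
    have hh1 : 1 ≤ h := Nat.one_le_iff_ne_zero.2 hh0
    rw [hk] at hle hlt
    set l := ⌊4 * (n : ℝ) ^ (3 / 4 : ℝ)⌋₊ with hl
    have hl4 : l ^ 4 ≤ 256 * n ^ 3 := floor_pow_four n
    have hlR : (l : ℝ) ≤ 4 * (n : ℝ) ^ (3 / 4 : ℝ) := Nat.floor_le (by positivity)
    have hl1 : 1 ≤ l := by
      rw [hl, Nat.one_le_floor_iff]
      have : (1 : ℝ) ≤ (n : ℝ) ^ (3 / 4 : ℝ) := Real.one_le_rpow hn1' (by norm_num)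
      linarith
    have hlines : ∀ L, (lineP P L).card ≤ l := fun L => Nat.le_floor (hline L)
    obtain ⟨𝓗, h𝓗, hcase⟩ := hcore h P l u 𝓣 hP hlines hl1 hu h𝓣 (ineq_a hh1 hle hl4 hA)
      (ineq_c hh1 hle hl4 hA)
    right
    have hdelta := hδ n h hlt
    rcases hcase with hc | hc
    · left
      have h1 : (16 : ℝ) ^ h * (u : ℝ) ^ 4 * N ≤ 32 * 13 ^ h * (n : ℝ) ^ 6 := by exact_mod_cast hc
      have h2 : (u : ℝ) ^ 4 * N ≤ 32 * (13 / 16) ^ h * (n : ℝ) ^ 6 := by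
        rw [div_pow]
        have : (0 : ℝ) < 16 ^ h := by positivity
        rw [← mul_le_mul_iff_right₀ this]
        calc (16 : ℝ) ^ h * ((u : ℝ) ^ 4 * N) = (16 : ℝ) ^ h * (u : ℝ) ^ 4 * N := by ring
          _ ≤ 32 * 13 ^ h * (n : ℝ) ^ 6 := h1
          _ = 16 ^ h * (32 * (13 ^ h / 16 ^ h) * (n : ℝ) ^ 6) := by field_simp
      refine h2.trans ?_
      calc 32 * (13 / 16) ^ h * (n : ℝ) ^ 6
          = 32 * (13 / 16) ^ h * ((n : ℝ) ^ 4 * (n : ℝ) ^ 2) := by ring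
        _ = 32 * (13 / 16) ^ h * ((n : ℝ) ^ 4 * (M * (n : ℝ) ^ δ)) := by rw [hMn]
        _ ≤ 32 * (13 / 16) ^ h * ((n : ℝ) ^ 4 * (M * (16 / 13 : ℝ) ^ (h + 1))) := by gcongr
        _ = (32 * (16 / 13)) * ((13 / 16) ^ h * (16 / 13) ^ h) * (n : ℝ) ^ 4 * M := by ring
        _ = (32 * (16 / 13)) * (n : ℝ) ^ 4 * M := by
            rw [← mul_pow]
            norm_num
        _ ≤ 64 * (n : ℝ) ^ 4 * M := by gcongr; norm_num
    · right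
      set u' := u ^ 2 / (2 * n) with hu'
      have hd := ineq_d hh1 hle hl4 hA
      have h32 : 32 * l ≤ u' := (Nat.le_div_iff_mul_le (by omega)).2 hd
      have hu4 : u ^ 2 ≤ 4 * n * u' := by
        have h1 : u ^ 2 < 2 * n * (u' + 1) :=
          Nat.lt_mul_div_succ (u ^ 2) (show 0 < 2 * n by omega)
        have h2 : 1 ≤ u' := by omega
        calc u ^ 2 ≤ 2 * n * (u' + 1) := h1.le
          _ ≤ 2 * n * (u' + u') := Nat.mul_le_mul_left _ (by omega)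
          _ = 4 * n * u' := by ring
      have hH := hHom P l u' hP hlines hl1 h32 𝓗 h𝓗
      have h1 : u ^ (2 * D) * 𝓗.card ≤ C' * 4 ^ D * n ^ (2 * D) * (n * l) := by
        calc u ^ (2 * D) * 𝓗.card = (u ^ 2) ^ D * 𝓗.card := by rw [pow_mul]
          _ ≤ (4 * n * u') ^ D * 𝓗.card := Nat.mul_le_mul_right _ (Nat.pow_le_pow_left hu4 D)
          _ = 4 ^ D * n ^ D * (u' ^ D * 𝓗.card) := by rw [mul_pow, mul_pow]; ring
          _ ≤ 4 ^ D * n ^ D * (C' * n ^ D * (n * l)) := Nat.mul_le_mul_left _ hH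
          _ = C' * 4 ^ D * n ^ (2 * D) * (n * l) := by rw [two_mul, pow_add]; ring
      have h2 : 16 ^ h * u ^ (6 + 2 * D) * N ≤
          1024 * C' * 4 ^ D * (169 ^ h * 16 ^ (40 * h)) * n ^ (6 + 2 * D) * (n * l) := by
        calc 16 ^ h * u ^ (6 + 2 * D) * N = u ^ (2 * D) * (16 ^ h * u ^ 6 * N) := by
              rw [pow_add]; ring
          _ ≤ u ^ (2 * D) * (256 * 169 ^ h * n ^ 6 * (𝓗.card * (2 * 4 ^ (40 * h)) ^ 2)) :=
              Nat.mul_le_mul_left _ hc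
          _ = 256 * 169 ^ h * n ^ 6 * (2 * 4 ^ (40 * h)) ^ 2 * (u ^ (2 * D) * 𝓗.card) := by ring
          _ ≤ 256 * 169 ^ h * n ^ 6 * (2 * 4 ^ (40 * h)) ^ 2 *
                (C' * 4 ^ D * n ^ (2 * D) * (n * l)) := Nat.mul_le_mul_left _ h1
          _ = 1024 * C' * 4 ^ D * (169 ^ h * 16 ^ (40 * h)) * n ^ (6 + 2 * D) * (n * l) := by
              have e16 : (16 : ℕ) ^ (40 * h) = (4 ^ (40 * h)) ^ 2 := by
                rw [sq, ← mul_pow]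
                norm_num
              rw [e16, pow_add]
              ring
      have h3 : 169 ^ h * 16 ^ (40 * h) ≤ 16 ^ h * 4 ^ (82 * h) := by
        have e1 : (256 : ℕ) ^ h = 16 ^ h * 16 ^ h := by
          rw [← mul_pow]
          norm_num
        have e2 : (16 : ℕ) ^ h = 4 ^ (2 * h) := by
          rw [pow_mul]
          norm_num
        have e3 : (16 : ℕ) ^ (40 * h) = 4 ^ (80 * h) := by
          rw [show 80 * h = 2 * (40 * h) by ring, pow_mul 4 2]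
          norm_num
        calc 169 ^ h * 16 ^ (40 * h) ≤ 256 ^ h * 16 ^ (40 * h) :=
              Nat.mul_le_mul_right _ (Nat.pow_le_pow_left (by norm_num) h)
          _ = 16 ^ h * (4 ^ (2 * h) * 4 ^ (80 * h)) := by rw [e1, e3, ← e2]; ring
          _ = 16 ^ h * 4 ^ (82 * h) := by rw [← pow_add, show 2 * h + 80 * h = 82 * h by ring]
      have h4 : u ^ (6 + 2 * D) * N ≤
          1024 * C' * 4 ^ D * 4 ^ (82 * h) * n ^ (6 + 2 * D) * (n * l) := by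
        have h4' : 16 ^ h * (u ^ (6 + 2 * D) * N) ≤
            16 ^ h * (1024 * C' * 4 ^ D * 4 ^ (82 * h) * n ^ (6 + 2 * D) * (n * l)) := by
          calc 16 ^ h * (u ^ (6 + 2 * D) * N) = 16 ^ h * u ^ (6 + 2 * D) * N := by ring
            _ ≤ _ := h2
            _ ≤ 1024 * C' * 4 ^ D * (16 ^ h * 4 ^ (82 * h)) * n ^ (6 + 2 * D) * (n * l) :=
                Nat.mul_le_mul_right _ (Nat.mul_le_mul_right _ (Nat.mul_le_mul_left _ h3))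
            _ = _ := by ring
        exact Nat.le_of_mul_le_mul_left h4' (by positivity)
      have h5 : (u : ℝ) ^ (6 + 2 * D) * N ≤
          1024 * C' * 4 ^ D * 4 ^ (82 * h) * (n : ℝ) ^ (6 + 2 * D) * (n * l) := by
        exact_mod_cast h4
      have h6 : (4 : ℝ) ^ (82 * h) ≤ (n : ℝ) ^ (82 / 400 : ℝ) := by
        have : (4 : ℝ) ^ (400 * h) ≤ n := by exact_mod_cast hle
        calc (4 : ℝ) ^ (82 * h) = ((4 : ℝ) ^ (400 * h)) ^ (82 / 400 : ℝ) := by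
              rw [← Real.rpow_natCast, ← Real.rpow_natCast, ← Real.rpow_mul (by norm_num)]
              congr 1
              push_cast
              ring
          _ ≤ (n : ℝ) ^ (82 / 400 : ℝ) := Real.rpow_le_rpow (by positivity) this (by norm_num)
      clear h2 h3 h4 hc hd hlt hle hdelta
      generalize (4 : ℝ) ^ (82 * h) = E at h5 h6 ⊢
      have h7 : E * (n * l) ≤ 4 * M := by
        calc E * (n * l)
            ≤ (n : ℝ) ^ (82 / 400 : ℝ) * ((n : ℝ) * (4 * (n : ℝ) ^ (3 / 4 : ℝ))) := by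
              gcongr
          _ = 4 * (n : ℝ) ^ (82 / 400 + (1 + 3 / 4) : ℝ) := by
              rw [Real.rpow_add (by linarith), Real.rpow_add (by linarith), Real.rpow_one]
              ring
          _ ≤ 4 * M := by linarith
      calc (u : ℝ) ^ (6 + 2 * D) * N
          ≤ 1024 * C' * 4 ^ D * E * (n : ℝ) ^ (6 + 2 * D) * (n * l) := h5
        _ = 1024 * C' * 4 ^ D * (n : ℝ) ^ (6 + 2 * D) * (E * (n * l)) := by ring
        _ ≤ 1024 * C' * 4 ^ D * (n : ℝ) ^ (6 + 2 * D) * (4 * M) := by gcongr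
        _ = (4096 * C' * 4 ^ D) * n ^ (6 + 2 * D) * M := by ring

end Pool.Agent.Lib.MP_b430f2_co.Plane
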